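import Pool.Agent.P.MP_be5a37_co.Defs

set_option autoImplicit false

namespace Pool.Agent.P.MP_be5a37_co

open Finset

theorem convex_sign {ι : Type} [Fintype ι] [DecidableEq ι] (C : Set (ι → ℝ)) (hC : Convex ℝ C)
    (h : ∀ P : Finset ι, ∃ c ∈ C, ∀ e, (e ∈ P → c e ≤ 1) ∧ (e ∉ P → 1 ≤ c e)) :
    (fun _ => (1 : ℝ)) ∈ C := by
  choose c hc1 hc2 using h
  by_contra hn
  have hsub : convexHull ℝ (Set.range c) ⊆ C :=
    convexHull_min (by rintro _ ⟨P, rfl⟩; exact hc1 P) hC
  have hcl : IsClosed (convexHull ℝ (Set.range c)) :=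
    (Set.finite_range c).isClosed_convexHull ℝ
  obtain ⟨φ, u, h1, h2⟩ := geometric_hahn_banach_point_closed (convex_convexHull ℝ _) hcl
    (fun hx => hn (hsub hx))
  set y : ι → ℝ := fun e => φ (fun j => if e = j then 1 else 0) with hy
  have hφ : ∀ x : ι → ℝ, φ x = ∑ e, x e * y e := by
    intro x
    have := LinearMap.pi_apply_eq_sum_univ (φ : (ι → ℝ) →ₗ[ℝ] ℝ) x
    simpa [hy] using this
  have h3 := h2 (c (univ.filter fun e => 0 ≤ y e)) (subset_convexHull ℝ _ ⟨_, rfl⟩)
  rw [hφ] at h1 h3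
  have : ∑ e, c (univ.filter fun e => 0 ≤ y e) e * y e ≤ ∑ e, (1 : ℝ) * y e := by
    refine Finset.sum_le_sum fun e _ => ?_
    by_cases he : 0 ≤ y e
    · exact mul_le_mul_of_nonneg_right ((hc2 _ e).1 (by simpa using he)) he
    · exact mul_le_mul_of_nonpos_right ((hc2 _ e).2 (by simpa using he)) (le_of_not_ge he)
  linarith

section
variable {V : Type} [DecidableEq V]

theorem sum_superset (L A : Finset V) (hA : A ⊆ L) (F : Finset V → ℝ) :
    ∑ T ∈ L.powerset, (if A ⊆ T then F T else 0) = ∑ U ∈ (L \ A).powerset, F (A ∪ U) := by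
  rw [← Finset.sum_filter]
  symm
  refine Finset.sum_nbij' (fun U => A ∪ U) (fun T => T \ A) ?_ ?_ ?_ ?_ ?_
  · intro U hU
    simp only [mem_powerset, mem_filter] at hU ⊢
    exact ⟨union_subset hA (hU.trans sdiff_subset), subset_union_left⟩
  · intro T hT
    simp only [mem_powerset, mem_filter] at hT ⊢
    exact sdiff_subset_sdiff hT.1 le_rfl
  · intro U hU
    simp only [mem_powerset] at hU
    have : Disjoint A U := Finset.disjoint_of_subset_right hU disjoint_sdiff
    exact union_sdiff_cancel_left this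
  · intro T hT
    simp only [mem_powerset, mem_filter] at hT
    exact union_sdiff_of_subset hT.2
  · intro U _; rfl

theorem sum_prod_le_exp (Y : Finset V) (a : V → ℝ) (ha : ∀ u, 0 ≤ a u) :
    ∑ U ∈ Y.powerset, ∏ u ∈ U, a u ≤ Real.exp (∑ u ∈ Y, a u) := by
  rw [← Finset.prod_one_add]
  exact Real.prod_one_add_le_exp_sum Y ha

theorem sum_pow_card (Y : Finset V) (a : ℝ) :
    ∑ U ∈ Y.powerset, a ^ U.card = (1 + a) ^ Y.card := by
  have := Finset.prod_one_add (f := fun _ : V => a) Y
  simp only [prod_const] at this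
  exact this.symm

theorem sum_pow_card_le (Y : Finset V) (a : ℝ) (ha : 0 ≤ a) :
    ∑ U ∈ Y.powerset, a ^ U.card ≤ Real.exp (Y.card * a) := by
  have := sum_prod_le_exp Y (fun _ => a) (fun _ => ha)
  simpa using this

end

section
variable {V : Type} [Fintype V] [DecidableEq V]

theorem count_between (e S : Finset V) (h : e ⊆ S) (q : ℕ) (hq : e.card ≤ q) :
    ∑ K : Finset V, (if e ⊆ K ∧ K ⊆ S ∧ K.card = q then (1 : ℝ) else 0)
      = ((S.card - e.card).choose (q - e.card) : ℝ) := by
  have h1 : ∑ K : Finset V, (if e ⊆ K ∧ K ⊆ S ∧ K.card = q then (1 : ℝ) else 0)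
      = ∑ K ∈ S.powerset, (if e ⊆ K then (if K.card = q then (1 : ℝ) else 0) else 0) := by
    rw [← Finset.sum_subset (Finset.subset_univ S.powerset)]
    · refine Finset.sum_congr rfl fun K hK => ?_
      simp only [mem_powerset] at hK
      by_cases h1 : e ⊆ K <;> by_cases h2 : K.card = q <;> simp [h1, h2, hK]
    · intro K _ hK
      simp only [mem_powerset] at hK
      simp [hK]
  rw [h1, sum_superset S e h]
  have h2 : ∑ U ∈ (S \ e).powerset, (if (e ∪ U).card = q then (1 : ℝ) else 0)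
      = ∑ U ∈ (S \ e).powerset, (if U.card = q - e.card then (1 : ℝ) else 0) := by
    refine Finset.sum_congr rfl fun U hU => ?_
    simp only [mem_powerset] at hU
    have : Disjoint e U := Finset.disjoint_of_subset_right hU disjoint_sdiff
    rw [card_union_of_disjoint this]
    have : (e.card + U.card = q) ↔ (U.card = q - e.card) := by omega
    simp only [this]
  rw [h2, Finset.sum_boole, ← powersetCard_eq_filter, card_powersetCard, card_sdiff_of_subset h]

/-- Weights on cliques of size at least `q` give weights on cliques of size `q`. -/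
theorem downsize (q r : ℕ) (hrq : r ≤ q) (G : Finset (Finset V)) (hG : ∀ e ∈ G, e.card = r)
    (μ : Finset V → ℝ) (h0 : ∀ S, 0 ≤ μ S)
    (h1 : ∀ S, μ S ≠ 0 → q ≤ S.card ∧ ∀ e, e ⊆ S → e.card = r → e ∈ G)
    (h2 : ∀ e ∈ G, ∑ S : Finset V, (if e ⊆ S then μ S else 0) = 1) :
    ∃ w, IsFracDecomp q r G w := by
  refine ⟨fun K => ∑ S : Finset V,
    (if K ⊆ S ∧ K.card = q then μ S / ((S.card - r).choose (q - r) : ℝ) else 0), ?_, ?_, ?_⟩
  · intro K
    refine Finset.sum_nonneg fun S _ => ?_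
    split_ifs
    · exact div_nonneg (h0 S) (Nat.cast_nonneg _)
    · exact le_rfl
  · intro K hK
    obtain ⟨S, -, hS⟩ := Finset.exists_ne_zero_of_sum_ne_zero hK
    by_cases hc : K ⊆ S ∧ K.card = q
    · rw [if_pos hc] at hS
      have hμ : μ S ≠ 0 := fun h => hS (by simp [h])
      exact ⟨hc.2, fun e he hr => (h1 S hμ).2 e (he.trans hc.1) hr⟩
    · simp [hc] at hS
  · intro e he
    rw [Finset.sum_filter, ← h2 e he]
    have : ∀ K : Finset V, (if e ⊆ K then ∑ S : Finset V,
        (if K ⊆ S ∧ K.card = q then μ S / ((S.card - r).choose (q - r) : ℝ) else 0) else 0)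
        = ∑ S : Finset V, μ S / ((S.card - r).choose (q - r) : ℝ) *
          (if e ⊆ K ∧ K ⊆ S ∧ K.card = q then (1 : ℝ) else 0) := by
      intro K
      by_cases h : e ⊆ K
      · simp only [h, true_and, if_true]
        refine Finset.sum_congr rfl fun S _ => ?_
        split_ifs <;> simp
      · simp [h]
    simp only [this]
    rw [Finset.sum_comm]
    refine Finset.sum_congr rfl fun S _ => ?_
    rw [← Finset.mul_sum]
    by_cases h : e ⊆ S
    · rw [count_between e S h q (by rw [hG e he]; exact hrq), hG e he, if_pos h]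
      by_cases hμ : μ S = 0
      · simp [hμ]
      · have hq := (h1 S hμ).1
        have : 0 < (S.card - r).choose (q - r) := Nat.choose_pos (by omega)
        have : ((S.card - r).choose (q - r) : ℝ) ≠ 0 := by exact_mod_cast this.ne'
        field_simp
    · rw [if_neg h]
      have : ∀ K : Finset V, ¬ (e ⊆ K ∧ K ⊆ S ∧ K.card = q) :=
        fun K hK => h (hK.1.trans hK.2.1)
      simp [this]

/-- The sign-pattern criterion for a fractional decomposition. -/
theorem frac_of_signs (q r : ℕ) (hrq : r ≤ q) (G : Finset (Finset V)) (hG : ∀ e ∈ G, e.card = r)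
    (h : ∀ P : Finset (Finset V), ∃ (μ : Finset V → ℝ) (lam : ℝ), 0 < lam ∧ (∀ S, 0 ≤ μ S) ∧
      (∀ S, μ S ≠ 0 → q ≤ S.card ∧ ∀ e, e ⊆ S → e.card = r → e ∈ G) ∧
      ∀ e ∈ G, (e ∈ P → ∑ S : Finset V, (if e ⊆ S then μ S else 0) ≤ lam) ∧
        (e ∉ P → lam ≤ ∑ S : Finset V, (if e ⊆ S then μ S else 0))) :
    ∃ w, IsFracDecomp q r G w := by
  let C : Set ({e // e ∈ G} → ℝ) := {c | ∃ μ : Finset V → ℝ, (∀ S, 0 ≤ μ S) ∧
      (∀ S, μ S ≠ 0 → q ≤ S.card ∧ ∀ e, e ⊆ S → e.card = r → e ∈ G) ∧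
      ∀ e, c e = ∑ S : Finset V, (if e.1 ⊆ S then μ S else 0)}
  have hC : Convex ℝ C := by
    rintro c ⟨μ, a0, a1, a2⟩ d ⟨ν, b0, b1, b2⟩ s t hs ht -
    refine ⟨fun S => s * μ S + t * ν S, fun S => add_nonneg (mul_nonneg hs (a0 S))
      (mul_nonneg ht (b0 S)), ?_, ?_⟩
    · intro S hS
      by_cases hμ : μ S = 0
      · by_cases hν : ν S = 0
        · simp [hμ, hν] at hS
        · exact b1 S hν
      · exact a1 S hμ
    · intro e
      simp only [Pi.add_apply, Pi.smul_apply, smul_eq_mul, a2 e, b2 e, Finset.mul_sum,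
        ← Finset.sum_add_distrib]
      refine Finset.sum_congr rfl fun S _ => ?_
      split_ifs <;> simp
  have := convex_sign C hC (by
    intro P
    obtain ⟨μ, lam, hl, a0, a1, a2⟩ := h (P.image Subtype.val)
    refine ⟨fun e => ∑ S : Finset V, (if e.1 ⊆ S then μ S / lam else 0),
      ⟨fun S => μ S / lam, fun S => div_nonneg (a0 S) hl.le, ?_, fun e => rfl⟩, ?_⟩
    · intro S hS
      exact a1 S (fun h0 => hS (by simp [h0]))
    · intro e
      have e1 : ∑ S : Finset V, (if e.1 ⊆ S then μ S / lam else 0)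
          = (∑ S : Finset V, (if e.1 ⊆ S then μ S else 0)) / lam := by
        rw [Finset.sum_div]
        refine Finset.sum_congr rfl fun S _ => ?_
        split_ifs <;> simp
      have e2 : e.1 ∈ P.image Subtype.val ↔ e ∈ P := by
        constructor
        · intro he
          obtain ⟨a, ha, hae⟩ := Finset.mem_image.1 he
          rwa [← Subtype.ext hae]
        · intro he
          exact Finset.mem_image_of_mem _ he
      simp only [e1]
      refine ⟨fun he => ?_, fun he => ?_⟩
      · rw [div_le_one hl]; exact (a2 e.1 e.2).1 (e2.2 he)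
      · rw [one_le_div hl]; exact (a2 e.1 e.2).2 (fun h' => he (e2.1 h')))
  obtain ⟨μ, a0, a1, a2⟩ := this
  exact downsize q r hrq G hG μ a0 a1 (fun e he => (a2 ⟨e, he⟩).symm)

end

end Pool.Agent.P.MP_be5a37_co
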