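import Pool.Agent.P.MP_be5a37_co.Induct

set_option autoImplicit false
set_option linter.unusedSectionVars false

namespace Pool.Agent.P.MP_be5a37_co

open Finset

variable {V : Type} [Fintype V] [DecidableEq V]

theorem esym_le (Y : Finset V) (y : V → ℝ) (hy : ∀ u, 0 ≤ y u) (z : ℝ) (hz : 0 ≤ z) (j : ℕ) :
    z ^ j * ∑ T ∈ Y.powersetCard j, ∏ u ∈ T, y u ≤ Real.exp (z * ∑ u ∈ Y, y u) := by
  have h := sum_prod_le_exp Y (fun u => z * y u) (fun u => mul_nonneg hz (hy u))
  rw [← Finset.mul_sum] at h
  refine le_trans ?_ h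
  rw [Finset.mul_sum]
  calc _ = ∑ T ∈ Y.powersetCard j, ∏ u ∈ T, (z * y u) := by
        refine Finset.sum_congr rfl fun T hT => ?_
        rw [Finset.prod_mul_distrib, Finset.prod_const, (mem_powersetCard.1 hT).2]
    _ ≤ _ := by
        refine Finset.sum_le_sum_of_subset_of_nonneg ?_ ?_
        · intro T hT
          exact mem_powerset.2 (mem_powersetCard.1 hT).1
        · intro T _ _
          exact Finset.prod_nonneg fun u _ => mul_nonneg hz (hy u)

theorem sigma_bound (f : Finset V → ℝ) (h0 : ∀ a, 0 ≤ f a) (j : ℕ) (D x z : ℝ) (hD : 0 ≤ D)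
    (hx : 0 ≤ x) (hz : 0 ≤ z)
    (hco : ∀ T : Finset V, T.card = j + 1 → ∑ u : V, (if u ∉ T then f (insert u T) else 0) ≤ D)
    (A : Finset (Finset V)) (B : Finset V) (v : V) (hv : v ∈ B)
    (hA : ∀ a ∈ A, a.card = j + 2 ∧ v ∈ a ∧ ¬ a ⊆ B) :
    z ^ j * ∑ a ∈ A, f a * x ^ (a \ B).card ≤
      x * D * Real.exp (z * (B.card + Fintype.card V * x)) := by
  set W : Finset (Finset V × V) := ((univ : Finset V).powersetCard j ×ˢ (univ : Finset V)).filter
    (fun w => v ∉ w.1 ∧ w.2 ∉ w.1 ∧ w.2 ∉ B) with hW
  set g : Finset V × V → Finset V := fun w => insert w.2 (insert v w.1) with hg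
  set y : V → ℝ := fun u => if u ∈ B then 1 else x with hy
  have hy0 : ∀ u, 0 ≤ y u := by
    intro u; simp only [hy]; split_ifs
    · exact zero_le_one
    · exact hx
  have hprod : ∀ T : Finset V, x ^ (T \ B).card = ∏ u ∈ T, y u := by
    intro T
    simp only [hy]
    rw [Finset.prod_ite, Finset.prod_const_one, one_mul, Finset.prod_const, sdiff_eq_filter]
  have hsub : A ⊆ W.image g := by
    intro a ha
    obtain ⟨h1, h2, h3⟩ := hA a ha
    obtain ⟨u, hu1, hu2⟩ := Finset.not_subset.1 h3
    have huv : u ≠ v := fun h => hu2 (h ▸ hv)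
    refine mem_image.2 ⟨((a.erase u).erase v, u), ?_, ?_⟩
    · simp only [hW, mem_filter, mem_product, mem_powersetCard, subset_univ, true_and, mem_univ,
        and_true]
      refine ⟨?_, by simp, by simp, hu2⟩
      rw [card_erase_of_mem (mem_erase.2 ⟨huv.symm, h2⟩), card_erase_of_mem hu1]
      omega
    · simp only [hg]
      rw [insert_erase (mem_erase.2 ⟨huv.symm, h2⟩), insert_erase hu1]
  have hF : ∀ a : Finset V, 0 ≤ f a * x ^ (a \ B).card :=
    fun a => mul_nonneg (h0 a) (pow_nonneg hx _)
  have s1 : ∑ a ∈ A, f a * x ^ (a \ B).card ≤ ∑ w ∈ W, f (g w) * x ^ (g w \ B).card :=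
    (Finset.sum_le_sum_of_subset_of_nonneg hsub (fun a _ _ => hF a)).trans
      (Finset.sum_image_le_of_nonneg (fun a _ => hF a))
  have s2 : ∑ w ∈ W, f (g w) * x ^ (g w \ B).card ≤
      ∑ T ∈ (univ : Finset V).powersetCard j, x * D * ∏ u ∈ T, y u := by
    rw [hW, Finset.sum_filter, Finset.sum_product]
    refine Finset.sum_le_sum fun T hT => ?_
    have hT' := (mem_powersetCard.1 hT).2
    have hpos : 0 ≤ ∏ u ∈ T, y u := Finset.prod_nonneg fun u _ => hy0 u
    by_cases hvT : v ∈ T
    · simp only [hvT, not_true, false_and, if_false, sum_const_zero]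
      positivity
    · have h1 := hco (insert v T) (by rw [card_insert_of_notMem hvT, hT'])
      calc _ ≤ ∑ u : V, (x * ∏ u ∈ T, y u) *
              (if u ∉ insert v T then f (insert u (insert v T)) else 0) := by
            refine Finset.sum_le_sum fun u _ => ?_
            by_cases hu : u ∉ T ∧ u ∉ B
            · have huv : u ≠ v := fun h => hu.2 (h ▸ hv)
              have h2 : u ∉ insert v T := by simp [huv, hu.1]
              simp only [hvT, hu.1, hu.2, not_false_iff, and_self, if_true, h2, hg]
              rw [hprod, Finset.prod_insert h2, Finset.prod_insert hvT]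
              simp only [hy, hu.2, hv, if_true, if_false]
              exact le_of_eq (by ring)
            · have : ¬ (v ∉ T ∧ u ∉ T ∧ u ∉ B) := fun h => hu h.2
              simp only [this, if_false]
              refine mul_nonneg (mul_nonneg hx hpos) ?_
              split_ifs
              · exact le_rfl
              · exact h0 _
        _ = (x * ∏ u ∈ T, y u) *
              ∑ u : V, (if u ∉ insert v T then f (insert u (insert v T)) else 0) := by
            rw [Finset.mul_sum]
        _ ≤ (x * ∏ u ∈ T, y u) * D := mul_le_mul_of_nonneg_left h1 (mul_nonneg hx hpos)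
        _ = _ := by ring
  have s3 := esym_le (univ : Finset V) y hy0 z hz j
  have s4 : ∑ u : V, y u ≤ B.card + Fintype.card V * x := by
    calc ∑ u : V, y u ≤ ∑ u : V, ((if u ∈ B then (1 : ℝ) else 0) + x) := by
          refine Finset.sum_le_sum fun u _ => ?_
          simp only [hy]
          split_ifs <;> linarith
      _ = _ := by
          rw [Finset.sum_add_distrib, Finset.sum_boole]
          simp
  calc _ ≤ z ^ j * ∑ T ∈ (univ : Finset V).powersetCard j, x * D * ∏ u ∈ T, y u :=
        mul_le_mul_of_nonneg_left (s1.trans s2) (pow_nonneg hz _)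
    _ = x * D * (z ^ j * ∑ T ∈ (univ : Finset V).powersetCard j, ∏ u ∈ T, y u) := by
        rw [← Finset.mul_sum]; ring
    _ ≤ _ := by
        refine mul_le_mul_of_nonneg_left (s3.trans ?_) (mul_nonneg hx hD)
        exact Real.exp_le_exp.2 (mul_le_mul_of_nonneg_left s4 hz)

theorem PP_ge (f : Finset V → ℝ) (h0 : ∀ a, 0 ≤ f a) (h1 : ∀ a, f a ≤ 1)
    (F : Finset (Finset V)) (A : Finset V) :
    1 - ∑ a ∈ F, (if a ⊆ A then f a else 0) ≤ PP f F A := by
  induction F using Finset.induction_on with
  | empty => simp [PP]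
  | insert a F ha ih =>
    have h2 := PP_le_one h0 h1 F A
    unfold PP at *
    rw [Finset.prod_insert ha, Finset.sum_insert ha]
    split_ifs
    · nlinarith [h0 a, h1 a]
    · linarith

theorem c_bound (f : Finset V → ℝ) (h0 : ∀ a, 0 ≤ f a) (h1 : ∀ a, f a ≤ 1) (k : ℕ) (D : ℝ)
    (hco : ∀ T : Finset V, T.card = k → ∑ u : V, (if u ∉ T then f (insert u T) else 0) ≤ D)
    (E : Finset (Finset V)) (hE : ∀ e ∈ E, e.card = k + 1) (B : Finset V) :
    (Fintype.card V : ℝ) - B.card - (B.powersetCard k).card * D ≤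
      ∑ v ∈ univ \ B, PP f (E.filter fun e => v ∈ e) (insert v B) := by
  have s1 : ∀ v ∈ univ \ B, 1 - ∑ T ∈ B.powersetCard k, (if v ∉ T then f (insert v T) else 0) ≤
      PP f (E.filter fun e => v ∈ e) (insert v B) := by
    intro v hv
    have hvB : v ∉ B := (mem_sdiff.1 hv).2
    refine le_trans ?_ (PP_ge f h0 h1 _ _)
    have : ∑ a ∈ E.filter (fun e => v ∈ e), (if a ⊆ insert v B then f a else 0) ≤
        ∑ T ∈ B.powersetCard k, (if v ∉ T then f (insert v T) else 0) := by
      rw [← Finset.sum_filter]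
      calc _ ≤ ∑ a ∈ (B.powersetCard k).image (insert v), f a := by
            refine Finset.sum_le_sum_of_subset_of_nonneg ?_ (fun a _ _ => h0 a)
            intro a ha
            simp only [mem_filter] at ha
            refine mem_image.2 ⟨a.erase v, mem_powersetCard.2 ⟨subset_insert_iff.1 ha.2, ?_⟩,
              insert_erase ha.1.2⟩
            rw [card_erase_of_mem ha.1.2, hE a ha.1.1]; rfl
        _ ≤ ∑ T ∈ B.powersetCard k, f (insert v T) :=
            Finset.sum_image_le_of_nonneg (fun a _ => h0 a)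
        _ = _ := by
            refine Finset.sum_congr rfl fun T hT => ?_
            rw [if_pos (fun h => hvB ((mem_powersetCard.1 hT).1 h))]
    linarith
  refine le_trans ?_ (Finset.sum_le_sum s1)
  rw [Finset.sum_sub_distrib, Finset.sum_comm]
  have s2 : ∑ T ∈ B.powersetCard k, ∑ v ∈ univ \ B, (if v ∉ T then f (insert v T) else 0) ≤
      ∑ T ∈ B.powersetCard k, D := by
    refine Finset.sum_le_sum fun T hT => le_trans ?_ (hco T (mem_powersetCard.1 hT).2)
    refine Finset.sum_le_sum_of_subset_of_nonneg (subset_univ _) fun u _ _ => ?_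
    split_ifs
    · exact le_rfl
    · exact h0 _
  rw [Finset.sum_const, nsmul_eq_mul] at s2
  have s3 : ∑ v ∈ univ \ B, (1 : ℝ) = Fintype.card V - B.card := by
    rw [Finset.sum_const, card_sdiff_of_subset (subset_univ B), nsmul_eq_mul, mul_one,
      card_univ, Nat.cast_sub (card_le_univ B)]
  linarith

/-- The signed measure with prescribed product correlation functions. -/
noncomputable def mu0 (f : Finset V → ℝ) (p : ℝ) (R : Finset (Finset V)) (S : Finset V) : ℝ :=
  p ^ S.card * PP f R S * psi f p (R.filter fun e => ¬ e ⊆ S) S (univ \ S) ∅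

theorem mu0_eq (f : Finset V → ℝ) (p : ℝ) (R : Finset (Finset V)) (S : Finset V) :
    mu0 f p R S = ∑ T : Finset V,
      if S ⊆ T then (-1) ^ (T \ S).card * (p ^ T.card * PP f R T) else 0 := by
  rw [← powerset_univ, sum_superset univ S (subset_univ S)]
  unfold mu0 psi
  rw [Finset.mul_sum]
  refine Finset.sum_congr rfl fun U hU => ?_
  have : Disjoint S U := Finset.disjoint_of_subset_right (mem_powerset.1 hU) disjoint_sdiff
  rw [if_pos (empty_subset U), union_sdiff_cancel_left this, card_union_of_disjoint this,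
    PP_split f R S (S ∪ U) subset_union_left, neg_pow p, pow_add]
  ring

theorem mu0_sum (f : Finset V → ℝ) (p : ℝ) (R : Finset (Finset V)) (e : Finset V) :
    ∑ S : Finset V, (if e ⊆ S then mu0 f p R S else 0) = p ^ e.card * PP f R e := by
  have h1 : ∀ S : Finset V, (if e ⊆ S then mu0 f p R S else 0) = ∑ T : Finset V,
      (p ^ T.card * PP f R T) * (if S ⊆ T then (if e ⊆ S then (-1) ^ (T \ S).card else 0) else 0) := by
    intro S
    by_cases h : e ⊆ S
    · rw [if_pos h, mu0_eq]
      refine Finset.sum_congr rfl fun T _ => ?_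
      simp only [h, if_true]
      split_ifs
      · ring
      · simp
    · simp [h]
  simp only [h1]
  rw [Finset.sum_comm]
  have h2 : ∀ T : Finset V, ∑ S : Finset V,
      (if S ⊆ T then (if e ⊆ S then (-1 : ℝ) ^ (T \ S).card else 0) else 0)
      = if T = e then 1 else 0 := by
    intro T
    have h3 : ∑ S : Finset V,
        (if S ⊆ T then (if e ⊆ S then (-1 : ℝ) ^ (T \ S).card else 0) else 0)
        = ∑ S ∈ T.powerset, (if e ⊆ S then (-1 : ℝ) ^ (T \ S).card else 0) := by
      rw [← Finset.sum_filter]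
      refine Finset.sum_congr ?_ fun _ _ => rfl
      ext S; simp
    rw [h3]
    by_cases h : e ⊆ T
    · rw [sum_superset T e h (fun S => (-1 : ℝ) ^ (T \ S).card)]
      have h4 : ∑ U ∈ (T \ e).powerset, (-1 : ℝ) ^ (T \ (e ∪ U)).card
          = (-1) ^ (T \ e).card * ∑ U ∈ (T \ e).powerset, (-1 : ℝ) ^ U.card := by
        rw [Finset.mul_sum]
        refine Finset.sum_congr rfl fun U hU => ?_
        have h5 : (T \ e).card = (T \ (e ∪ U)).card + U.card := by
          have h6 : T \ (e ∪ U) = (T \ e) \ U := by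
            ext u; simp only [mem_sdiff, mem_union]; tauto
          rw [h6, card_sdiff_add_card_eq_card (mem_powerset.1 hU)]
        rw [h5, pow_add, mul_assoc, ← mul_pow]
        simp
      rw [h4, sum_pow_card]
      by_cases hT : T = e
      · simp [hT]
      · have : (T \ e).card ≠ 0 := by
          rw [Ne, card_eq_zero, sdiff_eq_empty_iff_subset]
          exact fun h' => hT (Subset.antisymm h' h)
        simp [hT, this]
    · rw [if_neg (fun h' : T = e => h (h' ▸ Subset.refl _))]
      refine Finset.sum_eq_zero fun S hS => ?_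
      rw [if_neg (fun h' => h (h'.trans (mem_powerset.1 hS)))]
  simp only [← Finset.mul_sum, h2]
  simp

end Pool.Agent.P.MP_be5a37_co
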