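import Mathlib

set_option autoImplicit false

namespace Pool.Agent.P.MP_be5a37_co

open Finset

/-- `w` is a fractional `K_q^r`-decomposition of the `r`-graph with edge set `G`: nonnegative
weights on vertex sets, carried only by `q`-sets all of whose `r`-subsets are edges, such that
the weights of the sets containing any given edge sum to one. -/
def IsFracDecomp {V : Type} [Fintype V] [DecidableEq V] (q r : ℕ) (G : Finset (Finset V))
    (w : Finset V → ℝ) : Prop :=
  (∀ K, 0 ≤ w K) ∧
  (∀ K, w K ≠ 0 → K.card = q ∧ ∀ e, e ⊆ K → e.card = r → e ∈ G) ∧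
  ∀ e ∈ G, ∑ K ∈ univ.filter (fun K => e ⊆ K), w K = 1

end Pool.Agent.P.MP_be5a37_co
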