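import Pool.Agent.P.MP_be5a37_co.Matern2

set_option autoImplicit false
set_option linter.unusedSectionVars false

namespace Pool.Agent.P.MP_be5a37_co

open Finset Filter Topology

variable {V : Type} [Fintype V] [DecidableEq V]

theorem fixed_kernel (G : SimpleGraph V) [DecidableRel G.Adj] (P : Finset (Finset V)) (η d D : ℝ)
    (hη0 : 0 ≤ η) (hη1 : η ≤ 1 / 2) (hD0 : 0 < D) (hD : D = 2 * (d + η * Fintype.card V))
    (hd : ∀ u, ∑ v, (if G.Adj u v then (0 : ℝ) else 1) ≤ d) :
    ∃ h : V → V → ℝ, (∀ u v, h u v = h v u) ∧ (∀ u v, 0 ≤ h u v) ∧ (∀ u v, h u v ≤ 1) ∧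
      (∀ u, ∑ v, h u v ≤ D) ∧ ∀ u v, h u v = if G.Adj u v then
        (if ({u, v} : Finset V) ∈ P then η + (∑ w, h w u * h w v) / (2 * D) else 0) else 1 := by
  set Φ : (V → V → ℝ) → (V → V → ℝ) := fun h u v => if G.Adj u v then
        (if ({u, v} : Finset V) ∈ P then η + (∑ w, h w u * h w v) / (2 * D) else 0) else 1 with hΦ
  let I : (V → V → ℝ) → Prop := fun h => (∀ u v, h u v = h v u) ∧ (∀ u v, 0 ≤ h u v) ∧
    (∀ u v, h u v ≤ 1) ∧ (∀ u, ∑ v, h u v ≤ D)
  have hI : ∀ h, I h → I (Φ h) := by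
    rintro h ⟨a1, a2, a3, a4⟩
    have c0 : ∀ u v, 0 ≤ (∑ w, h w u * h w v) / (2 * D) := fun u v =>
      div_nonneg (Finset.sum_nonneg fun w _ => mul_nonneg (a2 _ _) (a2 _ _)) (by positivity)
    have c1 : ∀ u v, (∑ w, h w u * h w v) / (2 * D) ≤ 1 / 2 := by
      intro u v
      rw [div_le_iff₀ (by positivity)]
      have : ∑ w, h w u * h w v ≤ ∑ w, h u w := Finset.sum_le_sum fun w _ => by
        rw [a1 w u]; exact mul_le_of_le_one_right (a2 _ _) (a3 _ _)
      linarith [a4 u]
    refine ⟨fun u v => ?_, fun u v => ?_, fun u v => ?_, fun u => ?_⟩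
    · simp only [hΦ, G.adj_comm u v, pair_comm u v, mul_comm (h _ u)]
    · simp only [hΦ]
      split_ifs <;> linarith [c0 u v]
    · simp only [hΦ]
      split_ifs <;> linarith [c1 u v]
    · have b1 : ∑ v, Φ h u v ≤ ∑ v, ((if G.Adj u v then (0 : ℝ) else 1) + η +
          (∑ w, h w u * h w v) / (2 * D)) := by
        refine Finset.sum_le_sum fun v _ => ?_
        simp only [hΦ]
        split_ifs <;> linarith [c0 u v]
      have b2 : ∑ v, ∑ w, h w u * h w v ≤ D * D := by
        rw [Finset.sum_comm]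
        calc ∑ w, ∑ v, h w u * h w v ≤ ∑ w, h u w * D := by
              refine Finset.sum_le_sum fun w _ => ?_
              rw [← Finset.mul_sum, a1 w u]
              exact mul_le_mul_of_nonneg_left (a4 w) (a2 _ _)
          _ ≤ D * D := by
              rw [← Finset.sum_mul]
              exact mul_le_mul_of_nonneg_right (a4 u) hD0.le
      rw [Finset.sum_add_distrib, Finset.sum_add_distrib, ← Finset.sum_div, Finset.sum_const,
        card_univ, nsmul_eq_mul] at b1
      have b3 : (∑ v, ∑ w, h w u * h w v) / (2 * D) ≤ D / 2 := by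
        rw [div_le_iff₀ (by positivity)]; linarith
      have := hd u
      linarith
  have hmono : ∀ h h' : V → V → ℝ, (∀ u v, 0 ≤ h u v) → (∀ u v, h u v ≤ h' u v) →
      ∀ u v, Φ h u v ≤ Φ h' u v := by
    intro h h' a1 a2 u v
    simp only [hΦ]
    split_ifs
    · have : ∑ w, h w u * h w v ≤ ∑ w, h' w u * h' w v := Finset.sum_le_sum fun w _ =>
        mul_le_mul (a2 _ _) (a2 _ _) (a1 _ _) ((a1 _ _).trans (a2 _ _))
      have := div_le_div_of_nonneg_right this (show 0 ≤ 2 * D by positivity)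
      linarith
    · exact le_rfl
    · exact le_rfl
  have hs : ∀ n : ℕ, I (Φ^[n] 0) := by
    intro n
    induction n with
    | zero => exact ⟨fun _ _ => rfl, fun _ _ => le_rfl, fun _ _ => zero_le_one,
        fun _ => by simpa using hD0.le⟩
    | succ n ih => rw [Function.iterate_succ_apply']; exact hI _ ih
  have hm : ∀ n : ℕ, ∀ u v, Φ^[n] 0 u v ≤ Φ^[n + 1] 0 u v := by
    intro n
    induction n with
    | zero => intro u v; exact (hs 1).2.1 u v
    | succ n ih =>
      intro u v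
      rw [Function.iterate_succ_apply' Φ (n + 1), Function.iterate_succ_apply' Φ n]
      refine hmono _ _ (hs n).2.1 (fun u v => ?_) u v
      have := ih u v
      rwa [Function.iterate_succ_apply'] at this
  set h : V → V → ℝ := fun u v => ⨆ n : ℕ, Φ^[n] 0 u v with hh
  have ht : ∀ u v, Tendsto (fun n : ℕ => Φ^[n] 0 u v) atTop (𝓝 (h u v)) := fun u v =>
    tendsto_atTop_ciSup (monotone_nat_of_le_succ fun n => hm n u v)
      ⟨1, by rintro _ ⟨n, rfl⟩; exact (hs n).2.2.1 u v⟩
  have ht' : Tendsto (fun n : ℕ => Φ^[n] 0) atTop (𝓝 h) :=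
    tendsto_pi_nhds.2 fun u => tendsto_pi_nhds.2 fun v => ht u v
  have hc : Continuous Φ := by
    refine continuous_pi fun u => continuous_pi fun v => ?_
    simp only [hΦ]
    split_ifs <;> fun_prop
  have hfix := isFixedPt_of_tendsto_iterate ht' hc.continuousAt
  refine ⟨h, fun u v => ?_, fun u v => ?_, fun u v => ?_, fun u => ?_, fun u v => ?_⟩
  · simp only [hh]
    congr 1
    funext n
    exact (hs n).1 u v
  · exact ge_of_tendsto' (ht u v) fun n => (hs n).2.1 u v
  · exact le_of_tendsto' (ht u v) fun n => (hs n).2.2.1 u v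
  · exact le_of_tendsto' (tendsto_finsetSum _ fun v _ => ht u v) fun n => (hs n).2.2.2 u
  · exact (congrFun (congrFun hfix.eq u) v).symm

theorem numeric (s D : ℝ) (q n : ℕ) (hs : 1.44 ≤ s) (hq : (q : ℝ) = s ^ 3) (hD2 : 2 ≤ D)
    (hD : D * (s ^ 3 * (s + 30)) = n * (s + 1)) :
    2 * (1 + 1 / (s + 2) + (1 / (s + 2)) ^ 2) ^ 2 ≤ 1 / (s ^ 3 * (2 * s + 60)) *
      ((1 - 1 / (s + 2) - (1 / (s + 2)) ^ 2) ^ q * (1 + 1 / (s + 2) / D) ^ n) := by
  have hs0 : 0 < s := by linarith
  set y := 1 / (s + 2) with hy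
  have hy0 : 0 < y := by positivity
  have hy1 : y ≤ 0.3 := by rw [hy, div_le_iff₀ (by positivity)]; linarith
  have a1 : 2 * (1 + y + y ^ 2) ^ 2 ≤ 4 := by
    have : 1 + y + y ^ 2 ≤ 1.4 := by nlinarith
    have h2 : (1 + y + y ^ 2) ^ 2 ≤ 1.4 ^ 2 := pow_le_pow_left₀ (by positivity) this 2
    linarith
  have a2 : Real.exp (-(1 / s)) ≤ 1 - y - y ^ 2 := by
    have h1 := Real.add_one_le_exp (1 / s)
    rw [Real.exp_neg, ← one_div, div_le_iff₀ (Real.exp_pos _)]
    have h2 : 1 ≤ (1 - y - y ^ 2) * (1 / s + 1) := by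
      have : (1 - y - y ^ 2) * (1 / s + 1) - 1 = 1 / (s * (s + 2) ^ 2) := by
        rw [hy]; field_simp; ring
      have h3 : 0 < 1 / (s * (s + 2) ^ 2) := by positivity
      linarith
    have h3 : 0 ≤ 1 - y - y ^ 2 := by nlinarith
    nlinarith
  have a3 : Real.exp (1 / (D * (s + 5 / 2))) ≤ 1 + y / D := by
    have h1 := Real.add_one_le_exp (-(1 / (D * (s + 5 / 2))))
    have hD0 : 0 < D := by linarith
    have h2 : 1 ≤ (-(1 / (D * (s + 5 / 2))) + 1) * (1 + y / D) := by
      have : (-(1 / (D * (s + 5 / 2))) + 1) * (1 + y / D) - 1 =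
          (D - 2) / (2 * D ^ 2 * (s + 2) * (s + 5 / 2)) := by
        rw [hy]; field_simp; ring
      have h3 : 0 ≤ (D - 2) / (2 * D ^ 2 * (s + 2) * (s + 5 / 2)) :=
        div_nonneg (by linarith) (by positivity)
      linarith
    have h3 : 0 < 1 + y / D := by positivity
    have h4 := mul_le_mul_of_nonneg_right h1 h3.le
    rw [Real.exp_neg] at h4
    have h5 := Real.exp_pos (1 / (D * (s + 5 / 2)))
    rw [inv_mul_eq_div, le_div_iff₀ h5] at h4
    nlinarith
  have a4 : Real.exp (5 * s) ≤ (1 - y - y ^ 2) ^ q * (1 + y / D) ^ n := by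
    refine le_trans ?_ (mul_le_mul (pow_le_pow_left₀ (Real.exp_pos _).le a2 q)
      (pow_le_pow_left₀ (Real.exp_pos _).le a3 n) (by positivity) (pow_nonneg (by nlinarith) _))
    rw [← Real.exp_nat_mul, ← Real.exp_nat_mul, ← Real.exp_add]
    refine Real.exp_le_exp.2 ?_
    have hD0 : 0 < D := by linarith
    have h1 : (n : ℝ) = D * (s ^ 3 * (s + 30)) / (s + 1) := by
      rw [hD]; field_simp
    have h2 : (q : ℝ) * -(1 / s) + n * (1 / (D * (s + 5 / 2))) - 5 * s =
        s * (43 * s ^ 2 - 40 * s - 25) / (2 * (s + 1) * (s + 5 / 2)) := by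
      rw [hq, h1]; field_simp; ring
    have h3 : 0 ≤ s * (43 * s ^ 2 - 40 * s - 25) / (2 * (s + 1) * (s + 5 / 2)) :=
      div_nonneg (mul_nonneg hs0.le (by nlinarith)) (by positivity)
    linarith
  have a5 : (2.7 * s) ^ 5 ≤ Real.exp (5 * s) := by
    have h1 : 2.7 * s ≤ Real.exp s := by
      have h2 := Real.add_one_le_exp (s - 1)
      have h3 : Real.exp s = Real.exp 1 * Real.exp (s - 1) := by
        rw [← Real.exp_add]; congr 1; ring
      have h4 : (2.7 : ℝ) ≤ Real.exp 1 := by linarith [Real.exp_one_gt_d9]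
      rw [h3]
      exact mul_le_mul h4 (by linarith) hs0.le (by linarith)
    have h2 := pow_le_pow_left₀ (by positivity) h1 5
    rwa [← Real.exp_nat_mul] at h2
  refine a1.trans ?_
  rw [one_div, inv_mul_eq_div, le_div_iff₀ (by positivity)]
  refine le_trans ?_ (a5.trans a4)
  have h1 : 4 * (2 * s + 60) ≤ 2.7 ^ 5 * s ^ 2 := by nlinarith
  have h2 := mul_le_mul_of_nonneg_left h1 (show 0 ≤ s ^ 3 by positivity)
  nlinarith

theorem graph_main (q : ℕ) (s : ℝ) (hs : 1.44 ≤ s) (hq : (q : ℝ) = s ^ 3) (hq2 : 2 ≤ q)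
    (G : SimpleGraph V) [DecidableRel G.Adj]
    (hdeg : ∀ v, (1 - 1 / (2 * s ^ 3 + 60 * s ^ 2)) * Fintype.card V ≤ G.degree v) :
    ∃ w : Finset V → ℝ, (∀ K, 0 ≤ w K) ∧ (∀ K, w K ≠ 0 → G.IsNClique q K) ∧
      ∀ u v, G.Adj u v → ∑ K ∈ univ.filter (fun K => u ∈ K ∧ v ∈ K), w K = 1 := by
  rcases isEmpty_or_nonempty V with hV | ⟨⟨v0⟩⟩
  · exact ⟨fun _ => 0, fun _ => le_rfl, fun K hK => absurd rfl hK, fun u => isEmptyElim u⟩
  classical
  set E : Finset (Finset V) := univ.filter fun e => ∃ u v, G.Adj u v ∧ e = {u, v} with hE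
  have hE2 : ∀ e ∈ E, e.card = 2 := by
    intro e he
    obtain ⟨u, v, h, rfl⟩ := (mem_filter.1 he).2
    exact card_pair h.ne
  suffices h : ∃ w, IsFracDecomp q 2 E w by
    obtain ⟨w, w0, w1, w2⟩ := h
    refine ⟨w, w0, fun K hK => ⟨fun u hu v hv huv => ?_, (w1 K hK).1⟩, fun u v huv => ?_⟩
    · have := (w1 K hK).2 {u, v} (by
        intro x hx; rcases mem_insert.1 hx with rfl | hx
        · exact hu
        · rw [mem_singleton.1 hx]; exact hv) (card_pair huv)
      obtain ⟨a, b, hab, he⟩ := (mem_filter.1 this).2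
      have h1 : u ∈ ({a, b} : Finset V) := by rw [← he]; simp
      have h2 : v ∈ ({a, b} : Finset V) := by rw [← he]; simp
      simp only [mem_insert, mem_singleton] at h1 h2
      rcases h1 with rfl | rfl <;> rcases h2 with rfl | rfl
      · exact absurd rfl huv
      · exact hab
      · exact hab.symm
      · exact absurd rfl huv
    · rw [← w2 {u, v} (mem_filter.2 ⟨mem_univ _, u, v, huv, rfl⟩)]
      refine Finset.sum_congr ?_ fun _ _ => rfl
      ext K
      simp [insert_subset_iff]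
  set N : ℝ := (Fintype.card V : ℝ) with hN
  have hs0 : 0 < s := by linarith
  set δ : ℝ := 1 / (2 * s ^ 3 + 60 * s ^ 2) with hδ
  set η : ℝ := 1 / (s ^ 3 * (2 * s + 60)) with hη
  have hη0 : 0 < η := by positivity
  have hη1 : η ≤ 1 / 2 := by
    rw [hη]
    refine one_div_le_one_div_of_le (by norm_num) ?_
    have : 1 ≤ s ^ 3 := one_le_pow₀ (by linarith)
    nlinarith
  have hd : ∀ u, ∑ v, (if G.Adj u v then (0 : ℝ) else 1) ≤ δ * N := by
    intro u
    have h1 : ∑ v, (if G.Adj u v then (0 : ℝ) else 1) =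
        ∑ v, (1 - (if G.Adj u v then (1 : ℝ) else 0)) :=
      Finset.sum_congr rfl fun v _ => by split_ifs <;> simp
    rw [h1, Finset.sum_sub_distrib, Finset.sum_boole, ← SimpleGraph.neighborFinset_eq_filter,
      SimpleGraph.card_neighborFinset_eq_degree]
    have := hdeg u
    simp only [sum_const, card_univ, nsmul_eq_mul, mul_one, ← hN]
    linarith
  have hd1 : 1 ≤ δ * N := by
    refine le_trans ?_ (hd v0)
    have := Finset.single_le_sum (f := fun v => if G.Adj v0 v then (0 : ℝ) else 1)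
      (fun v _ => by split_ifs <;> norm_num) (mem_univ v0)
    simpa using this
  have hN0 : 0 ≤ N := Nat.cast_nonneg _
  set D : ℝ := 2 * (δ * N + η * N) with hD
  have hD2 : 2 ≤ D := by nlinarith [mul_nonneg hη0.le hN0]
  have hD0 : 0 < D := by linarith
  refine frac_of_signs q 2 hq2 E hE2 fun P => ?_
  obtain ⟨h, a1, a2, a3, a4, a5⟩ := fixed_kernel G P η (δ * N) D hη0.le hη1 hD0 hD hd
  set a : V ⊕ V → ℝ := Sum.elim (fun _ => 1) (fun w => D - ∑ v, h w v) with ha
  set k : V ⊕ V → V → ℝ := Sum.elim h (fun w v => if w = v then 1 else 0) with hk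
  have b0 : ∀ w, 0 ≤ a w := by
    rintro (w | w)
    · exact zero_le_one
    · exact sub_nonneg.2 (a4 w)
  have b1 : ∀ w v, 0 ≤ k w v := by
    rintro (w | w) v
    · exact a2 w v
    · simp only [hk, Sum.elim_inr]; split_ifs <;> norm_num
  have b2 : ∀ w v, k w v ≤ 1 := by
    rintro (w | w) v
    · exact a3 w v
    · simp only [hk, Sum.elim_inr]; split_ifs <;> norm_num
  have b3 : ∀ v, a (Sum.inl v) = 1 := fun _ => rfl
  have b4 : ∀ v, k (Sum.inl v) v = 1 := fun v => by
    simp only [hk, Sum.elim_inl]; rw [a5]; simp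
  have b5 : ∀ u v, k (Sum.inl u) v = k (Sum.inl v) u := a1
  have b6 : ∀ v, ∑ w, a w * k w v = D := by
    intro v
    simp only [ha, hk, Fintype.sum_sum_type, Sum.elim_inl, Sum.elim_inr, one_mul, mul_ite, mul_one,
      mul_zero, Finset.sum_ite_eq', mem_univ, if_true, a1 _ v]
    ring
  have b7 : ∀ w, ∑ v, k w v ≤ D := by
    rintro (w | w)
    · exact a4 w
    · simp only [hk, Sum.elim_inr, Finset.sum_ite_eq, mem_univ, if_true]; linarith
  set ν := nu a k Sum.inl (Fintype.card V) univ with hν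
  have ν0 : ∀ S, 0 ≤ ν S := nu_nonneg _ b0 b1 b2 _ _
  refine ⟨fun S => if q ≤ S.card then ν S else 0, (1 - η) / D ^ 2,
    div_pos (by linarith) (by positivity), fun S => ?_, fun S hS => ?_, fun e he => ?_⟩
  · dsimp only
    split_ifs
    · exact ν0 S
    · exact le_rfl
  · by_cases hc : q ≤ S.card
    · simp only [hc, if_true] at hS
      refine ⟨hc, fun e he h2 => ?_⟩
      obtain ⟨u, v, huv, rfl⟩ := card_eq_two.1 h2
      have := (nu_supp a k Sum.inl Sum.inl_injective b5 _ _ _ hS).2 u (he (by simp)) v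
        (he (by simp)) huv
      refine mem_filter.2 ⟨mem_univ _, u, v, ?_, rfl⟩
      by_contra hn
      apply this
      simp only [hk, Sum.elim_inl]
      rw [a5, if_neg hn]
    · simp [hc] at hS
  obtain ⟨u, v, huv, rfl⟩ := (mem_filter.1 he).2
  have p1 := pair_prob b0 b1 b2 b3 b4 Sum.inl_injective b5 D hD0 b6 u v huv.ne
  have c1 : ∑ w, a w * (k w u * k w v) = ∑ w, h w u * h w v := by
    simp only [ha, hk, Fintype.sum_sum_type, Sum.elim_inl, Sum.elim_inr, one_mul]
    rw [Finset.sum_eq_zero (s := univ) (f := fun w => (D - ∑ v, h w v) *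
      ((if w = u then 1 else 0) * (if w = v then 1 else 0))), add_zero]
    intro w _
    by_cases hw : w = u
    · have : w ≠ v := fun h' => huv.ne (hw.symm.trans h')
      simp [this]
    · simp [hw]
  rw [c1, ← hν] at p1
  simp only [hk, Sum.elim_inl] at p1
  set c := ∑ w, h w u * h w v with hc
  have c2 : 0 ≤ c := Finset.sum_nonneg fun w _ => mul_nonneg (a2 _ _) (a2 _ _)
  have c3 : c ≤ D := by
    refine le_trans (Finset.sum_le_sum fun w _ => ?_) (a4 u)
    rw [a1 w u]; exact mul_le_of_le_one_right (a2 _ _) (a3 _ _)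
  set p2 := ∑ X, ν X * (if ({u, v} : Finset V) ⊆ X then 1 else 0) with hp2
  refine ⟨fun hP => ?_, fun hP => ?_⟩
  · have d1 : ∑ S : Finset V, (if ({u, v} : Finset V) ⊆ S then
        (if q ≤ S.card then ν S else 0) else 0) ≤ p2 := by
      refine Finset.sum_le_sum fun S _ => ?_
      split_ifs <;> simp [ν0 S]
    refine d1.trans ?_
    rw [a5 u v, if_pos huv, if_pos hP, ← hc] at p1
    have d2 : (2 * D - c) * p2 ≤ (2 * D - c) * ((1 - η) / D ^ 2) := by
      rw [p1]
      have : (2 * D - c) * ((1 - η) / D ^ 2) - 2 * (1 - (η + c / (2 * D))) / D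
          = c * η / D ^ 2 := by field_simp; ring
      have h3 : 0 ≤ c * η / D ^ 2 := by positivity
      linarith
    exact le_of_mul_le_mul_left d2 (by linarith)
  · rw [a5 u v, if_pos huv, if_neg hP] at p1
    have d2 : 1 / D ^ 2 ≤ p2 := by
      have : (2 * D - c) * (1 / D ^ 2) ≤ (2 * D - c) * p2 := by
        rw [p1]
        have : 2 * (1 - 0) / D - (2 * D - c) * (1 / D ^ 2) = c / D ^ 2 := by field_simp; ring
        have h3 : 0 ≤ c / D ^ 2 := by positivity
        linarith
      exact le_of_mul_le_mul_left this (by linarith)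
    set y : ℝ := 1 / (s + 2) with hy
    have hy0 : 0 < y := by positivity
    have hy1 : y ≤ 0.3 := by rw [hy, div_le_iff₀ (by positivity)]; linarith
    have t1 := tail_prob b0 b1 b2 b3 b4 Sum.inl_injective b5 D hD0 b6 b7 y hy0.le (by nlinarith)
      {u, v}
    rw [card_pair huv.ne, ← hν] at t1
    have t2 := numeric s D q (Fintype.card V) hs hq hD2 (by
      rw [hD, hδ, hη, ← hN]; field_simp; ring)
    rw [← hy, ← hη] at t2
    set t := 1 - y - y ^ 2 with ht
    have ht0 : 0 < t := by nlinarith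
    have ht1 : t ≤ 1 := by nlinarith
    set B := (1 + y / D) ^ Fintype.card V with hB
    have hB0 : 0 < B := by positivity
    set L := ∑ S : Finset V, (if ({u, v} : Finset V) ⊆ S then
        (if q ≤ S.card then ν S else 0) else 0) with hL
    have d3 : t ^ q * (p2 - L) ≤ ∑ X, ν X * (if ({u, v} : Finset V) ⊆ X then t ^ X.card else 0) := by
      rw [hp2, hL, ← Finset.sum_sub_distrib, Finset.mul_sum]
      refine Finset.sum_le_sum fun S _ => ?_
      split_ifs with h1 h2
      · simp only [mul_one, sub_self, mul_zero]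
        exact mul_nonneg (ν0 S) (pow_nonneg ht0.le _)
      · simp only [mul_one, sub_zero]
        rw [mul_comm]
        exact mul_le_mul_of_nonneg_left (pow_le_pow_of_le_one ht0.le ht1 (by omega)) (ν0 S)
      · simp
    have d4 : (t ^ q * B) * (p2 - L) ≤ (t ^ q * B) * (η / D ^ 2) := by
      have e1 := (mul_le_mul_of_nonneg_left d3 hB0.le).trans t1
      have e2 := div_le_div_of_nonneg_right t2 (show 0 ≤ D ^ 2 by positivity)
      calc _ = B * (t ^ q * (p2 - L)) := by ring
        _ ≤ _ := e1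
        _ = 2 * (1 + y + y ^ 2) ^ 2 / D ^ 2 := by
          rw [div_pow]; simp [Nat.factorial]; ring
        _ ≤ _ := e2
        _ = _ := by ring
    have d5 := le_of_mul_le_mul_left d4 (by positivity)
    have : (1 - η) / D ^ 2 = 1 / D ^ 2 - η / D ^ 2 := by ring
    linarith

end Pool.Agent.P.MP_be5a37_co
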