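import Pool.Agent.P.MP_be5a37_co.Count

set_option autoImplicit false
set_option linter.unusedSectionVars false

namespace Pool.Agent.P.MP_be5a37_co

open Finset

theorem e_lo : (2.7 : ℝ) ≤ Real.exp 1 := by linarith [Real.exp_one_gt_d9]
theorem e_hi : Real.exp 1 ≤ (2.72 : ℝ) := by linarith [Real.exp_one_lt_d9]

theorem exp_nat (k : ℕ) : Real.exp k = Real.exp 1 ^ k := by
  rw [← Real.exp_nat_mul, mul_one]

theorem exp_nat_le (k : ℕ) : Real.exp k ≤ 3 ^ k := by
  rw [exp_nat]
  exact pow_le_pow_left₀ (Real.exp_pos 1).le (by linarith [e_hi]) k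

theorem k_tenth (j : ℕ) : ((j : ℝ) + 1) * (1 / 10) ^ (j + 1) ≤ 1 / 10 := by
  induction j with
  | zero => norm_num
  | succ j ih =>
    have h : (0 : ℝ) < (1 / 10) ^ (j + 1) := by positivity
    have hj : (0 : ℝ) ≤ j := Nat.cast_nonneg j
    rw [pow_succ (1 / 10 : ℝ) (j + 1)]
    push_cast
    nlinarith [mul_nonneg hj h.le]

theorem delta_lo (k q : ℕ) (hk : 1 ≤ k) (hq : k ≤ q) (hq2 : 2 ≤ q) :
    4 * Real.exp (-(12 * q)) ≤ ((k : ℝ) / (10000 * q)) ^ k := by
  have hk' : (1 : ℝ) ≤ k := by exact_mod_cast hk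
  have hq' : (k : ℝ) ≤ q := by exact_mod_cast hq
  have hq2' : (2 : ℝ) ≤ q := by exact_mod_cast hq2
  have h10 : (10000 : ℝ) ≤ Real.exp 10 := by
    have := exp_nat 10
    push_cast at this
    rw [this]
    calc (10000 : ℝ) ≤ 2.7 ^ 10 := by norm_num
      _ ≤ _ := pow_le_pow_left₀ (by norm_num) e_lo 10
  have h2 : (4 : ℝ) ≤ Real.exp q := by
    have := exp_nat 2
    push_cast at this
    calc (4 : ℝ) ≤ 2.7 ^ 2 := by norm_num
      _ ≤ Real.exp 1 ^ 2 := pow_le_pow_left₀ (by norm_num) e_lo 2
      _ = Real.exp 2 := this.symm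
      _ ≤ _ := Real.exp_le_exp.2 hq2'
  have h3 : (q : ℝ) / k ≤ Real.exp (q / k) := by
    have := Real.add_one_le_exp ((q : ℝ) / k)
    linarith
  have h4 : Real.exp (-(10 + q / k)) ≤ (k : ℝ) / (10000 * q) := by
    rw [Real.exp_neg, Real.exp_add, ← one_div, div_le_div_iff₀ (by positivity) (by positivity)]
    have h5 : (q : ℝ) ≤ Real.exp (q / k) * k := by
      rwa [div_le_iff₀ (by positivity)] at h3
    have h6 := mul_le_mul h10 h5 (by positivity) (by positivity)
    linarith
  have h5 := pow_le_pow_left₀ (Real.exp_pos _).le h4 k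
  rw [← Real.exp_nat_mul] at h5
  have h6 : (k : ℝ) * -(10 + q / k) = -(10 * k + q) := by field_simp
  rw [h6] at h5
  refine le_trans ?_ h5
  calc 4 * Real.exp (-(12 * q)) ≤ Real.exp q * Real.exp (-(12 * q)) :=
        mul_le_mul_of_nonneg_right h2 (Real.exp_pos _).le
    _ = Real.exp (q + -(12 * q)) := (Real.exp_add _ _).symm
    _ ≤ _ := Real.exp_le_exp.2 (by linarith)

theorem h3_bound (p : ℝ) (n q : ℕ) (hp : 0 ≤ p) (hp1 : p ≤ 1 / 100) (hn : n * p = 30 * q) :
    (1 + p) ^ n ≤ Real.exp 1 ^ (105 * q) * (1 - p * (5 / 4)) ^ n := by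
  have h1 : 1 + p ≤ Real.exp p := by linarith [Real.add_one_le_exp p]
  have h2 : Real.exp (-(5 / 2 * p)) ≤ 1 - p * (5 / 4) := by
    rw [Real.exp_neg, ← one_div, div_le_iff₀ (Real.exp_pos _)]
    have := Real.add_one_le_exp (5 / 2 * p)
    nlinarith
  calc (1 + p) ^ n ≤ Real.exp p ^ n := pow_le_pow_left₀ (by linarith) h1 n
    _ = Real.exp 1 ^ (105 * q) * Real.exp (-(5 / 2 * p)) ^ n := by
        rw [← exp_nat, ← Real.exp_nat_mul, ← Real.exp_nat_mul, ← Real.exp_add]
        congr 1
        push_cast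
        linarith
    _ ≤ _ := mul_le_mul_of_nonneg_left (pow_le_pow_left₀ (Real.exp_pos _).le h2 n) (by positivity)

variable {V : Type} [Fintype V] [DecidableEq V]

theorem Z_bounds (f : Finset V → ℝ) (h0 : ∀ a, 0 ≤ f a) (h1 : ∀ a, f a ≤ 1) (j q : ℕ)
    (hq : j + 1 ≤ q) (hn : (10000 * q : ℝ) ≤ Fintype.card V)
    (hco : ∀ T : Finset V, T.card = j + 1 → ∑ u : V, (if u ∉ T then f (insert u T) else 0) ≤
      2 * (((j + 1 : ℕ) : ℝ) / (10000 * q)) ^ (j + 1) * Fintype.card V)
    (R : Finset (Finset V)) (hR : ∀ e ∈ R, e.card = j + 2) (B : Finset V) (hB : B.card ≤ 125 * q) :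
    0 ≤ psi f (30 * q / Fintype.card V) (R.filter fun e => ¬ e ⊆ B) B (univ \ B) ∅ ∧
    (B.card ≤ q → psi f (30 * q / Fintype.card V) (R.filter fun e => ¬ e ⊆ B) B (univ \ B) ∅ ≤
      Real.exp (-(22 * q))) := by
  set N : ℝ := (Fintype.card V : ℝ) with hN
  set K : ℝ := ((j + 1 : ℕ) : ℝ) with hK
  have hK1 : 1 ≤ K := by rw [hK]; exact_mod_cast Nat.le_add_left 1 j
  have hKq : K ≤ q := by rw [hK]; exact_mod_cast hq
  have hq0 : (0 : ℝ) < q := by linarith
  have hN0 : 0 < N := by linarith
  set p : ℝ := 30 * q / N with hp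
  have hp0 : 0 ≤ p := by positivity
  have hNp : N * p = 30 * q := by rw [hp]; field_simp
  have hp1 : p ≤ 1 / 100 := by rw [hp, div_le_iff₀ hN0]; linarith
  set D : ℝ := 2 * (K / (10000 * q)) ^ (j + 1) * N with hD
  have hD0 : 0 ≤ D := by positivity
  have he1 := e_lo
  have he2 := e_hi
  have hE : ∀ e ∈ R.filter (fun e => ¬ e ⊆ B), e.card = j + 1 + 1 :=
    fun e he => hR e (mem_filter.1 he).1
  have main := main_induct f h0 h1 (R.filter fun e => ¬ e ⊆ B) B (fun e he => (mem_filter.1 he).2)
    p (Real.exp 1) (5 / 4) (1 / 5) (Fintype.card V) (105 * q) hp0 (by linarith) (by norm_num)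
    (by norm_num) (by norm_num) (by norm_num) (by linarith) (by nlinarith) (by omega)
    (h3_bound p _ q hp0 hp1 hNp) (by
      intro v _ S hS
      set z : ℝ := K / (312 * q) with hz
      have hz0 : 0 < z := by positivity
      have hs := sigma_bound f h0 j D (p * Real.exp 1) z hD0 (by positivity) hz0.le hco
        (((R.filter fun e => ¬ e ⊆ B).filter fun e => v ∈ e).filter
          (fun a => ¬ a ⊆ insert v B ∪ S)) (insert v B ∪ S) v (by simp) (by
            intro a ha
            simp only [mem_filter] at ha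
            exact ⟨hR a ha.1.1.1, ha.1.2, ha.2⟩)
      have hc : ((insert v B ∪ S).card : ℝ) ≤ 230 * q := by
        have := card_union_le (insert v B) S
        have := card_insert_le v B
        have : (insert v B ∪ S).card ≤ 230 * q := by omega
        exact_mod_cast this
      have b1 : Real.exp (z * ((insert v B ∪ S).card + N * (p * Real.exp 1))) ≤ 3 ^ (j + 1) := by
        refine le_trans (Real.exp_le_exp.2 ?_) (exp_nat_le (j + 1))
        have c1 : N * (p * Real.exp 1) ≤ 82 * q := by
          rw [← mul_assoc, hNp]; nlinarith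
        calc _ ≤ z * (312 * q) := mul_le_mul_of_nonneg_left (by linarith) hz0.le
          _ = K := by rw [hz]; field_simp
      have b2 : p * Real.exp 1 * D ≤ 164 * q * (z * (312 / 10000)) ^ (j + 1) := by
        have c1 : K / (10000 * q) = z * (312 / 10000) := by rw [hz]; field_simp
        rw [hD, c1]
        have c2 : 0 ≤ (z * (312 / 10000)) ^ (j + 1) := by positivity
        calc _ = 2 * (N * p) * Real.exp 1 * (z * (312 / 10000)) ^ (j + 1) := by ring
          _ ≤ _ := by
            rw [hNp]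
            exact mul_le_mul_of_nonneg_right (by nlinarith) c2
      have b3 := hs.trans (mul_le_mul b2 b1 (Real.exp_pos _).le (by positivity))
      have b4 : 164 * q * (z * (312 / 10000)) ^ (j + 1) * 3 ^ (j + 1) ≤ z ^ j * (1 / 5) := by
        have c1 : 164 * q * (z * (312 / 10000)) ^ (j + 1) * 3 ^ (j + 1)
            = z ^ j * (164 / 312 * (K * (312 / 10000 * 3) ^ (j + 1))) := by
          have c2 : K = z * (312 * q) := by rw [hz]; field_simp
          rw [mul_pow, mul_pow, pow_succ z]
          conv_rhs => rw [c2]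
          ring
        rw [c1]
        refine mul_le_mul_of_nonneg_left ?_ (by positivity)
        have c3 : (312 / 10000 * 3 : ℝ) ^ (j + 1) ≤ (1 / 10) ^ (j + 1) :=
          pow_le_pow_left₀ (by norm_num) (by norm_num) _
        have c4 := k_tenth j
        have c5 : K = j + 1 := by rw [hK]; push_cast; ring
        have c6 : K * (312 / 10000 * 3) ^ (j + 1) ≤ K * (1 / 10) ^ (j + 1) :=
          mul_le_mul_of_nonneg_left c3 (by linarith)
        rw [← c5] at c4
        linarith
      exact le_of_mul_le_mul_left (b3.trans b4) (pow_pos hz0 j))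
    (univ \ B).card (card_le_univ _) (univ \ B) rfl sdiff_disjoint
  obtain ⟨m1, m2, -⟩ := main
  refine ⟨le_trans (pow_nonneg (by linarith) _) m1, fun hBq => m2.trans (Real.exp_le_exp.2 ?_)⟩
  have c1 := c_bound f h0 h1 (j + 1) D hco _ hE B
  have hBq' : (B.card : ℝ) ≤ q := by exact_mod_cast hBq
  have c2 : ((B.powersetCard (j + 1)).card : ℝ) * D ≤ 6 / 10000 * N := by
    set z : ℝ := K / q with hz
    have hz0 : 0 < z := by positivity
    have d1 := esym_le B (fun _ => (1 : ℝ)) (fun _ => zero_le_one) z hz0.le (j + 1)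
    simp only [prod_const_one, sum_const, nsmul_eq_mul, mul_one] at d1
    have d2 : Real.exp (z * B.card) ≤ 3 ^ (j + 1) := by
      refine le_trans (Real.exp_le_exp.2 ?_) (exp_nat_le (j + 1))
      calc _ ≤ z * q := mul_le_mul_of_nonneg_left hBq' hz0.le
        _ = K := by rw [hz]; field_simp
    have d3 : K / (10000 * q) = z * (1 / 10000) := by rw [hz]; field_simp
    have d4 : (3 * (1 / 10000) : ℝ) ^ (j + 1) ≤ 3 / 10000 := by
      rw [pow_succ]
      have : (3 * (1 / 10000) : ℝ) ^ j ≤ 1 := pow_le_one₀ (by norm_num) (by norm_num)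
      linarith
    rw [hD, d3, mul_pow]
    rw [mul_pow] at d4
    have d5 := mul_le_mul_of_nonneg_right (d1.trans d2)
      (show (0 : ℝ) ≤ (1 / 10000) ^ (j + 1) by positivity)
    calc _ = 2 * (z ^ (j + 1) * ((B.powersetCard (j + 1)).card : ℝ) * (1 / 10000) ^ (j + 1)) * N := by
          ring
      _ ≤ _ := mul_le_mul_of_nonneg_right (by linarith) hN0.le
  have c3 : 999 / 1000 * N ≤ ∑ v ∈ univ \ B,
      PP f ((R.filter fun e => ¬ e ⊆ B).filter fun e => v ∈ e) (insert v B) := by linarith
  have c4 := mul_le_mul_of_nonneg_left c3 hp0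
  nlinarith

theorem tail_low (Y : Finset V) (p : ℝ) (hp : 0 ≤ p) (q : ℕ) :
    ∑ U ∈ Y.powerset, (if U.card ≤ q then p ^ U.card else 0) ≤
      7 ^ q * Real.exp (Y.card * (p / 7)) := by
  refine le_trans ?_ (mul_le_mul_of_nonneg_left (sum_pow_card_le Y (p / 7) (by positivity))
    (by positivity))
  rw [Finset.mul_sum]
  refine Finset.sum_le_sum fun U _ => ?_
  split_ifs with h
  · rw [div_pow, mul_div_assoc', le_div_iff₀ (by positivity), mul_comm]
    exact mul_le_mul_of_nonneg_right (pow_le_pow_right₀ (by norm_num) h) (by positivity)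
  · positivity

theorem tail_high (Y : Finset V) (p : ℝ) (hp : 0 ≤ p) (t : ℕ) :
    ∑ U ∈ Y.powerset, (if t ≤ U.card then p ^ U.card else 0) ≤
      Real.exp (-t) * Real.exp (Y.card * (p * Real.exp 1)) := by
  refine le_trans ?_ (mul_le_mul_of_nonneg_left (sum_pow_card_le Y (p * Real.exp 1) (by positivity))
    (by positivity))
  rw [Finset.mul_sum]
  refine Finset.sum_le_sum fun U _ => ?_
  split_ifs with h
  · rw [mul_pow, ← exp_nat, mul_left_comm, ← Real.exp_add]
    refine le_mul_of_one_le_right (by positivity) (Real.one_le_exp ?_)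
    have : (t : ℝ) ≤ U.card := by exact_mod_cast h
    linarith
  · positivity

theorem psi_abs (f : Finset V → ℝ) (h0 : ∀ a, 0 ≤ f a) (h1 : ∀ a, f a ≤ 1) (p : ℝ) (hp : 0 ≤ p)
    (E : Finset (Finset V)) (B L : Finset V) :
    |psi f p E B L ∅| ≤ Real.exp (Fintype.card V * p) := by
  unfold psi
  refine (Finset.abs_sum_le_sum_abs _ _).trans ?_
  refine le_trans ?_ ((sum_pow_card_le L p hp).trans (Real.exp_le_exp.2
    (mul_le_mul_of_nonneg_right (by exact_mod_cast card_le_univ L) hp)))
  refine Finset.sum_le_sum fun T _ => ?_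
  rw [if_pos (empty_subset T), abs_mul, abs_pow, abs_neg, abs_of_nonneg hp,
    abs_of_nonneg (PP_nonneg h1 _ _)]
  exact mul_le_of_le_one_right (pow_nonneg hp _) (PP_le_one h0 h1 _ _)

theorem load_bounds (f : Finset V → ℝ) (h0 : ∀ a, 0 ≤ f a) (h1 : ∀ a, f a ≤ 1) (j q : ℕ)
    (hq : j + 2 ≤ q) (hn : (10000 * q : ℝ) ≤ Fintype.card V)
    (hco : ∀ T : Finset V, T.card = j + 1 → ∑ u : V, (if u ∉ T then f (insert u T) else 0) ≤
      2 * (((j + 1 : ℕ) : ℝ) / (10000 * q)) ^ (j + 1) * Fintype.card V)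
    (R : Finset (Finset V)) (hR : ∀ e ∈ R, e.card = j + 2) (e : Finset V) (he : e.card = j + 2) :
    |∑ S : Finset V, (if e ⊆ S then (if q ≤ S.card ∧ S.card ≤ 125 * q then
        mu0 f (30 * q / Fintype.card V) R S else 0) else 0) -
      (30 * q / Fintype.card V : ℝ) ^ (j + 2) * PP f R e| ≤
      (30 * q / Fintype.card V : ℝ) ^ (j + 2) * (2 * Real.exp (-(12 * q))) := by
  set N : ℝ := (Fintype.card V : ℝ) with hN
  have hq0 : (2 : ℝ) ≤ q := by exact_mod_cast (show 2 ≤ q by omega)
  have hN0 : 0 < N := by linarith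
  set p : ℝ := 30 * q / N with hp
  have hp0 : 0 ≤ p := by positivity
  have hNp : N * p = 30 * q := by rw [hp]; field_simp
  have hY : ((univ \ e).card : ℝ) ≤ N := by rw [hN]; exact_mod_cast card_le_univ _
  have he2 := e_hi
  rw [← he, ← mu0_sum f p R e, ← Finset.sum_sub_distrib]
  refine (Finset.abs_sum_le_sum_abs _ _).trans ?_
  have s1 : ∀ S : Finset V, |(if e ⊆ S then (if q ≤ S.card ∧ S.card ≤ 125 * q then
        mu0 f p R S else 0) else 0) - (if e ⊆ S then mu0 f p R S else 0)| ≤
      if e ⊆ S then p ^ e.card * (Real.exp (-(22 * q)) *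
        (if (S \ e).card ≤ q then p ^ (S \ e).card else 0) +
        Real.exp (30 * q) * (if 124 * q ≤ (S \ e).card then p ^ (S \ e).card else 0)) else 0 := by
    intro S
    by_cases h : e ⊆ S
    · simp only [h, if_true]
      have hc := card_sdiff_add_card_eq_card h
      have a1 : 0 ≤ (if (S \ e).card ≤ q then p ^ (S \ e).card else 0) := by
        split_ifs <;> positivity
      have a2 : 0 ≤ (if 124 * q ≤ (S \ e).card then p ^ (S \ e).card else 0) := by
        split_ifs <;> positivity
      have a3 : ∀ c, |psi f p (R.filter fun e => ¬ e ⊆ S) S (univ \ S) ∅| ≤ c →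
          |mu0 f p R S| ≤ p ^ e.card * (c * p ^ (S \ e).card) := by
        intro c hc'
        unfold mu0
        rw [abs_mul, abs_mul, abs_of_nonneg (pow_nonneg hp0 _), abs_of_nonneg (PP_nonneg h1 _ _),
          ← hc, pow_add]
        calc _ ≤ p ^ (S \ e).card * p ^ e.card * 1 * c :=
              mul_le_mul (mul_le_mul_of_nonneg_left (PP_le_one h0 h1 _ _) (by positivity)) hc'
                (abs_nonneg _) (by positivity)
          _ = _ := by ring
      by_cases h2 : q ≤ S.card ∧ S.card ≤ 125 * q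
      · rw [if_pos h2, sub_self, abs_zero]
        positivity
      · rw [if_neg h2, zero_sub, abs_neg]
        by_cases h3 : S.card ≤ q
        · obtain ⟨z1, z2⟩ := Z_bounds f h0 h1 j q (by omega) hn hco R hR S (by omega)
          refine (a3 (Real.exp (-(22 * q))) (by rw [abs_of_nonneg z1]; exact z2 h3)).trans ?_
          rw [if_pos (show (S \ e).card ≤ q by omega)]
          refine mul_le_mul_of_nonneg_left ?_ (by positivity)
          exact le_add_of_nonneg_right (mul_nonneg (Real.exp_pos _).le a2)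
        · refine (a3 _ (psi_abs f h0 h1 p hp0 _ _ _)).trans ?_
          rw [if_pos (show 124 * q ≤ (S \ e).card by omega), ← hN, hNp]
          refine mul_le_mul_of_nonneg_left ?_ (by positivity)
          exact le_add_of_nonneg_left (mul_nonneg (Real.exp_pos _).le a1)
    · simp [h]
  refine (Finset.sum_le_sum fun S _ => s1 S).trans ?_
  rw [← powerset_univ, sum_superset univ e (subset_univ e), ← Finset.mul_sum]
  refine mul_le_mul_of_nonneg_left ?_ (by positivity)
  have s2 : ∀ U ∈ (univ \ e).powerset, (e ∪ U) \ e = U := fun U hU =>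
    union_sdiff_cancel_left (Finset.disjoint_of_subset_right (mem_powerset.1 hU) disjoint_sdiff)
  rw [Finset.sum_congr rfl (fun U hU => by rw [s2 U hU]), Finset.sum_add_distrib,
    ← Finset.mul_sum, ← Finset.mul_sum]
  have t1 := tail_low (univ \ e) p hp0 q
  have t2 := tail_high (univ \ e) p hp0 (124 * q)
  have u1 : (7 : ℝ) ^ q ≤ Real.exp (2 * q) := by
    have := exp_nat (2 * q)
    push_cast at this
    rw [this, pow_mul]
    refine pow_le_pow_left₀ (by norm_num) ?_ q
    nlinarith [e_lo]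
  have u2 : ((univ \ e).card : ℝ) * p ≤ 30 * q := by
    rw [← hNp]; exact mul_le_mul_of_nonneg_right hY hp0
  have v1 : Real.exp (-(22 * q)) * (7 ^ q * Real.exp ((univ \ e).card * (p / 7))) ≤
      Real.exp (-(12 * q)) := by
    calc _ ≤ Real.exp (-(22 * q)) * (Real.exp (2 * q) * Real.exp ((univ \ e).card * (p / 7))) := by
          gcongr
      _ ≤ _ := by
          rw [← Real.exp_add, ← Real.exp_add]
          exact Real.exp_le_exp.2 (by linarith)
  have v2 : Real.exp (30 * q) * (Real.exp (-((124 * q : ℕ) : ℝ)) *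
      Real.exp ((univ \ e).card * (p * Real.exp 1))) ≤ Real.exp (-(12 * q)) := by
    rw [← Real.exp_add, ← Real.exp_add]
    refine Real.exp_le_exp.2 ?_
    push_cast
    have : ((univ \ e).card : ℝ) * (p * Real.exp 1) ≤ 82 * q := by
      rw [← mul_assoc]
      calc _ ≤ 30 * q * Real.exp 1 := mul_le_mul_of_nonneg_right u2 (Real.exp_pos 1).le
        _ ≤ _ := by nlinarith
    linarith
  have w1 := mul_le_mul_of_nonneg_left t1 (Real.exp_pos (-(22 * q))).le
  have w2 := mul_le_mul_of_nonneg_left t2 (Real.exp_pos (30 * q)).le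
  linarith

theorem codeg_count (G : Finset (Finset V)) (k : ℕ) (hG : ∀ e ∈ G, e.card = k + 1)
    (T : Finset V) (hT : T.card = k) :
    ∑ u : V, (if u ∉ T then (if insert u T ∈ G then (0 : ℝ) else 1) else 0) +
      (G.filter fun e => T ⊆ e).card + k ≤ Fintype.card V := by
  have h1 : ((G.filter fun e => T ⊆ e).card : ℝ) ≤
      ∑ u : V, (if u ∉ T then (if insert u T ∈ G then (1 : ℝ) else 0) else 0) := by
    have : (G.filter fun e => T ⊆ e) ⊆
        (univ.filter fun u => u ∉ T ∧ insert u T ∈ G).image (fun u => insert u T) := by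
      intro e he
      obtain ⟨h1, h2⟩ := mem_filter.1 he
      have h3 : (e \ T).card = 1 := by rw [card_sdiff_of_subset h2, hG e h1, hT]; omega
      obtain ⟨u, hu⟩ := card_eq_one.1 h3
      have h4 : u ∈ e \ T := by rw [hu]; exact mem_singleton_self u
      have h5 : insert u T = e := by
        rw [insert_eq, ← hu, sdiff_union_of_subset h2]
      exact mem_image.2 ⟨u, mem_filter.2 ⟨mem_univ u, (mem_sdiff.1 h4).2, h5 ▸ h1⟩, h5⟩
    have h2 := (card_le_card this).trans card_image_le
    calc ((G.filter fun e => T ⊆ e).card : ℝ)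
        ≤ ((univ.filter fun u => u ∉ T ∧ insert u T ∈ G).card : ℝ) := by exact_mod_cast h2
      _ = _ := by
        rw [← Finset.sum_boole]
        refine Finset.sum_congr rfl fun u _ => ?_
        by_cases a : u ∈ T <;> by_cases b : insert u T ∈ G <;> simp [a, b]
  have h2 : (k : ℝ) = ∑ u : V, (if u ∈ T then (1 : ℝ) else 0) := by
    rw [Finset.sum_boole]; simp [hT]
  have h3 : (Fintype.card V : ℝ) = ∑ u : V, (1 : ℝ) := by simp
  rw [h2, h3]
  refine le_trans (add_le_add (add_le_add le_rfl h1) le_rfl) ?_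
  rw [← Finset.sum_add_distrib, ← Finset.sum_add_distrib]
  refine Finset.sum_le_sum fun u _ => ?_
  by_cases a : u ∈ T <;> by_cases b : insert u T ∈ G <;> simp [a, b]

theorem hyper_main (j q : ℕ) (hq : j + 2 ≤ q) (G : Finset (Finset V))
    (hG : ∀ e ∈ G, e.card = j + 2)
    (hd : ∀ T : Finset V, T.card = j + 1 →
      (1 - (((j + 1 : ℕ) : ℝ) / (10000 * q)) ^ (j + 1)) * Fintype.card V ≤
        (G.filter fun e => T ⊆ e).card) :
    ∃ w, IsFracDecomp q (j + 2) G w := by
  rcases G.eq_empty_or_nonempty with rfl | ⟨e0, he0⟩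
  · exact ⟨fun _ => 0, fun _ => le_rfl, fun K hK => absurd rfl hK, by simp⟩
  set N : ℝ := (Fintype.card V : ℝ) with hN
  set δ : ℝ := (((j + 1 : ℕ) : ℝ) / (10000 * q)) ^ (j + 1) with hδ
  have hq0 : (2 : ℝ) ≤ q := by exact_mod_cast (show 2 ≤ q by omega)
  have hK1 : (1 : ℝ) ≤ ((j + 1 : ℕ) : ℝ) := by exact_mod_cast Nat.le_add_left 1 j
  have hKq : ((j + 1 : ℕ) : ℝ) ≤ q := by exact_mod_cast (show j + 1 ≤ q by omega)
  have hN0 : 0 ≤ N := Nat.cast_nonneg _
  have hδ0 : 0 ≤ δ := by positivity
  have hδ1 : δ ≤ ((j + 1 : ℕ) : ℝ) / (10000 * q) := by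
    rw [hδ, pow_succ]
    refine mul_le_of_le_one_left (by positivity) (pow_le_one₀ (by positivity) ?_)
    rw [div_le_one (by positivity)]; linarith
  have hδ2 : δ ≤ 1 / 2 := by
    refine hδ1.trans ?_
    rw [div_le_iff₀ (by positivity)]; linarith
  have hδ3 := delta_lo (j + 1) q (by omega) (by omega) (by omega)
  rw [← hδ] at hδ3
  have hnon : ∀ T : Finset V, T.card = j + 1 →
      ∑ u : V, (if u ∉ T then (if insert u T ∈ G then (0 : ℝ) else 1) else 0) +
        ((j + 1 : ℕ) : ℝ) ≤ δ * N := by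
    intro T hT
    have h1 := codeg_count G (j + 1) hG T hT
    have h2 := hd T hT
    linarith
  have hn : (10000 * q : ℝ) ≤ N := by
    obtain ⟨T, -, hT⟩ := Finset.exists_subset_card_eq (s := e0) (n := j + 1) (by rw [hG e0 he0]; omega)
    have h1 := hnon T hT
    have h2 : 0 ≤ ∑ u : V, (if u ∉ T then (if insert u T ∈ G then (0 : ℝ) else 1) else 0) := by
      refine Finset.sum_nonneg fun u _ => ?_
      split_ifs <;> norm_num
    have h3 := mul_le_mul_of_nonneg_right hδ1 hN0
    have h4 : ((j + 1 : ℕ) : ℝ) ≤ ((j + 1 : ℕ) : ℝ) / (10000 * q) * N := by linarith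
    rw [div_mul_eq_mul_div, le_div_iff₀ (by positivity)] at h4
    exact le_of_mul_le_mul_left h4 (by linarith)
  have hN1 : 0 < N := by linarith
  set p : ℝ := 30 * q / N with hp
  have hp0 : 0 < p := by positivity
  set ε : ℝ := Real.exp (-(12 * q)) with hε
  have hε0 : 0 < ε := Real.exp_pos _
  refine frac_of_signs q (j + 2) hq G hG fun P => ?_
  set f : Finset V → ℝ := fun e => if e ∈ G then (if e ∈ P then δ else 0) else 1 with hf
  have h0 : ∀ a, 0 ≤ f a := by
    intro a; simp only [hf]; split_ifs <;> linarith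
  have h1 : ∀ a, f a ≤ 1 := by
    intro a; simp only [hf]; split_ifs <;> linarith
  have hco : ∀ T : Finset V, T.card = j + 1 →
      ∑ u : V, (if u ∉ T then f (insert u T) else 0) ≤ 2 * δ * N := by
    intro T hT
    have a1 := hnon T hT
    have a2 : ∑ u : V, (if u ∉ T then f (insert u T) else 0) ≤
        ∑ u : V, ((if u ∉ T then (if insert u T ∈ G then (0 : ℝ) else 1) else 0) + δ) := by
      refine Finset.sum_le_sum fun u _ => ?_
      simp only [hf]
      split_ifs <;> linarith
    rw [Finset.sum_add_distrib, Finset.sum_const, card_univ, nsmul_eq_mul, ← hN] at a2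
    linarith
  set R : Finset (Finset V) := (univ : Finset V).powersetCard (j + 2) with hR
  have hRc : ∀ e ∈ R, e.card = j + 2 := fun e he => (mem_powersetCard.1 he).2
  refine ⟨fun S => if q ≤ S.card ∧ S.card ≤ 125 * q then mu0 f p R S else 0,
    p ^ (j + 2) * (1 - 2 * ε), by
      refine mul_pos (pow_pos hp0 _) (by linarith), ?_, ?_, ?_⟩
  · intro S
    dsimp only
    split_ifs with h
    · exact mul_nonneg (mul_nonneg (pow_nonneg hp0.le _) (PP_nonneg h1 _ _))
        (Z_bounds f h0 h1 j q (by omega) hn hco R hRc S h.2).1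
    · exact le_rfl
  · intro S hS
    by_cases h : q ≤ S.card ∧ S.card ≤ 125 * q
    · refine ⟨h.1, fun e he hc => ?_⟩
      by_contra hG'
      apply hS
      simp only [h, and_self, if_true]
      have : PP f R S = 0 := by
        unfold PP
        refine Finset.prod_eq_zero (i := e) (mem_powersetCard.2 ⟨subset_univ _, hc⟩) ?_
        simp [he, hf, hG']
      unfold mu0
      rw [this, mul_zero, zero_mul]
    · simp [h] at hS
  · intro e he
    have hb := load_bounds f h0 h1 j q hq hn hco R hRc e (hG e he)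
    have hP : PP f R e = 1 - f e := by
      unfold PP
      rw [Finset.prod_eq_single e]
      · simp
      · intro b hb hne
        rw [if_neg]
        intro hs
        exact hne (eq_of_subset_of_card_le hs (by rw [hG e he, hRc b hb]))
      · intro h
        exact absurd (mem_powersetCard.2 ⟨subset_univ _, hG e he⟩) h
    rw [hP] at hb
    obtain ⟨b1, b2⟩ := abs_le.1 hb
    have hpp := pow_pos hp0 (j + 2)
    refine ⟨fun hP' => ?_, fun hP' => ?_⟩
    · have : f e = δ := by simp [hf, he, hP']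
      rw [this] at b2
      nlinarith
    · have : f e = 0 := by simp [hf, he, hP']
      rw [this] at b1
      nlinarith

end Pool.Agent.P.MP_be5a37_co
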