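import Pool.Agent.P.MP_be5a37_co.Kernel

set_option autoImplicit false
set_option linter.unusedSectionVars false

namespace Pool.Agent.P.MP_be5a37_co

open Finset

variable {V : Type} [DecidableEq V]

/-- Signed partition sum over supersets of `S` inside `L`, with base set `B`. -/
noncomputable def psi (f : Finset V → ℝ) (p : ℝ) (E : Finset (Finset V)) (B L S : Finset V) : ℝ :=
  ∑ T ∈ L.powerset, if S ⊆ T then (-p) ^ T.card * PP f E (B ∪ T) else 0

theorem PP_insert (f : Finset V → ℝ) (E : Finset (Finset V)) (B T : Finset V) (v : V)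
    (hv : v ∉ B ∪ T) :
    PP f E (B ∪ insert v T) = PP f E (B ∪ T) * PP f (E.filter fun e => v ∈ e) (insert v B ∪ T) := by
  unfold PP
  rw [Finset.prod_filter, ← Finset.prod_mul_distrib]
  refine Finset.prod_congr rfl fun e _ => ?_
  have h1 : B ∪ insert v T = insert v (B ∪ T) := union_insert v B T
  have h2 : insert v B ∪ T = insert v (B ∪ T) := insert_union v B T
  rw [h1, h2]
  by_cases he : v ∈ e
  · have : ¬ e ⊆ B ∪ T := fun h => hv (h he)
    simp [he, this]
  · have : e ⊆ insert v (B ∪ T) ↔ e ⊆ B ∪ T := subset_insert_iff_of_notMem he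
    simp [he, this]

theorem psi_eq_phi (f : Finset V → ℝ) (p : ℝ) (E : Finset (Finset V)) (B B' L S : Finset V) :
    psi f p E B L S = phi f L B' (fun T => (-p) ^ T.card * PP f E (B ∪ T)) ∅ S := by
  unfold psi phi
  refine Finset.sum_congr rfl fun T _ => ?_
  simp [PP]

theorem psi_insert (f : Finset V → ℝ) (p : ℝ) (E : Finset (Finset V)) (B L S : Finset V) (v : V)
    (hvL : v ∉ L) (hvB : v ∉ B) :
    psi f p E B (insert v L) S = psi f p E B L S - p *
      phi f L (insert v B) (fun T => (-p) ^ T.card * PP f E (B ∪ T))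
        (E.filter fun e => v ∈ e) (S.erase v) := by
  unfold psi phi
  rw [Finset.sum_powerset_insert hvL, Finset.mul_sum, sub_eq_add_neg, ← Finset.sum_neg_distrib]
  congr 1
  refine Finset.sum_congr rfl fun T hT => ?_
  have hvT : v ∉ T := fun h => hvL (mem_powerset.1 hT h)
  have e : S ⊆ insert v T ↔ S.erase v ⊆ T := subset_insert_iff
  by_cases h : S.erase v ⊆ T
  · rw [if_pos h, if_pos (e.2 h), card_insert_of_notMem hvT,
      PP_insert f E B T v (by simp [hvB, hvT])]
    ring
  · rw [if_neg h, if_neg (fun h' => h (e.1 h'))]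
    simp

theorem psi_zero (f : Finset V → ℝ) (p : ℝ) (E : Finset (Finset V)) (B L S : Finset V)
    (h : ¬ S ⊆ L) : psi f p E B L S = 0 := by
  unfold psi
  refine Finset.sum_eq_zero fun T hT => ?_
  rw [if_neg (fun h' => h (h'.trans (mem_powerset.1 hT)))]

theorem triv_bound (L S : Finset V) (p : ℝ) (hp : 0 ≤ p) (ω : Finset V → ℝ)
    (hω : ∀ T, |ω T| ≤ p ^ T.card) :
    ∑ T ∈ L.powerset, (if S ⊆ T then |ω T| else 0) ≤ p ^ S.card * (1 + p) ^ L.card := by
  by_cases h : S ⊆ L
  · rw [sum_superset L S h (fun T => |ω T|)]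
    calc ∑ U ∈ (L \ S).powerset, |ω (S ∪ U)| ≤ ∑ U ∈ (L \ S).powerset, p ^ S.card * p ^ U.card := by
          refine Finset.sum_le_sum fun U hU => (hω _).trans ?_
          have : Disjoint S U :=
            Finset.disjoint_of_subset_right (mem_powerset.1 hU) disjoint_sdiff
          rw [card_union_of_disjoint this, pow_add]
      _ = p ^ S.card * (1 + p) ^ (L \ S).card := by rw [← Finset.mul_sum, sum_pow_card]
      _ ≤ _ := by
          refine mul_le_mul_of_nonneg_left ?_ (pow_nonneg hp _)
          exact pow_le_pow_right₀ (by linarith) (card_le_card sdiff_subset)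
  · rw [Finset.sum_eq_zero]
    · positivity
    · intro T hT
      rw [if_neg (fun h' => h (h'.trans (mem_powerset.1 hT)))]

theorem main_induct (f : Finset V → ℝ) (h0 : ∀ a, 0 ≤ f a) (h1 : ∀ a, f a ≤ 1)
    (E : Finset (Finset V)) (B : Finset V) (hE : ∀ e ∈ E, ¬ e ⊆ B)
    (p ξ κ σ : ℝ) (n s0 : ℕ) (hp : 0 ≤ p) (hξ : 1 ≤ ξ) (hσ0 : 0 ≤ σ) (hκ0 : 0 ≤ κ)
    (hκ : 1 + σ * κ ≤ κ) (hσκ : σ * κ ≤ 1) (hpκ : p * κ < 1) (hξκ : κ ≤ ξ * (1 - p * κ))
    (hs0 : 0 < s0) (h3 : (1 + p) ^ n ≤ ξ ^ s0 * (1 - p * κ) ^ n)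
    (hs : ∀ v, v ∉ B → ∀ S : Finset V, S.card < s0 →
      ∑ a ∈ (E.filter fun e => v ∈ e).filter (fun a => ¬ a ⊆ insert v B ∪ S),
        f a * (p * ξ) ^ (a \ (insert v B ∪ S)).card ≤ σ) :
    ∀ k : ℕ, k ≤ n → ∀ L : Finset V, L.card = k → Disjoint L B →
      (1 - p * κ) ^ k ≤ psi f p E B L ∅ ∧
      psi f p E B L ∅ ≤ Real.exp (-(p * (1 - σ * κ) *
        ∑ v ∈ L, PP f (E.filter fun e => v ∈ e) (insert v B))) ∧
      ∀ S, |psi f p E B L S| ≤ (p * ξ) ^ S.card * psi f p E B L ∅ := by
  have hq : 0 < 1 - p * κ := by linarith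
  have hκ1 : 1 ≤ κ := by nlinarith [mul_nonneg hσ0 hκ0]
  intro k
  induction k with
  | zero =>
    intro _ L hL _
    rw [card_eq_zero] at hL
    subst hL
    have e : psi f p E B ∅ ∅ = 1 := by
      simp only [psi, powerset_empty, sum_singleton, Subset.refl, if_true, card_empty, pow_zero,
        one_mul, union_empty, PP]
      exact Finset.prod_eq_one fun e he => if_neg (hE e he)
    refine ⟨by simp [e], by simp [e], fun S => ?_⟩
    by_cases hS : S = ∅
    · subst hS; simp [e]
    · rw [psi_zero f p E B ∅ S (by simpa using hS), e]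
      simp only [abs_zero]
      positivity
  | succ k ih =>
    intro hk L hL hd
    have key : ∀ v ∈ L,
        (1 - p * κ) ^ k ≤ psi f p E B (L.erase v) ∅ ∧
        psi f p E B (L.erase v) ∅ ≤ Real.exp (-(p * (1 - σ * κ) *
          ∑ v ∈ L.erase v, PP f (E.filter fun e => v ∈ e) (insert v B))) ∧
        (1 - p * κ) * psi f p E B (L.erase v) ∅ ≤ psi f p E B L ∅ ∧
        psi f p E B L ∅ ≤ (1 - p * (1 - σ * κ) * PP f (E.filter fun e => v ∈ e) (insert v B)) *
          psi f p E B (L.erase v) ∅ ∧
        ∀ S, v ∈ S → |psi f p E B L S| ≤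
          p * (κ * psi f p E B (L.erase v) ∅ * (p * ξ) ^ (S.erase v).card) := by
      intro v hv
      have hvB : v ∉ B := Finset.disjoint_left.1 hd hv
      have hc : (L.erase v).card = k := by rw [card_erase_of_mem hv]; omega
      obtain ⟨a1, a2, a3⟩ := ih (by omega) (L.erase v) hc
        (Finset.disjoint_of_subset_left (erase_subset v L) hd)
      set Z := psi f p E B (L.erase v) ∅ with hZ
      have hZ0 : 0 ≤ Z := le_trans (pow_nonneg hq.le _) a1
      set ω : Finset V → ℝ := fun T => (-p) ^ T.card * PP f E (B ∪ T) with hω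
      have hωb : ∀ T, |ω T| ≤ p ^ T.card := by
        intro T
        simp only [hω, abs_mul, abs_pow, abs_neg, abs_of_nonneg hp,
          abs_of_nonneg (PP_nonneg h1 _ _)]
        exact mul_le_of_le_one_right (pow_nonneg hp _) (PP_le_one h0 h1 _ _)
      obtain ⟨k1, k2⟩ := kernel f h0 h1 (L.erase v) (insert v B) ω (E.filter fun e => v ∈ e)
        (p * ξ) Z κ σ s0 (by positivity) hZ0 hσ0 hκ0 hκ
        (fun S => by rw [← psi_eq_phi]; exact a3 S)
        (fun S hS => by
          refine (triv_bound _ S p hp ω hωb).trans ?_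
          rw [hc, mul_pow, mul_assoc]
          refine mul_le_mul_of_nonneg_left ?_ (pow_nonneg hp _)
          have b1 : (1 + p) ^ k ≤ ξ ^ s0 * (1 - p * κ) ^ k := by
            obtain ⟨j, rfl⟩ : ∃ j, n = k + j := ⟨n - k, by omega⟩
            rw [pow_add, pow_add] at h3
            have c1 : (1 - p * κ) ^ j ≤ (1 + p) ^ j :=
              pow_le_pow_left₀ hq.le (by nlinarith) j
            have c2 : 0 < (1 - p * κ) ^ j := pow_pos hq j
            have c3 : 0 ≤ (1 + p) ^ k := by positivity
            have c4 : (1 + p) ^ k * (1 - p * κ) ^ j ≤ (ξ ^ s0 * (1 - p * κ) ^ k) * (1 - p * κ) ^ j := by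
              calc _ ≤ (1 + p) ^ k * (1 + p) ^ j := mul_le_mul_of_nonneg_left c1 c3
                _ ≤ _ := by rw [mul_assoc]; exact h3
            exact le_of_mul_le_mul_right c4 c2
          refine b1.trans (mul_le_mul (pow_le_pow_right₀ hξ hS) a1 (pow_nonneg hq.le _)
            (by positivity)))
        (hs v hvB)
      have hLi : L = insert v (L.erase v) := (insert_erase hv).symm
      have rec1 : ∀ S, psi f p E B L S = psi f p E B (L.erase v) S - p *
          phi f (L.erase v) (insert v B) ω (E.filter fun e => v ∈ e) (S.erase v) := by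
        intro S
        conv_lhs => rw [hLi]
        exact psi_insert f p E B (L.erase v) S v (notMem_erase v L) hvB
      have r0 := rec1 ∅
      rw [erase_empty, ← hZ] at r0
      refine ⟨a1, a2, ?_, ?_, ?_⟩
      · have := k1 ∅ _ le_rfl
        simp only [card_empty, pow_zero, mul_one] at this
        have := (abs_le.1 this).2
        rw [r0]
        nlinarith
      · have b1 := k2 hs0 ((E.filter fun e => v ∈ e).filter fun a => ¬ a ⊆ insert v B ∪ ∅)
          (filter_subset _ _) (fun a ha => by simpa using (mem_filter.1 ha).2)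
        rw [← psi_eq_phi, ← hZ] at b1
        have b2 := (abs_le.1 b1).1
        rw [r0, phi_split, union_empty]
        rw [union_empty] at b2
        have b3 := PP_nonneg h1 (E.filter fun e => v ∈ e) (insert v B)
        have b4 := mul_le_mul_of_nonneg_left b2 (mul_nonneg hp b3)
        nlinarith
      · intro S hS
        rw [rec1 S, psi_zero f p E B (L.erase v) S (fun h => notMem_erase v L (h hS)), zero_sub,
          abs_neg, abs_mul, abs_of_nonneg hp]
        exact mul_le_mul_of_nonneg_left (k1 _ _ le_rfl) hp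
    have hne : L.Nonempty := by rw [← card_pos]; omega
    obtain ⟨v, hv⟩ := hne
    obtain ⟨a1, a2, a3, a4, -⟩ := key v hv
    have hpos : (1 - p * κ) ^ (k + 1) ≤ psi f p E B L ∅ := by
      refine le_trans ?_ a3
      rw [pow_succ']
      exact mul_le_mul_of_nonneg_left a1 hq.le
    refine ⟨hpos, ?_, fun S => ?_⟩
    · refine a4.trans ?_
      rw [← Finset.add_sum_erase L _ hv, mul_add, neg_add, Real.exp_add]
      refine mul_le_mul ?_ a2 (le_trans (pow_nonneg hq.le _) a1) (Real.exp_pos _).le
      have := Real.add_one_le_exp (-(p * (1 - σ * κ) * PP f (E.filter fun e => v ∈ e) (insert v B)))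
      linarith
    · have hZ0 : 0 ≤ psi f p E B L ∅ := le_trans (pow_nonneg hq.le _) hpos
      by_cases hS : S = ∅
      · subst hS
        simp [abs_of_nonneg hZ0]
      by_cases hSL : S ⊆ L
      · obtain ⟨u, hu⟩ := nonempty_iff_ne_empty.2 hS
        obtain ⟨b1, -, b3, -, b5⟩ := key u (hSL hu)
        refine (b5 S hu).trans ?_
        have hc : S.card = (S.erase u).card + 1 := (card_erase_add_one hu).symm
        rw [hc, pow_succ]
        have c0 : 0 ≤ psi f p E B (L.erase u) ∅ := le_trans (pow_nonneg hq.le _) b1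
        have c1 : κ * psi f p E B (L.erase u) ∅ ≤ ξ * psi f p E B L ∅ := by
          calc _ ≤ ξ * (1 - p * κ) * psi f p E B (L.erase u) ∅ :=
                mul_le_mul_of_nonneg_right hξκ c0
            _ = ξ * ((1 - p * κ) * psi f p E B (L.erase u) ∅) := by ring
            _ ≤ _ := mul_le_mul_of_nonneg_left b3 (by linarith)
        have c2 : 0 ≤ p * (p * ξ) ^ (S.erase u).card := by positivity
        calc _ = p * (p * ξ) ^ (S.erase u).card * (κ * psi f p E B (L.erase u) ∅) := by ring
          _ ≤ p * (p * ξ) ^ (S.erase u).card * (ξ * psi f p E B L ∅) :=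
              mul_le_mul_of_nonneg_left c1 c2
          _ = _ := by ring
      · rw [psi_zero f p E B L S hSL, abs_zero]
        positivity

end Pool.Agent.P.MP_be5a37_co
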