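import Pool.Agent.P.MP_be5a37_co.KSwitch
import Pool.Agent.P.MP_9cda65_co.Absorb

set_option autoImplicit false
set_option linter.unusedSectionVars false

namespace Pool.Agent.P.MP_be5a37_co.Kq

open Finset Pool.Agent.P.MP_9cda65_co

variable {r : ℕ}

/-- Moving all stars to one hub. -/
theorem eqv_hub (hr : 0 < r) {ι : Type} [DecidableEq ι] (c g : ι → ℕ) (p : ℕ)
    (hg : Function.Injective g) (h1 : ∀ i j, c i ≠ g j) (h2 : ∀ i, c i ≠ p) (h3 : ∀ j, p ≠ g j) :
    ∀ (n : ℕ) (I : Finset ι), I.card = n → (∀ x, r ∣ (I.filter fun i => c i = x).card) →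
      Eqv r (I.image fun i => s(c i, g i)) (I.image fun i => s(p, g i)) := by
  intro n
  induction n using Nat.strong_induction_on with
  | _ n ih =>
  intro I hn hd
  rcases I.eq_empty_or_nonempty with rfl | ⟨i0, hi0⟩
  · exact Eqv.of_dec KDec.empty KDec.empty
  obtain ⟨J, hJ, hJc⟩ := exists_subset_card_eq (s := I.filter fun i => c i = c i0) (n := r)
    (Nat.le_of_dvd (card_pos.2 ⟨i0, mem_filter.2 ⟨hi0, rfl⟩⟩) (hd _))
  have hJI : J ⊆ I := hJ.trans (filter_subset _ _)
  have hJ' : ∀ i ∈ J, c i = c i0 := fun i hi => (mem_filter.1 (hJ hi)).2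
  have q1 := eqv_star hr (L := J.image g) (h2 i0)
    (fun h => by obtain ⟨j, -, h⟩ := mem_image.1 h; exact h1 _ _ h.symm)
    (fun h => by obtain ⟨j, -, h⟩ := mem_image.1 h; exact h3 _ h.symm)
    (by rw [card_image_of_injective _ hg, hJc])
  have q2 := ih (I \ J).card (by have := card_sdiff_add_card_eq_card hJI; omega) (I \ J) rfl
    fun x => by
      by_cases hx : x = c i0
      · have e : ((I \ J).filter fun i => c i = x) = (I.filter fun i => c i = c i0) \ J := by
          ext i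
          simp only [mem_filter, mem_sdiff, hx]
          tauto
        rw [e, card_sdiff_of_subset hJ, hJc]
        exact Nat.dvd_sub (hd _) dvd_rfl
      · have e : ((I \ J).filter fun i => c i = x) = I.filter fun i => c i = x := by
          ext i
          simp only [mem_filter, mem_sdiff]
          exact ⟨fun h => ⟨h.1.1, h.2⟩,
            fun h => ⟨⟨h.1, fun h' => hx (h.2.symm.trans (hJ' i h'))⟩, h.2⟩⟩
        rw [e]
        exact hd x
  have e1 : fan (c i0) (J.image g) = J.image fun i => s(c i, g i) := by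
    rw [fan, image_image]
    exact image_congr fun i hi => by simp [hJ' i hi]
  have e2 : fan p (J.image g) = J.image fun i => s(p, g i) := by
    rw [fan, image_image]; rfl
  rw [e1, e2] at q1
  have key : ∀ c' : ι → ℕ, (∀ i j, c' i ≠ g j) → Disjoint (J.image fun i => s(c' i, g i))
      ((I \ J).image fun i => s(c' i, g i)) := by
    intro c' hc'
    rw [disjoint_left]
    intro e he he'
    obtain ⟨i, hi, rfl⟩ := mem_image.1 he
    obtain ⟨j, hj, h⟩ := mem_image.1 he'
    rcases Sym2.eq_iff.1 h with h | h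
    · exact (mem_sdiff.1 hj).2 (hg h.2 ▸ hi)
    · exact hc' _ _ h.1
  have q := q1.union q2 (key c h1) (key (fun _ => p) fun _ => h3)
  rwa [← image_union, ← image_union, union_sdiff_of_subset hJI] at q

/-- `X i, Y i` list the edges of `H`. -/
def Lists {m : ℕ} (H : Finset (Sym2 ℕ)) (X Y : Fin m → ℕ) : Prop :=
  (∀ i, X i ≠ Y i) ∧ (Function.Injective fun i => s(X i, Y i)) ∧
    H = univ.image fun i => s(X i, Y i)

theorem exists_lists {m : ℕ} {H : Finset (Sym2 ℕ)} (hl : ∀ e ∈ H, ¬ e.IsDiag) (hm : H.card = m) :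
    ∃ X Y : Fin m → ℕ, Lists H X Y := by
  subst hm
  have h : ∀ i : Fin H.card, ∃ x y, s(x, y) = (H.equivFin.symm i : Sym2 ℕ) := by
    intro i
    induction (H.equivFin.symm i : Sym2 ℕ) using Sym2.ind with
    | _ x y => exact ⟨x, y, rfl⟩
  choose X Y h using h
  refine ⟨X, Y, fun i hi => hl _ (H.equivFin.symm i).2 (h i ▸ Sym2.mk_isDiag_iff.2 hi),
    fun i j hij => ?_, ?_⟩
  · simp only [h] at hij
    exact H.equivFin.symm.injective (Subtype.ext hij)
  · ext e
    simp only [mem_image, mem_univ, true_and, h]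
    exact ⟨fun he => ⟨H.equivFin ⟨e, he⟩, by simp⟩, fun ⟨i, hi⟩ => hi ▸ Subtype.property _⟩

theorem Lists.fibre {m : ℕ} {H : Finset (Sym2 ℕ)} {X Y : Fin m → ℕ} (h : Lists H X Y) (x : ℕ) :
    (univ.filter fun d : Fin m ⊕ Fin m => Sum.elim X Y d = x).card = deg H x := by
  obtain ⟨h1, h2, rfl⟩ := h
  unfold deg
  rw [filter_image, card_image_of_injective _ h2]
  refine card_bij (fun d _ => Sum.elim id id d) ?_ ?_ ?_
  · rintro (i | i) hi <;> simp only [mem_filter, mem_univ, true_and, Sum.elim_inl,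
      Sum.elim_inr] at hi <;> simp [hi]
  · rintro (i | i) hi (j | j) hj hij <;> simp only [mem_filter, mem_univ, true_and, Sum.elim_inl,
      Sum.elim_inr, id] at hi hj hij <;> subst hij
    · rfl
    · exact absurd (hi.trans hj.symm) (h1 i)
    · exact absurd (hj.trans hi.symm) (h1 i)
    · rfl
  · intro i hi
    simp only [mem_filter, mem_univ, true_and, Sym2.mem_iff] at hi
    rcases hi with hi | hi
    · exact ⟨Sum.inl i, by simp [hi], rfl⟩
    · exact ⟨Sum.inr i, by simp [hi], rfl⟩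

/-- Cutting every edge into two half-edges. -/
theorem Lists.eqv (hr : 0 < r) {m : ℕ} {H : Finset (Sym2 ℕ)} {X Y : Fin m → ℕ} (h : Lists H X Y)
    (g : Fin m ⊕ Fin m → ℕ) (hg : Function.Injective g) (hc : ∀ i j, Sum.elim X Y i ≠ g j) :
    Eqv r (H ∪ univ.image fun i => s(g (Sum.inl i), g (Sum.inr i)))
      (univ.image fun d => s(Sum.elim X Y d, g d)) := by
  obtain ⟨h1, h2, rfl⟩ := h
  have hX : ∀ i j, X i ≠ g j := fun i j => hc (Sum.inl i) j
  have hY : ∀ i j, Y i ≠ g j := fun i j => hc (Sum.inr i) j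
  have q := Eqv.biUnion (r := r) univ
    (fun i => {s(Y i, X i), s(g (Sum.inl i), g (Sum.inr i))})
    (fun i => {s(g (Sum.inl i), X i), s(Y i, g (Sum.inr i))})
    (fun i _ => eqv_c4 hr (hY _ _) (h1 i).symm (hX _ _).symm (hY _ _) fun h => by
      simpa using hg h)
    (fun i _ j _ hij => by
      have a1 : s(Y i, X i) ≠ s(Y j, X j) := fun h => hij (h2 (by
        simp only [Sym2.eq_swap (a := X _)]; exact h))
      simp only [disjoint_insert_left, disjoint_singleton_left, mem_insert, mem_singleton, not_or]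
      refine ⟨⟨a1, ?_⟩, ?_, ?_⟩ <;>
        simp [hX, hY, (hX _ _).symm, (hY _ _).symm, hg.eq_iff, hij])
    (fun i _ j _ hij => by
      simp [hX, hY, (hX _ _).symm, (hY _ _).symm, hg.eq_iff, hij.symm])
  refine (congrArg₂ (Eqv r) ?_ ?_).mp q
  · ext e
    simp only [mem_biUnion, mem_univ, true_and, mem_insert, mem_singleton, mem_union, mem_image]
    constructor
    · rintro ⟨i, rfl | rfl⟩
      · exact Or.inl ⟨i, Sym2.eq_swap⟩
      · exact Or.inr ⟨i, rfl⟩
    · rintro (⟨i, rfl⟩ | ⟨i, rfl⟩)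
      · exact ⟨i, Or.inl Sym2.eq_swap⟩
      · exact ⟨i, Or.inr rfl⟩
  · ext e
    simp only [mem_biUnion, mem_univ, true_and, mem_insert, mem_singleton, mem_image]
    constructor
    · rintro ⟨i, rfl | rfl⟩
      · exact ⟨Sum.inl i, Sym2.eq_swap⟩
      · exact ⟨Sum.inr i, rfl⟩
    · rintro ⟨i | i, rfl⟩
      · exact ⟨i, Or.inl Sym2.eq_swap⟩
      · exact ⟨i, Or.inr rfl⟩

theorem Lists.mem {m : ℕ} {H : Finset (Sym2 ℕ)} {X Y : Fin m → ℕ} (h : Lists H X Y)
    (d : Fin m ⊕ Fin m) : ∃ e ∈ H, Sum.elim X Y d ∈ e := by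
  obtain ⟨-, -, rfl⟩ := h
  rcases d with i | i <;> exact ⟨_, mem_image.2 ⟨i, mem_univ _, rfl⟩, by simp⟩

/-- Vertex-disjoint graphs with the same size and degrees divisible by `r` are exchangeable. -/
theorem eqv_same (hr : 0 < r) {H H' : Finset (Sym2 ℕ)} (hl : ∀ e ∈ H, ¬ e.IsDiag)
    (hl' : ∀ e ∈ H', ¬ e.IsDiag) (hd : ∀ v, r ∣ deg H v) (hd' : ∀ v, r ∣ deg H' v)
    (hc : H'.card = H.card) (hv : ∀ e ∈ H, ∀ e' ∈ H', ∀ v ∈ e, v ∉ e') : Eqv r H H' := by
  obtain ⟨X, Y, l1⟩ := exists_lists hl rfl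
  obtain ⟨X', Y', l2⟩ := exists_lists hl' hc
  refine Eqv.gen fun Z z1 z2 => ?_
  obtain ⟨p, hp, e1⟩ := ext_vertex (D := 2 * r + 2) Z
  obtain ⟨g, g1, g2⟩ := exists_fresh (Fin H.card ⊕ Fin H.card) (insert p Z)
  set c := Sum.elim X Y with hcdef
  set c' := Sum.elim X' Y' with hcdef'
  have c1 : ∀ d, c d ∈ Z := fun d => by
    obtain ⟨e, he, h⟩ := l1.mem d
    exact mem_sym2_iff.1 (z1 he) _ h
  have c2 : ∀ d, c' d ∈ Z := fun d => by
    obtain ⟨e, he, h⟩ := l2.mem d
    exact mem_sym2_iff.1 (z2 he) _ h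
  have c3 : ∀ d d', c d ≠ c' d' := fun d d' h0 => by
    obtain ⟨e, he, h⟩ := l1.mem d
    obtain ⟨e', he', h'⟩ := l2.mem d'
    exact hv e he e' he' _ h (by rw [← hcdef, h0]; exact h')
  have n1 : ∀ z ∈ insert p Z, ∀ j, z ≠ g j := fun z hz j h => g2 j (h ▸ hz)
  have n2 : ∀ z ∈ Z, z ≠ p := fun z hz h => hp (h ▸ hz)
  have m1 : ∀ d, c d ∈ insert p Z := fun d => mem_insert_of_mem (c1 d)
  have m2 : ∀ d, c' d ∈ insert p Z := fun d => mem_insert_of_mem (c2 d)
  have m3 : ∀ _ : Fin H.card ⊕ Fin H.card, p ∈ insert p Z := fun _ => mem_insert_self _ _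
  set M := univ.image fun i => s(g (Sum.inl i), g (Sum.inr i)) with hM
  set St : (Fin H.card ⊕ Fin H.card → ℕ) → Finset (Sym2 ℕ) :=
    fun c => univ.image fun d => s(c d, g d) with hSt
  have q1 : Eqv r (H ∪ M) (St c) := l1.eqv hr g g1 fun i j => n1 _ (m1 i) j
  have q2 : Eqv r (H' ∪ M) (St c') := l2.eqv hr g g1 fun i j => n1 _ (m2 i) j
  have q3 : Eqv r (St c) (St fun _ => p) := eqv_hub hr c g p g1 (fun i j => n1 _ (m1 i) j)
    (fun i => n2 _ (c1 i)) (fun j => n1 _ (m3 j) j) _ univ rfl fun x => l1.fibre x ▸ hd x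
  have q4 : Eqv r (St c') (St fun _ => p) := eqv_hub hr c' g p g1 (fun i j => n1 _ (m2 i) j)
    (fun i => n2 _ (c2 i)) (fun j => n1 _ (m3 j) j) _ univ rfl fun x => l2.fibre x ▸ hd' x
  have d1 : ∀ G : Finset (Sym2 ℕ), G ⊆ Z.sym2 → ∀ b : Fin H.card ⊕ Fin H.card → ℕ,
      (∀ d, b d ∈ insert p Z) → Disjoint (G ∪ M) (St b) := by
    intro G hG b hb
    rw [disjoint_right]
    intro e he he'
    obtain ⟨d, -, rfl⟩ := mem_image.1 he
    rcases mem_union.1 he' with h | h
    · exact g2 d (mem_insert_of_mem (mk_mem_sym2_iff.1 (hG h)).2)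
    · obtain ⟨i, -, h⟩ := mem_image.1 h
      rcases Sym2.eq_iff.1 h with h | h
      · exact n1 _ (hb d) _ h.1.symm
      · exact n1 _ (hb d) _ h.2.symm
  have d2 : ∀ b b' : Fin H.card ⊕ Fin H.card → ℕ, (∀ d, b d ∈ insert p Z) →
      (∀ d d', b d ≠ b' d') → Disjoint (St b) (St b') := by
    intro b b' hb hbb
    rw [disjoint_left]
    intro e he he'
    obtain ⟨d, -, rfl⟩ := mem_image.1 he
    obtain ⟨d', -, h⟩ := mem_image.1 he'
    rcases Sym2.eq_iff.1 h with h | h
    · exact hbb _ _ h.1.symm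
    · exact n1 _ (hb d) _ h.2.symm
  have d3 := d2 c c' m1 c3
  have d4 := d2 c (fun _ => p) m1 fun d _ => n2 _ (c1 d)
  have d5 := d2 c' (fun _ => p) m2 fun d _ => n2 _ (c2 d)
  have q := q1.union (q2.symm.union (q3.union q4.symm d4 d5.symm)
    (disjoint_union_right.2 ⟨d3.symm, d5⟩)
    (disjoint_union_right.2 ⟨d1 H' z2 _ m3, d1 H' z2 _ m2⟩))
    (disjoint_union_right.2 ⟨d1 H z1 _ m2,
      disjoint_union_right.2 ⟨d1 H z1 _ m1, d1 H z1 _ m3⟩⟩)
    (disjoint_union_right.2 ⟨(d1 H' z2 _ m1).symm, disjoint_union_right.2 ⟨d4, d3⟩⟩)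
  have s1 : ∀ b : Fin H.card ⊕ Fin H.card → ℕ, (∀ d, b d ∈ insert p Z) →
      (∀ e ∈ St b, ¬ e.IsDiag ∧ e ∈ (insert p Z ∪ univ.image g).sym2 ∧
        ∃ v ∈ e, v ∈ univ.image g) ∧ ∀ v ∈ univ.image g, deg (St b) v ≤ 1 := by
    intro b hb
    refine ⟨fun e he => ?_, fun v hv => ?_⟩
    · obtain ⟨d, -, rfl⟩ := mem_image.1 he
      exact ⟨by simpa using n1 _ (hb d) d, mk_mem_sym2_iff.2 ⟨mem_union_left _ (hb d),
        mem_union_right _ (mem_image_of_mem _ (mem_univ _))⟩, g d, by simp, by simp⟩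
    · obtain ⟨d, -, rfl⟩ := mem_image.1 hv
      refine deg_le_one _ _ fun i _ j _ h h' => ?_
      have a1 := g1 ((Sym2.mem_iff.1 h).resolve_left (n1 _ (hb i) d).symm)
      have a2 := g1 ((Sym2.mem_iff.1 h').resolve_left (n1 _ (hb j) d).symm)
      rw [← a1, ← a2]
  have s2 : (∀ e ∈ M, ¬ e.IsDiag ∧ e ∈ (insert p Z ∪ univ.image g).sym2 ∧
        ∃ v ∈ e, v ∈ univ.image g) ∧ ∀ v ∈ univ.image g, deg M v ≤ 1 := by
    refine ⟨fun e he => ?_, fun v _ => ?_⟩
    · obtain ⟨d, -, rfl⟩ := mem_image.1 he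
      exact ⟨by simp [g1.eq_iff], mk_mem_sym2_iff.2
        ⟨mem_union_right _ (mem_image_of_mem _ (mem_univ _)),
        mem_union_right _ (mem_image_of_mem _ (mem_univ _))⟩, g (Sum.inl d), by simp, by simp⟩
    · refine deg_le_one _ _ fun i _ j _ h h' => ?_
      have : i = j := by
        rcases Sym2.mem_iff.1 h with rfl | rfl <;> simpa [g1.eq_iff] using h'
      rw [this]
  have e2 := ext_of_deg (D := 2 * r + 2) (insert p Z) (univ.image g)
    (M ∪ (St c' ∪ (St c ∪ St fun _ => p)))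
    (fun v hv => by obtain ⟨d, -, rfl⟩ := mem_image.1 hv; exact g2 d)
    (fun e he => by
      simp only [mem_union] at he
      rcases he with h | h | h | h
      exacts [s2.1 e h, (s1 _ m2).1 e h, (s1 _ m1).1 e h, (s1 _ m3).1 e h])
    (fun v hv => by
      have a1 := deg_union_le M (St c' ∪ (St c ∪ St fun _ => p)) v
      have a2 := deg_union_le (St c') (St c ∪ St fun _ => p) v
      have a3 := deg_union_le (St c) (St fun _ => p) v
      have a4 := s2.2 v hv
      have a5 := (s1 _ m1).2 v hv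
      have a6 := (s1 _ m2).2 v hv
      have a7 := (s1 _ m3).2 v hv
      omega)
  have e3 := e1.trans e2
  rw [empty_union] at e3
  refine ⟨_, _, e3, (congrArg₂ (Eqv r) ?_ ?_).mp q⟩
  · rw [union_assoc]
  · ext e
    simp only [mem_union]
    tauto

theorem fresh_cliques (k : ℕ) (Z : Finset ℕ) : ∃ B Z', Ext (2 * r + 2) Z B Z' ∧
    B.card = (r + 1).choose 2 * k ∧ KDec (r + 1) B ∧ ∀ e ∈ B, ∀ v ∈ e, v ∉ Z := by
  induction k with
  | zero => exact ⟨∅, Z, Ext.refl, rfl, KDec.empty, by simp⟩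
  | succ k ih =>
    obtain ⟨B, Z1, e1, b2, b3, b4⟩ := ih
    obtain ⟨g, g1, g2⟩ := exists_fresh ℕ Z1
    have hN : ∀ v ∈ (range (r + 1)).image g, v ∉ Z1 := fun v hv => by
      obtain ⟨p, -, rfl⟩ := mem_image.1 hv
      exact g2 p
    have hc : ((range (r + 1)).image g).card = r + 1 := by
      rw [card_image_of_injective _ g1, card_range]
    have e2 := ext_of_deg (D := 2 * r + 2) Z1 _ (kq ((range (r + 1)).image g)) hN
      (fun e he => ⟨(on_kq _ e he).1, sym2_mono subset_union_right (kq_sub _ he), by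
        induction e using Sym2.ind with
        | _ a b => exact ⟨a, by simp, (mk_mem_kq.1 he).1⟩⟩)
      (fun v _ => (deg_kq_le _ v).trans (by omega))
    have hd : Disjoint B (kq ((range (r + 1)).image g)) := (e2.disj e1.sub).symm
    refine ⟨_, _, e1.trans e2, ?_, KDec.cons b3 ⟨_, hc, rfl⟩ hd, fun e he v hv => ?_⟩
    · rw [card_union_of_disjoint hd, b2, card_kq, hc]; ring
    · rcases mem_union.1 he with he | he
      · exact b4 e he v hv
      · exact fun hz => hN v (mem_of_mem_kq he hv) (e1.subset hz)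

theorem eqv_empty (hr : 0 < r) {H : Finset (Sym2 ℕ)} (hl : ∀ e ∈ H, ¬ e.IsDiag)
    (he : ∀ v, r ∣ deg H v) (hc : (r + 1).choose 2 ∣ H.card) : Eqv r H ∅ := by
  obtain ⟨k, hk⟩ := hc
  refine Eqv.gen fun Z hZ _ => ?_
  obtain ⟨B, Z', e1, b1, b2, b3⟩ := fresh_cliques (r := r) k Z
  refine ⟨B, Z', e1, ?_⟩
  have q := (eqv_same hr hl b2.not_isDiag he b2.dvd_deg (b1.trans hk.symm)
    fun e he e' he' v hv hv' => b3 e' he' v hv' (mem_sym2_iff.1 (hZ he) v hv)).union
      (Eqv.of_dec b2 KDec.empty) (e1.disj hZ).symm (by simp)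
  simpa using q

theorem exists_abstract (Z : Finset ℕ) (F : Finset (Finset (Sym2 ℕ)))
    (hF : ∀ H ∈ F, H ⊆ Z.sym2 ∧ Eqv r H ∅) :
    ∃ A Z', Ext (2 * r + 2) Z A Z' ∧ KDec (r + 1) A ∧ ∀ H ∈ F, KDec (r + 1) (A ∪ H) := by
  induction F using Finset.induction_on with
  | empty => exact ⟨∅, Z, Ext.refl, KDec.empty, by simp⟩
  | insert H F _ ih =>
    obtain ⟨A, Z1, e1, d1, d2⟩ := ih fun H' h => hF H' (mem_insert_of_mem h)
    obtain ⟨h1, h2⟩ := hF H (mem_insert_self _ _)
    obtain ⟨T, Z2, e2, d3, d4⟩ := h2 Z1 (e1.lift h1) (empty_subset _)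
    rw [union_empty] at d4
    refine ⟨A ∪ T, Z2, e1.trans e2, d1.union d4 (e2.disj e1.sub).symm, fun H' h => ?_⟩
    rcases mem_insert.1 h with rfl | h
    · rw [union_assoc]
      exact d1.union d3 (disjoint_union_right.2 ⟨(e2.disj e1.sub).symm, e1.disj h1⟩)
    · rw [union_right_comm]
      exact (d2 H' h).union d4 (e2.disj (union_subset e1.sub
        (e1.lift (hF H' (mem_insert_of_mem h)).1))).symm

variable {V : Type} [DecidableEq V]

open Abs (map_injOn) in
theorem kdec_map (hr : 0 < r) {φ : ℕ → V} {Z : Finset ℕ} (hφ : Set.InjOn φ Z)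
    {X : Finset (Sym2 ℕ)} (h : KDec (r + 1) X) (hX : X ⊆ Z.sym2) :
    KDec (r + 1) (X.image (Sym2.map φ)) := by
  induction h with
  | empty => simpa using KDec.empty
  | @cons X C _ hC hd ih =>
    rw [union_subset_iff] at hX
    rw [image_union]
    refine KDec.cons (ih hX.1) ?_ ?_
    · obtain ⟨S, h1, rfl⟩ := hC
      have hS : S ⊆ Z := fun v hv => by
        obtain ⟨w, hw, hne⟩ := exists_mem_ne (show 1 < S.card by omega) v
        exact (mk_mem_sym2_iff.1 (hX.2 (mk_mem_kq.2 ⟨hv, hw, hne.symm⟩))).1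
      refine ⟨S.image φ, by rw [card_image_of_injOn (hφ.mono (coe_subset.2 hS)), h1], ?_⟩
      ext e
      constructor
      · intro he
        obtain ⟨e', he', rfl⟩ := mem_image.1 he
        induction e' using Sym2.ind with
        | _ a b =>
          obtain ⟨ha, hb, hab⟩ := mk_mem_kq.1 he'
          exact mk_mem_kq.2 ⟨mem_image_of_mem _ ha, mem_image_of_mem _ hb,
            fun h => hab (hφ (hS ha) (hS hb) h)⟩
      · intro he
        induction e using Sym2.ind with
        | _ a b =>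
          obtain ⟨ha, hb, hab⟩ := mk_mem_kq.1 he
          obtain ⟨a', ha', rfl⟩ := mem_image.1 ha
          obtain ⟨b', hb', rfl⟩ := mem_image.1 hb
          exact mem_image.2 ⟨s(a', b'), mk_mem_kq.2 ⟨ha', hb', fun h => hab (h ▸ rfl)⟩, rfl⟩
    · rw [disjoint_left]
      intro e he he'
      obtain ⟨e1, h1, rfl⟩ := mem_image.1 he
      obtain ⟨e2, h2, h3⟩ := mem_image.1 he'
      have := map_injOn hφ (hX.2 h2) (hX.1 h1) h3
      subst this
      exact disjoint_left.1 hd h1 h2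

theorem embed {D K : ℕ} {E : Finset (Sym2 V)} {W O U : Finset V} (hO : O ⊆ W) (hU : U ⊆ W)
    (hK : ∀ S ⊆ W, S.card ≤ D → K ≤ (O.filter fun y => ∀ a ∈ S, s(a, y) ∈ E).card)
    {Z Z' : Finset ℕ} {A : Finset (Sym2 ℕ)} (h : Ext D Z A Z') (hc : Z'.card ≤ K) (φ : ℕ → V)
    (hφ : Set.InjOn φ Z) (hZ : ∀ v ∈ Z, φ v ∈ U) :
    ∃ ψ : ℕ → V, (∀ v ∈ Z, ψ v = φ v) ∧ Set.InjOn ψ Z' ∧ (∀ v ∈ Z', v ∉ Z → ψ v ∈ O) ∧
      ∀ e ∈ A, Sym2.map ψ e ∈ E := by
  induction h with
  | refl => exact ⟨φ, fun _ _ => rfl, hφ, fun v h h' => absurd h h', by simp⟩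
  | @step A Z' v S h hv hS hS2 ih =>
    rw [card_insert_of_notMem hv] at hc
    obtain ⟨ψ, p1, p2, p3, p4⟩ := ih (by omega)
    have hψW : ∀ z ∈ Z', ψ z ∈ W := fun z hz => by
      by_cases hzZ : z ∈ Z
      · rw [p1 z hzZ]; exact hU (hZ z hzZ)
      · exact hO (p3 z hz hzZ)
    obtain ⟨c, hc1, hc2⟩ : ∃ c ∈ O.filter fun y => ∀ a ∈ S.image ψ, s(a, y) ∈ E,
        c ∉ Z'.image ψ := by
      refine exists_mem_notMem_of_card_lt_card ?_
      have := hK (S.image ψ) (fun a ha => by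
        obtain ⟨z, hz, rfl⟩ := mem_image.1 ha
        exact hψW z (hS hz)) (card_image_le.trans hS2)
      have := card_image_le (s := Z') (f := ψ)
      omega
    rw [mem_filter] at hc1
    have hup : ∀ z ∈ Z', Function.update ψ v c z = ψ z := fun z hz =>
      Function.update_of_ne (fun h : z = v => hv (h ▸ hz)) _ _
    refine ⟨Function.update ψ v c, fun z hz => (hup z (h.subset hz)).trans (p1 z hz), ?_, ?_, ?_⟩
    · intro x hx y hy hxy
      simp only [coe_insert, Set.mem_insert_iff, mem_coe] at hx hy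
      rcases hx with rfl | hx <;> rcases hy with rfl | hy
      · rfl
      · rw [Function.update_self, hup y hy] at hxy
        exact absurd (mem_image.2 ⟨y, hy, hxy.symm⟩) hc2
      · rw [Function.update_self, hup x hx] at hxy
        exact absurd (mem_image.2 ⟨x, hx, hxy⟩) hc2
      · rw [hup x hx, hup y hy] at hxy
        exact p2 hx hy hxy
    · intro z hz hzZ
      rcases mem_insert.1 hz with rfl | hz
      · rw [Function.update_self]; exact hc1.1
      · rw [hup z hz]; exact p3 z hz hzZ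
    · intro e he
      rcases mem_union.1 he with he | he
      · have h1 := h.sub he
        have h2 := p4 e he
        induction e using Sym2.ind with
        | _ x y =>
          rw [mk_mem_sym2_iff] at h1
          rw [Sym2.map_mk, hup x h1.1, hup y h1.2]
          exact h2
      · obtain ⟨z, hz, rfl⟩ := mem_fan.1 he
        rw [Sym2.map_mk, Function.update_self, hup z (hS hz), Sym2.eq_swap]
        exact hc1.2 _ (mem_image_of_mem _ hz)

open Abs (map_injOn) in
/-- A bounded absorber for every divisible graph on the small set `U`. -/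
theorem absorber (hr : 0 < r) (M : ℕ) : ∃ K : ℕ,
    ∀ (V : Type) [DecidableEq V] (E : Finset (Sym2 V)) (W O U : Finset V),
      W.Nonempty → O ⊆ W → U ⊆ W → U.card ≤ M →
      (∀ S ⊆ W, S.card ≤ 2 * r + 2 → K ≤ (O.filter fun y => ∀ a ∈ S, s(a, y) ∈ E).card) →
      ∃ A ⊆ E, A.card ≤ K ∧ (∀ e ∈ A, ∃ v ∈ O, v ∈ e) ∧ KDec (r + 1) A ∧
        ∀ H : Finset (Sym2 V), On H U → (∀ v, r ∣ deg H v) → (r + 1).choose 2 ∣ H.card →
          KDec (r + 1) (A ∪ H) := by
  classical
  have h0 : ∀ n : ℕ, ∃ A Z', Ext (2 * r + 2) (range n) A Z' ∧ KDec (r + 1) A ∧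
      ∀ H : Finset (Sym2 ℕ), H ⊆ (range n).sym2 → (∀ e ∈ H, ¬ e.IsDiag) → (∀ v, r ∣ deg H v) →
        (r + 1).choose 2 ∣ H.card → KDec (r + 1) (A ∪ H) := by
    intro n
    obtain ⟨A, Z', h1, h2, h3⟩ := exists_abstract (range n)
      ((range n).sym2.powerset.filter fun H => Eqv r H ∅)
      (fun H hH => by simpa using hH)
    exact ⟨A, Z', h1, h2, fun H a b c d => h3 H (by simpa using ⟨a, eqv_empty hr b c d⟩)⟩
  choose A Z' h1 h2 h3 using h0
  refine ⟨∑ n ∈ range (M + 1), ((A n).card + (Z' n).card), ?_⟩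
  intro V _ E W O U hW hO hU hM hK
  have hle : (A U.card).card + (Z' U.card).card ≤
      ∑ n ∈ range (M + 1), ((A n).card + (Z' n).card) :=
    single_le_sum (f := fun n => (A n).card + (Z' n).card) (fun _ _ => Nat.zero_le _)
      (mem_range.2 (by omega))
  obtain ⟨w, hw⟩ := id hW
  let φ : ℕ → V := fun i => if h : i < U.card then (U.equivFin.symm ⟨i, h⟩ : V) else w
  have hφ1 : Set.InjOn φ (range U.card) := by
    intro i hi j hj hij
    simp only [coe_range, Set.mem_Iio] at hi hj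
    simp only [φ, dif_pos hi, dif_pos hj] at hij
    simpa using U.equivFin.symm.injective (Subtype.ext hij)
  have hφ2 : ∀ i ∈ range U.card, φ i ∈ U := by
    intro i hi
    simp only [φ, dif_pos (mem_range.1 hi)]
    exact Subtype.property _
  have hφ3 : ∀ u ∈ U, ∃ i ∈ range U.card, φ i = u := by
    intro u hu
    refine ⟨U.equivFin ⟨u, hu⟩, mem_range.2 (Fin.is_lt _), ?_⟩
    simp [φ]
  obtain ⟨ψ, p1, p2, p3, p4⟩ := embed hO hU hK (h1 U.card) (by omega) φ hφ1 hφ2
  refine ⟨(A U.card).image (Sym2.map ψ), ?_, card_image_le.trans (by omega), ?_,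
    kdec_map hr p2 (h2 _) (h1 _).sub, ?_⟩
  · intro e he
    obtain ⟨e', he', rfl⟩ := mem_image.1 he
    exact p4 e' he'
  · intro e he
    obtain ⟨e', he', rfl⟩ := mem_image.1 he
    obtain ⟨q1, v, q2, q3⟩ := (h1 _).edge e' he'
    exact ⟨ψ v, p3 v (mem_sym2_iff.1 q1 v q2) q3, Sym2.mem_map.2 ⟨v, q2, rfl⟩⟩
  · intro H hH he hc
    have hsub := (h1 U.card).subset
    have pinj : Set.InjOn ψ (range U.card) := p2.mono (coe_subset.2 hsub)
    set H0 := (range U.card).sym2.filter fun e => Sym2.map ψ e ∈ H with hH0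
    have hs : H0 ⊆ (range U.card).sym2 := filter_subset _ _
    have him : H0.image (Sym2.map ψ) = H := by
      ext e
      constructor
      · intro he
        obtain ⟨e', he', rfl⟩ := mem_image.1 he
        exact (mem_filter.1 he').2
      · intro he
        induction e using Sym2.ind with
        | _ a b =>
          obtain ⟨i, hi, rfl⟩ := hφ3 a (hH.left he)
          obtain ⟨j, hj, rfl⟩ := hφ3 b (hH.right he)
          have : Sym2.map ψ s(i, j) = s(φ i, φ j) := by rw [Sym2.map_mk, p1 i hi, p1 j hj]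
          exact mem_image.2 ⟨s(i, j), mem_filter.2 ⟨mk_mem_sym2_iff.2 ⟨hi, hj⟩, this ▸ he⟩, this⟩
    have hinj : Set.InjOn (Sym2.map ψ) H0 := (map_injOn pinj).mono (coe_subset.2 hs)
    have := kdec_map hr p2 (h3 U.card H0 hs ?_ ?_ ?_)
      (union_subset (h1 _).sub ((h1 _).lift hs))
    · rwa [image_union, him] at this
    · intro e he hd
      exact (hH _ (mem_filter.1 he).2).1 (hd.map)
    · intro v
      by_cases hv : v ∈ range U.card
      · have h4 : deg H0 v = deg H (ψ v) := by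
          unfold deg
          rw [← him, filter_image, card_image_of_injOn (hinj.mono (coe_subset.2 (filter_subset _ _)))]
          congr 1
          refine filter_congr fun e he => ?_
          rw [Sym2.mem_map]
          constructor
          · exact fun h => ⟨v, h, rfl⟩
          · rintro ⟨z, hz, hzv⟩
            rwa [← pinj (mem_sym2_iff.1 (hs he) z hz) hv hzv]
        rw [h4]; exact he _
      · have h4 : deg H0 v = 0 := by
          unfold deg
          rw [card_eq_zero, filter_eq_empty_iff]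
          exact fun e he h => hv (mem_sym2_iff.1 (hs he) v h)
        simp [h4]
    · rwa [← card_image_of_injOn hinj, him]

end Pool.Agent.P.MP_be5a37_co.Kq
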