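import Pool.Agent.P.MP_9cda65_co.Basic

set_option autoImplicit false
set_option linter.unusedSectionVars false

namespace Pool.Agent.P.MP_be5a37_co.Kq

open Finset Pool.Agent.P.MP_9cda65_co

variable {V : Type} [DecidableEq V]

/-- Edge set of the complete graph on `S`. -/
def kq (S : Finset V) : Finset (Sym2 V) := S.sym2.filter fun e => ¬ e.IsDiag

/-- The edges from `x` to `L`. -/
def fan (x : V) (L : Finset V) : Finset (Sym2 V) := L.image fun v => s(x, v)

/-- `C` is the edge set of a clique on `q` vertices. -/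
def IsK (q : ℕ) (C : Finset (Sym2 V)) : Prop := ∃ S : Finset V, S.card = q ∧ C = kq S

/-- `X` is an edge-disjoint union of cliques on `q` vertices. -/
inductive KDec (q : ℕ) : Finset (Sym2 V) → Prop
  | empty : KDec q ∅
  | cons {X C : Finset (Sym2 V)} : KDec q X → IsK q C → Disjoint X C → KDec q (X ∪ C)

@[simp] theorem mk_mem_kq {S : Finset V} {a b : V} : s(a, b) ∈ kq S ↔ a ∈ S ∧ b ∈ S ∧ a ≠ b := by
  simp [kq, and_assoc]

theorem mem_fan {x : V} {L : Finset V} {e : Sym2 V} : e ∈ fan x L ↔ ∃ v ∈ L, e = s(x, v) := by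
  simp [fan, eq_comm]

theorem mk_mem_fan {x a b : V} {L : Finset V} :
    s(a, b) ∈ fan x L ↔ (a = x ∧ b ∈ L) ∨ (b = x ∧ a ∈ L) := by
  rw [mem_fan]
  constructor
  · rintro ⟨v, hv, h⟩
    rcases Sym2.eq_iff.1 h with ⟨rfl, rfl⟩ | ⟨rfl, rfl⟩
    · exact Or.inl ⟨rfl, hv⟩
    · exact Or.inr ⟨rfl, hv⟩
  · rintro (⟨rfl, h⟩ | ⟨rfl, h⟩)
    · exact ⟨b, h, rfl⟩
    · exact ⟨a, h, Sym2.eq_swap⟩

theorem on_kq (S : Finset V) : On (kq S) S := fun _ he =>
  ⟨(mem_filter.1 he).2, (mem_filter.1 he).1⟩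

theorem kq_sub (S : Finset V) : kq S ⊆ S.sym2 := filter_subset _ _

theorem kq_mono {S T : Finset V} (h : S ⊆ T) : kq S ⊆ kq T :=
  filter_subset_filter _ (sym2_mono h)

theorem mem_of_mem_kq {S : Finset V} {e : Sym2 V} (he : e ∈ kq S) {v : V} (hv : v ∈ e) : v ∈ S :=
  mem_sym2_iff.1 (kq_sub S he) v hv

theorem kq_insert {x : V} {S : Finset V} (hx : x ∉ S) : kq (insert x S) = fan x S ∪ kq S := by
  ext e
  induction e using Sym2.ind with
  | _ a b =>
    simp only [mk_mem_kq, mem_insert, mem_union, mk_mem_fan]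
    constructor
    · rintro ⟨rfl | h1, rfl | h2, h3⟩
      · exact absurd rfl h3
      · exact Or.inl (Or.inl ⟨rfl, h2⟩)
      · exact Or.inl (Or.inr ⟨rfl, h1⟩)
      · exact Or.inr ⟨h1, h2, h3⟩
    · rintro ((⟨rfl, h⟩ | ⟨rfl, h⟩) | ⟨h1, h2, h3⟩)
      · exact ⟨Or.inl rfl, Or.inr h, fun h' => hx (h' ▸ h)⟩
      · exact ⟨Or.inr h, Or.inl rfl, fun h' => hx (h' ▸ h)⟩
      · exact ⟨Or.inr h1, Or.inr h2, h3⟩

theorem fan_union (x : V) (L L' : Finset V) : fan x (L ∪ L') = fan x L ∪ fan x L' :=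
  image_union _ _

theorem fan_insert (x v : V) (L : Finset V) : fan x (insert v L) = insert s(x, v) (fan x L) :=
  image_insert _ _ _

theorem card_fan (x : V) (L : Finset V) : (fan x L).card = L.card :=
  card_image_of_injective _ fun _ _ h => Sym2.congr_right.1 h

theorem deg_kq (S : Finset V) (v : V) : deg (kq S) v = if v ∈ S then S.card - 1 else 0 := by
  rw [← card_nb_eq_deg (fun e he => kq_sub S he)]
  split_ifs with h
  · rw [← card_erase_of_mem h]
    congr 1
    ext y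
    simp only [mem_nb, mk_mem_kq, mem_erase]
    constructor
    · exact fun h' => ⟨h'.2.2.2.symm, h'.1⟩
    · exact fun h' => ⟨h'.2, h, h'.2, h'.1.symm⟩
  · rw [card_eq_zero, eq_empty_iff_forall_notMem]
    intro y hy
    exact h (mk_mem_kq.1 (mem_nb.1 hy).2).1

theorem deg_kq_le (S : Finset V) (v : V) : deg (kq S) v ≤ S.card - 1 := by
  rw [deg_kq]; split_ifs <;> omega

theorem card_kq (S : Finset V) : (kq S).card = S.card.choose 2 := by
  induction S using Finset.induction_on with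
  | empty => simp [kq]
  | insert x S hx ih =>
    rw [kq_insert hx, card_union_of_disjoint, card_fan, ih, card_insert_of_notMem hx,
      Nat.choose_succ_succ' S.card 1, Nat.choose_one_right]
    rw [disjoint_left]
    intro e he he'
    obtain ⟨v, -, rfl⟩ := mem_fan.1 he
    exact hx (mk_mem_kq.1 he').1

theorem disjoint_kq {S T : Finset V} (h : ∀ a ∈ S, ∀ b ∈ S, a ∈ T → b ∈ T → a = b) :
    Disjoint (kq S) (kq T) := by
  rw [disjoint_left]
  intro e he he'
  induction e using Sym2.ind with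
  | _ a b =>
    rw [mk_mem_kq] at he he'
    exact he.2.2 (h a he.1 b he.2.1 he'.1 he'.2.1)

theorem IsK.card {q : ℕ} {C : Finset (Sym2 V)} (h : IsK q C) : C.card = q.choose 2 := by
  obtain ⟨S, rfl, rfl⟩ := h
  exact card_kq S

theorem IsK.dvd_deg {r : ℕ} {C : Finset (Sym2 V)} (h : IsK (r + 1) C) (v : V) : r ∣ deg C v := by
  obtain ⟨S, h, rfl⟩ := h
  rw [deg_kq, h]
  split_ifs <;> simp

theorem IsK.edge {q : ℕ} {C : Finset (Sym2 V)} (h : IsK q C) {e e' : Sym2 V} (he : e ∈ C)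
    (he' : e' ∈ C) {v x : V} (hv : v ∈ e) (hx : x ∈ e') (hne : v ≠ x) : s(v, x) ∈ C := by
  obtain ⟨S, -, rfl⟩ := h
  exact mk_mem_kq.2 ⟨mem_of_mem_kq he hv, mem_of_mem_kq he' hx, hne⟩

theorem IsK.dec {q : ℕ} {C : Finset (Sym2 V)} (h : IsK q C) : KDec q C := by
  simpa using KDec.cons KDec.empty h (by simp)

theorem KDec.union {q : ℕ} {X Y : Finset (Sym2 V)} (hX : KDec q X) (hY : KDec q Y)
    (h : Disjoint X Y) : KDec q (X ∪ Y) := by
  induction hY with
  | empty => simpa using hX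
  | cons hY hC hd ih =>
    rw [disjoint_union_right] at h
    rw [← union_assoc]
    exact KDec.cons (ih h.1) hC (disjoint_union_left.2 ⟨h.2, hd⟩)

theorem KDec.biUnion' {q : ℕ} {ι : Type} [DecidableEq ι] (M : Finset ι)
    (f : ι → Finset (Sym2 V)) (hM : ∀ i ∈ M, KDec q (f i))
    (hd : ∀ i ∈ M, ∀ j ∈ M, i ≠ j → Disjoint (f i) (f j)) : KDec q (M.biUnion f) := by
  induction M using Finset.induction_on with
  | empty => simpa using KDec.empty
  | insert C M hC ih =>
    rw [biUnion_insert]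
    refine KDec.union (hM C (by simp)) (ih (fun C' h => hM C' (by simp [h]))
      (fun C1 h1 C2 h2 => hd C1 (by simp [h1]) C2 (by simp [h2]))) ?_
    rw [disjoint_biUnion_right]
    intro C' hC'
    exact hd C (by simp) C' (by simp [hC']) (fun h => hC (h ▸ hC'))

theorem KDec.biUnion {q : ℕ} (M : Finset (Finset (Sym2 V))) (hM : ∀ C ∈ M, KDec q C)
    (hd : ∀ C ∈ M, ∀ C' ∈ M, C ≠ C' → Disjoint C C') : KDec q (M.biUnion id) :=
  KDec.biUnion' M id hM hd

theorem KDec.exists_family {q : ℕ} {X : Finset (Sym2 V)} (h : KDec q X) :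
    ∃ M : Finset (Finset (Sym2 V)), (∀ C ∈ M, IsK q C) ∧
      (∀ C ∈ M, ∀ C' ∈ M, C ≠ C' → Disjoint C C') ∧ M.biUnion id = X := by
  induction h with
  | empty => exact ⟨∅, by simp, by simp, by simp⟩
  | @cons X C hX hC hd ih =>
    obtain ⟨M, h1, h2, h3⟩ := ih
    have h4 : ∀ C' ∈ M, Disjoint C' C := fun C' hC' =>
      disjoint_of_subset_left (h3 ▸ subset_biUnion_of_mem id hC') hd
    refine ⟨insert C M, ?_, ?_, ?_⟩
    · intro C' hC'
      rcases mem_insert.1 hC' with rfl | h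
      · exact hC
      · exact h1 _ h
    · intro C1 hC1 C2 hC2 hne
      rcases mem_insert.1 hC1 with rfl | h <;> rcases mem_insert.1 hC2 with rfl | h'
      · exact absurd rfl hne
      · exact (h4 _ h').symm
      · exact h4 _ h
      · exact h2 _ h _ h' hne
    · rw [biUnion_insert, h3, union_comm]; rfl

theorem KDec.dvd_card {q : ℕ} {X : Finset (Sym2 V)} (h : KDec q X) : q.choose 2 ∣ X.card := by
  induction h with
  | empty => simp
  | cons hX hC hd ih => rw [card_union_of_disjoint hd, hC.card]; exact dvd_add ih dvd_rfl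

theorem KDec.dvd_deg {r : ℕ} {X : Finset (Sym2 V)} (h : KDec (r + 1) X) (v : V) :
    r ∣ deg X v := by
  induction h with
  | empty => simp
  | cons hX hC hd ih => rw [deg_union hd]; exact dvd_add ih (hC.dvd_deg v)

theorem KDec.not_isDiag {q : ℕ} {X : Finset (Sym2 V)} (h : KDec q X) : ∀ e ∈ X, ¬ e.IsDiag := by
  induction h with
  | empty => simp
  | cons hX hC hd ih =>
    intro e he
    rcases mem_union.1 he with he | he
    · exact ih e he
    · obtain ⟨S, -, rfl⟩ := hC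
      exact (on_kq S e he).1

theorem dvd_deg_sdiff {r : ℕ} {X Y : Finset (Sym2 V)} (h : Y ⊆ X) {v : V} (h1 : r ∣ deg X v)
    (h2 : r ∣ deg Y v) : r ∣ deg (X \ Y) v := by
  rw [deg_sdiff h v] at h1
  exact (Nat.dvd_add_left h2).1 h1

/-- `F` is a family of disjoint sets of size `r`. -/
def IsFac (r : ℕ) (F : Finset (Finset V)) : Prop :=
  (∀ S ∈ F, S.card = r) ∧ ∀ S ∈ F, ∀ S' ∈ F, S ≠ S' → Disjoint S S'

theorem biUnion_kq_insert {x : V} {F : Finset (Finset V)} (hx : x ∉ F.biUnion id) :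
    (F.biUnion fun S => kq (insert x S)) = fan x (F.biUnion id) ∪ F.biUnion kq := by
  ext e
  simp only [mem_biUnion, mem_union, mem_fan, id]
  constructor
  · rintro ⟨S, hS, he⟩
    rw [kq_insert (S := S) (fun h => hx (mem_biUnion.2 ⟨S, hS, h⟩)), mem_union, mem_fan] at he
    rcases he with ⟨v, hv, rfl⟩ | he
    · exact Or.inl ⟨v, ⟨S, hS, hv⟩, rfl⟩
    · exact Or.inr ⟨S, hS, he⟩
  · rintro (⟨v, ⟨S, hS, hv⟩, rfl⟩ | ⟨S, hS, he⟩)
    · refine ⟨S, hS, ?_⟩
      rw [kq_insert (S := S) (fun h => hx (mem_biUnion.2 ⟨S, hS, h⟩)), mem_union, mem_fan]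
      exact Or.inl ⟨v, hv, rfl⟩
    · exact ⟨S, hS, kq_mono (subset_insert _ _) he⟩

/-- The cone over a clique factor. -/
theorem IsFac.cone {r : ℕ} {F : Finset (Finset V)} (h : IsFac r F) {x : V}
    (hx : x ∉ F.biUnion id) : KDec (r + 1) (fan x (F.biUnion id) ∪ F.biUnion kq) := by
  rw [← biUnion_kq_insert hx]
  refine KDec.biUnion' F _ (fun S hS => IsK.dec ⟨insert x S, ?_, rfl⟩) fun S hS S' hS' hne => ?_
  · rw [card_insert_of_notMem (s := S) (fun h => hx (mem_biUnion.2 ⟨S, hS, h⟩)), h.1 S hS]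
  · refine disjoint_kq fun a ha b hb ha' hb' => ?_
    have k : ∀ z, z ∈ insert x S → z ∈ insert x S' → z = x := by
      intro z h1 h2
      rcases mem_insert.1 h1 with h1 | h1
      · exact h1
      rcases mem_insert.1 h2 with h2 | h2
      · exact h2
      · exact absurd h2 (disjoint_left.1 (h.2 S hS S' hS' hne) h1)
    rw [k a ha ha', k b hb hb']

theorem IsFac.deg_le {r : ℕ} {F : Finset (Finset V)} (h : IsFac r F) (v : V) :
    deg (F.biUnion kq) v ≤ r - 1 := by
  by_cases hv : ∃ S ∈ F, v ∈ S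
  · obtain ⟨S, hS, hvS⟩ := hv
    refine le_trans (card_le_card (t := (kq S).filter fun e => v ∈ e) fun e he => ?_) ?_
    · obtain ⟨h1, h2⟩ := mem_filter.1 he
      obtain ⟨S', hS', h3⟩ := mem_biUnion.1 h1
      by_cases hne : S = S'
      · exact mem_filter.2 ⟨hne ▸ h3, h2⟩
      · exact absurd (mem_of_mem_kq h3 h2) (disjoint_left.1 (h.2 S hS S' hS' hne) hvS)
    · have := deg_kq_le S v
      rw [h.1 S hS] at this
      exact this
  · refine le_trans (le_of_eq (card_eq_zero.2 (filter_eq_empty_iff.2 fun e he hve => ?_)))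
      (Nat.zero_le _)
    obtain ⟨S, hS, h3⟩ := mem_biUnion.1 he
    exact hv ⟨S, hS, mem_of_mem_kq h3 hve⟩

theorem mem_fv_of_mem_fe {F : Finset (Finset V)} {e : Sym2 V} (he : e ∈ F.biUnion kq) {v : V}
    (hv : v ∈ e) : v ∈ F.biUnion id := by
  obtain ⟨S, hS, h3⟩ := mem_biUnion.1 he
  exact mem_biUnion.2 ⟨S, hS, mem_of_mem_kq h3 hv⟩

theorem deg_zero_of {X : Finset (Sym2 V)} {v : V} (h : ∀ e ∈ X, v ∉ e) : deg X v = 0 :=
  card_eq_zero.2 (filter_eq_empty_iff.2 h)

theorem card_sdiff_nb (E : Finset (Sym2 V)) (x : V) (B : Finset V) :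
    (B \ nb E x B).card + (nb E x B).card = B.card :=
  card_sdiff_add_card_eq_card (filter_subset _ _)

theorem sdiff_nb_le (E Y : Finset (Sym2 V)) (x : V) (B : Finset V) :
    (B \ nb (E \ Y) x B).card ≤ (B \ nb E x B).card + deg Y x := by
  have h1 := card_sdiff_nb (E \ Y) x B
  have h2 := card_sdiff_nb E x B
  have h3 := card_nb_le_sdiff E Y x B
  have h4 := card_nb_le_deg Y x B
  omega

theorem sdiff_nb_mono (E : Finset (Sym2 V)) (x : V) {B B' : Finset V} (h : B' ⊆ B) :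
    (B' \ nb E x B').card ≤ (B \ nb E x B).card := by
  refine card_le_card fun y hy => ?_
  simp only [mem_sdiff, mem_nb, not_and] at hy ⊢
  exact ⟨h hy.1, fun _ => hy.2 hy.1⟩

end Pool.Agent.P.MP_be5a37_co.Kq
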