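import Pool.Agent.P.MP_be5a37_co.KMax
import Pool.Agent.P.MP_9cda65_co.Cover3

set_option autoImplicit false
set_option linter.unusedSectionVars false

namespace Pool.Agent.P.MP_be5a37_co.Kq

open Finset Pool.Agent.P.MP_9cda65_co

section Core

variable {V : Type} [DecidableEq V] {E : Finset (Sym2 V)} {W U : Finset V} {S : V → Finset V}

theorem cover_core {r : ℕ} (hr : 0 < r) {P : Type} [DecidableEq P] (pt : V → P) (hE : On E W)
    (hUW : U ⊆ W) (hev : ∀ x ∈ W, x ∉ U → r ∣ deg E x) (hS : ∀ x, S x ⊆ U) {ρ a κ γ θ : ℝ}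
    {k : ℕ} (hκ : 0 < κ) (hγ : 0 ≤ γ) (hn : 1 ≤ θ * W.card) (g1 : γ ≤ θ)
    (g2 : r * γ ≤ κ * θ / 4) (g3 : (r + 2) * r * θ ≤ κ / 16)
    (h1 : ∀ x, ∀ v ∈ W, (2 * (r : ℝ) + 2) * (S x \ nb E v (S x)).card ≤ (S x).card)
    (h2 : ∀ z, ((W.filter fun x => z ∈ S x).card : ℝ) ≤ ρ)
    (h3 : ∀ p, ((U.filter fun v => pt v = p).card : ℝ) ≤ a)
    (h4 : ∀ x ∈ W, ∀ y ∈ W, ∃ B, B ⊆ S x ∧ B ⊆ S y ∧ 4 * (κ * W.card) ≤ B.card ∧
      ∀ v ∈ W, (2 * (r : ℝ) + 2) * (B \ nb E v B).card ≤ B.card)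
    (h5 : ∀ x, (W.filter fun x' => ∃ y ∈ S x ∩ S x', ∃ z ∈ S x ∩ S x', pt y ≠ pt z).card ≤ k)
    (h6 : ∀ x, (2 * (r : ℝ) + 2) * (2 * r * (a + 3 * r * (θ * W.card) + r * k) +
      4 * r * (θ * W.card)) ≤ (S x).card)
    {X₀ : Finset (Sym2 V)} (hX : X₀ ⊆ E \ (res3 E W U S ∪ E.filter (· ∈ U.sym2)))
    (hXd : KDec (r + 1) X₀)
    (hXc : ∀ v, (deg ((E \ (res3 E W U S ∪ E.filter (· ∈ U.sym2))) \ X₀) v : ℝ) ≤ γ * W.card) :
    ∃ X ⊆ E, KDec (r + 1) X ∧ (∀ e ∈ E, e ∉ U.sym2 → e ∈ X) ∧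
      ∀ u ∈ U, ((nb X u U).card : ℝ) ≤ 3 * r * (θ * W.card) + r * ρ := by
  set R := res3 E W U S with hR
  set EU := E.filter (· ∈ U.sym2) with hEU
  set H := (E \ (R ∪ EU)) \ X₀ with hH
  have hRE : R ⊆ E := filter_subset _ _
  have hEUE : EU ⊆ E := filter_subset _ _
  have hHE : H ⊆ E \ (R ∪ EU) := sdiff_subset
  have hOn := hE.mono (hHE.trans sdiff_subset)
  have n0 : (0 : ℝ) ≤ W.card := Nat.cast_nonneg _
  have r1 : (1 : ℝ) ≤ r := by exact_mod_cast hr
  have hHc : (H.card : ℝ) ≤ γ * W.card * W.card := by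
    have := sum_le_sum (s := W) fun v _ => (Nat.cast_le.2 (card_nb_le_deg H v W)).trans (hXc v)
    rw [sum_card_nb hOn, sum_const, nsmul_eq_mul] at this
    nlinarith [Nat.cast_nonneg (α := ℝ) H.card]
  have T1 := Nat.le_ceil (θ * W.card)
  have T2 := (Nat.ceil_lt_add_one (by linarith : 0 ≤ θ * W.card)).le
  have D1 := Nat.floor_le (mul_nonneg hγ n0)
  have K1 := Nat.lt_floor_add_one (κ * W.card)
  have K2 := Nat.floor_le (mul_nonneg hκ.le n0)
  have m1 := mul_le_mul_of_nonneg_right g1 n0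
  have m3 := mul_le_mul_of_nonneg_right g3 n0
  obtain ⟨Y, a1, a2, a3⟩ := cover_edges hr H (R ∪ EU) U ⌊κ * W.card⌋₊ ⌈θ * W.card⌉₊
    ⌊γ * W.card⌋₊
    (fun e he => (hOn e he).1) (fun e he => (hE e (union_subset hRE hEUE he)).1)
    (sdiff_disjoint.mono_left hHE) (fun v => Nat.le_floor (hXc v)) (fun x y hxy => by
      obtain ⟨B, b1, b2, b3, b4⟩ := h4 x (hOn.left hxy) y (hOn.right hxy)
      have hBU : B ⊆ U := b1.trans (hS x)
      have k : ∀ x ∈ W, (x ∈ U ∨ B ⊆ S x) → ∀ z ∈ B, s(x, z) ∈ E → s(x, z) ∈ R ∪ EU := by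
        intro x hx hB z c1 c2
        refine mem_union.2 ?_
        by_cases h : x ∈ U
        · exact Or.inr (mem_filter.2 ⟨c2, mk_mem_sym2_iff.2 ⟨h, hBU c1⟩⟩)
        · exact Or.inl ((mem_res3 hS h).2 ⟨c2, hx, (hB.resolve_left h) c1⟩)
      have b5 : ∀ v ∈ W, (B \ nb E v B).card ≤ B.card / (2 * r + 2) := fun v hv => by
        rw [Nat.le_div_iff_mul_le (by omega), mul_comm]
        exact_mod_cast b4 v hv
      refine ⟨nb E x B ∩ nb E y B, (inter_subset_left.trans (nb_sub3 E x B)).trans hBU,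
        B.card / (2 * r + 2), fun z hz => ?_, fun z hz => ?_, ?_⟩
      · obtain ⟨c1, c2⟩ := mem_inter.1 hz
        exact ⟨k x (hOn.left hxy) (Or.inr b1) z (mem_nb.1 c1).1 (mem_nb.1 c1).2,
          k y (hOn.right hxy) (Or.inr b2) z (mem_nb.1 c2).1 (mem_nb.1 c2).2⟩
      · have c1 : z ∈ U := hBU (mem_nb.1 (mem_inter.1 hz).1).1
        refine le_trans (card_le_card fun w hw => ?_) (b5 z (hUW c1))
        obtain ⟨c2, c3⟩ := mem_sdiff.1 hw
        have c4 := (mem_nb.1 (mem_inter.1 c2).1).1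
        exact mem_sdiff.2 ⟨c4, fun h => c3 (mem_nb.2
          ⟨c2, k z (hUW c1) (Or.inl c1) w c4 (mem_nb.1 h).2⟩)⟩
      · have c1 := card_union_add_card_inter (nb E x B) (nb E y B)
        have c2 := card_le_card (union_subset (nb_sub3 E x B) (nb_sub3 E y B))
        have c3 := card_sdiff_nb E x B
        have c4 := card_sdiff_nb E y B
        have c5 := b5 x (hOn.left hxy)
        have c6 := b5 y (hOn.right hxy)
        have c7 := Nat.mul_div_le B.card (2 * r + 2)
        have c8 : 4 * ⌊κ * W.card⌋₊ ≤ B.card := by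
          have : 4 * (⌊κ * W.card⌋₊ : ℝ) ≤ B.card := by linarith
          exact_mod_cast this
        generalize B.card / (2 * r + 2) = l at *
        have c9 : l ≤ r * l := Nat.le_mul_of_pos_left _ hr
        have c10 : (2 * r + 2) * l = 2 * (r * l) + 2 * l := by ring
        omega) (by
      have e0 : (r : ℝ) * H.card ≤ r * γ * W.card * W.card := by
        have := mul_le_mul_of_nonneg_left hHc (show (0 : ℝ) ≤ r by linarith)
        linarith
      have e1 : r * γ * W.card * W.card ≤ κ * W.card / 4 * ⌈θ * W.card⌉₊ :=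
        calc _ ≤ κ * θ / 4 * W.card * W.card := by gcongr
          _ = κ * W.card / 4 * (θ * W.card) := by ring
          _ ≤ _ := by gcongr
      have e2 : (0 : ℝ) < ⌈θ * W.card⌉₊ := by linarith
      have e3 : ((r : ℝ) + 2) * (r * (⌊γ * W.card⌋₊ + ⌈θ * W.card⌉₊)) ≤
          (r + 2) * (r * (3 * (θ * W.card))) := by gcongr; linarith
      have e4 : 3 * (θ * W.card) ≤ (r + 2) * r * θ * W.card := by
        have : (3 : ℝ) ≤ (r + 2) * r := by nlinarith
        have := mul_le_mul_of_nonneg_right this (show 0 ≤ θ * W.card by linarith)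
        linarith
      have e5 : κ * W.card / 4 + ((r : ℝ) + 2) * (r * (⌊γ * W.card⌋₊ + ⌈θ * W.card⌉₊)) <
          ⌊κ * W.card⌋₊ := by linarith
      have e6 := mul_lt_mul_of_pos_right e5 e2
      have : (r : ℝ) * H.card + ⌈θ * W.card⌉₊ * ((r + 2) * (r * (⌊γ * W.card⌋₊ + ⌈θ * W.card⌉₊))) <
          ⌊κ * W.card⌋₊ * ⌈θ * W.card⌉₊ := by linarith
      exact_mod_cast this)
  have a4 : ∀ v, (deg Y v : ℝ) ≤ 3 * r * (θ * W.card) := fun v => by
    have e1 : (deg Y v : ℝ) ≤ r * (deg H v + ⌈θ * W.card⌉₊) := by exact_mod_cast a3 v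
    have e2 : (r : ℝ) * (deg H v + ⌈θ * W.card⌉₊) ≤ r * (3 * (θ * W.card)) :=
      mul_le_mul_of_nonneg_left (by linarith [hXc v]) (by linarith)
    linarith
  have b1 : KDec (r + 1) (X₀ ∪ (H ∪ Y)) := hXd.union a2 (disjoint_union_right.2
    ⟨disjoint_sdiff, (sdiff_disjoint.mono_left hX).mono_right a1⟩)
  rw [← union_assoc, hH, union_sdiff_of_subset hX] at b1
  have b2 : E \ (R ∪ EU) ∪ Y ⊆ E := union_subset sdiff_subset (a1.trans (union_subset hRE hEUE))
  have hN : ∀ x ∉ U, nb (R \ Y) x U ⊆ S x := fun x hx z hz =>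
    ((mem_res3 hS hx).1 (mem_sdiff.1 (mem_nb.1 hz).2).1).2.2
  obtain ⟨St, Z, c1, c2, c3, -, c4, c5⟩ := seq_factor hr (W \ U) id (fun x => nb (R \ Y) x U)
    (fun x => (E \ Y).filter fun e => e ∈ (nb (R \ Y) x U).sym2 ∧ ¬ (e.map pt).IsDiag) k
    (fun x hx _ _ h => (mem_sdiff.1 hx).2 (mem_nb.1 h).1) (fun _ _ _ _ h h' => absurd h' h)
    (fun x _ e he => ⟨(hE e (mem_sdiff.1 (mem_filter.1 he).1).1).1, (mem_filter.1 he).2.1⟩)
    (fun x hx => le_trans (card_le_card fun x' hx' => by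
      obtain ⟨d1, d2⟩ := mem_filter.1 hx'
      obtain ⟨e, e1, e2⟩ := not_disjoint_iff.1 d2
      induction e using Sym2.ind with
      | _ y z =>
        simp only [mem_filter, mk_mem_sym2_iff, Sym2.map_mk, Sym2.mk_isDiag_iff] at e1 e2
        have f1 := hN x (mem_sdiff.1 hx).2
        have f2 := hN x' (mem_sdiff.1 d1).2
        exact mem_filter.2 ⟨(mem_sdiff.1 d1).1, y, mem_inter.2 ⟨f1 e1.2.1.1, f2 e2.2.1.1⟩, z,
          mem_inter.2 ⟨f1 e1.2.1.2, f2 e2.2.1.2⟩, e1.2.2⟩) (h5 x)) (fun x hx v hv => by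
      obtain ⟨x1, x2⟩ := mem_sdiff.1 hx
      have v1 : v ∈ W := hE.right (hRE (mem_sdiff.1 (mem_nb.1 hv).2).1)
      have e1 : nb E x (S x) ⊆ nb (R \ Y) x U ∪ nb Y x U := fun z hz => by
        have := (mem_res3 (E := E) (W := W) hS x2).2 ⟨(mem_nb.1 hz).2, x1, (mem_nb.1 hz).1⟩
        have := hS x (mem_nb.1 hz).1
        simp only [mem_union, mem_nb, mem_sdiff]; tauto
      have e2 : nb (R \ Y) x U \ nb ((E \ Y).filter fun e => e ∈ (nb (R \ Y) x U).sym2 ∧
          ¬ (e.map pt).IsDiag) v (nb (R \ Y) x U) ⊆ S x \ nb E v (S x) ∪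
            ((U.filter fun w => pt w = pt v) ∪ nb Y v U) := fun z hz => by
        obtain ⟨f0, f3⟩ := mem_sdiff.1 hz
        have f1 := hN x x2 f0
        have f2 := hS x f1
        simp only [mem_union, mem_nb (y := z) (x := v), mem_sdiff, mem_filter, mk_mem_sym2_iff,
          Sym2.map_mk, Sym2.mk_isDiag_iff, eq_comm (a := pt z)] at f3 ⊢
        tauto
      have e3 := (card_le_card e1).trans ((card_union_le _ _).trans
        (add_le_add_right (card_nb_le_deg _ _ _) _))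
      have e4 := (card_le_card e2).trans ((card_union_le _ _).trans (add_le_add_right
        ((card_union_le _ _).trans (add_le_add_right (card_nb_le_deg _ _ _) _)) _))
      have e5 := card_sdiff_nb E x (S x)
      rw [← Nat.cast_le (α := ℝ)] at e3 e4 ⊢
      rw [← Nat.cast_inj (R := ℝ)] at e5
      push_cast at e3 e4 e5 ⊢
      have f1 := h1 x x x1
      have f2 := h1 x v v1
      have f3 := a4 x
      have f4 := a4 v
      have f5 := h3 (pt v)
      have f6 := h6 x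
      generalize ((nb (R \ Y) x U \ nb ((E \ Y).filter fun e => e ∈ (nb (R \ Y) x U).sym2 ∧
          ¬ (e.map pt).IsDiag) v (nb (R \ Y) x U)).card : ℝ) = A at *
      generalize ((S x \ nb E v (S x)).card : ℝ) = s1 at *
      generalize ((S x \ nb E x (S x)).card : ℝ) = s2 at *
      generalize ((nb (R \ Y) x U).card : ℝ) = N at *
      generalize ((S x).card : ℝ) = s at *
      generalize θ * (W.card : ℝ) = t at *
      have f7 : A ≤ s1 + a + 3 * r * t := by linarith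
      have f8 : s - s2 - 3 * r * t ≤ N := by linarith
      have f9 : (r : ℝ) ≤ r * t := le_mul_of_one_le_right (by linarith) hn
      have f10 := mul_le_mul_of_nonneg_left f2 (show (0 : ℝ) ≤ 2 * r by linarith)
      refine le_trans (b := 2 * r * (s1 + a + 3 * r * t + r * k) + r * t) (by gcongr) ?_
      refine le_trans ?_ f8
      refine le_of_mul_le_mul_left ?_ (show (0 : ℝ) < 2 * r + 2 by linarith)
      linarith)
  have d1 : St ⊆ R \ Y := fun e he => by
    obtain ⟨x, -, v, hv, rfl⟩ := c2 e he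
    exact (mem_nb.1 hv).2
  have d2 : Z ⊆ EU \ Y := fun e he => by
    obtain ⟨x, -, h⟩ := c3 e he
    simp only [hEU, mem_filter, mem_sdiff] at h ⊢
    exact ⟨⟨h.1.1, sym2_mono (filter_subset _ _) h.2.1⟩, h.1.2⟩
  have d3 : R \ Y ⊆ St := fun e he => by
    obtain ⟨-, x, hx, z, hz, rfl⟩ := mem_filter.1 (mem_sdiff.1 he).1
    obtain ⟨x1, x2⟩ := mem_sdiff.1 hx
    refine c4 x hx ?_ z (mem_nb.2 ⟨hS x hz, he⟩)
    have e1 := dvd_deg_sdiff b2 (hev x x1 x2) (b1.dvd_deg x)
    have e2 : deg (E \ (E \ (R ∪ EU) ∪ Y)) x = deg (R \ Y) x := by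
      unfold deg
      congr 1
      ext e
      have e3 := @hRE e
      have e4 : e ∈ U.sym2 → x ∉ e := fun h h' => x2 (mem_sym2_iff.1 h x h')
      simp only [hEU, mem_filter, mem_sdiff, mem_union]
      tauto
    rwa [e2, deg_out3 hS sdiff_subset x2] at e1
  refine ⟨E \ (R ∪ EU) ∪ Y ∪ (St ∪ Z), union_subset b2 (union_subset
    (d1.trans (sdiff_subset.trans hRE)) (d2.trans (sdiff_subset.trans hEUE))),
    b1.union c1 (disjoint_left.2 fun e he he' => ?_), fun e he heU => ?_, fun u hu => ?_⟩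
  · have e1 := @d1 e
    have e2 := @d2 e
    simp only [mem_sdiff, mem_union] at he he' e1 e2
    tauto
  · have e1 := @d3 e
    simp only [hEU, mem_filter, mem_sdiff, mem_union] at e1 ⊢
    tauto
  · have e1 : nb (E \ (R ∪ EU) ∪ Y ∪ (St ∪ Z)) u U ⊆ nb Y u U ∪ nb Z u U := fun z hz => by
      have e2 : s(u, z) ∈ St → z ∉ U := fun h h' => by
        obtain ⟨x, hx, v, -, e⟩ := c2 _ h
        rcases Sym2.eq_iff.1 e with ⟨rfl, -⟩ | ⟨-, rfl⟩
        exacts [(mem_sdiff.1 hx).2 hu, (mem_sdiff.1 hx).2 h']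
      simp only [hEU, mem_nb, mem_filter, mem_sdiff, mem_union, mk_mem_sym2_iff] at hz ⊢
      tauto
    have e2 : ((nb (E \ (R ∪ EU) ∪ Y ∪ (St ∪ Z)) u U).card : ℝ) ≤ deg Y u + deg Z u := by
      exact_mod_cast (card_le_card e1).trans ((card_union_le _ _).trans
        (add_le_add (card_nb_le_deg _ _ _) (card_nb_le_deg _ _ _)))
    have e3 : (deg Z u : ℝ) ≤ r * (W.filter fun x => u ∈ S x).card := by
      exact_mod_cast (c5 u).trans (Nat.mul_le_mul_left r (card_le_card fun x hx => by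
        obtain ⟨f1, f2⟩ := mem_filter.1 hx
        exact mem_filter.2 ⟨(mem_sdiff.1 f1).1, hN x (mem_sdiff.1 f1).2 f2⟩))
    have e4 := mul_le_mul_of_nonneg_left (h2 u) (show (0 : ℝ) ≤ r by linarith)
    linarith [a4 u]

end Core

/-- Cover-down lemma for cliques. -/
theorem cover_down {r : ℕ} (hr : 0 < r) (δ σ ε μ : ℝ) (hAD : KADmax (r + 1) δ) (hδ : 0 ≤ δ)
    (hσ : 0 < σ) (hε : 0 < ε) (hμ : 0 < μ) :
    ∃ n₀ : ℕ, KCD r (δ + 2 * σ) (1 - 1 / (2 * (r : ℝ) + 2) + σ) ε σ μ n₀ := by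
  have r1 : (1 : ℝ) ≤ r := by exact_mod_cast hr
  set D : ℝ := 2 * r + 2 with hD
  have D4 : 4 ≤ D := by linarith
  set C : ℝ := 32 * (D * (r * r)) with hC
  have C0 : 32 * (D * r) ≤ C := by
    have : D * r ≤ D * (r * r) := by gcongr; nlinarith
    linarith
  have C1 : 0 < C := lt_of_lt_of_le (by positivity) C0
  obtain ⟨q, hq, hp⟩ := Nat.exists_infinite_primes ⌈C + C / ε + 2 / σ + 4 * r / μ⌉₊
  have := Fact.mk hp
  rw [Nat.ceil_le] at hq
  have p1 : 0 < C / ε := by positivity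
  have p2 : 0 < 2 / σ := by positivity
  have p3 : 0 < 4 * r / μ := by positivity
  have q0 : C ≤ q := by linarith
  have q1 : C ≤ q * ε := (div_le_iff₀ hε).1 (by linarith)
  have q2 : 2 ≤ q * σ := (div_le_iff₀ hσ).1 (by linarith)
  have q3 : 4 * r ≤ q * μ := (div_le_iff₀ hμ).1 (by linarith)
  have q4 : (0 : ℝ) < q := by linarith
  set κ : ℝ := ε / (8 * ((q + 1) * q)) with hκ
  have κ0 : 0 < κ := by positivity
  obtain ⟨θ, θ0, t1, t2, t3⟩ : ∃ θ : ℝ, 0 < θ ∧ θ ≤ κ / (16 * ((r + 2) * r)) ∧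
      θ ≤ ε / (8 * q * (D * (6 * r * r + 4 * r))) ∧ θ ≤ μ / (6 * r) :=
    ⟨min (κ / (16 * ((r + 2) * r))) (min (ε / (8 * q * (D * (6 * r * r + 4 * r)))) (μ / (6 * r))),
      by positivity, min_le_left _ _,
      (min_le_right _ _).trans (min_le_left _ _), (min_le_right _ _).trans (min_le_right _ _)⟩
  rw [le_div_iff₀ (by positivity)] at t1 t2 t3
  have hD0 : 1 / D ≤ 1 / 4 := one_div_le_one_div_of_le (by norm_num) D4
  obtain ⟨n₁, h₁⟩ := hAD (min θ (κ * θ / (4 * r))) (by positivity)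
  obtain ⟨n₂, h₂⟩ := exists_partition ((q + 1) * q) (Nat.mul_pos q.succ_pos hp.pos)
    (half_pos hσ) hε
  obtain ⟨n₃, h₃⟩ := exists_partition (q * q) (Nat.mul_pos hp.pos hp.pos)
    (by positivity : 0 < 2 * σ) one_pos
  obtain ⟨n₄, h₄⟩ := exists_nat_ge (1 / θ)
  refine ⟨n₁ + n₂ + n₃ + n₄, fun V _ W U E hn hUW hE u1 u2 d1 d2 hev => ?_⟩
  have n1 : 1 ≤ θ * W.card := by
    rw [mul_comm, ← div_le_iff₀ θ0]
    exact h₄.trans (by exact_mod_cast (by omega : n₄ ≤ W.card))
  have n0 : (0 : ℝ) < W.card := (mul_pos_iff_of_pos_left θ0).1 (by linarith)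
  have u0 : (0 : ℝ) < U.card := (mul_pos hε n0).trans_le u1
  have u3 : (U.card : ℝ) ≤ W.card := Nat.cast_le.2 (card_le_card hUW)
  obtain ⟨x₀, hx₀⟩ : W.Nonempty := card_pos.1 (by exact_mod_cast n0)
  have s1 : 1 - 1 / D + σ ≤ 1 := le_of_mul_le_mul_right ((d2 x₀ hx₀).trans (by
    rw [one_mul]; exact Nat.cast_le.2 (card_filter_le _ _))) u0
  obtain ⟨pt, hpt⟩ := h₂ V (Option (ZMod q) × ZMod q) E W U (1 - 1 / D + σ / 2)
    (by simp [ZMod.card]) (by omega) hUW u1 (by linarith) (by linarith) fun x hx => by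
      rw [add_assoc, add_halves]; exact d2 x hx
  obtain ⟨lab, hlab⟩ := h₃ V (ZMod q × ZMod q) E W W 0 (by simp [ZMod.card]) (by omega) subset_rfl
    (by simp) le_rfl zero_le_one fun x hx => le_trans (by gcongr) (d1 x hx)
  have A1 : ∀ p, (U.card : ℝ) ≤ 2 * ((q + 1) * q) * (U.filter fun v => pt v = p).card :=
    fun p => by exact_mod_cast (hpt p).1
  have A2 : ∀ p, ((q + 1) * q : ℝ) * (U.filter fun v => pt v = p).card ≤ 2 * U.card :=
    fun p => by exact_mod_cast (hpt p).2.1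
  have A3 : ∀ p, ∀ x ∈ W, (1 - 1 / D) * ((U.filter fun v => pt v = p).card : ℝ) ≤
      (nb E x (U.filter fun v => pt v = p)).card := fun p x hx =>
    le_trans (by gcongr; linarith) ((hpt p).2.2 x hx)
  have A4 : ∀ l, ((W.filter fun v => lab v = l).card : ℝ) ≤ 2 * W.card / (q * q) := fun l => by
    rw [le_div_iff₀' (by positivity)]; exact_mod_cast (hlab l).2.1
  let S : V → Finset V := fun x => U.filter fun z => line3 (lab x) (pt z).1 = (pt z).2
  have B1 : ∀ x (Q : Finset V), ((Q.filter fun z => line3 (lab x) (pt z).1 = (pt z).2).card : ℝ) =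
      ∑ i, ((Q.filter fun v => pt v = (i, line3 (lab x) i)).card : ℝ) := fun x Q => by
    rw [card_eq_sum_card_fiberwise (f := fun z => (pt z).1) (t := univ) (by simp), Nat.cast_sum]
    refine sum_congr rfl fun i _ => ?_
    rw [filter_filter]
    congr 2
    exact filter_congr fun z _ => ⟨fun h => Prod.ext h.2 (h.2 ▸ h.1.symm), fun h => by simp [h]⟩
  have B2 : ∀ x, (U.card : ℝ) ≤ 2 * q * (S x).card ∧ q * ((S x).card : ℝ) ≤ 2 * U.card := fun x => by
    have e1 := sum_le_sum (s := univ) fun i _ => A1 (i, line3 (lab x) i)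
    have e2 := sum_le_sum (s := univ) fun i _ => A2 (i, line3 (lab x) i)
    rw [← mul_sum, ← B1, sum_const, card_univ, Fintype.card_option, ZMod.card, nsmul_eq_mul] at e1 e2
    push_cast at e1 e2
    exact ⟨le_of_mul_le_mul_left (by linarith) (by linarith : (0 : ℝ) < q + 1),
      le_of_mul_le_mul_left (by linarith) (by linarith : (0 : ℝ) < q + 1)⟩
  have B3 : ∀ z, ((W.filter fun x => z ∈ S x).card : ℝ) ≤ 2 * W.card / q := fun z => by
    have e1 : (W.filter fun x => z ∈ S x) ⊆ (univ.filter fun l => line3 l (pt z).1 = (pt z).2).biUnion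
        fun l => W.filter fun v => lab v = l := fun x hx =>
      mem_biUnion.2 ⟨lab x, mem_filter.2 ⟨mem_univ _, (mem_filter.1 (mem_filter.1 hx).2).2⟩,
        mem_filter.2 ⟨(mem_filter.1 hx).1, rfl⟩⟩
    have e2 := line3_card (pt z)
    rw [ZMod.card] at e2
    refine (Nat.cast_le.2 ((card_le_card e1).trans card_biUnion_le)).trans ?_
    rw [Nat.cast_sum]
    refine (sum_le_card_nsmul _ _ _ fun l _ => A4 l).trans ?_
    rw [nsmul_eq_mul]
    calc _ ≤ (q : ℝ) * (2 * W.card / (q * q)) := by gcongr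
      _ = _ := by field_simp
  have hS : ∀ x, S x ⊆ U := fun x => filter_subset _ _
  have ρ1 : 2 * (W.card : ℝ) / q ≤ σ * W.card := by rw [div_le_iff₀ q4]; nlinarith
  have ρ2 : r * (2 * (W.card : ℝ) / q) ≤ μ / 2 * W.card := by
    rw [← mul_div_assoc, div_le_iff₀ q4]; nlinarith
  obtain ⟨X₀, x1, x2, x3⟩ := h₁ V W (E \ (res3 E W U S ∪ E.filter (· ∈ U.sym2))) (by omega)
    (hE.mono sdiff_subset) fun x hx => by
      have e1 : nb (res3 E W U S ∪ E.filter (· ∈ U.sym2)) x W ⊆ nb (res3 E W U S) x W ∪ U :=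
        fun z hz => by
          simp only [mem_nb, mem_filter, mem_union, mk_mem_sym2_iff] at hz ⊢
          tauto
      have e2 : ((nb E x W).card : ℝ) ≤ (nb (E \ (res3 E W U S ∪ E.filter (· ∈ U.sym2))) x W).card +
          (deg (res3 E W U S) x + U.card) := by
        exact_mod_cast (card_nb_le_sdiff E _ x W).trans (add_le_add_right ((card_le_card e1).trans
          ((card_union_le _ _).trans (add_le_add_left (card_nb_le_deg _ _ _) _))) _)
      have e3 := deg_res3 (E := E) hS (fun x => by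
        rw [le_div_iff₀ q4]; linarith [(B2 x).2]) B3 x
      linarith [d1 x hx]
  obtain ⟨X, y1, y2, y3, y4⟩ := cover_core hr pt hE hUW hev hS (a := 2 * U.card / ((q + 1) * q))
    (k := ⌊2 * (W.card : ℝ) / (q * q)⌋₊) κ0 (by positivity) n1 (min_le_left _ _)
    (by
      have := (le_div_iff₀ (by positivity : (0 : ℝ) < 4 * r)).1 (min_le_right θ (κ * θ / (4 * r)))
      linarith) (by linarith)
    (fun x v hv => nondeg_le (by
      rw [B1, nb, filter_comm, B1, mul_sum]
      exact sum_le_sum fun i _ => by rw [filter_comm]; exact A3 _ v hv)) B3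
    (fun p => by rw [le_div_iff₀' (by positivity)]; exact A2 p) (fun x hx y hy => by
      obtain ⟨i, hi⟩ := line3_meet (lab x) (lab y)
      refine ⟨U.filter fun v => pt v = (i, line3 (lab x) i), monotone_filter_right _
        fun z _ h => by simp [h], monotone_filter_right _ fun z _ h => by simp [h, hi], ?_,
        fun v hv => nondeg_le (A3 _ v hv)⟩
      have e3 : κ * W.card ≤ (U.filter fun v => pt v = (i, line3 (lab x) i)).card / 4 := by
        rw [hκ, div_mul_eq_mul_div, div_le_iff₀ (by positivity)]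
        linarith [A1 (i, line3 (lab x) i)]
      linarith)
    (fun x => Nat.le_floor (le_trans (Nat.cast_le.2 (card_le_card (monotone_filter_right _
      fun x' _ ⟨y, hy, z, hz, h⟩ => by
        simp only [S, mem_inter, mem_filter] at hy hz
        exact line3_uniq (i := (pt y).1) (j := (pt z).1)
          (fun h' => h (Prod.ext h' (by rw [← hy.1.2, ← hz.1.2, h'])))
          (hy.2.2.trans hy.1.2.symm) (hz.2.2.trans hz.1.2.symm)))) (A4 (lab x))))
    (fun x => by
      have e1 := Nat.floor_le (by positivity : 0 ≤ 2 * (W.card : ℝ) / (q * q))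
      have e2 : D * (6 * r * r + 4 * r) * (θ * W.card) ≤ U.card / (8 * q) := by
        rw [le_div_iff₀ (by positivity)]
        have := mul_le_mul_of_nonneg_right t2 n0.le
        linarith
      have e3 : D * (2 * r) * (2 * U.card / ((q + 1) * q) : ℝ) ≤ U.card / (8 * q) := by
        rw [← mul_div_assoc, div_le_div_iff₀ (by positivity) (by positivity)]
        have := mul_le_mul_of_nonneg_right (show 32 * (D * r) ≤ q + 1 by linarith)
          (mul_pos u0 q4).le
        linarith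
      have e4 : D * (2 * r * r) * (2 * W.card / (q * q) : ℝ) ≤ U.card / (8 * q) := by
        rw [← mul_div_assoc, div_le_div_iff₀ (by positivity) (by positivity)]
        have f1 := mul_le_mul_of_nonneg_right q1 (mul_pos n0 q4).le
        have f2 := mul_le_mul_of_nonneg_right u1 (mul_pos q4 q4).le
        rw [hC] at f1
        linarith
      have e5 : (U.card / (8 * q) : ℝ) ≤ (S x).card / 4 := by
        rw [div_le_iff₀ (by positivity)]; linarith [(B2 x).1]
      have e6 := mul_le_mul_of_nonneg_left e1 (show 0 ≤ D * (2 * r * r) by positivity)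
      rw [← hD]
      linarith [Nat.cast_nonneg (α := ℝ) (S x).card]) x1 x2 x3
  refine ⟨X, y1, y2, y3, fun u hu => ?_⟩
  have := mul_le_mul_of_nonneg_right t3 n0.le
  linarith [y4 u hu]

end Pool.Agent.P.MP_be5a37_co.Kq
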