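import Pool.Agent.P.MP_be5a37_co.KBasic

set_option autoImplicit false
set_option linter.unusedSectionVars false

namespace Pool.Agent.P.MP_be5a37_co.Kq

open Finset Pool.Agent.P.MP_9cda65_co

variable {V : Type} [DecidableEq V]

/-- Greedy clique. -/
theorem exists_clique (G : Finset (Sym2 V)) (hG : ∀ e ∈ G, ¬ e.IsDiag) (B : Finset V) (Λ : ℕ)
    (hΛ : ∀ z ∈ B, (B \ nb G z B).card ≤ Λ) (k : ℕ) (hk : k * Λ < B.card) :
    ∃ S ⊆ B, S.card = k ∧ kq S ⊆ G := by
  induction k with
  | zero => exact ⟨∅, empty_subset _, rfl, by simp [kq]⟩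
  | succ k ih =>
    obtain ⟨S, h1, h2, h3⟩ := ih (by nlinarith)
    have h4 : (S.biUnion fun s => B \ nb G s B).card < B.card := by
      refine lt_of_le_of_lt (card_biUnion_le_card_mul S _ Λ fun s hs => hΛ s (h1 hs)) ?_
      rw [h2]; nlinarith
    obtain ⟨z, hz, hz'⟩ := exists_mem_notMem_of_card_lt_card h4
    have h5 : ∀ s ∈ S, s(s, z) ∈ G := by
      intro s hs
      by_contra hc
      exact hz' (mem_biUnion.2 ⟨s, hs, mem_sdiff.2 ⟨hz, fun h => hc (mem_nb.1 h).2⟩⟩)
    have h6 : z ∉ S := fun h => hG _ (h5 z h) (by simp)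
    refine ⟨insert z S, insert_subset hz h1, by rw [card_insert_of_notMem h6, h2], ?_⟩
    rw [kq_insert h6]
    refine union_subset (fun e he => ?_) h3
    obtain ⟨v, hv, rfl⟩ := mem_fan.1 he
    rw [Sym2.eq_swap]
    exact h5 v hv

theorem exists_col (r : ℕ) : ∀ (m : ℕ) (N : Finset V), N.card = m * r →
    ∃ c : V → ℕ, ∀ v ∈ N, c v < m ∧ (N.filter fun w => c w = c v).card = r := by
  intro m
  induction m with
  | zero =>
    intro N hN
    rw [zero_mul, card_eq_zero] at hN
    exact ⟨fun _ => 0, by simp [hN]⟩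
  | succ m ih =>
    intro N hN
    obtain ⟨L, hL, hLc⟩ := exists_subset_card_eq (s := N) (n := r) (by rw [hN]; nlinarith)
    obtain ⟨c, hc⟩ := ih (N \ L) (by rw [card_sdiff_of_subset hL, hN, hLc, add_mul]; omega)
    refine ⟨fun v => if v ∈ L then m else c v, fun v hv => ?_⟩
    by_cases h : v ∈ L
    · simp only [if_pos h]
      refine ⟨by omega, ?_⟩
      rw [← hLc]
      congr 1
      ext w
      simp only [mem_filter]
      constructor
      · rintro ⟨h1, h2⟩
        by_contra h3
        rw [if_neg h3] at h2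
        have := (hc w (mem_sdiff.2 ⟨h1, h3⟩)).1
        omega
      · exact fun h1 => ⟨hL h1, if_pos h1⟩
    · simp only [if_neg h]
      obtain ⟨h1, h2⟩ := hc v (mem_sdiff.2 ⟨hv, h⟩)
      refine ⟨by omega, ?_⟩
      rw [← h2]
      congr 1
      ext w
      simp only [mem_filter, mem_sdiff]
      constructor
      · rintro ⟨h3, h4⟩
        by_cases h5 : w ∈ L
        · rw [if_pos h5] at h4; omega
        · rw [if_neg h5] at h4; exact ⟨⟨h3, h5⟩, h4⟩
      · rintro ⟨⟨h3, h5⟩, h4⟩
        exact ⟨h3, by rw [if_neg h5, h4]⟩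

/-- The swapping argument of Sauer and Spencer. -/
theorem exists_good_col (G : Finset (Sym2 V)) (hG : ∀ e ∈ G, ¬ e.IsDiag) (N : Finset V)
    (r Λ : ℕ) (hΛ : ∀ z ∈ N, (N \ nb G z N).card ≤ Λ) (hN : 2 * (r * Λ) < N.card) :
    ∀ (k : ℕ) (c : V → ℕ), (∀ v ∈ N, (N.filter fun w => c w = c v).card = r) →
      ((N ×ˢ N).filter fun p => p.1 ≠ p.2 ∧ c p.1 = c p.2 ∧ s(p.1, p.2) ∉ G).card = k →
      ∃ c : V → ℕ, (∀ v ∈ N, (N.filter fun w => c w = c v).card = r) ∧
        ∀ u ∈ N, ∀ v ∈ N, u ≠ v → c u = c v → s(u, v) ∈ G := by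
  intro k
  induction k using Nat.strong_induction_on with
  | _ k ih =>
  intro c hc hk
  by_cases h0 : ∀ u ∈ N, ∀ v ∈ N, u ≠ v → c u = c v → s(u, v) ∈ G
  · exact ⟨c, hc, h0⟩
  push Not at h0
  obtain ⟨u, hu, v, hv, huv, hcuv, hG'⟩ := h0
  have b1 : ((N.filter fun z => c z = c u).biUnion fun z => N \ nb G z N).card ≤ r * Λ := by
    refine le_trans (card_biUnion_le_card_mul _ _ Λ fun z hz => hΛ z (mem_filter.1 hz).1) ?_
    rw [hc u hu]
  have b2 : ((N \ nb G u N).biUnion fun z => N.filter fun w => c w = c z).card ≤ r * Λ := by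
    refine le_trans (card_biUnion_le_card_mul _ _ r fun z hz => (hc z (mem_sdiff.1 hz).1).le) ?_
    rw [mul_comm]
    exact Nat.mul_le_mul_left r (hΛ u hu)
  obtain ⟨w, hw, hw'⟩ := exists_mem_notMem_of_card_lt_card
    (lt_of_le_of_lt ((card_union_le _ _).trans (add_le_add b1 b2)) (by omega : _ < N.card))
  rw [mem_union, not_or] at hw'
  have g1 : ∀ z ∈ N, c z = c u → s(z, w) ∈ G := by
    intro z hz hzu
    by_contra hc'
    exact hw'.1 (mem_biUnion.2 ⟨z, mem_filter.2 ⟨hz, hzu⟩,
      mem_sdiff.2 ⟨hw, fun h => hc' (mem_nb.1 h).2⟩⟩)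
  have g2 : ∀ z ∈ N, c z = c w → s(u, z) ∈ G := by
    intro z hz hzw
    by_contra hc'
    exact hw'.2 (mem_biUnion.2 ⟨z, mem_sdiff.2 ⟨hz, fun h => hc' (mem_nb.1 h).2⟩,
      mem_filter.2 ⟨hw, hzw.symm⟩⟩)
  have g3 : c w ≠ c u := fun h => hG _ (g1 w hw h) (by simp)
  have g4 : ∀ z ∈ N, Equiv.swap u w z ∈ N := by
    intro z hz
    rw [Equiv.swap_apply_def]
    split_ifs
    exacts [hw, hu, hz]
  refine ih _ ?_ (fun z => c (Equiv.swap u w z)) (fun z hz => ?_) rfl
  · rw [← hk]
    refine card_lt_card ⟨fun p hp => ?_, fun h => ?_⟩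
    · obtain ⟨a, b⟩ := p
      simp only [mem_filter, mem_product] at hp ⊢
      obtain ⟨⟨ha, hb⟩, hab, hcab, hGab⟩ := hp
      refine ⟨⟨ha, hb⟩, hab, ?_, hGab⟩
      have key : ∀ a ∈ N, ∀ b ∈ N, a ≠ b → c (Equiv.swap u w a) = c (Equiv.swap u w b) →
          s(a, b) ∉ G → a ≠ u ∧ a ≠ w := by
        intro a _ b hb hab hcab hGab
        constructor
        · rintro rfl
          rw [Equiv.swap_apply_left] at hcab
          by_cases h : b = w
          · rw [h, Equiv.swap_apply_right] at hcab
            exact g3 hcab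
          · rw [Equiv.swap_apply_of_ne_of_ne hab.symm h] at hcab
            exact hGab (g2 b hb hcab.symm)
        · rintro rfl
          rw [Equiv.swap_apply_right] at hcab
          by_cases h : b = u
          · rw [h, Equiv.swap_apply_left] at hcab
            exact g3 hcab.symm
          · rw [Equiv.swap_apply_of_ne_of_ne h hab.symm] at hcab
            exact hGab (Sym2.eq_swap ▸ g1 b hb hcab.symm)
      have k1 := key a ha b hb hab hcab hGab
      have k2 := key b hb a ha hab.symm hcab.symm (Sym2.eq_swap ▸ hGab)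
      rwa [Equiv.swap_apply_of_ne_of_ne k1.1 k1.2, Equiv.swap_apply_of_ne_of_ne k2.1 k2.2] at hcab
    · have := @h (u, v) (by simp [hu, hv, huv, hcuv, hG'])
      simp only [mem_filter] at this
      have h2 := this.2.2.1
      have h3 : v ≠ w := fun h => g3 (h ▸ hcuv.symm)
      rw [Equiv.swap_apply_left, Equiv.swap_apply_of_ne_of_ne huv.symm h3] at h2
      exact g3 (h2.trans hcuv.symm)
  · rw [← hc _ (g4 z hz)]
    refine card_nbij' (Equiv.swap u w) (Equiv.swap u w) ?_ ?_ ?_ ?_
    · intro y hy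
      simp only [coe_filter, Set.mem_ofPred_eq] at hy ⊢
      exact ⟨g4 y hy.1, hy.2⟩
    · intro y hy
      simp only [coe_filter, Set.mem_ofPred_eq] at hy ⊢
      exact ⟨g4 y hy.1, by rw [Equiv.swap_apply_self]; exact hy.2⟩
    · intro y _; simp
    · intro y _; simp

/-- A clique factor missing fewer than `r` vertices. -/
theorem exists_factor (G : Finset (Sym2 V)) (hG : ∀ e ∈ G, ¬ e.IsDiag) (N : Finset V) {r : ℕ}
    (hr : 0 < r) (hd : ∀ v ∈ N, 2 * r * (N \ nb G v N).card + r ≤ N.card) :
    ∃ F, IsFac r F ∧ F.biUnion id ⊆ N ∧ F.biUnion kq ⊆ G ∧ (N \ F.biUnion id).card ≤ r ∧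
      (r ∣ N.card → N ⊆ F.biUnion id) := by
  rcases N.eq_empty_or_nonempty with rfl | ⟨v0, hv0⟩
  · exact ⟨∅, ⟨by simp, by simp⟩, by simp, by simp, by simp, by simp⟩
  have h1 := Nat.div_add_mod N.card r
  have h2 := Nat.mod_lt N.card hr
  obtain ⟨N', hN', hc'⟩ := exists_subset_card_eq (s := N) (n := N.card / r * r)
    (Nat.div_mul_le_self _ _)
  obtain ⟨c0, hc0⟩ := exists_col r _ N' hc'
  have h3 := hd v0 hv0
  have h4 : 2 * (r * ((N.card - r) / (2 * r))) ≤ N.card - r := by
    rw [← mul_assoc]; exact Nat.mul_div_le _ _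
  obtain ⟨c, hc1, hc2⟩ := exists_good_col G hG N' r ((N.card - r) / (2 * r))
    (fun z hz => (sdiff_nb_mono G z hN').trans (by
      rw [Nat.le_div_iff_mul_le (by omega), mul_comm]
      have := hd z (hN' hz)
      omega)) (by rw [hc', mul_comm (N.card / r) r]; omega) _ c0 (fun v hv => (hc0 v hv).2) rfl
  have h5 : (N'.image fun v => N'.filter fun w => c w = c v).biUnion id = N' := by
    ext w
    simp only [mem_biUnion, mem_image, id]
    constructor
    · rintro ⟨_, ⟨v, -, rfl⟩, h⟩
      exact (mem_filter.1 h).1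
    · exact fun h => ⟨_, ⟨w, h, rfl⟩, mem_filter.2 ⟨h, rfl⟩⟩
  refine ⟨N'.image fun v => N'.filter fun w => c w = c v, ⟨?_, ?_⟩, ?_, ?_, ?_, ?_⟩
  · intro S hS
    obtain ⟨v, hv, rfl⟩ := mem_image.1 hS
    exact hc1 v hv
  · intro S hS S' hS' hne
    obtain ⟨v, -, rfl⟩ := mem_image.1 hS
    obtain ⟨v', -, rfl⟩ := mem_image.1 hS'
    refine disjoint_left.2 fun w h h' => hne ?_
    rw [← (mem_filter.1 h).2, ← (mem_filter.1 h').2]
  · rw [h5]; exact hN'
  · intro e he
    obtain ⟨S, hS, he⟩ := mem_biUnion.1 he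
    obtain ⟨v, -, rfl⟩ := mem_image.1 hS
    induction e using Sym2.ind with
    | _ a b =>
      simp only [mk_mem_kq, mem_filter] at he
      exact hc2 a he.1.1 b he.2.1.1 he.2.2 (he.1.2.trans he.2.1.2.symm)
  · rw [h5, card_sdiff_of_subset hN', hc', mul_comm]
    omega
  · intro h
    rw [h5]
    refine (eq_of_subset_of_card_le hN' ?_).ge
    rw [hc', Nat.div_mul_cancel h]

/-- Edge-disjoint clique factors in links, giving cliques through the centres `c j`. -/
theorem seq_factor {J : Type} [DecidableEq J] {r : ℕ} (hr : 0 < r) (I : Finset J) (c : J → V)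
    (N : J → Finset V) (G : J → Finset (Sym2 V)) (k : ℕ)
    (h1 : ∀ j ∈ I, ∀ j' ∈ I, c j ∉ N j')
    (h2 : ∀ j ∈ I, ∀ j' ∈ I, j ≠ j' → c j = c j' → Disjoint (N j) (N j'))
    (h3 : ∀ j ∈ I, On (G j) (N j))
    (h4 : ∀ j ∈ I, (I.filter fun j' => ¬ Disjoint (G j) (G j')).card ≤ k)
    (h5 : ∀ j ∈ I, ∀ v ∈ N j,
      2 * r * ((N j \ nb (G j) v (N j)).card + r * k) + r ≤ (N j).card) :
    ∃ St Z : Finset (Sym2 V), KDec (r + 1) (St ∪ Z) ∧
      (∀ e ∈ St, ∃ j ∈ I, ∃ v ∈ N j, e = s(c j, v)) ∧
      (∀ e ∈ Z, ∃ j ∈ I, e ∈ G j) ∧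
      (∀ j ∈ I, ((N j).filter fun v => s(c j, v) ∉ St).card ≤ r) ∧
      (∀ j ∈ I, r ∣ (N j).card → ∀ v ∈ N j, s(c j, v) ∈ St) ∧
      ∀ y, deg Z y ≤ r * (I.filter fun j => y ∈ N j).card := by
  have key : ∀ I' ⊆ I, ∃ St Z : Finset (Sym2 V), KDec (r + 1) (St ∪ Z) ∧
      (∀ e ∈ St, ∃ j ∈ I', ∃ v ∈ N j, e = s(c j, v)) ∧
      (∀ e ∈ Z, ∃ j ∈ I', e ∈ G j) ∧
      (∀ j ∈ I', ((N j).filter fun v => s(c j, v) ∉ St).card ≤ r) ∧
      (∀ j ∈ I', r ∣ (N j).card → ∀ v ∈ N j, s(c j, v) ∈ St) ∧
      (∀ y, deg Z y ≤ r * (I'.filter fun j => y ∈ N j).card) ∧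
      ∀ j ∈ I, ∀ v,
        deg (Z ∩ G j) v ≤ r * (I'.filter fun j' => ¬ Disjoint (G j) (G j')).card := by
    intro I'
    induction I' using Finset.induction_on with
    | empty => exact fun _ => ⟨∅, ∅, by simpa using KDec.empty, by simp, by simp, by simp,
        by simp, by simp, by simp⟩
    | insert j I' hj ih =>
      intro hsub
      have hjI : j ∈ I := hsub (mem_insert_self _ _)
      have hI' : I' ⊆ I := (subset_insert _ _).trans hsub
      obtain ⟨St, Z, a1, a2, a3, a4, a5, a6, a7⟩ := ih hI'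
      obtain ⟨F, hF, hFN, hMG, hM0, hM1⟩ := exists_factor (G j \ Z)
        (fun e he => (h3 j hjI e (mem_sdiff.1 he).1).1) (N j) hr (by
          intro v hv
          have e1 := sdiff_nb_le (G j) (Z ∩ G j) v (N j)
          have e2 : G j \ (Z ∩ G j) = G j \ Z := by
            ext e
            simp only [mem_sdiff, mem_inter]
            tauto
          rw [e2] at e1
          have e4 := a7 j hjI v
          have e5 : (I'.filter fun j' => ¬ Disjoint (G j) (G j')).card ≤ k :=
            (card_le_card (filter_subset_filter _ hI')).trans (h4 j hjI)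
          have e6 := h5 j hjI v hv
          have e7 := Nat.mul_le_mul_left r e5
          refine le_trans ?_ e6
          exact Nat.add_le_add_right (Nat.mul_le_mul_left _ (by omega)) _)
      set M := F.biUnion kq with hM
      set S := fan (c j) (F.biUnion id) with hSdef
      have hMG' : M ⊆ G j := hMG.trans sdiff_subset
      have hOn : On M (N j) := (h3 j hjI).mono hMG'
      have hS : KDec (r + 1) (S ∪ M) := hF.cone fun h => h1 j hjI j hjI (hFN h)
      have hdM : ∀ v, deg M v ≤ r := fun v => (hF.deg_le v).trans (by omega)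
      have hdis : Disjoint (St ∪ Z) (S ∪ M) := by
        rw [disjoint_left]
        intro e he he'
        rcases mem_union.1 he with he | he <;> rcases mem_union.1 he' with he' | he'
        · obtain ⟨j', hj', v', hv', rfl⟩ := a2 e he
          obtain ⟨v, hv, hvv⟩ := mem_fan.1 he'
          have hne : j' ≠ j := fun h => hj (h ▸ hj')
          rcases Sym2.eq_iff.1 hvv with ⟨e1, e2⟩ | ⟨e1, -⟩
          · exact disjoint_left.1 (h2 j' (hI' hj') j hjI hne e1) hv' (e2 ▸ hFN hv)
          · exact h1 j' (hI' hj') j hjI (e1 ▸ hFN hv)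
        · obtain ⟨j', hj', v', -, rfl⟩ := a2 e he
          exact h1 j' (hI' hj') j hjI (hOn.left he')
        · obtain ⟨j', hj', hG'⟩ := a3 e he
          obtain ⟨v, -, rfl⟩ := mem_fan.1 he'
          exact h1 j hjI j' (hI' hj') ((h3 j' (hI' hj')).left hG')
        · exact (mem_sdiff.1 (hMG he')).2 he
      refine ⟨St ∪ S, Z ∪ M, ?_, ?_, ?_, ?_, ?_, ?_, ?_⟩
      · rw [union_union_union_comm]
        exact a1.union hS hdis
      · intro e he
        rcases mem_union.1 he with he | he
        · obtain ⟨j', hj', h⟩ := a2 e he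
          exact ⟨j', mem_insert_of_mem hj', h⟩
        · obtain ⟨v, hv, rfl⟩ := mem_fan.1 he
          exact ⟨j, mem_insert_self _ _, v, hFN hv, rfl⟩
      · intro e he
        rcases mem_union.1 he with he | he
        · obtain ⟨j', hj', h⟩ := a3 e he
          exact ⟨j', mem_insert_of_mem hj', h⟩
        · exact ⟨j, mem_insert_self _ _, hMG' he⟩
      · intro j' hj'
        rcases mem_insert.1 hj' with rfl | hj'
        · refine le_trans (card_le_card fun v hv => ?_) hM0
          rw [mem_filter] at hv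
          exact mem_sdiff.2 ⟨hv.1, fun h => hv.2 (mem_union_right _ (mem_fan.2 ⟨v, h, rfl⟩))⟩
        · refine le_trans (card_le_card fun v hv => ?_) (a4 j' hj')
          rw [mem_filter] at hv ⊢
          exact ⟨hv.1, fun h => hv.2 (mem_union_left _ h)⟩
      · intro j' hj' hev v hv
        rcases mem_insert.1 hj' with rfl | hj'
        · exact mem_union_right _ (mem_fan.2 ⟨v, hM1 hev hv, rfl⟩)
        · exact mem_union_left _ (a5 j' hj' hev v hv)
      · intro y
        have e1 := deg_union_le Z M y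
        have e2 := a6 y
        rw [filter_insert]
        split_ifs with h
        · rw [card_insert_of_notMem fun h => hj (mem_filter.1 h).1, mul_add, mul_one]
          have := hdM y
          omega
        · have : deg M y = 0 := deg_zero_of fun e he hy => h (hFN (mem_fv_of_mem_fe he hy))
          omega
      · intro j' hj' v
        have e1 := deg_union_le (Z ∩ G j') (M ∩ G j') v
        have e2 := a7 j' hj' v
        rw [union_inter_distrib_right, filter_insert]
        split_ifs with h
        · have : M ∩ G j' = ∅ := by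
            rw [← disjoint_iff_inter_eq_empty]
            exact (h.mono_right hMG').symm
          rw [this, deg_empty] at e1
          rw [this]
          omega
        · rw [card_insert_of_notMem fun h => hj (mem_filter.1 h).1, mul_add, mul_one]
          have := (deg_mono (inter_subset_left (s₁ := M) (s₂ := G j')) v).trans (hdM v)
          omega
  obtain ⟨St, Z, a1, a2, a3, a4, a5, a6, -⟩ := key I Subset.rfl
  exact ⟨St, Z, a1, a2, a3, a4, a5, a6⟩

/-- Greedily covering the edges of a sparse graph by cliques whose other vertices lie in `U`. -/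
theorem cover_edges {r : ℕ} (hr : 0 < r) (H R : Finset (Sym2 V)) (U : Finset V) (K T D : ℕ)
    (hH : ∀ e ∈ H, ¬ e.IsDiag) (hR : ∀ e ∈ R, ¬ e.IsDiag) (hd : Disjoint H R)
    (hD : ∀ v, deg H v ≤ D)
    (hK : ∀ a b, s(a, b) ∈ H → ∃ B ⊆ U, ∃ Λ, (∀ z ∈ B, s(a, z) ∈ R ∧ s(b, z) ∈ R) ∧
      (∀ z ∈ B, (B \ nb R z B).card ≤ Λ) ∧ K + r * Λ ≤ B.card)
    (hbig : r * H.card + T * ((r + 2) * (r * (D + T))) < K * T) :
    ∃ Y ⊆ R, KDec (r + 1) (H ∪ Y) ∧ ∀ v, deg Y v ≤ r * (deg H v + T) := by
  have key : ∀ H' ⊆ H, ∃ Y ⊆ R, ∃ ld : V → ℕ, KDec (r + 1) (H' ∪ Y) ∧ (∀ v, ld v ≤ T) ∧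
      ∑ v ∈ U, ld v ≤ r * H'.card ∧ ∀ v, deg Y v ≤ r * (deg H' v + ld v) := by
    intro H'
    induction H' using Finset.induction_on with
    | empty => exact fun _ => ⟨∅, by simp, fun _ => 0, by simpa using KDec.empty, by simp,
        by simp, by simp⟩
    | insert e H' he ih =>
      intro hsub
      have hH' : H' ⊆ H := (subset_insert _ _).trans hsub
      obtain ⟨Y, hYR, ld, a1, a2, a3, a4⟩ := ih hH'
      induction e using Sym2.ind with
      | _ a b =>
        have habH : s(a, b) ∈ H := hsub (mem_insert_self _ _)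
        have hab : a ≠ b := by simpa using hH _ habH
        have hY : ∀ v, deg Y v ≤ r * (D + T) := fun v =>
          (a4 v).trans (Nat.mul_le_mul_left r
            (add_le_add ((deg_mono hH' v).trans (hD v)) (a2 v)))
        have hB : (U.filter fun z => T ≤ ld z).card * T ≤ r * H.card := by
          refine le_trans ?_ (a3.trans (Nat.mul_le_mul_left r (card_le_card hH')))
          calc (U.filter fun z => T ≤ ld z).card * T
              = ∑ _z ∈ U.filter fun z => T ≤ ld z, T := by simp
            _ ≤ ∑ z ∈ U.filter fun z => T ≤ ld z, ld z :=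
              sum_le_sum fun z hz => (mem_filter.1 hz).2
            _ ≤ ∑ z ∈ U, ld z := sum_le_sum_of_subset (filter_subset _ _)
        obtain ⟨B, hBU, Λ, b1, b2, b3⟩ := hK a b habH
        set B' := B \ ((nb Y a U ∪ nb Y b U) ∪ U.filter fun z => T ≤ ld z) with hB'
        have hB'B : B' ⊆ B := sdiff_subset
        have c1 : B.card ≤ B'.card + (2 * (r * (D + T)) + (U.filter fun z => T ≤ ld z).card) := by
          have e1 := le_card_sdiff ((nb Y a U ∪ nb Y b U) ∪ U.filter fun z => T ≤ ld z) B
          have e2 := card_union_le (nb Y a U ∪ nb Y b U) (U.filter fun z => T ≤ ld z)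
          have e3 := card_union_le (nb Y a U) (nb Y b U)
          have e4 := (card_nb_le_deg Y a U).trans (hY a)
          have e5 := (card_nb_le_deg Y b U).trans (hY b)
          rw [← hB'] at e1
          omega
        have c2 : (U.filter fun z => T ≤ ld z).card + (r + 2) * (r * (D + T)) < K := by
          refine lt_of_mul_lt_mul_right (a := T) ?_ (Nat.zero_le _)
          rw [add_mul, mul_comm _ T, mul_comm ((r + 2) * _) T]
          rw [mul_comm _ T] at hB
          omega
        obtain ⟨S, s1, s2, s3⟩ := exists_clique (R \ Y) (fun e he => hR e (mem_sdiff.1 he).1) B'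
          (Λ + r * (D + T)) (fun z hz => (sdiff_nb_le R Y z B').trans
            (add_le_add ((sdiff_nb_mono R z hB'B).trans (b2 z (hB'B hz))) (hY z))) (r - 1) (by
            have e1 : (r - 1) * (Λ + r * (D + T)) ≤ r * (Λ + r * (D + T)) :=
              Nat.mul_le_mul_right _ (by omega)
            rw [add_mul] at c2
            rw [mul_add r Λ] at e1
            omega)
        have d1 : ∀ z ∈ S, z ∈ U ∧ s(a, z) ∈ R \ Y ∧ s(b, z) ∈ R \ Y ∧ ld z < T := by
          intro z hz
          have e1 := s1 hz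
          simp only [hB', mem_sdiff, mem_union, mem_nb, mem_filter, not_or, not_and,
            not_le] at e1
          have e2 := hBU e1.1
          exact ⟨e2, mem_sdiff.2 ⟨(b1 z e1.1).1, e1.2.1.1 e2⟩,
            mem_sdiff.2 ⟨(b1 z e1.1).2, e1.2.1.2 e2⟩, e1.2.2 e2⟩
        have hbS : b ∉ S := fun h => hR _ (mem_sdiff.1 (d1 b h).2.2.1).1 (by simp)
        have haS : a ∉ S := fun h => hR _ (mem_sdiff.1 (d1 a h).2.1).1 (by simp)
        have haS' : a ∉ insert b S := by simp [hab, haS]
        set Q := fan a S ∪ (fan b S ∪ kq S) with hQ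
        have hQR : Q ⊆ R \ Y := by
          refine union_subset (fun e he => ?_) (union_subset (fun e he => ?_) s3)
          · obtain ⟨v, hv, rfl⟩ := mem_fan.1 he
            exact (d1 v hv).2.1
          · obtain ⟨v, hv, rfl⟩ := mem_fan.1 he
            exact (d1 v hv).2.2.1
        have hK' : kq (insert a (insert b S)) = insert s(a, b) Q := by
          rw [kq_insert haS', kq_insert hbS, fan_insert, insert_union]
        have hcard : (insert a (insert b S)).card = r + 1 := by
          rw [card_insert_of_notMem haS', card_insert_of_notMem hbS, s2]; omega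
        have hdis : Disjoint (H' ∪ Y) (kq (insert a (insert b S))) := by
          rw [hK', disjoint_insert_right, mem_union, not_or]
          refine ⟨⟨he, fun h => disjoint_left.1 hd habH (hYR h)⟩, disjoint_left.2 fun e h h' => ?_⟩
          have e1 := mem_sdiff.1 (hQR h')
          rcases mem_union.1 h with h | h
          · exact disjoint_left.1 hd (hH' h) e1.1
          · exact e1.2 h
        refine ⟨Y ∪ Q, union_subset hYR (hQR.trans sdiff_subset),
          fun v => ld v + if v ∈ S then 1 else 0, ?_, ?_, ?_, ?_⟩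
        · have := KDec.cons a1 ⟨_, hcard, rfl⟩ hdis
          rw [hK'] at this
          refine (congrArg (KDec (r + 1)) ?_).mp this
          ext e
          simp only [mem_union, mem_insert]
          tauto
        · intro v
          have := a2 v
          beta_reduce
          split_ifs with h
          · have := (d1 v h).2.2.2
            omega
          · omega
        · rw [sum_add_distrib, card_insert_of_notMem he, mul_add, mul_one]
          have : ∑ v ∈ U, (if v ∈ S then 1 else 0) ≤ r := by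
            rw [← card_filter]
            exact (card_le_card fun v hv => (mem_filter.1 hv).2).trans (by omega)
          omega
        · intro v
          have e1 := deg_union_le Y Q v
          have e2 : deg Q v ≤ deg (kq (insert a (insert b S))) v :=
            deg_mono (hK' ▸ subset_insert _ _) v
          rw [deg_kq, hcard] at e2
          have e3 := a4 v
          rw [deg_insert he]
          simp only [Sym2.mem_iff, mul_add] at e3 ⊢
          by_cases c1 : v ∈ insert a (insert b S)
          · rw [if_pos c1] at e2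
            simp only [mem_insert] at c1
            by_cases c2 : v = a ∨ v = b
            · rw [if_pos c2]; omega
            · rw [if_pos (show v ∈ S by tauto)]; omega
          · rw [if_neg c1] at e2
            omega
  obtain ⟨Y, hY, ld, a1, a2, -, a4⟩ := key H Subset.rfl
  exact ⟨Y, hY, a1, fun v => (a4 v).trans (Nat.mul_le_mul_left r (by have := a2 v; omega))⟩

end Pool.Agent.P.MP_be5a37_co.Kq
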