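import Pool.Agent.P.MP_be5a37_co.KSpread
import Pool.Agent.P.MP_9cda65_co.Iter

set_option autoImplicit false
set_option linter.unusedSectionVars false

namespace Pool.Agent.P.MP_be5a37_co.Kq

open Finset Pool.Agent.P.MP_9cda65_co

/-- Iterating the cover-down lemma along a vortex. -/
theorem near_opt {r : ℕ} {τ σ : ℝ} (hσ : 0 < σ) (hσ1 : σ ≤ 1 / 16) (hτ : 0 ≤ τ)
    (hτ1 : τ + 3 * σ ≤ 1) {n₀ : ℕ} (hCD : KCD r τ τ (σ / 2) σ (σ ^ 3 / 4) n₀) :
    ∃ m M : ℕ, ∀ (V : Type) [DecidableEq V] (E : Finset (Sym2 V)) (U : Finset V), m ≤ U.card →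
      (∀ x ∈ U, (τ + 3 * σ) * U.card ≤ ((nb E x U).card : ℝ)) →
      ∃ Uf ⊆ U, Uf.card ≤ M ∧ ∀ (W : Finset V) (E' : Finset (Sym2 V)), U ⊆ W → On E' W →
        σ / 2 * W.card ≤ (U.card : ℝ) → (U.card : ℝ) ≤ σ * W.card →
        (∀ e ∈ U.sym2, e ∈ E' ↔ e ∈ E) →
        (∀ x ∈ W, (τ + σ) * W.card ≤ ((nb E' x W).card : ℝ)) →
        (∀ x ∈ W, (τ + σ) * U.card ≤ ((nb E' x U).card : ℝ)) →
        (∀ v, r ∣ deg E' v) → ∃ X ⊆ E', KDec (r + 1) X ∧ ∀ e ∈ E', e ∉ X → e ∈ Uf.sym2 := by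
  obtain ⟨n₂, hn₂⟩ := eventually_pow_mul_exp_lt 2 (c := (3 * σ / 4 * σ) ^ 2 / 4) (t := 1 / 2)
    (by positivity) (by norm_num)
  set m : ℕ := n₀ + n₂ ^ 2 + 2 with hm
  set q : ℝ → ℝ := fun x => Real.sqrt (Real.sqrt x) with hq
  have hm2 : (2 : ℝ) ≤ m := by exact_mod_cast (by omega)
  have hqm : 0 < q m := Real.sqrt_pos.2 (Real.sqrt_pos.2 (by linarith))
  have hqmono : ∀ x y : ℝ, x ≤ y → q x ≤ q y := fun x y h =>
    Real.sqrt_le_sqrt (Real.sqrt_le_sqrt h)
  refine ⟨m, ⌈2 * m / σ⌉₊, fun V _ E => ?_⟩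
  suffices H : ∀ (k : ℕ) (U : Finset V), U.card = k → m ≤ U.card →
      (∀ x ∈ U, (τ + 3 * σ - σ * (q m / q U.card)) * U.card ≤ ((nb E x U).card : ℝ)) →
      ∃ Uf ⊆ U, Uf.card ≤ ⌈2 * m / σ⌉₊ ∧ ∀ (W : Finset V) (E' : Finset (Sym2 V)), U ⊆ W →
        On E' W → σ / 2 * W.card ≤ (U.card : ℝ) → (U.card : ℝ) ≤ σ * W.card →
        (∀ e ∈ U.sym2, e ∈ E' ↔ e ∈ E) →
        (∀ x ∈ W, (τ + σ) * W.card ≤ ((nb E' x W).card : ℝ)) →
        (∀ x ∈ W, (τ + σ) * U.card ≤ ((nb E' x U).card : ℝ)) →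
        (∀ v, r ∣ deg E' v) → ∃ X ⊆ E', KDec (r + 1) X ∧ ∀ e ∈ E', e ∉ X → e ∈ Uf.sym2 by
    intro U hU hD
    refine H _ U rfl hU fun x hx => le_trans ?_ (hD x hx)
    have : 0 ≤ σ * (q m / q U.card) := mul_nonneg hσ.le (div_nonneg hqm.le (Real.sqrt_nonneg _))
    exact mul_le_mul_of_nonneg_right (by linarith) (Nat.cast_nonneg _)
  intro k
  induction k using Nat.strong_induction_on with
  | _ k ih =>
  intro U hk hU hD
  have hU' : (m : ℝ) ≤ U.card := by exact_mod_cast hU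
  by_cases hM : U.card ≤ ⌈2 * m / σ⌉₊
  · refine ⟨U, Subset.rfl, hM, fun W E' hUW hE' r1 r2 _ d1 d2 hev => ?_⟩
    have hc := card_le_card hUW
    obtain ⟨X, x1, x2, x3, -⟩ := hCD V W U E' (by omega) hUW hE' r1 r2
      (fun x hx => le_trans (mul_le_mul_of_nonneg_right (by linarith) (Nat.cast_nonneg _))
        (d1 x hx))
      (fun x hx => le_trans (mul_le_mul_of_nonneg_right (by linarith) (Nat.cast_nonneg _))
        (d2 x hx)) (fun x _ _ => hev x)
    exact ⟨X, x1, x2, fun e he hX => by_contra fun h => hX (x3 e he h)⟩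
  · have hM' : 2 * m / σ ≤ U.card := (Nat.le_ceil _).trans (by exact_mod_cast (not_le.1 hM).le)
    rw [div_le_iff₀ hσ] at hM'
    set n : ℝ := (U.card : ℝ) with hn
    have hqn : q m ≤ q n := hqmono _ _ hU'
    have hqn0 : 0 < q n := lt_of_lt_of_le hqm hqn
    set t : ℝ := σ * (q m / q n) with ht
    have hr1 : q m / q n ≤ 1 := (div_le_one hqn0).2 hqn
    have hr0 : 0 < q m / q n := div_pos hqm hqn0
    have ht0 : 0 < t := mul_pos hσ hr0
    have ht1 : t ≤ σ := by nlinarith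
    obtain ⟨T, hT, g1, g2, g3⟩ := sample_vertices E U (δ := τ + 3 * σ - 2 * t) (t := t)
      (by linarith) (by linarith) hσ hσ1 ht0.le ht1 (by omega)
      (fun x hx => le_of_eq_of_le (by ring) (hD x hx)) (by
        rw [← hn]
        have a1 : (n₂ : ℝ) ≤ Real.sqrt n := by
          apply Real.le_sqrt_of_sq_le
          have : (n₂ : ℝ) ^ 2 ≤ m := by exact_mod_cast (by omega)
          linarith
        have a2 := hn₂ _ a1
        rw [Real.sq_sqrt (by linarith)] at a2
        have a3 : q n ^ 2 = Real.sqrt n := Real.sq_sqrt (Real.sqrt_nonneg _)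
        have a4 : 1 ≤ q m ^ 2 := by
          rw [show q m ^ 2 = Real.sqrt m from Real.sq_sqrt (Real.sqrt_nonneg _)]
          exact Real.one_le_sqrt.2 (by linarith)
        have a5 : Real.sqrt n * Real.sqrt n = n := Real.mul_self_sqrt (by linarith)
        have a6 : 0 < Real.sqrt n := Real.sqrt_pos.2 (by linarith)
        have a7 : (3 * σ / 4 * t) ^ 2 / 4 * n =
            (3 * σ / 4 * σ) ^ 2 / 4 * Real.sqrt n * q m ^ 2 := by
          rw [ht, show (3 * σ / 4 * (σ * (q m / q n))) ^ 2 =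
            (3 * σ / 4 * σ) ^ 2 * (q m ^ 2 / q n ^ 2) by ring, a3]
          nth_rewrite 2 [← a5]
          field_simp
        have a8 : Real.exp (-((3 * σ / 4 * t) ^ 2 / 4 * n)) ≤
            Real.exp (-((3 * σ / 4 * σ) ^ 2 / 4 * Real.sqrt n)) := by
          apply Real.exp_le_exp.2
          rw [a7]
          have : 0 ≤ (3 * σ / 4 * σ) ^ 2 / 4 * Real.sqrt n := by positivity
          nlinarith
        have a9 := Real.exp_pos (-((3 * σ / 4 * t) ^ 2 / 4 * n))
        nlinarith)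
    rw [← hn] at g2 g3
    have hTm : (m : ℝ) ≤ T.card := by linarith
    have hT16 : 16 * (T.card : ℝ) ≤ n := by nlinarith
    have hqT : 2 * q T.card ≤ q n := qroot_half (Nat.cast_nonneg _) hT16
    have hqT0 : 0 < q T.card := lt_of_lt_of_le hqm (hqmono _ _ hTm)
    have hr2 : 2 * t ≤ σ * (q m / q T.card) := by
      rw [ht, mul_left_comm]
      refine mul_le_mul_of_nonneg_left ?_ hσ.le
      rw [← mul_div_assoc, div_le_div_iff₀ hqn0 hqT0]
      nlinarith
    have hr3 : σ * (q m / q T.card) ≤ σ := by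
      have : q m / q T.card ≤ 1 := (div_le_one hqT0).2 (hqmono _ _ hTm)
      nlinarith
    have hlt : T.card < k := by
      rw [← hk]
      have : (T.card : ℝ) < U.card := by rw [← hn]; linarith
      exact_mod_cast this
    obtain ⟨Uf, f1, f2, f3⟩ := ih T.card hlt T rfl (by exact_mod_cast hTm)
      (fun x hx => le_trans (mul_le_mul_of_nonneg_right (by linarith) (Nat.cast_nonneg _))
        (g1 x (hT hx)))
    refine ⟨Uf, f1.trans hT, f2, fun W E' hUW hE' r1 r2 hag d1 d2 hev => ?_⟩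
    have hc := card_le_card hUW
    have hc' : n ≤ W.card := by rw [hn]; exact_mod_cast hc
    have hsmall : ∀ (x : V) (S : Finset V), ((nb E' x S).card : ℝ) ≤
        (nb (E' \ T.sym2) x S).card + σ * n := by
      intro x S
      have a1 := card_nb_le_sdiff E' T.sym2 x S
      have a2 : (nb T.sym2 x S).card ≤ T.card :=
        card_le_card fun y hy => (mk_mem_sym2_iff.1 (mem_nb.1 hy).2).2
      have a3 : ((nb E' x S).card : ℝ) ≤ (nb (E' \ T.sym2) x S).card + T.card := by
        exact_mod_cast (by omega)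
      linarith
    obtain ⟨X, x1, x2, x3, x4⟩ := hCD V W U (E' \ T.sym2) (by omega) hUW (hE'.mono sdiff_subset)
      r1 r2
      (fun x hx => by
        have := hsmall x W
        have := d1 x hx
        nlinarith)
      (fun x hx => by
        have := hsmall x U
        have := d2 x hx
        rw [← hn]
        nlinarith)
      (fun x _ hx => by
        have : deg (E' \ T.sym2) x = deg E' x := by
          unfold deg
          congr 1
          ext e
          simp only [mem_filter, mem_sdiff]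
          constructor
          · exact fun h => ⟨h.1.1, h.2⟩
          · exact fun h => ⟨⟨h.1, fun h' => hx (hT (mem_sym2_iff.1 h' x h.2))⟩, h.2⟩
        rw [this]; exact hev x)
    have x1' : X ⊆ E' := x1.trans sdiff_subset
    have hin : ∀ e ∈ E' \ X, e ∈ U.sym2 := by
      intro e he
      rw [mem_sdiff] at he
      by_contra h
      exact he.2 (x3 e (mem_sdiff.2 ⟨he.1, fun h' => h (sym2_mono hT h')⟩) h)
    have hkeep : ∀ x ∈ U, ∀ S ⊆ U, ((nb E x S).card : ℝ) ≤
        (nb (E' \ X) x S).card + σ ^ 3 / 4 * W.card := by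
      intro x hx S hS
      have a1 := card_nb_le_sdiff E' X x S
      have a2 : nb E x S ⊆ nb E' x S := fun y hy => by
        rw [mem_nb] at hy ⊢
        exact ⟨hy.1, (hag _ (mk_mem_sym2_iff.2 ⟨hx, hS hy.1⟩)).2 hy.2⟩
      have a3 := card_le_card a2
      have a4 := card_le_card (nb_mono (Subset.rfl (s := X)) x hS)
      have a5 : ((nb E x S).card : ℝ) ≤ (nb (E' \ X) x S).card + (nb X x U).card := by
        exact_mod_cast (by omega)
      linarith [x4 x hx]
    have w1 : σ ^ 3 / 4 * W.card ≤ σ * T.card := by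
      have a1 := mul_le_mul_of_nonneg_left r1 (show 0 ≤ σ ^ 2 / 2 by positivity)
      have a2 := mul_le_mul_of_nonneg_left g2 hσ.le
      nlinarith
    have w2 : σ * T.card ≤ σ * n := mul_le_mul_of_nonneg_left (by linarith) hσ.le
    obtain ⟨X', y1, y2, y3⟩ := f3 U (E' \ X) hT
      (fun e he => ⟨(hE' e (mem_sdiff.1 he).1).1, hin e he⟩) g2 g3
      (fun e he => by
        rw [← hag e (sym2_mono hT he), mem_sdiff]
        exact ⟨fun h => h.1, fun h => ⟨h, fun h' => (mem_sdiff.1 (x1 h')).2 he⟩⟩)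
      (fun x hx => by
        have := hkeep x hx U Subset.rfl
        have := hD x hx
        rw [← hn]
        nlinarith)
      (fun x hx => by
        have := hkeep x hx T hT
        have := g1 x hx
        have : (0 : ℝ) ≤ T.card := Nat.cast_nonneg _
        nlinarith)
      (fun v => dvd_deg_sdiff x1' (hev v) (x2.dvd_deg v))
    refine ⟨X ∪ X', union_subset x1' (y1.trans sdiff_subset),
      x2.union y2 (disjoint_of_subset_right y1 disjoint_sdiff), fun e he hX => ?_⟩
    rw [mem_union, not_or] at hX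
    exact y3 e (mem_sdiff.2 ⟨he, hX.1⟩) hX.2

end Pool.Agent.P.MP_be5a37_co.Kq
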