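import Pool.Agent.P.MP_be5a37_co.KIter
import Pool.Agent.P.MP_be5a37_co.KCover
import Pool.Agent.P.MP_be5a37_co.KAbsorb
import Pool.Agent.P.MP_be5a37_co.Graph

set_option autoImplicit false
set_option linter.unusedSectionVars false

namespace Pool.Agent.P.MP_be5a37_co.Kq

open Finset Pool.Agent.P.MP_9cda65_co

/-- From almost perfect fractional packings to decompositions. -/
theorem upper_of_fp {r : ℕ} (hr : 0 < r) {δ₀ δ : ℝ} (h0 : 1 - 1 / (2 * (r : ℝ) + 2) ≤ δ₀)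
    (hδ : δ₀ < δ) (h1 : δ ≤ 1) (hFP : KFP (r + 1) δ₀) : ∃ n₀ : ℕ, ∀ (V : Type) [DecidableEq V]
      (W : Finset V) (E : Finset (Sym2 V)), n₀ ≤ W.card → On E W → (r + 1).choose 2 ∣ E.card →
      (∀ v, r ∣ deg E v) → (∀ x ∈ W, δ * W.card ≤ ((nb E x W).card : ℝ)) → KDec (r + 1) E := by
  have r1 : (1 : ℝ) ≤ r := by exact_mod_cast hr
  have hD0 : 1 / (2 * (r : ℝ) + 2) ≤ 1 / 4 := one_div_le_one_div_of_le (by norm_num) (by linarith)
  set σ : ℝ := min ((δ - δ₀) / 8) (1 / 16) with hσ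
  have hσ0 : 0 < σ := lt_min (by linarith) (by norm_num)
  have hσ1 : σ ≤ 1 / 16 := min_le_right _ _
  have hσδ : σ ≤ (δ - δ₀) / 8 := min_le_left _ _
  have hAD : KAD (r + 1) (δ₀ + σ / 2) :=
    hFP.ad (by omega) (by linarith) (by linarith) (by linarith)
  have hAD' : KADmax (r + 1) (δ₀ + σ) := hAD.toMax hr (by linarith) (by linarith)
  obtain ⟨n₁, hCD⟩ := cover_down hr (δ₀ + σ) σ (σ / 2) (σ ^ 3 / 4) hAD' (by linarith) hσ0
    (by positivity) (by positivity)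
  obtain ⟨m, M, hNO⟩ := near_opt (r := r) (τ := δ₀ + σ + 2 * σ) hσ0 hσ1 (by linarith)
    (by linarith) (hCD.mono (by linarith))
  obtain ⟨K, hK⟩ := absorber hr M
  obtain ⟨n₂, hn₂⟩ := eventually_pow_mul_exp_lt 1 (c := (3 * σ / 4 * σ) ^ 2 / 4) (t := 1 / 2)
    (by positivity) (by norm_num)
  refine ⟨n₂ + 2 + ⌈2 * m / σ⌉₊ + ⌈K / σ ^ 2⌉₊, fun V _ W E hn hE hdv hev hD => ?_⟩
  have hn' : (n₂ : ℝ) + 2 + ⌈2 * m / σ⌉₊ + ⌈K / σ ^ 2⌉₊ ≤ W.card := by exact_mod_cast hn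
  have c1 := Nat.le_ceil (2 * m / σ)
  have c2 := Nat.le_ceil (K / σ ^ 2)
  have c3 : (0 : ℝ) ≤ 2 * m / σ := by positivity
  have c4 : (0 : ℝ) ≤ K / σ ^ 2 := by positivity
  have c5 : (0 : ℝ) ≤ n₂ := Nat.cast_nonneg _
  set n : ℝ := (W.card : ℝ) with hnW
  have hn0 : 0 < n := by linarith
  have c6 : 2 * (m : ℝ) ≤ n * σ := by
    have : 2 * m / σ ≤ n := by linarith
    rwa [div_le_iff₀ hσ0] at this
  have c7 : (K : ℝ) ≤ n * σ ^ 2 := by
    have : K / σ ^ 2 ≤ n := by linarith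
    rwa [div_le_iff₀ (by positivity)] at this
  obtain ⟨U, hUW, g1, g2, g3⟩ := sample_vertices E W (δ := δ₀ + σ + 2 * σ + 3 * σ) (t := σ)
    (by linarith) (by linarith) hσ0 hσ1 hσ0.le le_rfl (by omega)
    (fun x hx => le_trans (mul_le_mul_of_nonneg_right (by linarith) hn0.le) (hD x hx)) (by
      have a2 := hn₂ n (by linarith)
      have a9 := Real.exp_pos (-((3 * σ / 4 * σ) ^ 2 / 4 * n))
      rw [← hnW]
      rw [pow_one] at a2
      nlinarith)
  rw [← hnW] at g2 g3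
  obtain ⟨Uf, f1, f2, f3⟩ := hNO V E U (by
    have : (m : ℝ) ≤ U.card := by linarith
    exact_mod_cast this) (fun x hx => g1 x (hUW hx))
  have hσn : σ ^ 2 * n ≤ 1 / 16 * (σ * n) := by
    have : 0 ≤ σ * n := by positivity
    nlinarith
  obtain ⟨A, a1, a2, a3, a4, a5⟩ := hK V E W (W \ U) Uf (card_pos.1 (by omega)) sdiff_subset
    (f1.trans hUW) f2 (fun S hS hSc => by
      have e3 : W.card ≤ ((W \ U).filter fun y => ∀ a ∈ S, s(a, y) ∈ E).card + U.card +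
          ∑ a ∈ S, (W \ nb E a W).card := by
        refine le_trans ?_ (add_le_add (card_union_le _ _) card_biUnion_le)
        refine le_trans (card_le_card fun y hy => ?_) (card_union_le _ _)
        simp only [mem_nb, mem_union, mem_sdiff, mem_filter, mem_biUnion]
        by_cases h : ∀ a ∈ S, s(a, y) ∈ E
        · tauto
        · push Not at h
          obtain ⟨a, ha, h⟩ := h
          exact Or.inr ⟨a, ha, hy, fun h' => h h'.2⟩
      have e4 : ∀ a ∈ S, ((W \ nb E a W).card : ℝ) ≤ (1 / (2 * (r : ℝ) + 2) - 8 * σ) * n := by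
        intro a ha
        have b1 : ((W \ nb E a W).card : ℝ) + (nb E a W).card = n := by
          rw [hnW]; exact_mod_cast card_sdiff_nb E a W
        have b2 := hD a (hS ha)
        have b3 : (1 - 1 / (2 * (r : ℝ) + 2) + 8 * σ) * n ≤ δ * n :=
          mul_le_mul_of_nonneg_right (by linarith) hn0.le
        linarith
      have e5 := sum_le_card_nsmul S _ _ e4
      rw [nsmul_eq_mul] at e5
      have e6 : (S.card : ℝ) ≤ 2 * r + 2 := by exact_mod_cast hSc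
      have e7 : 0 ≤ (1 / (2 * (r : ℝ) + 2) - 8 * σ) * n := mul_nonneg (by linarith) hn0.le
      have e8 := mul_le_mul_of_nonneg_right e6 e7
      have e9 : (2 * (r : ℝ) + 2) * ((1 / (2 * (r : ℝ) + 2) - 8 * σ) * n) =
          n - (2 * r + 2) * (8 * (σ * n)) := by field_simp
      have e10 : n ≤ ((W \ U).filter fun y => ∀ a ∈ S, s(a, y) ∈ E).card + U.card +
          ∑ a ∈ S, ((W \ nb E a W).card : ℝ) := by rw [hnW]; exact_mod_cast e3
      have : (K : ℝ) ≤ ((W \ U).filter fun y => ∀ a ∈ S, s(a, y) ∈ E).card := by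
        have b1 : 0 ≤ σ * n := by positivity
        have b2 := mul_le_mul_of_nonneg_right r1 b1
        nlinarith
      exact_mod_cast this)
  have hA : ∀ (x : V) (S : Finset V), ((nb E x S).card : ℝ) ≤ (nb (E \ A) x S).card + K := by
    intro x S
    have b1 := card_nb_le_sdiff E A x S
    have b2 := (card_nb_le_deg A x S).trans (deg_le_card _ _)
    exact_mod_cast (by omega)
  have hAU : ∀ e ∈ U.sym2, e ∉ A := by
    intro e he hA
    obtain ⟨v, hv, hve⟩ := a3 e hA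
    exact (mem_sdiff.1 hv).2 (mem_sym2_iff.1 he v hve)
  have hevA : ∀ v, r ∣ deg (E \ A) v := fun v => dvd_deg_sdiff a1 (hev v) (a4.dvd_deg v)
  obtain ⟨X, x1, x2, x3⟩ := f3 W (E \ A) hUW (hE.mono sdiff_subset) g2 g3
    (fun e he => by rw [mem_sdiff]; exact ⟨fun h => h.1, fun h => ⟨h, hAU e he⟩⟩)
    (fun x hx => by
      have := hA x W
      have := hD x hx
      have e7 : (δ₀ + 8 * σ) * n ≤ δ * n := mul_le_mul_of_nonneg_right (by linarith) hn0.le
      have : 0 ≤ σ * n := by positivity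
      rw [← hnW]
      nlinarith)
    (fun x hx => by
      have := hA x U
      have := g1 x hx
      have := mul_le_mul_of_nonneg_left g2 hσ0.le
      nlinarith)
    hevA
  have h5 := a5 ((E \ A) \ X)
    (fun e he => ⟨(hE e (mem_sdiff.1 (mem_sdiff.1 he).1).1).1,
      x3 e (mem_sdiff.1 he).1 (mem_sdiff.1 he).2⟩)
    (fun v => dvd_deg_sdiff x1 (hevA v) (x2.dvd_deg v))
    (by
      rw [card_sdiff_of_subset x1, card_sdiff_of_subset a1]
      exact Nat.dvd_sub (Nat.dvd_sub hdv a4.dvd_card) x2.dvd_card)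
  have h6 : E = X ∪ (A ∪ (E \ A) \ X) := by
    ext e
    have b1 := @x1 e
    have b2 := @a1 e
    simp only [mem_union, mem_sdiff] at b1 ⊢
    tauto
  rw [h6]
  refine x2.union h5 ?_
  rw [disjoint_union_right]
  exact ⟨disjoint_of_subset_left x1 sdiff_disjoint, disjoint_sdiff⟩

/-- Exact fractional decompositions give `KFP`. -/
theorem kfp_of_frac {q : ℕ} {δ : ℝ}
    (h : ∀ (V : Type) [Fintype V] [DecidableEq V] (G : SimpleGraph V) [DecidableRel G.Adj],
      (∀ v, δ * Fintype.card V ≤ G.degree v) →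
      ∃ w : Finset V → ℝ, (∀ K, 0 ≤ w K) ∧ (∀ K, w K ≠ 0 → G.IsNClique q K) ∧
        ∀ u v, G.Adj u v → ∑ K ∈ univ.filter (fun K => u ∈ K ∧ v ∈ K), w K = 1) : KFP q δ := by
  intro η hη
  refine ⟨0, fun V _ W E _ hE hD => ?_⟩
  classical
  let G : SimpleGraph W :=
    { Adj := fun a b => s((a : V), (b : V)) ∈ E
      symm := ⟨fun a b h => by rw [Sym2.eq_swap]; exact h⟩
      loopless := ⟨fun a h => hE.ne h rfl⟩ }
  obtain ⟨w, w1, w2, w3⟩ := h W G fun v => by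
    rw [Fintype.card_coe]
    refine (hD v v.2).trans (le_of_eq ?_)
    rw [← SimpleGraph.card_neighborFinset_eq_degree, Nat.cast_inj]
    symm
    refine card_bij (fun (a : W) _ => (a : V)) ?_ ?_ ?_
    · intro a ha
      exact mem_nb.2 ⟨a.2, (G.mem_neighborFinset _ _).1 ha⟩
    · intro a _ b _ hab
      exact Subtype.ext hab
    · intro b hb
      exact ⟨⟨b, (mem_nb.1 hb).1⟩, (G.mem_neighborFinset _ _).2 (mem_nb.1 hb).2, rfl⟩
  set f : Finset W → Finset (Sym2 V) := fun K => kq (K.map (Function.Embedding.subtype _))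
    with hf
  have key : ∀ e ∈ E, ∑ C ∈ (cls q E).filter (fun C => e ∈ C),
      ∑ K ∈ univ.filter (fun K => f K = C), w K = 1 := by
    intro e he
    induction e using Sym2.ind with
    | _ u v =>
      rw [sum_fiberwise_eq_sum_filter, ← w3 ⟨u, hE.left he⟩ ⟨v, hE.right he⟩ he]
      refine sum_subset (fun K hK => ?_) fun K hK hK' => ?_
      · simp only [mem_filter, mem_univ, true_and, hf, mk_mem_kq, mem_map,
          Function.Embedding.coe_subtype] at hK ⊢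
        obtain ⟨-, ⟨a, ha, rfl⟩, ⟨b, hb, rfl⟩, -⟩ := hK
        exact ⟨ha, hb⟩
      · by_contra hw
        obtain ⟨k1, k2⟩ := w2 K hw
        refine hK' (mem_filter.2 ⟨mem_univ _, mem_filter.2 ⟨mem_cls.2 ⟨fun e' he' => ?_,
          _, by rw [card_map, k2], rfl⟩, ?_⟩⟩)
        · induction e' using Sym2.ind with
          | _ x y =>
            simp only [hf, mk_mem_kq, mem_map, Function.Embedding.coe_subtype] at he'
            obtain ⟨⟨a, ha, rfl⟩, ⟨b, hb, rfl⟩, hab⟩ := he'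
            exact k1 ha hb fun h => hab (h ▸ rfl)
        · obtain ⟨-, k3, k4⟩ := mem_filter.1 hK
          exact mk_mem_kq.2 ⟨mem_map.2 ⟨_, k3, rfl⟩, mem_map.2 ⟨_, k4, rfl⟩, hE.ne he⟩
  refine ⟨fun C => ∑ K ∈ univ.filter (fun K => f K = C), w K,
    fun C => sum_nonneg fun K _ => w1 K, fun e he => (key e he).le, ?_⟩
  have h1 := Nib.sum_swap E (cls q E) (fun C hC => (mem_cls.1 hC).1)
    (fun C => ∑ K ∈ univ.filter (fun K => f K = C), w K) (fun _ => 1)
  have h2 : ∑ x ∈ E, 1 * ∑ C ∈ (cls q E).filter (fun C => x ∈ C),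
      ∑ K ∈ univ.filter (fun K => f K = C), w K = E.card := by
    rw [sum_congr rfl (g := fun _ => (1 : ℝ)) fun e he => by rw [key e he, one_mul]]
    simp
  have h3 : ∑ C ∈ cls q E, (∑ K ∈ univ.filter (fun K => f K = C), w K) * ∑ _x ∈ C, (1 : ℝ) =
      (q.choose 2 : ℕ) * ∑ C ∈ cls q E, ∑ K ∈ univ.filter (fun K => f K = C), w K := by
    rw [mul_sum]
    refine sum_congr rfl fun C hC => ?_
    rw [sum_const, (mem_cls.1 hC).2.card, nsmul_eq_mul, mul_one, mul_comm]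
  rw [← h3, h1, h2]
  have : 0 ≤ η * (W.card : ℝ) ^ 2 := by positivity
  linarith

/-- The reduction, for simple graphs. -/
theorem decomp_of_frac {q : ℕ} (hq : 2 ≤ q) {δ₀ δ : ℝ} (h0 : 1 - 1 / (2 * (q : ℝ)) ≤ δ₀)
    (hδ : δ₀ < δ) (hFP : KFP q δ₀) : ∃ n₀ : ℕ, ∀ n : ℕ, n₀ ≤ n →
      ∀ (G : SimpleGraph (Fin n)) [DecidableRel G.Adj], q.choose 2 ∣ G.edgeFinset.card →
        (∀ v, q - 1 ∣ G.degree v) → (∀ v, δ * n ≤ (G.degree v : ℝ)) →
        ∃ D : Finset (Finset (Fin n)), (∀ K ∈ D, G.IsNClique q K) ∧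
          ∀ u v, G.Adj u v → ∃! K, K ∈ D ∧ u ∈ K ∧ v ∈ K := by
  obtain ⟨r, rfl⟩ : ∃ r, q = r + 1 := ⟨q - 1, by omega⟩
  have hr : 0 < r := by omega
  by_cases h1 : δ ≤ 1
  swap
  · refine ⟨1, fun n hn G _ _ _ hD => ?_⟩
    have h2 := hD ⟨0, hn⟩
    have h3 : (G.degree ⟨0, hn⟩ : ℝ) ≤ n := by
      have := (G.degree_lt_card_verts ⟨0, hn⟩).le
      rw [Fintype.card_fin] at this
      exact_mod_cast this
    have h4 : (1 : ℝ) ≤ n := by exact_mod_cast hn
    nlinarith [not_le.1 h1]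
  obtain ⟨n₀, h⟩ := upper_of_fp hr (by push_cast at h0; rwa [mul_add, mul_one] at h0) hδ h1 hFP
  refine ⟨n₀, fun n hn G _ d1 d2 d3 => ?_⟩
  have hOn : On G.edgeFinset (univ : Finset (Fin n)) := fun e he =>
    ⟨G.not_isDiag_of_mem_edgeSet (SimpleGraph.mem_edgeFinset.1 he),
      mem_sym2_iff.2 fun a _ => mem_univ a⟩
  have hnb : ∀ v, (nb G.edgeFinset v univ).card = G.degree v := fun v => by
    rw [← SimpleGraph.card_neighborFinset_eq_degree]
    congr 1
    ext y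
    simp
  have hK := h (Fin n) univ G.edgeFinset (by simpa using hn) hOn d1
    (fun v => by rw [← card_nb_eq_deg (fun e he => (hOn e he).2), hnb]; exact d2 v)
    (fun v _ => by rw [hnb]; simpa using d3 v)
  obtain ⟨M, m1, m2, m3⟩ := hK.exists_family
  refine ⟨univ.filter fun K => K.card = r + 1 ∧ kq K ∈ M, fun K hK => ?_, fun u v huv => ?_⟩
  · obtain ⟨-, k1, k2⟩ := mem_filter.1 hK
    refine ⟨fun a ha b hb hab => ?_, k1⟩
    have : s(a, b) ∈ G.edgeFinset := m3 ▸ mem_biUnion.2 ⟨_, k2, mk_mem_kq.2 ⟨ha, hb, hab⟩⟩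
    simpa using this
  · have h2 : s(u, v) ∈ M.biUnion id := m3 ▸ by simpa using huv
    obtain ⟨C, hC, h3⟩ := mem_biUnion.1 h2
    obtain ⟨K, k1, rfl⟩ := m1 C hC
    obtain ⟨k2, k3, k4⟩ := mk_mem_kq.1 h3
    refine ⟨K, ⟨mem_filter.2 ⟨mem_univ _, k1, hC⟩, k2, k3⟩, ?_⟩
    rintro K' ⟨k5, k6, k7⟩
    obtain ⟨-, k8, k9⟩ := mem_filter.1 k5
    have e : kq K' = kq K := by
      by_contra hne
      exact disjoint_left.1 (m2 _ k9 _ hC hne) (mk_mem_kq.2 ⟨k6, k7, k4⟩) h3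
    refine eq_of_subset_of_card_le (fun x hx => ?_) (by omega)
    by_cases hxu : x = u
    · exact hxu ▸ k2
    · exact (mk_mem_kq.1 (e ▸ mk_mem_kq.2 ⟨hx, k6, hxu⟩ : s(x, u) ∈ kq K)).1

end Pool.Agent.P.MP_be5a37_co.Kq
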