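import Pool.Agent.P.MP_be5a37_co.KSpread
import Pool.Agent.P.MP_be5a37_co.KFactor
import Pool.Agent.P.MP_9cda65_co.MaxDeg3

set_option autoImplicit false
set_option linter.unusedSectionVars false

namespace Pool.Agent.P.MP_be5a37_co.Kq

open Finset Pool.Agent.P.MP_9cda65_co

section
variable {V : Type} [DecidableEq V]

/-- Removing the cliques which meet `B` leaves few edges at the vertices outside `B`. -/
theorem KDec.avoid {q : ℕ} {X : Finset (Sym2 V)} (h : KDec q X) (B : Finset V) :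
    ∃ X₁ ⊆ X, KDec q X₁ ∧ (∀ e ∈ X₁, ∀ x ∈ e, x ∉ B) ∧
      ∀ v, v ∉ B → deg (X \ X₁) v ≤ B.card * q.choose 2 := by
  classical
  obtain ⟨M, h1, h2, rfl⟩ := h.exists_family
  refine ⟨(M.filter fun C => ∀ e ∈ C, ∀ x ∈ e, x ∉ B).biUnion id,
    biUnion_subset_biUnion_of_subset_left _ (filter_subset _ _),
    KDec.biUnion _ (fun C hC => (h1 C (mem_filter.1 hC).1).dec)
      (fun C hC C' hC' => h2 C (mem_filter.1 hC).1 C' (mem_filter.1 hC').1), ?_, ?_⟩
  · intro e he
    obtain ⟨C, hC, he⟩ := mem_biUnion.1 he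
    exact (mem_filter.1 hC).2 e he
  · intro v hv
    refine le_trans (card_le_card ?_) (card_biUnion_le_card_mul B
      (fun x => (M.filter fun C => s(v, x) ∈ C).biUnion id) (q.choose 2) fun x _ => ?_)
    · intro e he
      simp only [mem_filter, mem_sdiff, mem_biUnion, id, not_exists, not_and] at he ⊢
      obtain ⟨⟨⟨C, hC, heC⟩, hn⟩, hve⟩ := he
      by_contra hc
      refine hn C ⟨hC, fun e' he' x hx hxB => hc ⟨x, hxB, C, ⟨hC, ?_⟩, heC⟩⟩ heC
      exact (h1 C hC).edge heC he' hve hx (fun h => hv (h ▸ hxB))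
    · refine le_trans (card_biUnion_le_card_mul _ id (q.choose 2) fun C hC =>
        (h1 C (mem_filter.1 hC).1).card.le) ?_
      have : (M.filter fun C => s(v, x) ∈ C).card ≤ 1 := by
        refine card_le_one.2 fun C hC C' hC' => ?_
        by_contra hne
        exact disjoint_left.1 (h2 C (mem_filter.1 hC).1 C' (mem_filter.1 hC').1 hne)
          (mem_filter.1 hC).2 (mem_filter.1 hC').2
      exact (Nat.mul_le_mul_right _ this).trans (by omega)

/-- Covering almost all edges at the vertices of a small set `B` by cliques whose other edges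
lie inside a part. -/
theorem cover_bad {r : ℕ} (hr : 0 < r) {κ : Type} [Fintype κ] [DecidableEq κ]
    {E : Finset (Sym2 V)} {W B : Finset V} (hE : On E W) (hB : B ⊆ W) (c : V → κ)
    (h1 : ∀ i, (2 * r + 2) * ((2 * r * r + r + 1) * B.card) ≤ (W.filter fun v => c v = i).card)
    (h2 : ∀ i, ∀ x ∈ W, (2 * r + 2) * ((W.filter fun v => c v = i) \
      nb E x (W.filter fun v => c v = i)).card ≤ (W.filter fun v => c v = i).card) :
    ∃ St Z : Finset (Sym2 V), St ∪ Z ⊆ E ∧ KDec (r + 1) (St ∪ Z) ∧ (∀ e ∈ St, ∃ x ∈ e, x ∈ B) ∧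
      (∀ e ∈ Z, (e.map c).IsDiag) ∧ ∀ x ∈ B, deg (E \ St) x ≤ B.card + Fintype.card κ * r := by
  classical
  obtain ⟨St, Z, a1, a2, a3, a4, -, -⟩ := seq_factor hr (B ×ˢ (univ : Finset κ)) Prod.fst
    (fun j => nb E j.1 ((W.filter fun v => c v = j.2) \ B))
    (fun j => E.filter fun e => e ∈ (nb E j.1 ((W.filter fun v => c v = j.2) \ B)).sym2) B.card
    (fun j hj j' _ h => (mem_sdiff.1 (mem_nb.1 h).1).2 (mem_product.1 hj).1)
    (fun j _ j' _ hne h => disjoint_left.2 fun v hv hv' => hne (Prod.ext h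
      ((mem_filter.1 (mem_sdiff.1 (mem_nb.1 hv).1).1).2.symm.trans
        (mem_filter.1 (mem_sdiff.1 (mem_nb.1 hv').1).1).2)))
    (fun j _ e he => ⟨(hE e (mem_filter.1 he).1).1, (mem_filter.1 he).2⟩)
    (fun j _ => by
      refine le_trans (card_le_card (t := B ×ˢ {j.2}) fun j' hj' => ?_) (by simp)
      obtain ⟨b1, b2⟩ := mem_filter.1 hj'
      obtain ⟨e, he, he'⟩ := not_disjoint_iff.1 b2
      induction e using Sym2.ind with
      | _ u w =>
        have b3 := (mk_mem_sym2_iff.1 (mem_filter.1 he).2).1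
        have b4 := (mk_mem_sym2_iff.1 (mem_filter.1 he').2).1
        exact mem_product.2 ⟨(mem_product.1 b1).1, mem_singleton.2
          ((mem_filter.1 (mem_sdiff.1 (mem_nb.1 b4).1).1).2.symm.trans
            (mem_filter.1 (mem_sdiff.1 (mem_nb.1 b3).1).1).2)⟩)
    (fun j hj v hv => by
      set P := W.filter fun v => c v = j.2 with hP
      set N := nb E j.1 (P \ B) with hN
      have hNP : N ⊆ P := fun y hy => (mem_sdiff.1 (mem_nb.1 hy).1).1
      have b0 : 1 ≤ B.card := card_pos.2 ⟨_, (mem_product.1 hj).1⟩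
      have b1 := h1 j.2
      have b2 := h2 j.2 j.1 (hB (mem_product.1 hj).1)
      have b3 := h2 j.2 v (mem_filter.1 (hNP hv)).1
      have b4 : (nb E j.1 P).card ≤ N.card + B.card := by
        refine le_trans (card_le_card fun y hy => ?_) (card_union_le _ _)
        simp only [hN, mem_union, mem_nb, mem_sdiff] at hy ⊢
        tauto
      have b5 : N \ nb (E.filter fun e => e ∈ N.sym2) v N ⊆ P \ nb E v P := by
        intro y hy
        obtain ⟨c1, c2⟩ := mem_sdiff.1 hy
        exact mem_sdiff.2 ⟨hNP c1, fun h => c2 (mem_nb.2 ⟨c1,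
          mem_filter.2 ⟨(mem_nb.1 h).2, mk_mem_sym2_iff.2 ⟨hv, c1⟩⟩⟩)⟩
      have b6 := card_le_card b5
      have b7 := card_sdiff_nb E j.1 P
      rw [← hP] at b1 b2 b3
      generalize (N \ nb (E.filter fun e => e ∈ N.sym2) v N).card = a at *
      generalize (P \ nb E v P).card = a1 at *
      generalize (P \ nb E j.1 P).card = a2 at *
      generalize (nb E j.1 P).card = a3 at *
      generalize N.card = n at *
      generalize B.card = b at *
      generalize P.card = p at *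
      refine le_of_mul_le_mul_left (a := 2 * r + 2) ?_ (by omega)
      have c1 : 2 * r * ((2 * r + 2) * a) ≤ 2 * r * p :=
        Nat.mul_le_mul_left _ ((Nat.mul_le_mul_left _ b6).trans b3)
      have c2 : (2 * r + 2) * r ≤ (2 * r + 2) * (r * b) :=
        Nat.mul_le_mul_left _ (Nat.le_mul_of_pos_right _ b0)
      have c3 : (2 * r + 2) * p ≤ (2 * r + 2) * (a2 + (n + b)) :=
        Nat.mul_le_mul_left _ (by omega)
      nlinarith)
  refine ⟨St, Z, union_subset (fun e he => ?_) (fun e he => ?_), a1, fun e he => ?_,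
    fun e he => ?_, fun x hx => ?_⟩
  · obtain ⟨j, -, v, hv, rfl⟩ := a2 e he
    exact (mem_nb.1 hv).2
  · obtain ⟨j, -, hj⟩ := a3 e he
    exact (mem_filter.1 hj).1
  · obtain ⟨j, hj, v, -, rfl⟩ := a2 e he
    exact ⟨j.1, by simp, (mem_product.1 hj).1⟩
  · obtain ⟨j, -, hj⟩ := a3 e he
    induction e using Sym2.ind with
    | _ u w =>
      obtain ⟨b3, b4⟩ := mk_mem_sym2_iff.1 (mem_filter.1 hj).2
      rw [Sym2.map_mk, Sym2.mk_isDiag_iff]
      exact (mem_filter.1 (mem_sdiff.1 (mem_nb.1 b3).1).1).2.trans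
        (mem_filter.1 (mem_sdiff.1 (mem_nb.1 b4).1).1).2.symm
  · rw [← card_nb_eq_deg (W := W) (fun e he => (hE e (mem_sdiff.1 he).1).2)]
    have b1 := card_biUnion_le_card_mul (univ : Finset κ)
      (fun i => (nb E x ((W.filter fun v => c v = i) \ B)).filter fun v => s(x, v) ∉ St) r
      (fun i _ => a4 (x, i) (by simpa using hx))
    rw [card_univ] at b1
    refine le_trans (card_le_card fun y hy => ?_) ((card_union_le _ _).trans
      (Nat.add_le_add_left b1 _))
    simp only [mem_union, mem_biUnion, mem_filter, mem_nb, mem_sdiff, mem_univ, true_and] at hy ⊢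
    by_cases hyB : y ∈ B
    · exact Or.inl hyB
    · exact Or.inr ⟨c y, ⟨⟨⟨hy.1, rfl⟩, hyB⟩, hy.2.1⟩, hy.2.2⟩

theorem nondeg_le {r : ℕ} {E : Finset (Sym2 V)} {x : V} {P : Finset V}
    (h : (1 - 1 / (2 * (r : ℝ) + 2)) * P.card ≤ (nb E x P).card) :
    (2 * (r : ℝ) + 2) * (P \ nb E x P).card ≤ P.card := by
  have h1 : ((P \ nb E x P).card : ℝ) + (nb E x P).card = P.card := by
    exact_mod_cast card_sdiff_nb E x P
  have h2 : (0 : ℝ) < 2 * r + 2 := by positivity
  have h3 := mul_le_mul_of_nonneg_left h h2.le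
  have h4 : (2 * (r : ℝ) + 2) * ((1 - 1 / (2 * (r : ℝ) + 2)) * P.card) =
      (2 * r + 1) * P.card := by field_simp; ring
  rw [h4] at h3
  nlinarith

end

theorem KAD.toMax {r : ℕ} (hr : 0 < r) {δ δ' : ℝ} (hAD : KAD (r + 1) δ)
    (h0 : 1 - 1 / (2 * (r : ℝ) + 2) ≤ δ) (hδ : δ < δ') : KADmax (r + 1) δ' := by
  intro γ hγ
  obtain ⟨K, hK⟩ := exists_nat_gt (max (8 / γ) (2 / (δ' - δ)))
  have hK1 : 8 / γ < K := lt_of_le_of_lt (le_max_left _ _) hK
  have hK2 : 2 / (δ' - δ) < K := lt_of_le_of_lt (le_max_right _ _) hK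
  have hK0 : (0 : ℝ) < K := lt_trans (by positivity) hK1
  rw [div_lt_iff₀ hγ] at hK1
  rw [div_lt_iff₀ (by linarith)] at hK2
  set c1 : ℝ := Nat.cast ((r + 1).choose 2) with hc1
  have hc10 : 0 ≤ c1 := Nat.cast_nonneg _
  set c2 : ℝ := (2 * r + 2) * (2 * r * r + r + 1) with hc2
  have hc20 : 0 < c2 := by positivity
  set β : ℝ := min (γ / (2 * (c1 + 1))) (1 / (2 * K * c2)) with hβ
  have hβ0 : 0 < β := lt_min (by positivity) (by positivity)
  have hβ1 : β * (2 * (c1 + 1)) ≤ γ := (le_div_iff₀ (by positivity)).1 (min_le_left _ _)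
  have hβ2 : β * (2 * K * c2) ≤ 1 := (le_div_iff₀ (by positivity)).1 (min_le_right _ _)
  have hD0 : 1 / (2 * (r : ℝ) + 2) ≤ 1 := by
    rw [div_le_one (by positivity)]; linarith [Nat.cast_nonneg (α := ℝ) r]
  have hD1 : 0 < 1 / (2 * (r : ℝ) + 2) := by positivity
  obtain ⟨n₁, hn₁⟩ := exists_partition K (by exact_mod_cast hK0)
    (τ := δ' - (1 - 1 / (2 * (r : ℝ) + 2))) (ε := 1) (by linarith) one_pos
  obtain ⟨n₂, hn₂⟩ := hAD (β * γ / 8) (by positivity)
  refine ⟨n₁ + n₂ + ⌈2 * (K * r) / γ⌉₊ + 1, fun V _ W E hn hE hD => ?_⟩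
  classical
  have hn3 : 2 * (K * r) ≤ γ * W.card := by
    have h1 : (⌈2 * (K * r) / γ⌉₊ : ℝ) ≤ W.card := Nat.cast_le.2 (by omega)
    have h2 := (Nat.le_ceil (2 * (K * r) / γ)).trans h1
    rw [div_le_iff₀ hγ] at h2
    linarith
  set n : ℝ := (W.card : ℝ) with hnW
  have hn0 : 0 < n := by rw [hnW]; exact_mod_cast (by omega)
  obtain ⟨c, hc⟩ := hn₁ V (Fin K) E W W (1 - 1 / (2 * (r : ℝ) + 2)) (by simp) (by omega)
    Subset.rfl (by simp) (by linarith) (by linarith) (fun x hx => by simpa using hD x hx)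
  set R := E.filter fun e => (e.map c).IsDiag with hR
  have hRE : R ⊆ E := filter_subset _ _
  have hdR : ∀ x, (K : ℝ) * (nb R x W).card ≤ 2 * n := by
    intro x
    have h1 : (nb R x W).card ≤ (W.filter fun v => c v = c x).card := by
      refine card_le_card fun y hy => ?_
      have h2 := (mem_filter.1 (mem_nb.1 hy).2).2
      rw [Sym2.map_mk, Sym2.mk_isDiag_iff] at h2
      exact mem_filter.2 ⟨(mem_nb.1 hy).1, h2.symm⟩
    have h2 := (Nat.mul_le_mul_left K h1).trans (hc (c x)).2.1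
    rw [hnW]
    exact_mod_cast h2
  obtain ⟨X₀, hX₀, hd₀, hL⟩ := hn₂ V W (E \ R) (by omega) (hE.mono sdiff_subset) (fun x hx => by
    have h1 : ((nb E x W).card : ℝ) ≤ (nb (E \ R) x W).card + (nb R x W).card := by
      exact_mod_cast card_nb_le_sdiff E R x W
    have h2 := hD x hx
    have h3 := hdR x
    have h4 : ((nb R x W).card : ℝ) ≤ (δ' - δ) * n := by
      refine le_of_mul_le_mul_left ?_ hK0
      nlinarith
    linarith)
  set L := (E \ R) \ X₀ with hLdef
  have hLE : On L W := hE.mono (sdiff_subset.trans sdiff_subset)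
  set B := W.filter fun v => γ * n / 4 < (nb L v W).card with hBdef
  have hB : (B.card : ℝ) ≤ β * n := by
    have h1 : (B.card : ℝ) * (γ * n / 4) ≤ 2 * L.card :=
      calc (B.card : ℝ) * (γ * n / 4) = ∑ _v ∈ B, γ * n / 4 := by simp
        _ ≤ ∑ v ∈ B, ((nb L v W).card : ℝ) := sum_le_sum fun v hv => (mem_filter.1 hv).2.le
        _ ≤ ∑ v ∈ W, ((nb L v W).card : ℝ) :=
          sum_le_sum_of_subset_of_nonneg (filter_subset _ _) fun _ _ _ => by positivity
        _ = _ := sum_card_nb hLE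
    refine le_of_mul_le_mul_right ?_ (show 0 < γ * n / 4 by positivity)
    rw [← hnW] at hL
    nlinarith
  have hB1 : (B.card : ℝ) * (c1 + 1) ≤ γ * n / 2 := by
    have h1 := mul_le_mul_of_nonneg_right hB (show 0 ≤ c1 + 1 by positivity)
    have h2 := mul_le_mul_of_nonneg_right hβ1 hn0.le
    linarith
  have hB0 : (0 : ℝ) ≤ B.card * c1 := by positivity
  have hB00 : (0 : ℝ) ≤ B.card := by positivity
  obtain ⟨X₁, hX₁, hd₁, hav, hdeg⟩ := hd₀.avoid B
  obtain ⟨St, Z, a1, a2, a3, a4, a5⟩ := cover_bad hr hE (show B ⊆ W from filter_subset _ _) c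
    (fun i => by
      have h1 : n ≤ 2 * K * (W.filter fun v => c v = i).card := by
        rw [hnW]; exact_mod_cast (hc i).1
      have h2 : c2 * B.card ≤ (W.filter fun v => c v = i).card := by
        refine le_of_mul_le_mul_left ?_ (show (0 : ℝ) < 2 * K by positivity)
        have h3 := mul_le_mul_of_nonneg_left hB (show 0 ≤ 2 * K * c2 by positivity)
        have h4 := mul_le_mul_of_nonneg_right hβ2 hn0.le
        linarith
      rw [hc2, mul_assoc] at h2
      exact_mod_cast h2)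
    (fun i x hx => by exact_mod_cast nondeg_le ((hc i).2.2 x hx))
  refine ⟨X₁ ∪ (St ∪ Z), union_subset ((hX₁.trans hX₀).trans sdiff_subset) a1,
    hd₁.union a2 (disjoint_left.2 fun e he he' => ?_), fun v => ?_⟩
  · rcases mem_union.1 he' with h | h
    · obtain ⟨x, h1, h2⟩ := a3 e h
      exact hav e he x h1 h2
    · exact (mem_sdiff.1 (hX₀ (hX₁ he))).2 (mem_filter.2 ⟨a1 he', a4 e h⟩)
  by_cases hvB : v ∈ B
  · have h1 : deg (E \ (X₁ ∪ (St ∪ Z))) v ≤ deg (E \ St) v :=
      deg_mono (sdiff_subset_sdiff Subset.rfl (subset_union_left.trans subset_union_right)) v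
    have h2 := h1.trans (a5 v hvB)
    rw [Fintype.card_fin] at h2
    have h3 : (deg (E \ (X₁ ∪ (St ∪ Z))) v : ℝ) ≤ B.card + K * r := by exact_mod_cast h2
    linarith
  by_cases hvW : v ∈ W
  swap
  · rw [(hE.mono sdiff_subset).deg_zero hvW]
    simp only [Nat.cast_zero]
    positivity
  have h1 : deg (E \ (X₁ ∪ (St ∪ Z))) v ≤ deg (R ∪ L ∪ (X₀ \ X₁)) v := by
    refine deg_mono (fun e he => ?_) v
    simp only [hLdef, mem_union, mem_sdiff] at he ⊢
    tauto
  have h2 := deg_union_le (R ∪ L) (X₀ \ X₁) v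
  have h3 := deg_union_le R L v
  have h4 := hdeg v hvB
  rw [← card_nb_eq_deg (W := W) (fun e he => (hE e (hRE he)).2),
    ← card_nb_eq_deg (W := W) (fun e he => (hLE e he).2)] at h3
  have h5 : (deg (E \ (X₁ ∪ (St ∪ Z))) v : ℝ) ≤
      (nb R v W).card + (nb L v W).card + B.card * c1 := by
    rw [hc1]
    exact_mod_cast (by omega)
  have h6 : ((nb L v W).card : ℝ) ≤ γ * n / 4 := by
    by_contra h
    exact hvB (mem_filter.2 ⟨hvW, not_le.1 h⟩)
  have h7 : ((nb R v W).card : ℝ) ≤ γ * n / 4 := by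
    refine le_of_mul_le_mul_left ?_ hK0
    have := hdR v
    nlinarith
  linarith

end Pool.Agent.P.MP_be5a37_co.Kq
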