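import Pool.Agent.P.MP_be5a37_co.KBasic
import Pool.Agent.P.MP_9cda65_co.Spread

set_option autoImplicit false
set_option linter.unusedSectionVars false

namespace Pool.Agent.P.MP_be5a37_co.Kq

open Finset Pool.Agent.P.MP_9cda65_co

open Classical in
/-- The cliques on `q` vertices inside `E`. -/
noncomputable def cls {V : Type} [DecidableEq V] (q : ℕ) (E : Finset (Sym2 V)) :
    Finset (Finset (Sym2 V)) := E.powerset.filter (IsK q)

theorem mem_cls {V : Type} [DecidableEq V] {q : ℕ} {E C : Finset (Sym2 V)} :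
    C ∈ cls q E ↔ C ⊆ E ∧ IsK q C := by simp [cls]

/-- Large graphs of minimum degree at least `δ n` have almost perfect fractional packings. -/
def KFP (q : ℕ) (δ : ℝ) : Prop :=
  ∀ η : ℝ, 0 < η → ∃ n₀ : ℕ, ∀ (V : Type) [DecidableEq V] (W : Finset V) (E : Finset (Sym2 V)),
    n₀ ≤ W.card → On E W → (∀ x ∈ W, δ * W.card ≤ ((nb E x W).card : ℝ)) →
    ∃ ω : Finset (Sym2 V) → ℝ, (∀ C, 0 ≤ ω C) ∧
      (∀ e ∈ E, ∑ C ∈ (cls q E).filter (fun C => e ∈ C), ω C ≤ 1) ∧
      (E.card : ℝ) - η * (W.card : ℝ) ^ 2 ≤ (q.choose 2 : ℕ) * ∑ C ∈ cls q E, ω C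

/-- Large graphs of minimum degree at least `δ n` have approximate decompositions. -/
def KAD (q : ℕ) (δ : ℝ) : Prop :=
  ∀ η : ℝ, 0 < η → ∃ n₀ : ℕ, ∀ (V : Type) [DecidableEq V] (W : Finset V) (E : Finset (Sym2 V)),
    n₀ ≤ W.card → On E W → (∀ x ∈ W, δ * W.card ≤ ((nb E x W).card : ℝ)) →
    ∃ X ⊆ E, KDec q X ∧ ((E \ X).card : ℝ) ≤ η * (W.card : ℝ) ^ 2

/-- Approximate decompositions whose leftover has small maximum degree. -/
def KADmax (q : ℕ) (δ : ℝ) : Prop :=
  ∀ γ : ℝ, 0 < γ → ∃ n₀ : ℕ, ∀ (V : Type) [DecidableEq V] (W : Finset V) (E : Finset (Sym2 V)),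
    n₀ ≤ W.card → On E W → (∀ x ∈ W, δ * W.card ≤ ((nb E x W).card : ℝ)) →
    ∃ X ⊆ E, KDec q X ∧ ∀ v, (deg (E \ X) v : ℝ) ≤ γ * W.card

/-- The conclusion of the cover-down lemma, for given constants. -/
def KCD (r : ℕ) (δ₁ δ₂ ε₁ ε₂ μ : ℝ) (n₀ : ℕ) : Prop :=
  ∀ (V : Type) [DecidableEq V] (W U : Finset V) (E : Finset (Sym2 V)),
    n₀ ≤ W.card → U ⊆ W → On E W → ε₁ * W.card ≤ (U.card : ℝ) → (U.card : ℝ) ≤ ε₂ * W.card →
    (∀ x ∈ W, δ₁ * W.card ≤ ((nb E x W).card : ℝ)) →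
    (∀ x ∈ W, δ₂ * U.card ≤ ((nb E x U).card : ℝ)) →
    (∀ x ∈ W, x ∉ U → r ∣ deg E x) →
    ∃ X ⊆ E, KDec (r + 1) X ∧ (∀ e ∈ E, e ∉ U.sym2 → e ∈ X) ∧
      ∀ u ∈ U, ((nb X u U).card : ℝ) ≤ μ * W.card

theorem KCD.mono {r : ℕ} {δ₁ δ₂ δ₂' ε₁ ε₂ μ : ℝ} {n₀ : ℕ} (h : KCD r δ₁ δ₂ ε₁ ε₂ μ n₀)
    (h' : δ₂ ≤ δ₂') : KCD r δ₁ δ₂' ε₁ ε₂ μ n₀ :=
  fun V _ W U E a1 a2 a3 a4 a5 a6 a7 a8 => h V W U E a1 a2 a3 a4 a5 a6
    (fun x hx => le_trans (mul_le_mul_of_nonneg_right h' (Nat.cast_nonneg _)) (a7 x hx)) a8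

theorem KFP.ad {q : ℕ} (hL : 2 ≤ q) {δ₀ δ : ℝ} (h0 : 0 ≤ δ₀) (h1 : δ₀ ≤ 1) (hδ : δ₀ < δ)
    (h : KFP q δ₀) : KAD q δ := by
  intro η hη
  set L : ℕ := q.choose 2 with hLdef
  have hL1 : 1 ≤ L := Nat.choose_pos hL
  obtain ⟨β, hβ, hnib⟩ := nibble L hL1 (η / 4) (by positivity)
  obtain ⟨n₁, hn₁⟩ := h (η / 16) (by positivity)
  set p : ℝ := min β (1 / 2) with hp
  have hp0 : 0 < p := lt_min hβ (by norm_num)
  have hp1 : p ≤ 1 / 2 := min_le_right _ _
  have hpβ : p ≤ β := min_le_left _ _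
  set σ : ℝ := min (δ - δ₀) (1 / 2) with hσ
  have hσ0 : 0 < σ := lt_min (by linarith) (by norm_num)
  have hσ1 : σ ≤ 1 / 2 := min_le_right _ _
  have hσδ : σ ≤ δ - δ₀ := min_le_left _ _
  obtain ⟨n₂, hn₂⟩ := eventually_pow_mul_exp_lt 1 (c := (p * σ) ^ 2 / 4) (t := η * p ^ 2 / 8)
    (by positivity) (by positivity)
  refine ⟨n₂ + 2 + ⌈2 * n₁ / p⌉₊, fun V _ W E hn hE hD => ?_⟩
  classical
  have hn' : (n₂ : ℝ) + 2 + ⌈2 * n₁ / p⌉₊ ≤ W.card := by exact_mod_cast hn
  have c1 := Nat.le_ceil (2 * n₁ / p)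
  have c2 : (0 : ℝ) ≤ 2 * n₁ / p := by positivity
  have c3 : (0 : ℝ) ≤ n₂ := Nat.cast_nonneg _
  set n : ℝ := (W.card : ℝ) with hnW
  have hn0 : 0 < n := by linarith
  have hpp : ∀ i ∈ W, 0 ≤ (fun _ : V => p) i ∧ (fun _ : V => p) i ≤ 1 :=
    fun _ _ => ⟨hp0.le, by dsimp only; linarith⟩
  set good : Finset V → Prop := fun T => ∀ j ∈ W.disjSum (univ : Finset Bool),
    ∑ i ∈ W, (fun _ => p) i * vtest E δ₀ j i - p * σ * n < ∑ i ∈ T, vtest E δ₀ j i with hgood
  have hbad : Ex W (fun _ => p) (fun T => if good T then 0 else 1) ≤ η * p ^ 2 / 4 := by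
    have := Ex_tail_union hpp (W.disjSum (univ : Finset Bool)) (vtest E δ₀)
      (fun j _ i _ => vtest_abs E h0 h1 j i) hn0 (fun j _ => vtest_sq E h0 h1 j W)
      (a := p * σ * n) (by positivity) (by
        have : p * σ ≤ 2 := by nlinarith
        nlinarith)
    refine le_trans (le_of_eq_of_le ?_ this) ?_
    · refine Ex_congr fun T _ => ?_
      by_cases hT : good T
      · rw [if_pos hT]
      · rw [if_neg hT]
    · have e : (p * σ * n) ^ 2 / (4 * n) = (p * σ) ^ 2 / 4 * n := by field_simp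
      have := hn₂ n (by linarith)
      rw [e, card_disjSum]
      simp only [card_univ, Fintype.card_bool, Nat.cast_add, Nat.cast_ofNat, pow_one] at this ⊢
      have h3 := Real.exp_pos (-((p * σ) ^ 2 / 4 * n))
      nlinarith
  have hex : ∀ S : Finset V, ∃ ω : Finset (Sym2 V) → ℝ, (∀ C, 0 ≤ ω C) ∧
      (∀ e ∈ E.filter (fun e => e ∈ S.sym2),
        ∑ C ∈ (cls q (E.filter fun e => e ∈ S.sym2)).filter (fun C => e ∈ C), ω C ≤ 1) ∧
      (S ⊆ W → good S → ((E.filter fun e => e ∈ S.sym2).card : ℝ) - η / 4 * p ^ 2 * n ^ 2 ≤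
        L * ∑ C ∈ cls q (E.filter fun e => e ∈ S.sym2), ω C) := by
    intro S
    by_cases hS : S ⊆ W ∧ good S
    · obtain ⟨g1, g2, g3⟩ := vtest_good (σ := σ) hp0.le le_rfl
        (fun x hx => le_trans (mul_le_mul_of_nonneg_right (by linarith) hn0.le) (hD x hx)) hS.2
      have hpn : 0 < p * n := by positivity
      have g4 : (n₁ : ℝ) ≤ S.card := by
        have : 2 * n₁ / p ≤ n := by linarith
        rw [div_le_iff₀ hp0] at this
        nlinarith
      obtain ⟨ω, a1, a2, a3⟩ := hn₁ V S (E.filter fun e => e ∈ S.sym2) (by exact_mod_cast g4)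
        (fun e he => ⟨(hE e (mem_filter.1 he).1).1, (mem_filter.1 he).2⟩)
        (fun x hx => by rw [nb_filter_sym2 E hx]; exact g1 x (hS.1 hx))
      refine ⟨ω, a1, a2, fun _ _ => le_trans ?_ a3⟩
      have g5 : (S.card : ℝ) ≤ 2 * (p * n) := by nlinarith
      have g6 : (S.card : ℝ) ^ 2 ≤ (2 * (p * n)) ^ 2 := pow_le_pow_left₀ (by positivity) g5 2
      nlinarith
    · exact ⟨0, by simp, by simp, fun h1 h2 => absurd ⟨h1, h2⟩ hS⟩
  choose ωS hω1 hω2 hω3 using hex
  set ω : Finset (Sym2 V) → ℝ := fun C => (p ^ 2)⁻¹ * Ex W (fun _ => p)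
    (fun S => if C ∈ cls q (E.filter fun e => e ∈ S.sym2) then ωS S C else 0) with hω
  have hload : ∀ (e : Sym2 V) (Q : Finset (Sym2 V) → Prop) [DecidablePred Q] (A : Finset V),
      A ⊆ W → (∀ C, Q C → e ∈ C) → (∀ C S, Q C → C ⊆ S.sym2 → A ⊆ S) →
      ∑ C ∈ (cls q E).filter Q, ω C ≤ (p ^ 2)⁻¹ * p ^ A.card := by
    intro e Q _ A hA hQ1 hQ2
    simp only [hω]
    rw [← mul_sum, ← Ex_sum]
    refine mul_le_mul_of_nonneg_left ?_ (by positivity)
    have := Ex_subset (fun _ => p) hA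
    rw [prod_const] at this
    rw [← this]
    refine Ex_mono hpp fun S _ => ?_
    rw [← sum_filter]
    by_cases hc : (((cls q E).filter Q).filter
        (fun C => C ∈ cls q (E.filter fun e => e ∈ S.sym2))) = ∅
    · rw [hc, sum_empty]; split_ifs <;> norm_num
    · obtain ⟨C, hC⟩ := nonempty_iff_ne_empty.2 hc
      simp only [mem_filter] at hC
      have hCS := (mem_cls.1 hC.2).1
      rw [if_pos (hQ2 C S hC.1.2 (fun e he => (mem_filter.1 (hCS he)).2))]
      refine le_trans (sum_le_sum_of_subset_of_nonneg ?_ fun C _ _ => hω1 S C)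
        (hω2 S e (hCS (hQ1 C hC.1.2)))
      intro C' hC'
      simp only [mem_filter] at hC' ⊢
      exact ⟨hC'.2, hQ1 C' hC'.1.2⟩
  obtain ⟨M, hM1, hM2, hM3⟩ := hnib (Sym2 V) E (cls q E) ω
    (fun C hC => ⟨(mem_cls.1 hC).1, (mem_cls.1 hC).2.card⟩)
    (fun C _ => mul_nonneg (by positivity) (by
      refine le_of_eq_of_le (Ex_const W (fun _ => p) 0).symm (Ex_mono hpp fun S _ => ?_)
      split_ifs
      · exact hω1 S C
      · exact le_rfl))
    (fun e he => by
      induction e using Sym2.ind with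
      | _ u v =>
        refine (hload s(u, v) (fun C => s(u, v) ∈ C) {u, v} ?_ (fun _ h => h) ?_).trans ?_
        · simp [insert_subset_iff, hE.left he, hE.right he]
        · intro C S hC hS
          simpa [insert_subset_iff] using hS hC
        · rw [card_pair (hE.ne he), inv_mul_cancel₀ (by positivity)])
    (fun e he f hf hef => by
      induction e using Sym2.ind with
      | _ u v =>
        obtain ⟨z, hz, hz'⟩ : ∃ z ∈ f, z ∉ s(u, v) := by
          induction f using Sym2.ind with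
          | _ x y =>
            have hxy := hE.ne hf
            by_contra hc
            push Not at hc
            have a1 := hc x (by simp)
            have a2 := hc y (by simp)
            simp only [Sym2.mem_iff] at a1 a2
            apply hef
            rcases a1 with rfl | rfl <;> rcases a2 with rfl | rfl
            · exact absurd rfl hxy
            · rfl
            · exact Sym2.eq_swap
            · exact absurd rfl hxy
        refine (hload s(u, v) (fun C => s(u, v) ∈ C ∧ f ∈ C) {z, u, v} ?_ (fun _ h => h.1)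
          ?_).trans ?_
        · simp [insert_subset_iff, hE.left he, hE.right he, mem_sym2_iff.1 (hE f hf).2 z hz]
        · intro C S hC hS
          have a1 := hS hC.1
          have a2 := mem_sym2_iff.1 (hS hC.2) z hz
          simp only [mk_mem_sym2_iff] at a1
          simp [insert_subset_iff, a1, a2]
        · rw [card_insert_of_notMem (by simpa using hz'), card_pair (hE.ne he)]
          have : (p ^ 2)⁻¹ * p ^ (2 + 1) = p := by field_simp
          rw [this]; exact hpβ)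
  have hsub : M.biUnion id ⊆ E := biUnion_subset.2 fun C hC => (mem_cls.1 (hM1 hC)).1
  refine ⟨M.biUnion id, hsub, KDec.biUnion M (fun C hC => (mem_cls.1 (hM1 hC)).2.dec) hM2, ?_⟩
  have t1 : (M.biUnion id).card = L * M.card := by
    rw [card_biUnion (t := id) (fun C hC C' hC' hne => hM2 C hC C' hC' hne)]
    rw [sum_congr rfl (f := fun C => (id C).card) (g := fun _ => L)
      (fun C hC => (mem_cls.1 (hM1 hC)).2.card)]
    simp [mul_comm]
  have t2 : ((E \ M.biUnion id).card : ℝ) = E.card - L * M.card := by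
    rw [card_sdiff_of_subset hsub, Nat.cast_sub (card_le_card hsub), t1]; push_cast; ring
  have t3 : p ^ 2 * E.card = Ex W (fun _ => p)
      (fun S => ((E.filter fun e => e ∈ S.sym2).card : ℝ)) := by
    simp only [card_filter, Nat.cast_sum]
    rw [Ex_sum, mul_comm, ← nsmul_eq_mul, ← sum_const]
    refine sum_congr rfl fun e he => ?_
    induction e using Sym2.ind with
    | _ u v =>
      have := Ex_subset (S := W) (A := {u, v}) (fun _ => p)
        (by simp [insert_subset_iff, hE.left he, hE.right he])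
      rw [prod_const, card_pair (hE.ne he)] at this
      rw [← this]
      refine Ex_congr fun T _ => ?_
      simp [insert_subset_iff]
  have hEn := hE.card_le
  have t4 : p ^ 2 * E.card - η / 4 * p ^ 2 * n ^ 2 - n ^ 2 * (η * p ^ 2 / 4) ≤
      p ^ 2 * (L * ∑ C ∈ cls q E, ω C) := by
    simp only [hω]
    rw [← mul_sum, ← Ex_sum, mul_left_comm (L : ℝ), ← mul_assoc (p ^ 2),
      mul_inv_cancel₀ (by positivity), one_mul, ← Ex_const_mul, t3]
    have t5 := mul_le_mul_of_nonneg_left hbad (show 0 ≤ n ^ 2 by positivity)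
    rw [← Ex_const_mul] at t5
    have t6 := Ex_mono hpp (F := fun S => (((E.filter fun e => e ∈ S.sym2).card : ℝ) -
        η / 4 * p ^ 2 * n ^ 2) - n ^ 2 * (if good S then 0 else 1))
      (G := fun S => L * ∑ C ∈ cls q E,
        if C ∈ cls q (E.filter fun e => e ∈ S.sym2) then ωS S C else 0) (fun S hS => by
        have e1 : cls q E ∩ cls q (E.filter fun e => e ∈ S.sym2) =
            cls q (E.filter fun e => e ∈ S.sym2) := by
          refine inter_eq_right.2 fun C hC => ?_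
          rw [mem_cls] at hC ⊢
          exact ⟨hC.1.trans (filter_subset _ _), hC.2⟩
        rw [sum_ite_mem, e1]
        by_cases hg : good S
        · rw [if_pos hg]
          have := hω3 S hS hg
          linarith
        · rw [if_neg hg]
          have a1 : ((E.filter fun e => e ∈ S.sym2).card : ℝ) ≤ E.card := by
            exact_mod_cast card_filter_le _ _
          have a2 : 0 ≤ (L : ℝ) * ∑ C ∈ cls q (E.filter fun e => e ∈ S.sym2), ωS S C :=
            mul_nonneg (by positivity) (sum_nonneg fun C _ => hω1 S C)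
          have a3 : 0 ≤ η / 4 * p ^ 2 * n ^ 2 := by positivity
          have a4 : (0 : ℝ) ≤ E.card := Nat.cast_nonneg _
          linarith)
    rw [Ex_sub, Ex_sub, Ex_const] at t6
    linarith
  have t7 : (E.card : ℝ) - η / 2 * n ^ 2 ≤ L * ∑ C ∈ cls q E, ω C := by
    refine le_of_mul_le_mul_left ?_ (show 0 < p ^ 2 by positivity)
    linarith
  have t8 : η / 4 * E.card ≤ η / 4 * n ^ 2 :=
    mul_le_mul_of_nonneg_left (by nlinarith [sq_nonneg n]) (by positivity)
  have t9 : 0 ≤ η * n ^ 2 := by positivity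
  rw [t2]
  linarith

end Pool.Agent.P.MP_be5a37_co.Kq
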