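import Pool.Agent.P.MP_be5a37_co.KBasic

set_option autoImplicit false
set_option linter.unusedSectionVars false

namespace Pool.Agent.P.MP_be5a37_co.Kq

open Finset Pool.Agent.P.MP_9cda65_co

/-- `A` is built from the root set `Z` by adding new vertices with at most `D` neighbours. -/
inductive Ext (D : ℕ) (Z : Finset ℕ) : Finset (Sym2 ℕ) → Finset ℕ → Prop
  | refl : Ext D Z ∅ Z
  | step {A : Finset (Sym2 ℕ)} {Z' : Finset ℕ} {v : ℕ} (S : Finset ℕ) : Ext D Z A Z' → v ∉ Z' →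
      S ⊆ Z' → S.card ≤ D → Ext D Z (A ∪ fan v S) (insert v Z')

variable {D : ℕ}

theorem Ext.subset {Z Z' : Finset ℕ} {A : Finset (Sym2 ℕ)} (h : Ext D Z A Z') : Z ⊆ Z' := by
  induction h with
  | refl => exact Subset.rfl
  | step S _ _ _ _ ih => exact ih.trans (subset_insert _ _)

theorem Ext.edge {Z Z' : Finset ℕ} {A : Finset (Sym2 ℕ)} (h : Ext D Z A Z') :
    ∀ e ∈ A, e ∈ Z'.sym2 ∧ ∃ v ∈ e, v ∉ Z := by
  induction h with
  | refl => simp
  | @step A Z' v S h hv hS _ ih =>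
    intro e he
    rcases mem_union.1 he with he | he
    · exact ⟨sym2_mono (subset_insert _ _) (ih e he).1, (ih e he).2⟩
    · obtain ⟨a, ha, rfl⟩ := mem_fan.1 he
      exact ⟨by simp [hS ha], v, by simp, fun hz => hv (h.subset hz)⟩

theorem Ext.sub {Z Z' : Finset ℕ} {A : Finset (Sym2 ℕ)} (h : Ext D Z A Z') : A ⊆ Z'.sym2 :=
  fun e he => (h.edge e he).1

theorem Ext.disj {Z Z' : Finset ℕ} {A P : Finset (Sym2 ℕ)} (h : Ext D Z A Z') (hP : P ⊆ Z.sym2) :
    Disjoint A P := by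
  rw [disjoint_left]
  intro e he heP
  obtain ⟨v, hv, hvZ⟩ := (h.edge e he).2
  exact hvZ (mem_sym2_iff.1 (hP heP) v hv)

theorem Ext.trans {Z Z' Z'' : Finset ℕ} {A B : Finset (Sym2 ℕ)} (h : Ext D Z A Z')
    (h' : Ext D Z' B Z'') : Ext D Z (A ∪ B) Z'' := by
  induction h' with
  | refl => simpa using h
  | step S _ hv hS hc ih => rw [← union_assoc]; exact Ext.step S ih hv hS hc

theorem Ext.lift {Z Z' : Finset ℕ} {A P : Finset (Sym2 ℕ)} (h : Ext D Z A Z') (hP : P ⊆ Z.sym2) :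
    P ⊆ Z'.sym2 := hP.trans (sym2_mono h.subset)

theorem ext_vertex (Z : Finset ℕ) : ∃ v, v ∉ Z ∧ Ext D Z ∅ (insert v Z) := by
  obtain ⟨v, hv⟩ := Infinite.exists_notMem_finset Z
  exact ⟨v, hv, by simpa [fan] using Ext.step ∅ Ext.refl hv (empty_subset _) (by simp)⟩

theorem ext_of_deg (Z N : Finset ℕ) : ∀ B : Finset (Sym2 ℕ), (∀ v ∈ N, v ∉ Z) →
    (∀ e ∈ B, ¬ e.IsDiag ∧ e ∈ (Z ∪ N).sym2 ∧ ∃ v ∈ e, v ∈ N) → (∀ v ∈ N, deg B v ≤ D) →
    Ext D Z B (Z ∪ N) := by
  induction N using Finset.induction_on with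
  | empty =>
    intro B _ h _
    have : B = ∅ := eq_empty_iff_forall_notMem.2 fun e he => by simpa using (h e he).2.2
    rw [this, union_empty]
    exact Ext.refl
  | insert v N hv ih =>
    intro B h1 h2 h3
    have h4 := ih (B.filter fun e => v ∉ e) (fun w hw => h1 w (mem_insert_of_mem hw))
      (fun e he => by
        obtain ⟨a1, a2⟩ := mem_filter.1 he
        obtain ⟨a3, a4, w, a5, a6⟩ := h2 e a1
        refine ⟨a3, mem_sym2_iff.2 fun z hz => ?_, w, a5, ?_⟩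
        · have := mem_sym2_iff.1 a4 z hz
          rw [union_insert, mem_insert] at this
          exact this.resolve_left fun h => a2 (h ▸ hz)
        · exact (mem_insert.1 a6).resolve_left fun h => a2 (h ▸ a5))
      (fun w hw => (deg_mono (filter_subset _ _) w).trans (h3 w (mem_insert_of_mem hw)))
    have h5 := Ext.step (v := v) (nb B v (Z ∪ N)) h4
      (by rw [mem_union, not_or]; exact ⟨h1 v (mem_insert_self _ _), hv⟩) (filter_subset _ _)
      ((card_nb_le_deg _ _ _).trans (h3 v (mem_insert_self _ _)))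
    rw [union_insert]
    refine (congrArg (fun X => Ext D Z X (insert v (Z ∪ N))) ?_).mp h5
    ext e
    simp only [mem_union, mem_filter, mem_fan, mem_nb]
    constructor
    · rintro (h | ⟨w, h, rfl⟩)
      · exact h.1
      · exact h.2
    · intro he
      by_cases h : v ∈ e
      · obtain ⟨w, rfl⟩ := Sym2.mem_iff_exists.1 h
        obtain ⟨a3, a4, -⟩ := h2 _ he
        have a5 := (mk_mem_sym2_iff.1 a4).2
        rw [union_insert, mem_insert, mem_union] at a5
        exact Or.inr ⟨w, ⟨a5.resolve_left fun h => a3 (by simp [h]), he⟩, rfl⟩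
      · exact Or.inl ⟨he, h⟩

theorem exists_fresh (ι : Type) [Countable ι] (Z : Finset ℕ) :
    ∃ g : ι → ℕ, Function.Injective g ∧ ∀ i, g i ∉ Z := by
  obtain ⟨f, hf⟩ := Countable.exists_injective_nat ι
  refine ⟨fun i => Z.sup id + 1 + f i, fun i j h => hf (by simpa using h), fun i h => ?_⟩
  have := le_sup (f := id) h
  simp only [id] at this
  omega

theorem deg_le_one {ι : Type} (I : Finset ι) (f : ι → Sym2 ℕ) {v : ℕ}
    (h : ∀ i ∈ I, ∀ j ∈ I, v ∈ f i → v ∈ f j → f i = f j) : deg (I.image f) v ≤ 1 := by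
  refine card_le_one.2 fun e he e' he' => ?_
  obtain ⟨a1, a2⟩ := mem_filter.1 he
  obtain ⟨a3, a4⟩ := mem_filter.1 he'
  obtain ⟨i, hi, rfl⟩ := mem_image.1 a1
  obtain ⟨j, hj, rfl⟩ := mem_image.1 a3
  exact h i hi j hj a2 a4

theorem deg_fan_le {x v : ℕ} (L : Finset ℕ) (h : v ≠ x) : deg (fan x L) v ≤ 1 :=
  deg_le_one L _ fun i _ j _ h1 h2 => by
    rw [← (Sym2.mem_iff.1 h1).resolve_left h, ← (Sym2.mem_iff.1 h2).resolve_left h]

theorem disjoint_fan {x x' : ℕ} {L L' : Finset ℕ} (h : x ≠ x') (h' : x ∉ L') :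
    Disjoint (fan x L) (fan x' L') := by
  rw [disjoint_left]
  intro e he he'
  obtain ⟨v, -, rfl⟩ := mem_fan.1 he
  rcases mk_mem_fan.1 he' with h1 | h1
  · exact h h1.1
  · exact h' h1.2

/-- `P` and `P'` can be exchanged with the help of a gadget. -/
def Eqv (r : ℕ) (P P' : Finset (Sym2 ℕ)) : Prop :=
  ∀ Z : Finset ℕ, P ⊆ Z.sym2 → P' ⊆ Z.sym2 →
    ∃ T Z', Ext (2 * r + 2) Z T Z' ∧ KDec (r + 1) (T ∪ P) ∧ KDec (r + 1) (T ∪ P')

variable {r : ℕ}

theorem Eqv.symm {P P' : Finset (Sym2 ℕ)} (h : Eqv r P P') : Eqv r P' P := fun Z h1 h2 => by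
  obtain ⟨T, Z', a, b, c⟩ := h Z h2 h1
  exact ⟨T, Z', a, c, b⟩

theorem Eqv.of_dec {P P' : Finset (Sym2 ℕ)} (h : KDec (r + 1) P) (h' : KDec (r + 1) P') :
    Eqv r P P' :=
  fun Z _ _ => ⟨∅, Z, Ext.refl, by simpa using h, by simpa using h'⟩

theorem Eqv.union {P P' Q Q' : Finset (Sym2 ℕ)} (h : Eqv r P P') (h' : Eqv r Q Q')
    (hd : Disjoint P Q) (hd' : Disjoint P' Q') : Eqv r (P ∪ Q) (P' ∪ Q') := by
  intro Z h1 h2
  rw [union_subset_iff] at h1 h2
  obtain ⟨T, Z1, e1, d1, d1'⟩ := h Z h1.1 h2.1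
  obtain ⟨T', Z2, e2, d2, d2'⟩ := h' Z1 (e1.lift h1.2) (e1.lift h2.2)
  have key : ∀ P Q : Finset (Sym2 ℕ), P ⊆ Z.sym2 → Q ⊆ Z.sym2 → Disjoint P Q →
      KDec (r + 1) (T ∪ P) → KDec (r + 1) (T' ∪ Q) → KDec (r + 1) (T ∪ T' ∪ (P ∪ Q)) := by
    intro P Q hP hQ hd d d'
    rw [union_union_union_comm]
    refine d.union d' ?_
    simp only [disjoint_union_left, disjoint_union_right]
    exact ⟨⟨(e2.disj e1.sub).symm, (e2.disj (e1.lift hP)).symm⟩, e1.disj hQ, hd⟩
  exact ⟨T ∪ T', Z2, e1.trans e2, key _ _ h1.1 h1.2 hd d1 d2, key _ _ h2.1 h2.2 hd' d1' d2'⟩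

theorem Eqv.biUnion {ι : Type} [DecidableEq ι] (I : Finset ι) (P P' : ι → Finset (Sym2 ℕ))
    (h : ∀ i ∈ I, Eqv r (P i) (P' i)) (hd : ∀ i ∈ I, ∀ j ∈ I, i ≠ j → Disjoint (P i) (P j))
    (hd' : ∀ i ∈ I, ∀ j ∈ I, i ≠ j → Disjoint (P' i) (P' j)) :
    Eqv r (I.biUnion P) (I.biUnion P') := by
  induction I using Finset.induction_on with
  | empty => exact Eqv.of_dec KDec.empty KDec.empty
  | insert i I hi ih =>
    rw [biUnion_insert, biUnion_insert]
    refine (h i (by simp)).union (ih (fun j hj => h j (by simp [hj]))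
      (fun j hj k hk => hd j (by simp [hj]) k (by simp [hk]))
      (fun j hj k hk => hd' j (by simp [hj]) k (by simp [hk]))) ?_ ?_
    · exact (disjoint_biUnion_right _ _ _).2 fun j hj =>
        hd i (by simp) j (by simp [hj]) fun h => hi (h ▸ hj)
    · exact (disjoint_biUnion_right _ _ _).2 fun j hj =>
        hd' i (by simp) j (by simp [hj]) fun h => hi (h ▸ hj)

theorem Eqv.gen {P P' : Finset (Sym2 ℕ)}
    (h : ∀ Z : Finset ℕ, P ⊆ Z.sym2 → P' ⊆ Z.sym2 →
      ∃ B Z', Ext (2 * r + 2) Z B Z' ∧ Eqv r (P ∪ B) (P' ∪ B)) : Eqv r P P' := by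
  intro Z h1 h2
  obtain ⟨B, Z1, e1, h3⟩ := h Z h1 h2
  obtain ⟨T, Z2, e2, d, d'⟩ := h3 Z1 (union_subset (e1.lift h1) e1.sub)
    (union_subset (e1.lift h2) e1.sub)
  refine ⟨B ∪ T, Z2, e1.trans e2, ?_, ?_⟩
  · rwa [union_comm B T, union_assoc, union_comm B P]
  · rwa [union_comm B T, union_assoc, union_comm B P']

/-- The star switcher: a grid of new vertices. -/
theorem eqv_star (hr : 0 < r) {x x' : ℕ} {L : Finset ℕ} (hxx : x ≠ x') (hx : x ∉ L)
    (hx' : x' ∉ L) (hL : L.card = r) : Eqv r (fan x L) (fan x' L) := by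
  intro Z h1 h2
  obtain ⟨l0, hl0⟩ : L.Nonempty := card_pos.1 (by omega)
  have hxZ : x ∈ Z := (mk_mem_sym2_iff.1 (h1 (mem_fan.2 ⟨l0, hl0, rfl⟩))).1
  have hxZ' : x' ∈ Z := (mk_mem_sym2_iff.1 (h2 (mem_fan.2 ⟨l0, hl0, rfl⟩))).1
  have hLZ : L ⊆ Z := fun l hl => (mk_mem_sym2_iff.1 (h1 (mem_fan.2 ⟨l, hl, rfl⟩))).2
  obtain ⟨g, g1, g2⟩ := exists_fresh (ℕ × ℕ) Z
  set N := (L ×ˢ range (r - 1)).image g with hN
  set F1 := L.image fun l => insert l ((range (r - 1)).image fun j => g (l, j)) with hF1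
  set F2 := (range (r - 1)).image fun j => L.image fun l => g (l, j) with hF2
  have hNZ : ∀ v ∈ N, v ∉ Z := fun v hv => by
    obtain ⟨p, -, rfl⟩ := mem_image.1 hv
    exact g2 p
  have f1 : IsFac r F1 := by
    constructor
    · intro S hS
      obtain ⟨l, hl, rfl⟩ := mem_image.1 hS
      rw [card_insert_of_notMem, card_image_of_injective _ fun i j h => by simpa using g1 h,
        card_range]
      · omega
      · intro h
        obtain ⟨j, -, h⟩ := mem_image.1 h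
        exact g2 _ (h ▸ hLZ hl)
    · intro S hS S' hS' hne
      obtain ⟨l, hl, rfl⟩ := mem_image.1 hS
      obtain ⟨l', hl', rfl⟩ := mem_image.1 hS'
      refine disjoint_left.2 fun v h h' => hne ?_
      simp only [mem_insert, mem_image] at h h'
      rcases h with rfl | ⟨j, -, rfl⟩ <;> rcases h' with h' | ⟨j', -, h'⟩
      · rw [h']
      · exact absurd (h' ▸ hLZ hl) (g2 _)
      · exact absurd (h' ▸ hLZ hl') (g2 _)
      · rw [(Prod.mk.inj (g1 h')).1]
  have f2 : IsFac r F2 := by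
    constructor
    · intro S hS
      obtain ⟨j, -, rfl⟩ := mem_image.1 hS
      rw [card_image_of_injective _ fun i j h => by simpa using g1 h, hL]
    · intro S hS S' hS' hne
      obtain ⟨j, -, rfl⟩ := mem_image.1 hS
      obtain ⟨j', -, rfl⟩ := mem_image.1 hS'
      refine disjoint_left.2 fun v h h' => hne ?_
      obtain ⟨l, -, rfl⟩ := mem_image.1 h
      obtain ⟨l', -, h'⟩ := mem_image.1 h'
      rw [(Prod.mk.inj (g1 h')).2]
  have v1 : F1.biUnion id = L ∪ N := by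
    ext v
    simp only [hF1, hN, mem_biUnion, mem_image, id, mem_union, mem_product, Prod.exists]
    constructor
    · rintro ⟨_, ⟨l, hl, rfl⟩, h⟩
      rcases mem_insert.1 h with rfl | h
      · exact Or.inl hl
      · obtain ⟨j, hj, rfl⟩ := mem_image.1 h
        exact Or.inr ⟨l, j, ⟨hl, hj⟩, rfl⟩
    · rintro (h | ⟨l, j, ⟨hl, hj⟩, rfl⟩)
      · exact ⟨_, ⟨v, h, rfl⟩, mem_insert_self _ _⟩
      · exact ⟨_, ⟨l, hl, rfl⟩, mem_insert_of_mem (mem_image.2 ⟨j, hj, rfl⟩)⟩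
  have v2 : F2.biUnion id = N := by
    ext v
    simp only [hF2, hN, mem_biUnion, mem_image, id, mem_product, Prod.exists]
    constructor
    · rintro ⟨_, ⟨j, hj, rfl⟩, h⟩
      obtain ⟨l, hl, rfl⟩ := mem_image.1 h
      exact ⟨l, j, ⟨hl, hj⟩, rfl⟩
    · rintro ⟨l, j, ⟨hl, hj⟩, rfl⟩
      exact ⟨_, ⟨j, hj, rfl⟩, mem_image.2 ⟨l, hl, rfl⟩⟩
  have d12 : Disjoint (F1.biUnion kq) (F2.biUnion kq) := by
    rw [disjoint_biUnion_left]
    intro S hS
    rw [disjoint_biUnion_right]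
    intro S' hS'
    obtain ⟨l, hl, rfl⟩ := mem_image.1 hS
    obtain ⟨j, -, rfl⟩ := mem_image.1 hS'
    have k : ∀ a ∈ insert l ((range (r - 1)).image fun j => g (l, j)),
        a ∈ (L.image fun l => g (l, j)) → a = g (l, j) := by
      intro a h h'
      obtain ⟨l', -, rfl⟩ := mem_image.1 h'
      rcases mem_insert.1 h with h | h
      · exact absurd (h ▸ hLZ hl) (g2 _)
      · obtain ⟨j', -, h⟩ := mem_image.1 h
        rw [(Prod.mk.inj (g1 h)).1]
    exact disjoint_kq fun a ha b hb ha' hb' => (k a ha ha').trans (k b hb hb').symm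
  have key : ∀ y y' : ℕ, y ≠ y' → y ∈ Z → y' ∈ Z → y ∉ L → y' ∉ L →
      KDec (r + 1) ((F1.biUnion kq ∪ F2.biUnion kq ∪ (fan y N ∪ fan y' N)) ∪ fan y L) := by
    intro y y' hyy hy hy' hyL hyL'
    have n1 : y ∉ N := fun h => hNZ y h hy
    have n2 : y' ∉ N := fun h => hNZ y' h hy'
    have c1 := f1.cone (x := y) (by rw [v1, mem_union, not_or]; exact ⟨hyL, n1⟩)
    have c2 := f2.cone (x := y') (by rw [v2]; exact n2)
    rw [v1] at c1
    rw [v2] at c2
    have c3 := c1.union c2 (by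
      simp only [disjoint_union_left, disjoint_union_right]
      refine ⟨⟨disjoint_fan hyy n1, disjoint_right.2 fun e he he' => ?_⟩,
        disjoint_left.2 fun e he he' => ?_, d12⟩
      · obtain ⟨v, -, rfl⟩ := mem_fan.1 he
        have := mem_fv_of_mem_fe he' (Sym2.mem_mk_left _ _)
        rw [v1, mem_union] at this
        exact this.elim hyL' n2
      · obtain ⟨v, -, rfl⟩ := mem_fan.1 he
        have := mem_fv_of_mem_fe he' (Sym2.mem_mk_left _ _)
        rw [v2] at this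
        exact n1 this)
    refine (congrArg (KDec (r + 1)) ?_).mp c3
    rw [fan_union]
    ext e
    simp only [mem_union]
    tauto
  have k1 := key x x' hxx hxZ hxZ' hx hx'
  have k2 := key x' x hxx.symm hxZ' hxZ hx' hx
  rw [union_comm (fan x' N)] at k2
  refine ⟨_, Z ∪ N, ext_of_deg Z N _ hNZ (fun e he => ⟨k1.not_isDiag e (mem_union_left _ he), ?_⟩)
    fun v hv => ?_, k1, k2⟩
  · have k3 : ∀ y ∈ Z, e ∈ fan y N → e ∈ (Z ∪ N).sym2 ∧ ∃ v ∈ e, v ∈ N := by
      intro y hy h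
      obtain ⟨v, hv, rfl⟩ := mem_fan.1 h
      exact ⟨by simp [hy, hv], v, by simp, hv⟩
    rcases mem_union.1 he with he | he
    · rcases mem_union.1 he with he | he
      · refine ⟨mem_sym2_iff.2 fun v hv => ?_, ?_⟩
        · exact union_subset_union hLZ Subset.rfl (v1 ▸ mem_fv_of_mem_fe he hv)
        · obtain ⟨S, hS, he⟩ := mem_biUnion.1 he
          obtain ⟨l, hl, rfl⟩ := mem_image.1 hS
          have k4 : ∀ a ∈ insert l ((range (r - 1)).image fun j => g (l, j)), a = l ∨ a ∈ N := by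
            intro a ha
            refine (mem_insert.1 ha).imp_right fun h => ?_
            obtain ⟨j, hj, rfl⟩ := mem_image.1 h
            exact mem_image.2 ⟨(l, j), mem_product.2 ⟨hl, hj⟩, rfl⟩
          induction e using Sym2.ind with
          | _ a b =>
            obtain ⟨ha, hb, hab⟩ := mk_mem_kq.1 he
            rcases k4 a ha with rfl | h
            · exact ⟨b, by simp, (k4 b hb).resolve_left hab.symm⟩
            · exact ⟨a, by simp, h⟩
      · refine ⟨mem_sym2_iff.2 fun v hv => mem_union_right _ (v2 ▸ mem_fv_of_mem_fe he hv), ?_⟩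
        induction e using Sym2.ind with
        | _ a b => exact ⟨a, by simp, v2 ▸ mem_fv_of_mem_fe he (Sym2.mem_mk_left _ _)⟩
    · exact (mem_union.1 he).elim (k3 x hxZ) (k3 x' hxZ')
  · have a1 := deg_union_le (F1.biUnion kq ∪ F2.biUnion kq) (fan x N ∪ fan x' N) v
    have a2 := deg_union_le (F1.biUnion kq) (F2.biUnion kq) v
    have a3 := deg_union_le (fan x N) (fan x' N) v
    have a4 := f1.deg_le v
    have a5 := f2.deg_le v
    have a6 := deg_fan_le (x := x) (v := v) N fun h => hNZ v hv (h ▸ hxZ)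
    have a7 := deg_fan_le (x := x') (v := v) N fun h => hNZ v hv (h ▸ hxZ')
    omega

/-- Switching along an alternating four-cycle. -/
theorem eqv_c4 (hr : 0 < r) {a b c d : ℕ} (hcd : c ≠ d) (hca : c ≠ a) (hda : d ≠ a) (hcb : c ≠ b)
    (hdb : d ≠ b) : Eqv r {s(c, a), s(d, b)} {s(d, a), s(c, b)} := by
  refine Eqv.gen fun Z h1 h2 => ?_
  simp only [insert_subset_iff, singleton_subset_iff, mk_mem_sym2_iff] at h1
  obtain ⟨⟨hc, ha⟩, hd, hb⟩ := h1
  obtain ⟨g, g1, g2⟩ := exists_fresh ℕ Z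
  set S := (range (r - 1)).image g with hS
  have hSZ : ∀ v ∈ S, v ∉ Z := fun v hv => by
    obtain ⟨p, -, rfl⟩ := mem_image.1 hv
    exact g2 p
  have n : ∀ z ∈ Z, z ∉ S := fun z hz h => hSZ z h hz
  have hc' : ∀ z ∈ Z, (insert z S).card = r := fun z hz => by
    rw [card_insert_of_notMem (n z hz), hS, card_image_of_injective _ g1, card_range]; omega
  refine ⟨fan c S ∪ fan d S, Z ∪ S, ext_of_deg Z S _ hSZ (fun e he => ?_) fun v hv => ?_, ?_⟩
  · have k3 : ∀ y ∈ Z, e ∈ fan y S → ¬ e.IsDiag ∧ e ∈ (Z ∪ S).sym2 ∧ ∃ v ∈ e, v ∈ S := by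
      intro y hy h
      obtain ⟨v, hv, rfl⟩ := mem_fan.1 h
      exact ⟨fun h => n y hy ((Sym2.mk_isDiag_iff.1 h) ▸ hv), by simp [hy, hv], v, by simp, hv⟩
    exact (mem_union.1 he).elim (k3 c hc) (k3 d hd)
  · have a3 := deg_union_le (fan c S) (fan d S) v
    have a6 := deg_fan_le (x := c) (v := v) S fun h => hSZ v hv (h ▸ hc)
    have a7 := deg_fan_le (x := d) (v := v) S fun h => hSZ v hv (h ▸ hd)
    omega
  · have m1 : c ∉ insert a S := by simp [hca, n c hc]
    have m2 : d ∉ insert a S := by simp [hda, n d hd]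
    have m3 : c ∉ insert b S := by simp [hcb, n c hc]
    have m4 : d ∉ insert b S := by simp [hdb, n d hd]
    have q := (eqv_star hr hcd m1 m2 (hc' a ha)).union (eqv_star hr hcd.symm m4 m3 (hc' b hb))
      (disjoint_fan hcd m3) (disjoint_fan hcd.symm m4)
    simp only [fan_insert] at q
    refine (congrArg₂ (Eqv r) ?_ ?_).mp q
    · ext e
      simp only [mem_union, mem_insert, mem_singleton]
      tauto
    · ext e
      simp only [mem_union, mem_insert, mem_singleton]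
      tauto

end Pool.Agent.P.MP_be5a37_co.Kq
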