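import Pool.Agent.P.MP_be5a37_co.Common

set_option autoImplicit false
set_option linter.unusedSectionVars false

namespace Pool.Agent.P.MP_be5a37_co

open Finset

variable {V : Type} [DecidableEq V]

/-- Product of the weights of the members of `F` contained in `A`. -/
noncomputable def PP (f : Finset V → ℝ) (F : Finset (Finset V)) (A : Finset V) : ℝ :=
  ∏ a ∈ F, (if a ⊆ A then 1 - f a else 1)

theorem PP_nonneg {f : Finset V → ℝ} (h1 : ∀ a, f a ≤ 1) (F : Finset (Finset V)) (A : Finset V) :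
    0 ≤ PP f F A := by
  refine Finset.prod_nonneg fun a _ => ?_
  split_ifs
  · linarith [h1 a]
  · exact zero_le_one

theorem PP_le_one {f : Finset V → ℝ} (h0 : ∀ a, 0 ≤ f a) (h1 : ∀ a, f a ≤ 1)
    (F : Finset (Finset V)) (A : Finset V) : PP f F A ≤ 1 := by
  refine Finset.prod_le_one (fun a _ => ?_) (fun a _ => ?_)
  · split_ifs
    · linarith [h1 a]
    · exact zero_le_one
  · split_ifs
    · linarith [h0 a]
    · exact le_rfl

theorem PP_split (f : Finset V → ℝ) (F : Finset (Finset V)) (A A' : Finset V) (h : A ⊆ A') :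
    PP f F A' = PP f F A * PP f (F.filter fun a => ¬ a ⊆ A) A' := by
  unfold PP
  rw [Finset.prod_filter, ← Finset.prod_mul_distrib]
  refine Finset.prod_congr rfl fun a _ => ?_
  by_cases ha : a ⊆ A
  · simp [ha, ha.trans h]
  · simp [ha]

/-- The signed sum over supersets of `S`. -/
noncomputable def phi (f : Finset V → ℝ) (L B : Finset V) (ω : Finset V → ℝ)
    (F : Finset (Finset V)) (S : Finset V) : ℝ :=
  ∑ T ∈ L.powerset, if S ⊆ T then ω T * PP f F (B ∪ T) else 0

theorem phi_split (f : Finset V → ℝ) (L B : Finset V) (ω : Finset V → ℝ)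
    (F : Finset (Finset V)) (S : Finset V) :
    phi f L B ω F S = PP f F (B ∪ S) * phi f L B ω (F.filter fun a => ¬ a ⊆ B ∪ S) S := by
  unfold phi
  rw [Finset.mul_sum]
  refine Finset.sum_congr rfl fun T _ => ?_
  by_cases h : S ⊆ T
  · rw [if_pos h, if_pos h, PP_split f F (B ∪ S) (B ∪ T) (union_subset_union le_rfl h)]
    ring
  · simp [h]

theorem phi_insert (f : Finset V → ℝ) (L B : Finset V) (ω : Finset V → ℝ)
    (F : Finset (Finset V)) (S a : Finset V) (ha : a ∉ F) :
    phi f L B ω (insert a F) S = phi f L B ω F S - f a * phi f L B ω F (S ∪ (a \ B)) := by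
  unfold phi
  rw [Finset.mul_sum, ← Finset.sum_sub_distrib]
  refine Finset.sum_congr rfl fun T _ => ?_
  have e : a ⊆ B ∪ T ↔ a \ B ⊆ T := by
    constructor
    · intro h u hu
      have := h (mem_sdiff.1 hu).1
      rcases mem_union.1 this with h' | h'
      · exact absurd h' (mem_sdiff.1 hu).2
      · exact h'
    · intro h u hu
      by_cases hB : u ∈ B
      · exact mem_union_left _ hB
      · exact mem_union_right _ (h (mem_sdiff.2 ⟨hu, hB⟩))
  unfold PP
  rw [Finset.prod_insert ha]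
  by_cases h : S ⊆ T
  · by_cases h' : a \ B ⊆ T
    · have : S ∪ a \ B ⊆ T := union_subset h h'
      simp only [h, this, e.2 h', if_true]
      ring
    · have : ¬ S ∪ a \ B ⊆ T := fun h'' => h' (subset_union_right.trans h'')
      have h3 : ¬ a ⊆ B ∪ T := fun h'' => h' (e.1 h'')
      simp [h, this, h3]
  · have : ¬ S ∪ a \ B ⊆ T := fun h'' => h (subset_union_left.trans h'')
    simp [h, this]

theorem card_union_sdiff (B S a : Finset V) :
    (S ∪ (a \ B)).card = S.card + (a \ (B ∪ S)).card := by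
  rw [← card_union_of_disjoint]
  · congr 1
    ext u
    simp only [mem_union, mem_sdiff]
    tauto
  · rw [Finset.disjoint_left]
    intro u hu h
    simp only [mem_union, mem_sdiff] at h
    tauto

theorem kernel_step (f : Finset V → ℝ) (h0 : ∀ a, 0 ≤ f a) (L B : Finset V) (ω : Finset V → ℝ)
    (U : Finset (Finset V)) (x c : ℝ) (S : Finset V)
    (ih : ∀ S' : Finset V, S.card < S'.card → ∀ F ⊆ U, |phi f L B ω F S'| ≤ c * x ^ S'.card) :
    ∀ F ⊆ U, (∀ a ∈ F, ¬ a ⊆ B ∪ S) → |phi f L B ω F S - phi f L B ω ∅ S| ≤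
      c * x ^ S.card * ∑ a ∈ F, f a * x ^ (a \ (B ∪ S)).card := by
  intro F
  induction F using Finset.induction_on with
  | empty => intro _ _; simp
  | insert a F ha ihF =>
    intro hU hn
    have h1 := ihF ((subset_insert a F).trans hU) (fun b hb => hn b (mem_insert_of_mem hb))
    rw [phi_insert f L B ω F S a ha, Finset.sum_insert ha]
    have hc := card_union_sdiff B S a
    have hpos : 0 < (a \ (B ∪ S)).card := by
      rw [card_pos, sdiff_nonempty]
      exact hn a (mem_insert_self a F)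
    have h2 := ih (S ∪ (a \ B)) (by omega) F ((subset_insert a F).trans hU)
    rw [hc, pow_add] at h2
    have h3 : |f a * phi f L B ω F (S ∪ a \ B)| ≤ f a * (c * (x ^ S.card * x ^ (a \ (B ∪ S)).card)) := by
      rw [abs_mul, abs_of_nonneg (h0 a)]
      exact mul_le_mul_of_nonneg_left h2 (h0 a)
    have h4 := abs_sub (phi f L B ω F S - phi f L B ω ∅ S) (f a * phi f L B ω F (S ∪ a \ B))
    have h5 : phi f L B ω F S - f a * phi f L B ω F (S ∪ a \ B) - phi f L B ω ∅ S
      = phi f L B ω F S - phi f L B ω ∅ S - f a * phi f L B ω F (S ∪ a \ B) := by ring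
    rw [h5, mul_add]
    nlinarith

theorem kernel (f : Finset V → ℝ) (h0 : ∀ a, 0 ≤ f a) (h1 : ∀ a, f a ≤ 1) (L B : Finset V)
    (ω : Finset V → ℝ) (U : Finset (Finset V)) (x M κ σ : ℝ) (s0 : ℕ) (hx : 0 ≤ x) (hM : 0 ≤ M)
    (hσ0 : 0 ≤ σ) (hκ0 : 0 ≤ κ) (hκ : 1 + σ * κ ≤ κ)
    (hb : ∀ S, |phi f L B ω ∅ S| ≤ x ^ S.card * M)
    (ht : ∀ S : Finset V, s0 ≤ S.card →
      ∑ T ∈ L.powerset, (if S ⊆ T then |ω T| else 0) ≤ x ^ S.card * M)
    (hs : ∀ S : Finset V, S.card < s0 →
      ∑ a ∈ U.filter (fun a => ¬ a ⊆ B ∪ S), f a * x ^ (a \ (B ∪ S)).card ≤ σ) :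
    (∀ S : Finset V, ∀ F ⊆ U, |phi f L B ω F S| ≤ κ * M * x ^ S.card) ∧
    (0 < s0 → ∀ F ⊆ U, (∀ a ∈ F, ¬ a ⊆ B) →
      |phi f L B ω F ∅ - phi f L B ω ∅ ∅| ≤ σ * κ * M) := by
  have hκ1 : 1 ≤ κ := by nlinarith [mul_nonneg hσ0 hκ0]
  have step : ∀ S : Finset V, S.card < s0 →
      (∀ S' : Finset V, S.card < S'.card → ∀ F ⊆ U,
        |phi f L B ω F S'| ≤ κ * M * x ^ S'.card) →
      ∀ F ⊆ U, (∀ a ∈ F, ¬ a ⊆ B ∪ S) →
        |phi f L B ω F S - phi f L B ω ∅ S| ≤ κ * M * x ^ S.card * σ := by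
    intro S hS ih F hF hn
    refine (kernel_step f h0 L B ω U x (κ * M) S ih F hF hn).trans ?_
    refine mul_le_mul_of_nonneg_left (le_trans ?_ (hs S hS)) (by positivity)
    refine Finset.sum_le_sum_of_subset_of_nonneg ?_ ?_
    · intro a ha
      exact mem_filter.2 ⟨hF ha, hn a ha⟩
    · intro a _ _
      exact mul_nonneg (h0 a) (pow_nonneg hx _)
  have main : ∀ k : ℕ, ∀ S : Finset V, s0 - S.card ≤ k → ∀ F ⊆ U,
      |phi f L B ω F S| ≤ κ * M * x ^ S.card := by
    intro k
    induction k with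
    | zero =>
      intro S hS F _
      have h2 := ht S (by omega)
      have h3 : |phi f L B ω F S| ≤ ∑ T ∈ L.powerset, (if S ⊆ T then |ω T| else 0) := by
        unfold phi
        refine (Finset.abs_sum_le_sum_abs _ _).trans (Finset.sum_le_sum fun T _ => ?_)
        split_ifs
        · rw [abs_mul, abs_of_nonneg (PP_nonneg h1 _ _)]
          exact mul_le_of_le_one_right (abs_nonneg _) (PP_le_one h0 h1 _ _)
        · simp
      have h4 : 0 ≤ x ^ S.card * M := by positivity
      nlinarith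
    | succ k ih =>
      intro S hS F hF
      by_cases hk : s0 - S.card ≤ k
      · exact ih S hk F hF
      have h2 := step S (by omega) (fun S' hS' => ih S' (by omega))
        (F.filter fun a => ¬ a ⊆ B ∪ S) ((filter_subset _ _).trans hF)
        (fun a ha => (mem_filter.1 ha).2)
      have h3 := hb S
      rw [phi_split, abs_mul, abs_of_nonneg (PP_nonneg h1 _ _)]
      refine (mul_le_of_le_one_left (abs_nonneg _) (PP_le_one h0 h1 _ _)).trans ?_
      have h4 := abs_sub_abs_le_abs_sub (phi f L B ω (F.filter fun a => ¬ a ⊆ B ∪ S) S)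
        (phi f L B ω ∅ S)
      have h5 : 0 ≤ x ^ S.card * M := by positivity
      nlinarith
  refine ⟨fun S => main _ S le_rfl, fun hs0 F hF hn => ?_⟩
  have := step ∅ (by simpa using hs0) (fun S' _ => main _ S' le_rfl) F hF (by simpa using hn)
  simp only [card_empty, pow_zero, mul_one] at this
  linarith

end Pool.Agent.P.MP_be5a37_co
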