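import Pool.Agent.P.MP_be5a37_co.LbDefs

set_option autoImplicit false

namespace Pool.Agent.P.MP_be5a37_co.Lb

open Finset

theorem desc_add (a y b : ℕ) (hb : b ≤ a) :
    ∃ t, (a + y).descFactorial b = a.descFactorial b + y * t := by
  induction b with
  | zero => exact ⟨0, by simp⟩
  | succ b ih =>
    obtain ⟨t, ht⟩ := ih (by omega)
    refine ⟨a.descFactorial b + (a - b) * t + y * t, ?_⟩
    rw [Nat.descFactorial_succ, Nat.descFactorial_succ, ht]
    have : a + y - b = (a - b) + y := by omega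
    rw [this]
    ring

theorem choose_add (a y b N : ℕ) (hb : b ≤ a) (hy : N * a.factorial ∣ y) :
    ∃ k, (a + y).choose b = a.choose b * (1 + N * k) := by
  obtain ⟨t, ht⟩ := desc_add a y b hb
  obtain ⟨u, rfl⟩ := hy
  have h1 : (a - b).factorial * a.descFactorial b = a.factorial :=
    Nat.factorial_mul_descFactorial hb
  refine ⟨(a - b).factorial * u * t, ?_⟩
  apply Nat.eq_of_mul_eq_mul_left (Nat.factorial_pos b)
  rw [← Nat.descFactorial_eq_factorial_mul_choose, ht, ← mul_assoc,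
    ← Nat.descFactorial_eq_factorial_mul_choose, ← h1]
  ring

variable {V : Type} [DecidableEq V]

/-- a Steiner system `S(s, s+1)` on `U` -/
def Des (s : ℕ) (U : Finset V) (P : Finset (Finset V)) : Prop :=
  (∀ Y ∈ P, Y ⊆ U ∧ Y.card = s + 1) ∧ ∀ B, B ⊆ U → B.card = s → ∃! Y, Y ∈ P ∧ B ⊆ Y

theorem Des.count {s : ℕ} {U : Finset V} {P : Finset (Finset V)} (h : Des s U P) (A : Finset V)
    (hU : A ⊆ U) (hA : A.card ≤ s) :
    deg P A * (s + 1 - A.card) = (U.card - A.card).choose (s - A.card) := by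
  rw [← card_filter_powersetCard_subset A U s hU hA]
  have key : ((U.powersetCard s).filter (A ⊆ ·)) =
      (P.filter fun e => A ⊆ e).biUnion fun Y => (Y.powersetCard s).filter (A ⊆ ·) := by
    ext B
    simp only [mem_filter, mem_powersetCard, mem_biUnion]
    constructor
    · rintro ⟨⟨h1, h2⟩, h3⟩
      obtain ⟨Y, ⟨hY, hB⟩, -⟩ := h.2 B h1 h2
      exact ⟨Y, ⟨hY, h3.trans hB⟩, ⟨hB, h2⟩, h3⟩
    · rintro ⟨Y, ⟨hY, -⟩, ⟨hB, h2⟩, h3⟩
      exact ⟨⟨hB.trans (h.1 Y hY).1, h2⟩, h3⟩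
  rw [key, card_biUnion, deg, card_eq_sum_ones, sum_mul]
  · refine sum_congr rfl fun Y hY => ?_
    rw [mem_filter] at hY
    rw [card_filter_powersetCard_subset A Y s hY.2 hA, (h.1 Y hY.1).2, one_mul]
    have : s + 1 - A.card = (s - A.card) + 1 := by omega
    rw [this, Nat.choose_succ_self_right]
  · intro Y hY Y' hY' hne
    simp only [coe_filter, Set.mem_ofPred_eq] at hY hY'
    refine disjoint_left.2 fun B hB hB' => hne ?_
    simp only [mem_filter, mem_powersetCard] at hB hB'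
    exact (h.2 B (hB.1.1.trans (h.1 Y hY.1).1) hB.1.2).unique ⟨hY.1, hB.1.1⟩ ⟨hY'.1, hB'.1.1⟩

theorem Des.deg_eq {s : ℕ} {U : Finset V} {P P' : Finset (Finset V)} (h : Des s U P)
    (h' : Des s U P') (A : Finset V) (hA : A.card ≤ s) : deg P A = deg P' A := by
  by_cases hU : A ⊆ U
  · exact Nat.eq_of_mul_eq_mul_right (show 0 < s + 1 - A.card by omega)
      ((h.count A hU hA).trans (h'.count A hU hA).symm)
  · have z : ∀ Q, Des s U Q → deg Q A = 0 := fun Q hQ => by
      rw [deg, card_eq_zero, filter_eq_empty_iff]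
      exact fun Y hY hs => hU (hs.trans (hQ.1 Y hY).1)
    rw [z P h, z P' h']

theorem Des.poly {s : ℕ} {U : Finset V} {P P' : Finset (Finset V)} (h : Des s U P)
    (h' : Des s U P') {ι R : Type} [DecidableEq ι] [CommRing R] (c : ι → R) (l : V → ι → R)
    (T : Finset ι) : ∀ A : Finset V, A.card + T.card ≤ s →
      ∑ Y ∈ P.filter (fun e => A ⊆ e), ∏ b ∈ T, (c b + ∑ v ∈ Y, l v b) =
      ∑ Y ∈ P'.filter (fun e => A ⊆ e), ∏ b ∈ T, (c b + ∑ v ∈ Y, l v b) := by
  induction T using Finset.induction_on with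
  | empty =>
    intro A hA
    have := h.deg_eq h' A (by simpa using hA)
    simp only [deg] at this
    simp [this]
  | insert b T hb ih =>
    intro A hA
    rw [card_insert_of_notMem hb] at hA
    have ex : ∀ Q, Des s U Q →
        ∑ Y ∈ Q.filter (fun e => A ⊆ e), ∏ b ∈ insert b T, (c b + ∑ v ∈ Y, l v b) =
        c b * ∑ Y ∈ Q.filter (fun e => A ⊆ e), ∏ b ∈ T, (c b + ∑ v ∈ Y, l v b) +
        ∑ v ∈ U, l v b *
          ∑ Y ∈ Q.filter (fun e => insert v A ⊆ e), ∏ b ∈ T, (c b + ∑ v ∈ Y, l v b) := by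
      intro Q hQ
      simp only [prod_insert hb, add_mul, sum_add_distrib, mul_sum, sum_mul]
      congr 1
      refine sum_comm' ?_ |>.trans rfl
      intro Y v
      simp only [mem_filter, insert_subset_iff]
      constructor
      · rintro ⟨⟨h1, h2⟩, h3⟩
        exact ⟨⟨h1, h3, h2⟩, (hQ.1 Y h1).1 h3⟩
      · rintro ⟨⟨h1, h3, h2⟩, -⟩
        exact ⟨⟨h1, h2⟩, h3⟩
    rw [ex P h, ex P' h', ih A (by omega)]
    congr 1
    refine sum_congr rfl fun v _ => ?_
    rw [ih (insert v A) (by have := card_insert_le v A; omega)]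

/-- if for every `c` some design has no block of label sum `c`, the number of blocks is even -/
theorem Des.even {s : ℕ} {U : Finset V} (l : V → Fin s → ZMod 2)
    (P : (Fin s → ZMod 2) → Finset (Finset V)) (h : ∀ c, Des s U (P c))
    (hc : ∀ c, ∀ Y ∈ P c, ∑ v ∈ Y, l v ≠ c) : 2 ∣ (P 0).card := by
  have ind : ∀ (c : Fin s → ZMod 2) (Y : Finset V),
      ∏ b ∈ univ, ((1 + c b) + ∑ v ∈ Y, l v b) = if ∑ v ∈ Y, l v = c then 1 else 0 := by
    intro c Y
    have e : ∀ x y : ZMod 2, 1 + x + y = if y = x then 1 else 0 := by decide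
    simp only [e, prod_ite_zero, prod_const_one, mem_univ, true_imp_iff]
    congr 1
    simp [funext_iff]
  have z : ∀ c, ∑ Y ∈ P 0, (if ∑ v ∈ Y, l v = c then (1 : ZMod 2) else 0) = 0 := by
    intro c
    have := (h 0).poly (h c) (fun b => 1 + c b) l univ ∅ (by simp)
    simp only [empty_subset, filter_true, ind] at this
    rw [this]
    exact sum_eq_zero fun Y hY => if_neg (hc c Y hY)
  rw [← ZMod.natCast_eq_zero_iff]
  calc ((P 0).card : ZMod 2) = ∑ Y ∈ P 0, ∑ c, (if ∑ v ∈ Y, l v = c then (1 : ZMod 2) else 0) := by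
        simp
    _ = 0 := by rw [sum_comm]; simp only [z, sum_const_zero]

end Pool.Agent.P.MP_be5a37_co.Lb
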