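import Pool.Agent.P.MP_be5a37_co.LbA

set_option autoImplicit false

namespace Pool.Agent.P.MP_be5a37_co.Lb

open Finset

variable {V ι : Type} [Fintype V] [DecidableEq V] [DecidableEq ι]

/-- the jobs of `J` with apex `x` that touch `W` -/
def load (J : Finset ι) (Bs : ι → Finset (Finset V)) (u : ι → V) (W : Finset V) (x : V) :
    Finset ι := J.filter fun o => u o = x ∧ ∃ B ∈ Bs o, W ⊆ B

/-- the vertices that complete `S` to a new edge -/
def comp (J : Finset ι) (Bs : ι → Finset (Finset V)) (u : ι → V) (S : Finset V) : Finset V :=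
  univ.filter fun v => v ∉ S ∧ ∃ o ∈ J, ∃ B ∈ Bs o, insert v S = insert (u o) B

omit [DecidableEq ι] in
theorem comp_le (J : Finset ι) (Bs : ι → Finset (Finset V)) (u : ι → V) (k a b T : ℕ)
    (hk : ∀ o ∈ J, ∀ B ∈ Bs o, B.card = k + 1 ∧ u o ∉ B) (hb : ∀ o ∈ J, (Bs o).card ≤ b)
    (ha : ∀ S, (J.filter fun o => S ∈ Bs o).card ≤ a)
    (hT : ∀ W x, W.card = k → (load J Bs u W x).card ≤ T) (S : Finset V) (hS : S.card = k + 1) :
    (comp J Bs u S).card ≤ a + (k + 1) * (T * b) := by
  have sub : comp J Bs u S ⊆ (J.filter fun o => S ∈ Bs o).image u ∪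
      S.biUnion fun x => (load J Bs u (S.erase x) x).biUnion fun o =>
        (Bs o).biUnion fun B => if S.erase x ⊆ B then B \ S.erase x else ∅ := by
    intro v hv
    simp only [comp, mem_filter, mem_univ, true_and] at hv
    obtain ⟨hv, o, ho, B, hB, e⟩ := hv
    obtain ⟨h1, h2⟩ := hk o ho B hB
    by_cases hu : v = u o
    · refine mem_union_left _ (mem_image.2 ⟨o, mem_filter.2 ⟨ho, ?_⟩, hu.symm⟩)
      have : S = B := by
        rw [← erase_insert hv, e, hu, erase_insert h2]
      rwa [this]
    · refine mem_union_right _ ?_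
      have m1 : u o ∈ S := by
        have : u o ∈ insert v S := e ▸ mem_insert_self _ _
        exact (mem_insert.1 this).resolve_left (Ne.symm hu)
      have m2 : v ∈ B := by
        have : v ∈ insert (u o) B := e ▸ mem_insert_self _ _
        exact (mem_insert.1 this).resolve_left hu
      have m3 : S.erase (u o) ⊆ B := fun w hw => by
        have : w ∈ insert (u o) B := e ▸ mem_insert_of_mem (mem_of_mem_erase hw)
        exact (mem_insert.1 this).resolve_left (ne_of_mem_erase hw)
      simp only [mem_biUnion]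
      refine ⟨u o, m1, o, mem_filter.2 ⟨ho, rfl, B, hB, m3⟩, B, hB, ?_⟩
      rw [if_pos m3]
      exact mem_sdiff.2 ⟨m2, fun h => hv (mem_of_mem_erase h)⟩
  refine (card_le_card sub).trans ((card_union_le _ _).trans (add_le_add
    (card_image_le.trans (ha S)) ?_))
  rw [← hS]
  refine card_biUnion_le_card_mul _ _ _ fun x hx => ?_
  have hW : (S.erase x).card = k := by rw [card_erase_of_mem hx, hS]; rfl
  refine (card_biUnion_le_card_mul _ _ b fun o ho => ?_).trans
    (Nat.mul_le_mul_right _ (hT _ x hW))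
  have ho' : o ∈ J := (mem_filter.1 ho).1
  refine (card_biUnion_le_card_mul _ _ 1 fun B hB => ?_).trans (by simpa using hb o ho')
  split_ifs with h
  · rw [card_sdiff_of_subset h, hW, (hk o ho' B hB).1]; omega
  · simp

theorem heavy_le (J : Finset ι) (Bs : ι → Finset (Finset V)) (u : ι → V) (k a T : ℕ)
    (hk : ∀ o ∈ J, ∀ B ∈ Bs o, B.card = k + 1)
    (ha : ∀ S, (J.filter fun o => S ∈ Bs o).card ≤ a) (W : Finset V) (hW : W.card = k) :
    (univ.filter fun x => T ≤ (load J Bs u W x).card).card * T ≤ Fintype.card V * a := by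
  have h1 : (J.filter fun o => ∃ B ∈ Bs o, W ⊆ B).card ≤ Fintype.card V * a := by
    have sub : (J.filter fun o => ∃ B ∈ Bs o, W ⊆ B) ⊆
        univ.biUnion fun y : V => J.filter fun o => insert y W ∈ Bs o := by
      intro o ho
      obtain ⟨ho, B, hB, hWB⟩ := mem_filter.1 ho
      obtain ⟨y, -, rfl⟩ := exists_eq_insert_iff.2 ⟨hWB, by rw [hW, hk o ho B hB]⟩
      exact mem_biUnion.2 ⟨y, mem_univ _, mem_filter.2 ⟨ho, hB⟩⟩
    exact (card_le_card sub).trans (card_biUnion_le_card_mul _ _ _ fun y _ => ha _)
  have h2 : (J.filter fun o => ∃ B ∈ Bs o, W ⊆ B).card = ∑ x, (load J Bs u W x).card := by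
    rw [card_eq_sum_card_fiberwise (f := u) (t := univ) (fun _ _ => mem_univ _)]
    refine sum_congr rfl fun x _ => ?_
    rw [load, filter_filter]
    congr 1
    exact filter_congr fun o _ => and_comm
  refine le_trans ?_ (h2 ▸ h1)
  calc _ = ∑ x ∈ univ.filter fun x => T ≤ (load J Bs u W x).card, T := by simp
    _ ≤ ∑ x ∈ univ.filter fun x => T ≤ (load J Bs u W x).card, (load J Bs u W x).card :=
        sum_le_sum fun x hx => (mem_filter.1 hx).2
    _ ≤ _ := sum_le_sum_of_subset (filter_subset _ _)

theorem greedy (J : Finset ι) (Bs : ι → Finset (Finset V)) (Cd : ι → Finset V) (k a b T H : ℕ)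
    (x₀ : V) (hk : ∀ o ∈ J, ∀ B ∈ Bs o, B.card = k + 1 ∧ Disjoint (Cd o) B)
    (hb : ∀ o ∈ J, (Bs o).card ≤ b) (ha : ∀ S, (J.filter fun o => S ∈ Bs o).card ≤ a)
    (hH : Fintype.card V * a < (H + 1) * T)
    (hC : ∀ o ∈ J, b * (a + (k + 1) * (T * b)) + b * ((k + 1) * H) < (Cd o).card) :
    ∃ u : ι → V, (∀ o ∈ J, u o ∈ Cd o) ∧
      (∀ o ∈ J, ∀ o' ∈ J, ∀ B ∈ Bs o, ∀ B' ∈ Bs o', insert (u o) B = insert (u o') B' → o = o') ∧
      ∀ W x, W.card = k → (load J Bs u W x).card ≤ T := by
  induction J using Finset.induction_on with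
  | empty => exact ⟨fun _ => x₀, by simp, by simp, by simp [load]⟩
  | insert o J ho ih =>
    have ha' : ∀ S, (J.filter fun o => S ∈ Bs o).card ≤ a := fun S =>
      (card_le_card (filter_subset_filter _ (subset_insert _ _))).trans (ha S)
    obtain ⟨u, h1, h2, h3⟩ := ih (fun p hp => hk p (mem_insert_of_mem hp))
      (fun p hp => hb p (mem_insert_of_mem hp)) ha' (fun p hp => hC p (mem_insert_of_mem hp))
    have hk' : ∀ p ∈ J, ∀ B ∈ Bs p, B.card = k + 1 ∧ u p ∉ B := fun p hp B hB =>
      ⟨(hk p (mem_insert_of_mem hp) B hB).1,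
        disjoint_left.1 (hk p (mem_insert_of_mem hp) B hB).2 (h1 p hp)⟩
    have hko := hk o (mem_insert_self _ _)
    have hbo := hb o (mem_insert_self _ _)
    set X : Finset V := (Bs o).biUnion (comp J Bs u) ∪ (Bs o).biUnion fun B =>
      (B.powersetCard k).biUnion fun W => univ.filter fun x => T ≤ (load J Bs u W x).card with hX
    have hXc : X.card < (Cd o).card := by
      refine lt_of_le_of_lt ((card_union_le _ _).trans (add_le_add ?_ ?_))
        (hC o (mem_insert_self _ _))
      · exact (card_biUnion_le_card_mul _ _ _ fun B hB => comp_le J Bs u k a b T hk'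
          (fun p hp => hb p (mem_insert_of_mem hp)) ha' h3 B (hko B hB).1).trans
          (Nat.mul_le_mul_right _ hbo)
      · refine (card_biUnion_le_card_mul _ _ ((k + 1) * H) fun B hB => ?_).trans
          (Nat.mul_le_mul_right _ hbo)
        refine (card_biUnion_le_card_mul _ _ H fun W hW => ?_).trans ?_
        · have := heavy_le J Bs u k a T (fun p hp B hB => (hk' p hp B hB).1) ha' W
            (mem_powersetCard.1 hW).2
          exact Nat.lt_succ_iff.1 (Nat.lt_of_mul_lt_mul_right (this.trans_lt hH))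
        · rw [card_powersetCard, (hko B hB).1, Nat.choose_succ_self_right]
    obtain ⟨x, hx, hxX⟩ := exists_mem_notMem_of_card_lt_card hXc
    have up : ∀ p ∈ J, Function.update u o x p = u p := fun p hp =>
      Function.update_of_ne (ne_of_mem_of_not_mem hp ho) _ _
    have new : ∀ p ∈ J, ∀ B ∈ Bs o, ∀ B' ∈ Bs p, insert x B ≠ insert (u p) B' := by
      intro p hp B hB B' hB' e
      refine hxX (mem_union_left _ (mem_biUnion.2 ⟨B, hB, ?_⟩))
      simp only [comp, mem_filter, mem_univ, true_and]
      exact ⟨disjoint_left.1 (hko B hB).2 hx, p, hp, B', hB', e⟩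
    refine ⟨Function.update u o x, ?_, ?_, ?_⟩
    · intro p hp
      rcases mem_insert.1 hp with rfl | hp
      · rwa [Function.update_self]
      · rw [up p hp]; exact h1 p hp
    · intro p hp p' hp' B hB B' hB' e
      rcases mem_insert.1 hp with e1 | g1 <;> rcases mem_insert.1 hp' with e2 | g2
      · rw [e1, e2]
      · rw [e1] at e hB
        rw [Function.update_self, up p' g2] at e
        exact absurd e (new p' g2 B hB B' hB')
      · rw [e2] at e hB'
        rw [Function.update_self, up p g1] at e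
        exact absurd e.symm (new p g1 B' hB' B hB)
      · rw [up p g1, up p' g2] at e
        exact h2 p g1 p' g2 B hB B' hB' e
    · intro W y hW
      have sub : load (insert o J) Bs (Function.update u o x) W y ⊆ insert o (load J Bs u W y) := by
        intro p hp
        obtain ⟨hp, e⟩ := mem_filter.1 hp
        rcases mem_insert.1 hp with rfl | hp
        · exact mem_insert_self _ _
        · rw [up p hp] at e
          exact mem_insert_of_mem (mem_filter.2 ⟨hp, e⟩)
      by_cases hm : o ∈ load (insert o J) Bs (Function.update u o x) W y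
      · obtain ⟨-, e, B, hB, hWB⟩ := mem_filter.1 hm
        rw [Function.update_self] at e
        subst e
        have lt : (load J Bs u W x).card < T := by
          by_contra hge
          exact hxX (mem_union_right _ (mem_biUnion.2 ⟨B, hB, mem_biUnion.2
            ⟨W, mem_powersetCard.2 ⟨hWB, hW⟩, mem_filter.2 ⟨mem_univ _, not_lt.1 hge⟩⟩⟩))
        exact (card_le_card sub).trans ((card_insert_le _ _).trans lt)
      · exact (card_le_card ((subset_insert_iff_of_notMem hm).1 sub)).trans (h3 W y hW)

end Pool.Agent.P.MP_be5a37_co.Lb
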