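import Pool.Agent.P.MP_be5a37_co.LbB

set_option autoImplicit false

namespace Pool.Agent.P.MP_be5a37_co.Lb

open Finset

/-- a vertex set cut into blobs; all blobs but the blob `0` have exactly `D` vertices -/
structure Cfg (V : Type) [Fintype V] [DecidableEq V] (s D : ℕ) where
  bl : V → ℕ
  lab : ℕ → Fin s → ZMod 2
  z : V
  hz : bl z = 0
  full : ∀ v, bl v ≠ 0 → (univ.filter fun w => bl w = bl v).card = D
  small : (univ.filter fun w => bl w = 0).card ≤ D

namespace Cfg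

variable {V : Type} [Fintype V] [DecidableEq V] {s D : ℕ} (g : Cfg V s D)

def l (v : V) : Fin s → ZMod 2 := g.lab (g.bl v)

def blob (b : ℕ) : Finset V := univ.filter fun w => g.bl w = b

def cnt (Y : Finset V) (b : ℕ) : ℕ := (Y.filter fun w => g.bl w = b).card

def pb (Y : Finset V) : Finset ℕ := (Y.image g.bl).filter fun b => b ≠ 0 ∧ g.cnt Y b = 1

def core (Y : Finset V) : Finset V := Y.filter fun v => g.bl v ∉ g.pb Y

def job (Y : Finset V) : Finset V × Finset ℕ := (g.core Y, g.pb Y)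

def F (c : Fin s → ZMod 2) : Finset (Finset V) :=
  (univ.powersetCard (s + 1)).filter fun Y => g.z ∉ Y ∧ ∑ v ∈ Y, g.l v = c

def Bs (c : Fin s → ZMod 2) (o : Finset V × Finset ℕ) : Finset (Finset V) :=
  ((g.F c).filter fun Y => g.job Y = o).biUnion fun Y => (g.core Y).image Y.erase

def span (o : Finset V × Finset ℕ) : Finset V := o.1 ∪ o.2.biUnion g.blob

def Cd (o : Finset V × Finset ℕ) : Finset V :=
  univ.filter fun u => u ≠ g.z ∧ u ∉ g.span o ∧ g.l u ∉ o.1.image g.l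

def cls (a : Fin s → ZMod 2) : Finset V := univ.filter fun v => g.l v = a

theorem mem_F {c : Fin s → ZMod 2} {Y : Finset V} :
    Y ∈ g.F c ↔ Y.card = s + 1 ∧ g.z ∉ Y ∧ ∑ v ∈ Y, g.l v = c := by
  simp [F, mem_powersetCard]

theorem mem_blob {b : ℕ} {v : V} : v ∈ g.blob b ↔ g.bl v = b := by simp [blob]

theorem blob_le (b : ℕ) : (g.blob b).card ≤ D := by
  by_cases h : b = 0
  · subst h; exact g.small
  rcases (g.blob b).eq_empty_or_nonempty with e | ⟨v, hv⟩
  · simp [e]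
  · rw [mem_blob] at hv
    subst hv
    exact (g.full v h).le

theorem mem_pb {Y : Finset V} {b : ℕ} : b ∈ g.pb Y ↔ b ≠ 0 ∧ g.cnt Y b = 1 := by
  simp only [pb, mem_filter, and_iff_right_iff_imp]
  rintro ⟨-, h⟩
  obtain ⟨v, hv⟩ := card_pos.1 (show 0 < g.cnt Y b by omega)
  exact mem_image.2 ⟨v, (mem_filter.1 hv).1, (mem_filter.1 hv).2⟩

theorem core_sub (Y : Finset V) : g.core Y ⊆ Y := filter_subset _ _

theorem sub_span (Y : Finset V) : Y ⊆ g.span (g.job Y) := fun v hv => by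
  by_cases h : g.bl v ∈ g.pb Y
  · exact mem_union_right _ (mem_biUnion.2 ⟨_, h, g.mem_blob.2 rfl⟩)
  · exact mem_union_left _ (mem_filter.2 ⟨hv, h⟩)

theorem card_span (Y : Finset V) : (g.span (g.job Y)).card ≤ Y.card + Y.card * D :=
  (card_union_le _ _).trans (add_le_add (card_le_card (g.core_sub Y))
    ((card_biUnion_le_card_mul _ _ D fun b _ => g.blob_le b).trans
      (Nat.mul_le_mul_right _ ((card_filter_le _ _).trans card_image_le))))

theorem mem_Bs {c : Fin s → ZMod 2} {o : Finset V × Finset ℕ} {B : Finset V} :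
    B ∈ g.Bs c o ↔ ∃ Y ∈ g.F c, g.job Y = o ∧ ∃ y ∈ g.core Y, Y.erase y = B := by
  simp [Bs, and_assoc]

theorem Bs_spec {c : Fin s → ZMod 2} {o : Finset V × Finset ℕ} {B : Finset V}
    (h : B ∈ g.Bs c o) : B.card = s ∧ B ⊆ g.span o := by
  obtain ⟨Y, hY, rfl, y, hy, rfl⟩ := g.mem_Bs.1 h
  exact ⟨by rw [card_erase_of_mem (g.core_sub Y hy), (g.mem_F.1 hY).1]; rfl,
    (erase_subset _ _).trans (g.sub_span Y)⟩

theorem Bs_card {c : Fin s → ZMod 2} {o : Finset V × Finset ℕ} (ho : o ∈ (g.F c).image g.job) :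
    (g.Bs c o).card ≤ 2 ^ (s + 1 + (s + 1) * D) := by
  obtain ⟨Y, hY, rfl⟩ := mem_image.1 ho
  refine (card_le_card fun B hB => mem_powerset.2 (g.Bs_spec hB).2).trans ?_
  rw [card_powerset]
  exact Nat.pow_le_pow_right two_pos ((g.mem_F.1 hY).1 ▸ g.card_span Y)

theorem Bs_jobs (c : Fin s → ZMod 2) (S : Finset V) :
    (((g.F c).image g.job).filter fun o => S ∈ g.Bs c o).card ≤ (s + 1) * D := by
  rcases (((g.F c).image g.job).filter fun o => S ∈ g.Bs c o).eq_empty_or_nonempty with e | ⟨o, ho⟩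
  · simp [e]
  have hS := (g.Bs_spec (mem_filter.1 ho).2).1
  have sub : (((g.F c).image g.job).filter fun o => S ∈ g.Bs c o) ⊆
      ((insert 0 (S.image g.bl)).biUnion g.blob).image fun y => g.job (insert y S) := by
    intro p hp
    obtain ⟨Y, -, rfl, y, hy, rfl⟩ := g.mem_Bs.1 (mem_filter.1 hp).2
    obtain ⟨hyY, hb⟩ := mem_filter.1 hy
    refine mem_image.2 ⟨y, mem_biUnion.2 ⟨g.bl y, ?_, g.mem_blob.2 rfl⟩, by rw [insert_erase hyY]⟩
    by_cases h0 : g.bl y = 0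
    · rw [h0]; exact mem_insert_self _ _
    refine mem_insert_of_mem ?_
    have h1 : g.cnt Y (g.bl y) ≠ 1 := fun h => hb (g.mem_pb.2 ⟨h0, h⟩)
    have h2 : y ∈ Y.filter fun w => g.bl w = g.bl y := mem_filter.2 ⟨hyY, rfl⟩
    have h3 : 1 < (Y.filter fun w => g.bl w = g.bl y).card := by
      have := card_pos.2 ⟨y, h2⟩
      unfold cnt at h1
      omega
    obtain ⟨w, hw, hne⟩ := exists_mem_ne h3 y
    exact mem_image.2 ⟨w, mem_erase.2 ⟨hne, (mem_filter.1 hw).1⟩, (mem_filter.1 hw).2⟩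
  refine (card_le_card sub).trans (card_image_le.trans
    ((card_biUnion_le_card_mul _ _ D fun b _ => g.blob_le b).trans (Nat.mul_le_mul_right _ ?_)))
  exact (card_insert_le _ _).trans (Nat.succ_le_succ (card_image_le.trans hS.le))

theorem Cd_card {c : Fin s → ZMod 2} {o : Finset V × Finset ℕ} (ho : o ∈ (g.F c).image g.job)
    (hs : s + 1 < 2 ^ s) {M : ℕ} (hM : ∀ a, M ≤ (g.cls a).card) :
    M ≤ (g.Cd o).card + (1 + (s + 1 + (s + 1) * D)) := by
  obtain ⟨Y, hY, rfl⟩ := mem_image.1 ho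
  have hc := (g.mem_F.1 hY).1
  obtain ⟨a, -, ha⟩ := exists_mem_notMem_of_card_lt_card
    (s := (g.job Y).1.image g.l) (t := univ) (by
      refine (card_image_le.trans (card_le_card (g.core_sub Y))).trans_lt ?_
      rw [hc]
      simpa using hs)
  have sub : g.cls a ⊆ g.Cd (g.job Y) ∪ insert g.z (g.span (g.job Y)) := by
    intro v hv
    by_cases h : v ∈ insert g.z (g.span (g.job Y))
    · exact mem_union_right _ h
    · rw [mem_insert, not_or] at h
      refine mem_union_left _ (mem_filter.2 ⟨mem_univ _, h.1, h.2, ?_⟩)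
      rwa [(mem_filter.1 hv).2]
  refine (hM a).trans ((card_le_card sub).trans ((card_union_le _ _).trans ?_))
  have := card_insert_le g.z (g.span (g.job Y))
  have := g.card_span Y
  rw [hc] at this
  omega

/-- moving a free vertex inside its blob -/
theorem move {c : Fin s → ZMod 2} {Y : Finset V} (hY : Y ∈ g.F c) {x x' : V} (hx : x ∈ Y)
    (hb : g.bl x ∈ g.pb Y) (e : g.bl x' = g.bl x) :
    insert x' (Y.erase x) ∈ g.F c ∧ g.job (insert x' (Y.erase x)) = g.job Y := by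
  obtain ⟨h0, h1⟩ := g.mem_pb.1 hb
  obtain ⟨c1, c2, c3⟩ := g.mem_F.1 hY
  have uq : ∀ w ∈ Y, g.bl w = g.bl x → w = x := fun w hw ew =>
    card_le_one.1 h1.le w (mem_filter.2 ⟨hw, ew⟩) x (mem_filter.2 ⟨hx, rfl⟩)
  have nm : x' ∉ Y.erase x := fun h => ne_of_mem_erase h (uq x' (mem_of_mem_erase h) e)
  have hcnt : g.cnt (insert x' (Y.erase x)) = g.cnt Y := by
    funext b
    unfold cnt
    rw [card_filter, card_filter, sum_insert nm, e, add_sum_erase Y (fun w => if g.bl w = b then 1 else 0) hx]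
  have hpb : g.pb (insert x' (Y.erase x)) = g.pb Y := by
    ext b; rw [mem_pb, mem_pb, hcnt]
  refine ⟨g.mem_F.2 ⟨?_, ?_, ?_⟩, ?_⟩
  · rw [card_insert_of_notMem nm, card_erase_of_mem hx, c1]; rfl
  · intro h
    rcases mem_insert.1 h with h | h
    · exact h0 (by rw [← e, ← h, g.hz])
    · exact c2 (mem_of_mem_erase h)
  · rw [sum_insert nm, ← c3, ← add_sum_erase Y g.l hx, l, l, e]
  · refine Prod.ext ?_ hpb
    ext w
    simp only [job, core, hpb, mem_filter, mem_insert, mem_erase]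
    constructor
    · rintro ⟨rfl | h, h2⟩
      · exact absurd (e ▸ hb) h2
      · exact ⟨h.2, h2⟩
    · rintro ⟨h, h2⟩
      exact ⟨Or.inr ⟨fun ew => h2 (ew ▸ hb), h⟩, h2⟩

end Cfg

/-- a family whose members meet `β` in one vertex that can be moved freely -/
theorem card_dvd_of_move {V : Type} [DecidableEq V] (β : Finset V) (A : Finset (Finset V))
    (h1 : ∀ Y ∈ A, ∃ x ∈ β, x ∈ Y ∧ ∀ w ∈ β, w ∈ Y → w = x)
    (h2 : ∀ Y ∈ A, ∀ x ∈ β, x ∈ Y → ∀ x' ∈ β, insert x' (Y.erase x) ∈ A) : β.card ∣ A.card := by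
  rcases β.eq_empty_or_nonempty with rfl | ⟨x₀, h₀⟩
  · rcases A.eq_empty_or_nonempty with rfl | ⟨Y, hY⟩
    · simp
    · obtain ⟨x, hx, -⟩ := h1 Y hY
      simp at hx
  have uq : ∀ Y ∈ A, ∀ x ∈ β, x ∈ Y → ∀ w ∈ β, w ∈ Y → w = x := fun Y hY x hx hxY w hw hwY => by
    obtain ⟨y, -, -, hy⟩ := h1 Y hY
    rw [hy x hx hxY, hy w hw hwY]
  have le : ∀ x ∈ β, ∀ x' ∈ β, (A.filter (x ∈ ·)).card ≤ (A.filter (x' ∈ ·)).card := by
    intro x hx x' hx'
    refine card_le_card_of_injOn (fun Y => insert x' (Y.erase x)) ?_ ?_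
    · intro Y hY
      simp only [coe_filter, Set.mem_ofPred_eq] at hY ⊢
      exact ⟨h2 Y hY.1 x hx hY.2 x' hx', mem_insert_self _ _⟩
    · intro Y hY Y' hY' e
      simp only [coe_filter, Set.mem_ofPred_eq] at hY hY' e
      have n1 : ∀ Z ∈ A, x ∈ Z → x' ∉ Z.erase x := fun Z hZ hxZ h =>
        ne_of_mem_erase h (uq Z hZ x hx hxZ x' hx' (mem_of_mem_erase h))
      have : Y.erase x = Y'.erase x := by
        rw [← erase_insert (n1 Y hY.1 hY.2), e, erase_insert (n1 Y' hY'.1 hY'.2)]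
      rw [← insert_erase hY.2, this, insert_erase hY'.2]
  have e : A = β.biUnion fun x => A.filter (x ∈ ·) := by
    ext Y
    simp only [mem_biUnion, mem_filter]
    exact ⟨fun hY => let ⟨x, hx, hxY, _⟩ := h1 Y hY; ⟨x, hx, hY, hxY⟩, fun ⟨_, _, h, _⟩ => h⟩
  refine ⟨(A.filter (x₀ ∈ ·)).card, ?_⟩
  conv_lhs => rw [e]
  rw [card_biUnion, sum_const_nat fun x hx => le_antisymm (le x hx x₀ h₀) (le x₀ h₀ x hx)]
  intro x hx x' hx' hne
  refine disjoint_left.2 fun Y hY hY' => hne ?_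
  rw [mem_filter] at hY hY'
  exact uq Y hY.1 x' hx' hY'.2 x hx hY.2

end Pool.Agent.P.MP_be5a37_co.Lb
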