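import Pool.Agent.P.MP_be5a37_co.LbC

set_option autoImplicit false

namespace Pool.Agent.P.MP_be5a37_co.Lb

open Finset

namespace Cfg

variable {V : Type} [Fintype V] [DecidableEq V] {s D : ℕ} (g : Cfg V s D)
  (c : Fin s → ZMod 2) (u : Finset V × Finset ℕ → V)

/-- pairs of a forbidden set and the vertex that is left out of its completion -/
def Prs : Finset (Σ _ : Finset V, V) :=
  (g.F c).sigma fun Y => insert (u (g.job Y)) (g.core Y)

def ed (p : Σ _ : Finset V, V) : Finset V := (insert (u (g.job p.1)) p.1).erase p.2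

def R : Finset (Finset V) := (g.Prs c u).image (g.ed u)

def Ok : Prop := (∀ o ∈ (g.F c).image g.job, u o ∈ g.Cd o) ∧
  ∀ o ∈ (g.F c).image g.job, ∀ o' ∈ (g.F c).image g.job, ∀ B ∈ g.Bs c o, ∀ B' ∈ g.Bs c o',
    insert (u o) B = insert (u o') B' → o = o'

variable {g c u}

theorem Ok.cd (h : g.Ok c u) {Y : Finset V} (hY : Y ∈ g.F c) : u (g.job Y) ≠ g.z ∧
    u (g.job Y) ∉ g.span (g.job Y) ∧ g.l (u (g.job Y)) ∉ (g.core Y).image g.l :=
  (mem_filter.1 (h.1 _ (mem_image_of_mem _ hY))).2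

theorem Ok.nm (h : g.Ok c u) {Y : Finset V} (hY : Y ∈ g.F c) : u (g.job Y) ∉ Y :=
  fun hm => (h.cd hY).2.1 (g.sub_span Y hm)

theorem Ok.cases (h : g.Ok c u) {p : Σ _ : Finset V, V} (hp : p ∈ g.Prs c u) :
    p.1 ∈ g.F c ∧ ((p.2 = u (g.job p.1) ∧ g.ed u p = p.1) ∨
      (p.2 ∈ g.core p.1 ∧ g.ed u p = insert (u (g.job p.1)) (p.1.erase p.2) ∧
        g.ed u p ∉ g.F c)) := by
  obtain ⟨hY, hy⟩ := mem_sigma.1 hp
  refine ⟨hY, ?_⟩
  rcases mem_insert.1 hy with e | hy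
  · exact Or.inl ⟨e, by rw [ed, e, erase_insert (h.nm hY)]⟩
  · have hyY := g.core_sub _ hy
    have ne : u (g.job p.1) ≠ p.2 := fun e => h.nm hY (e ▸ hyY)
    have e : g.ed u p = insert (u (g.job p.1)) (p.1.erase p.2) := by
      rw [ed, erase_insert_of_ne ne]
    refine Or.inr ⟨hy, e, fun hF => (h.cd hY).2.2 (mem_image.2 ⟨p.2, hy, ?_⟩)⟩
    have h1 := (g.mem_F.1 hF).2.2
    rw [e, sum_insert fun hm => h.nm hY (mem_of_mem_erase hm), ← (g.mem_F.1 hY).2.2,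
      ← add_sum_erase p.1 g.l hyY] at h1
    exact (add_right_cancel h1).symm

theorem Ok.inj (h : g.Ok c u) : Set.InjOn (g.ed u) (g.Prs c u) := by
  rintro ⟨Y, y⟩ hp ⟨Y', y'⟩ hp' e
  obtain ⟨hY, a⟩ := h.cases (mem_coe.1 hp)
  obtain ⟨hY', a'⟩ := h.cases (mem_coe.1 hp')
  simp only at hY hY' a a'
  rcases a with ⟨a1, a2⟩ | ⟨a1, a2, a3⟩ <;> rcases a' with ⟨b1, b2⟩ | ⟨b1, b2, b3⟩
  · have : Y = Y' := by rw [← a2, e, b2]
    subst this
    rw [a1, b1]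
  · exact absurd (e ▸ a2.symm ▸ hY) b3
  · exact absurd (e.symm ▸ b2.symm ▸ hY') a3
  · rw [a2, b2] at e
    have j : g.job Y = g.job Y' := h.2 _ (mem_image_of_mem _ hY) _ (mem_image_of_mem _ hY') _
      (g.mem_Bs.2 ⟨Y, hY, rfl, y, a1, rfl⟩) _ (g.mem_Bs.2 ⟨Y', hY', rfl, y', b1, rfl⟩) e
    have e2 : Y.erase y = Y'.erase y' := by
      rw [← erase_insert (s := Y.erase y) fun hm => h.nm hY (mem_of_mem_erase hm), e, j,
        erase_insert fun hm => h.nm hY' (mem_of_mem_erase hm)]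
    have jc : g.core Y = g.core Y' := congrArg Prod.fst j
    have e3 : y' = y := by
      by_contra ne
      have : y' ∈ Y.erase y := mem_erase.2 ⟨ne, g.core_sub Y (jc ▸ b1)⟩
      rw [e2] at this
      exact notMem_erase _ _ this
    subst e3
    have : Y = Y' := by
      rw [← insert_erase (g.core_sub Y a1), e2, insert_erase (g.core_sub Y' b1)]
    subst this
    rfl

theorem Ok.mem_R (h : g.Ok c u) {e : Finset V} (he : e ∈ g.R c u) : e.card = s + 1 ∧ g.z ∉ e := by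
  obtain ⟨p, hp, rfl⟩ := mem_image.1 he
  obtain ⟨hY, ⟨-, a⟩ | ⟨a1, a2, -⟩⟩ := h.cases hp
  · rw [a]; exact ⟨(g.mem_F.1 hY).1, (g.mem_F.1 hY).2.1⟩
  · rw [a2, card_insert_of_notMem fun hm => h.nm hY (mem_of_mem_erase hm),
      card_erase_of_mem (g.core_sub _ a1), (g.mem_F.1 hY).1]
    refine ⟨rfl, fun hm => ?_⟩
    rcases mem_insert.1 hm with e | hm
    · exact (h.cd hY).1 e.symm
    · exact (g.mem_F.1 hY).2.1 (mem_of_mem_erase hm)

theorem Ok.F_sub (h : g.Ok c u) : g.F c ⊆ g.R c u := fun Y hY =>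
  mem_image.2 ⟨⟨Y, u (g.job Y)⟩, mem_sigma.2 ⟨hY, mem_insert_self _ _⟩, erase_insert (h.nm hY)⟩

theorem Ok.deg_le (h : g.Ok c u) (S : Finset V) (hS : S.card = s) :
    deg (g.R c u) S ≤ (g.cls (c - ∑ v ∈ S, g.l v)).card +
      (comp ((g.F c).image g.job) (g.Bs c) u S).card := by
  refine le_trans ?_ (card_union_le _ _)
  refine le_trans (card_le_card ?_) (card_image_le (f := fun v => insert v S))
  intro e he
  obtain ⟨he, hSe⟩ := mem_filter.1 he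
  obtain ⟨v, hv, rfl⟩ := exists_eq_insert_iff.2 ⟨hSe, by rw [hS, (h.mem_R he).1]⟩
  refine mem_image.2 ⟨v, ?_, rfl⟩
  obtain ⟨p, hp, e⟩ := mem_image.1 he
  obtain ⟨hY, ⟨-, a⟩ | ⟨a1, a2, -⟩⟩ := h.cases hp
  · refine mem_union_left _ (mem_filter.2 ⟨mem_univ _, ?_⟩)
    have := (g.mem_F.1 hY).2.2
    rw [← a, e, sum_insert hv] at this
    exact eq_sub_of_add_eq this
  · exact mem_union_right _ (mem_filter.2 ⟨mem_univ _, hv, _, mem_image_of_mem _ hY, _,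
      g.mem_Bs.2 ⟨_, hY, rfl, _, a1, rfl⟩, e.symm.trans a2⟩)

theorem Ok.deg_eq (h : g.Ok c u) (S : Finset V) : deg (g.R c u) S =
    ∑ Y ∈ (g.F c).filter fun Y => S ⊆ insert (u (g.job Y)) Y,
      (insert (u (g.job Y)) (g.core Y) \ S).card := by
  rw [deg, R, filter_image, card_image_of_injOn (h.inj.mono (coe_subset.2 (filter_subset _ _))),
    ← card_sigma]
  congr 1
  ext ⟨Y, y⟩
  simp only [Prs, ed, mem_filter, mem_sigma, subset_erase, mem_sdiff]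
  tauto

theorem Ok.dvd (h : g.Ok c u) (S : Finset V) (hD : s + 2 - S.card ∣ D) :
    s + 2 - S.card ∣ deg (g.R c u) S := by
  rw [h.deg_eq, ← sum_filter_add_sum_filter_not _ fun Y => Y \ g.core Y ⊆ S]
  refine dvd_add (dvd_sum fun Y hY => ?_) (hD.trans ?_)
  · simp only [mem_filter] at hY
    obtain ⟨⟨hY, h1⟩, h2⟩ := hY
    have : insert (u (g.job Y)) (g.core Y) \ S = insert (u (g.job Y)) Y \ S := by
      ext v
      simp only [mem_sdiff, mem_insert]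
      constructor
      · rintro ⟨a | a, b⟩
        · exact ⟨Or.inl a, b⟩
        · exact ⟨Or.inr (g.core_sub Y a), b⟩
      · rintro ⟨a | a, b⟩
        · exact ⟨Or.inl a, b⟩
        · exact ⟨Or.inr (by_contra fun n => b (h2 (mem_sdiff.2 ⟨a, n⟩))), b⟩
    rw [this, card_sdiff_of_subset h1, card_insert_of_notMem (h.nm hY), (g.mem_F.1 hY).1]
  · set A := ((g.F c).filter fun Y => S ⊆ insert (u (g.job Y)) Y).filter
      fun Y => ¬ Y \ g.core Y ⊆ S with hA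
    rw [← sum_fiberwise_of_maps_to (g := g.job) (t := A.image g.job)
      fun Y hY => mem_image_of_mem _ hY]
    refine dvd_sum fun o ho => ?_
    rw [sum_congr rfl (g := fun _ => (insert (u o) o.1 \ S).card) fun Y hY => by
      rw [← (mem_filter.1 hY).2]; rfl, sum_const, smul_eq_mul]
    refine Dvd.dvd.mul_right ?_ _
    obtain ⟨Y₀, hY₀, rfl⟩ := mem_image.1 ho
    simp only [hA, mem_filter] at hY₀
    obtain ⟨⟨hF, hS⟩, hn⟩ := hY₀
    obtain ⟨x₀, hx₀, hxS⟩ := not_subset.1 hn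
    obtain ⟨hxY, hxc⟩ := mem_sdiff.1 hx₀
    have hb : g.bl x₀ ∈ g.pb Y₀ := by_contra fun n => hxc (mem_filter.2 ⟨hxY, n⟩)
    have one : ∀ Y, g.bl x₀ ∈ g.pb Y → ∃ x ∈ g.blob (g.bl x₀), x ∈ Y ∧
        ∀ w ∈ g.blob (g.bl x₀), w ∈ Y → w = x := fun Y hY => by
      obtain ⟨x, hx⟩ := card_eq_one.1 (g.mem_pb.1 hY).2
      have m : ∀ w, w ∈ Y ∧ g.bl w = g.bl x₀ ↔ w = x := fun w => by
        rw [← mem_singleton (a := x), ← hx, mem_filter]
      exact ⟨x, g.mem_blob.2 ((m x).2 rfl).2, ((m x).2 rfl).1,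
        fun w hw hwY => (m w).1 ⟨hwY, g.mem_blob.1 hw⟩⟩
    have away : ∀ w ∈ g.blob (g.bl x₀), w ∉ S := fun w hw hwS => by
      rcases mem_insert.1 (hS hwS) with e | hwY
      · exact (h.cd hF).2.1 (mem_union_right _ (mem_biUnion.2 ⟨_, hb, e ▸ hw⟩))
      · obtain ⟨x, -, -, hx⟩ := one Y₀ hb
        exact hxS (by rw [hx x₀ (g.mem_blob.2 rfl) hxY, ← hx w hw hwY]; exact hwS)
    have pbe : ∀ Y, g.job Y = g.job Y₀ → g.bl x₀ ∈ g.pb Y := fun Y e => by
      rw [show g.pb Y = g.pb Y₀ from congrArg Prod.snd e]; exact hb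
    refine (Dvd.intro _ (mul_one _ |>.trans (g.full x₀ (g.mem_pb.1 hb).1).symm)).trans
      (card_dvd_of_move (g.blob (g.bl x₀)) _ (fun Y hY => one Y (pbe Y (mem_filter.1 hY).2)) ?_)
    intro Y hY x hx hxY' x' hx'
    simp only [hA, mem_filter] at hY ⊢
    obtain ⟨⟨⟨hYF, hYS⟩, -⟩, hj⟩ := hY
    have e1 := g.mem_blob.1 hx
    have e2 := g.mem_blob.1 hx'
    obtain ⟨m1, m2⟩ := g.move hYF (x' := x') hxY' (e1 ▸ pbe Y hj) (e2.trans e1.symm)
    refine ⟨⟨⟨m1, ?_⟩, fun hs => away x' hx' (hs (mem_sdiff.2 ⟨mem_insert_self _ _, ?_⟩))⟩,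
      m2.trans hj⟩
    · rw [m2]
      intro w hw
      rcases mem_insert.1 (hYS hw) with e | hwY
      · exact e ▸ mem_insert_self _ _
      · exact mem_insert_of_mem (mem_insert_of_mem
          (mem_erase.2 ⟨fun e => away x hx (e ▸ hw), hwY⟩))
    · exact fun hc => (mem_filter.1 hc).2 (e2 ▸ pbe _ (m2.trans hj))

end Cfg

end Pool.Agent.P.MP_be5a37_co.Lb
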