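import Mathlib

set_option autoImplicit false

namespace Pool.Agent.P.MP_be5a37_co.Lb

open Finset

variable {V : Type} [DecidableEq V]

/-- the number of edges of `G` that contain `S` -/
def deg (G : Finset (Finset V)) (S : Finset V) : ℕ := (G.filter fun e => S ⊆ e).card

/-- `G` is `K_q^r`-divisible -/
def Divisible (q r : ℕ) (G : Finset (Finset V)) : Prop :=
  ∀ S : Finset V, S.card < r → (q - S.card).choose (r - S.card) ∣ deg G S

/-- `D` is a `K_q^r`-decomposition of `G`: a set of `q`-sets all of whose `r`-subsets are edges,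
such that every edge lies in exactly one of them -/
def IsDecomp (q r : ℕ) (G D : Finset (Finset V)) : Prop :=
  (∀ K ∈ D, K.card = q ∧ ∀ e, e ⊆ K → e.card = r → e ∈ G) ∧ ∀ e ∈ G, ∃! K, K ∈ D ∧ e ⊆ K

/-- the minimum degree threshold `δ_{K_q^r}` -/
noncomputable def threshold (q r : ℕ) : ℝ :=
  sInf {c : ℝ | 0 ≤ c ∧ c ≤ 1 ∧ ∃ n₀ : ℕ, ∀ n : ℕ, n₀ ≤ n → ∀ G : Finset (Finset (Fin n)),
    (∀ e ∈ G, e.card = r) → Divisible q r G →
    (∀ T : Finset (Fin n), T.card = r - 1 → c * (n : ℝ) ≤ (deg G T : ℝ)) →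
    ∃ D, IsDecomp q r G D}

end Pool.Agent.P.MP_be5a37_co.Lb
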