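import Pool.Agent.P.MP_be5a37_co.LbD

set_option autoImplicit false

namespace Pool.Agent.P.MP_be5a37_co.Lb

open Finset

variable {V : Type} [Fintype V] [DecidableEq V]

theorem deg_compl (r : ℕ) (R : Finset (Finset V)) (hR : ∀ e ∈ R, e.card = r) (S : Finset V)
    (hS : S.card ≤ r) : deg (univ.powersetCard r \ R) S + deg R S =
      (Fintype.card V - S.card).choose (r - S.card) := by
  rw [← card_univ, ← card_filter_powersetCard_subset S univ r (subset_univ _) hS, deg, deg,
    ← card_union_of_disjoint (disjoint_filter_filter sdiff_disjoint), ← filter_union,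
    sdiff_union_of_subset fun e he => mem_powersetCard.2 ⟨subset_univ _, hR e he⟩]

theorem div_compl (q r y : ℕ) (hq : r ≤ q) (hn : Fintype.card V = q + y) (hy : q.factorial ∣ y)
    (R : Finset (Finset V)) (hR : ∀ e ∈ R, e.card = r) (hd : Divisible q r R) :
    Divisible q r (univ.powersetCard r \ R) := by
  intro S hS
  obtain ⟨t, ht⟩ := choose_add (q - S.card) y (r - S.card) 1 (by omega)
    (by rw [one_mul]; exact (Nat.factorial_dvd_factorial (Nat.sub_le _ _)).trans hy)
  refine (Nat.dvd_add_left (hd S hS)).1 ?_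
  rw [deg_compl r R hR S hS.le, hn, show q + y - S.card = q - S.card + y by omega, ht]
  exact Dvd.intro _ rfl

theorem link_des {s : ℕ} {z : V} {R P : Finset (Finset V)} (hR : ∀ e ∈ R, z ∉ e)
    (h : IsDecomp (s + 2) (s + 1) (univ.powersetCard (s + 1) \ R) P) :
    Des s (univ.erase z) ((P.filter (z ∈ ·)).image (·.erase z)) ∧
      ∀ Y ∈ (P.filter (z ∈ ·)).image (·.erase z), Y ∉ R := by
  have hc : ∀ K ∈ P, z ∈ K → (K.erase z).card = s + 1 := fun K hK hz => by
    rw [card_erase_of_mem hz, (h.1 K hK).1]; rfl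
  refine ⟨⟨?_, fun B hB hs => ?_⟩, ?_⟩
  · intro Y hY
    obtain ⟨K, hK, rfl⟩ := mem_image.1 hY
    exact ⟨erase_subset_erase _ (subset_univ _), hc K (mem_filter.1 hK).1 (mem_filter.1 hK).2⟩
  · have hz : z ∉ B := fun hm => notMem_erase _ _ (hB hm)
    obtain ⟨K, ⟨hK, hBK⟩, hu⟩ := h.2 (insert z B) (mem_sdiff.2
      ⟨mem_powersetCard.2 ⟨subset_univ _, by rw [card_insert_of_notMem hz, hs]⟩,
        fun hm => hR _ hm (mem_insert_self _ _)⟩)
    rw [insert_subset_iff] at hBK
    refine ⟨K.erase z, ⟨mem_image_of_mem _ (mem_filter.2 ⟨hK, hBK.1⟩),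
      subset_erase.2 ⟨hBK.2, hz⟩⟩, ?_⟩
    rintro Y ⟨hY, hBY⟩
    obtain ⟨K', hK', rfl⟩ := mem_image.1 hY
    rw [mem_filter] at hK'
    rw [hu K' ⟨hK'.1, insert_subset hK'.2 (hBY.trans (erase_subset _ _))⟩]
  · intro Y hY
    obtain ⟨K, hK, rfl⟩ := mem_image.1 hY
    rw [mem_filter] at hK
    exact (mem_sdiff.1 ((h.1 K hK.1).2 _ (erase_subset _ _) (hc K hK.1 hK.2))).2

theorem exists_bad {k D : ℕ} (g : Cfg V (k + 1) D) (hs : k + 2 < 2 ^ (k + 1))
    (hD : (k + 3).factorial ∣ D) (y : ℕ) (hn : Fintype.card V = k + 3 + y)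
    (hy : 2 * (k + 3).factorial ∣ y) (M' M a b T H : ℕ) (ha : a = (k + 2) * D)
    (hb : b = 2 ^ (k + 2 + (k + 2) * D)) (hM' : ∀ x, M' ≤ (g.cls x).card)
    (hM : ∀ x, (g.cls x).card ≤ M) (hH : Fintype.card V * a < (H + 1) * T)
    (hC : b * (a + (k + 1) * (T * b)) + b * ((k + 1) * H) + (1 + (k + 2 + a)) < M') :
    ∃ G : Finset (Finset V), (∀ e ∈ G, e.card = k + 2) ∧ Divisible (k + 3) (k + 2) G ∧
      (∀ S : Finset V, S.card = k + 1 →
        Fintype.card V ≤ deg G S + (k + 1 + M + (a + (k + 1) * (T * b)))) ∧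
      ¬ ∃ P, IsDecomp (k + 3) (k + 2) G P := by
  have hk : ∀ c, ∀ o ∈ (g.F c).image g.job, ∀ B ∈ g.Bs c o, B.card = k + 1 ∧ Disjoint (g.Cd o) B :=
    fun c o _ B hB => ⟨(g.Bs_spec hB).1, disjoint_left.2 fun v hv hm =>
      (mem_filter.1 hv).2.2.1 ((g.Bs_spec hB).2 hm)⟩
  have gr := fun c => greedy ((g.F c).image g.job) (g.Bs c) g.Cd k a b T H g.z (hk c)
    (fun o ho => hb ▸ g.Bs_card ho) (fun S => ha ▸ g.Bs_jobs c S) hH fun o ho => by
      have := g.Cd_card ho hs hM'
      have e : (k + 1 + 1) * D = a := ha.symm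
      omega
  choose u h1 h2 h3 using gr
  have ok : ∀ c, g.Ok c (u c) := fun c => ⟨h1 c, h2 c⟩
  by_contra hno
  have dec : ∀ c, ∃ P, IsDecomp (k + 3) (k + 2) (univ.powersetCard (k + 2) \ g.R c (u c)) P := by
    intro c
    by_contra hP
    refine hno ⟨_, fun e he => (mem_powersetCard.1 (mem_sdiff.1 he).1).2, ?_, fun S hS => ?_, hP⟩
    · refine div_compl _ _ y (by omega) hn ((Dvd.intro_left _ rfl).trans hy) _
        (fun e he => ((ok c).mem_R he).1) fun S hS => ?_
      have e : k + 3 - S.card = (k + 2 - S.card) + 1 := by omega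
      rw [e, Nat.choose_succ_self_right, ← e]
      exact (ok c).dvd S ((Nat.dvd_factorial (by omega) (by omega)).trans hD)
    · have e1 := deg_compl (k + 2) _ (fun e he => ((ok c).mem_R he).1) S (by omega)
      rw [hS, show k + 2 - (k + 1) = 1 by omega, Nat.choose_one_right] at e1
      have e2 := (ok c).deg_le S hS
      have e3 := hM (c - ∑ v ∈ S, g.l v)
      have e4 := comp_le _ (g.Bs c) (u c) k a b T (fun o ho B hB => ⟨(hk c o ho B hB).1,
        disjoint_left.1 (hk c o ho B hB).2 (h1 c o ho)⟩) (fun o ho => hb ▸ g.Bs_card ho)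
        (fun S => ha ▸ g.Bs_jobs c S) (h3 c) S hS
      omega
  choose P hP using dec
  have ld := fun c => link_des (z := g.z) (fun e he => ((ok c).mem_R he).2) (hP c)
  have ev := Des.even g.l _ (fun c => (ld c).1) fun c Y hY e =>
    (ld c).2 Y hY ((ok c).F_sub (g.mem_F.2 ⟨((ld c).1.1 Y hY).2,
      fun hm => notMem_erase _ _ (((ld c).1.1 Y hY).1 hm), e⟩))
  have ct := (ld 0).1.count ∅ (empty_subset _) (by simp)
  obtain ⟨t, ht⟩ := choose_add (k + 2) y (k + 1) 2 (by omega)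
    ((Nat.mul_dvd_mul_left 2 (Nat.factorial_dvd_factorial (by omega))).trans hy)
  rw [card_erase_of_mem (mem_univ _), card_univ, hn, card_empty, deg] at ct
  simp only [empty_subset, filter_true, Nat.sub_zero] at ct
  rw [show k + 3 + y - 1 = k + 2 + y by omega, ht, Nat.choose_succ_self_right, mul_comm] at ct
  have := Nat.eq_of_mul_eq_mul_left (by omega) ct
  omega

/-- the model configuration: `m` blobs of every label and `e` further vertices -/
theorem exists_cfg (s D m e n : ℕ) (he : 0 < e) (hD : e ≤ D) (hn : n = e + 2 ^ s * (m * D)) :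
    ∃ g : Cfg (Fin n) s D, ∀ x, m * D ≤ (g.cls x).card ∧ (g.cls x).card ≤ m * D + e := by
  classical
  let A := Fin s → ZMod 2
  let W := Fin e ⊕ (A × Fin m) × Fin D
  have hW : Fintype.card W = n := by simp [W, A, hn, mul_assoc]
  let φ : Fin n ≃ W := (Fintype.equivFinOfCardEq hW).symm
  let enc : A × Fin m → ℕ := fun p => (Fintype.equivFin _ p).val + 1
  have inj : Function.Injective enc := fun p q h =>
    (Fintype.equivFin _).injective (Fin.ext (Nat.succ_injective h))
  let bl : W → ℕ := Sum.elim (fun _ => 0) fun p => enc p.1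
  let lab : ℕ → A := Function.extend enc Prod.fst 0
  have tr : ∀ (p : W → Prop) [DecidablePred p],
      (univ.filter fun v => p (φ v)).card = (univ.filter p).card := fun p _ =>
    card_equiv φ (by simp)
  refine ⟨⟨fun v => bl (φ v), lab, φ.symm (Sum.inl ⟨0, he⟩), by simp [bl], fun v hv => ?_, ?_⟩,
    fun x => ?_⟩
  · rw [tr fun w => bl w = bl (φ v)]
    rcases h : φ v with i | ⟨p, j⟩
    · simp [h, bl] at hv
    · have : (univ.filter fun w => bl w = bl (Sum.inr (p, j))) =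
          univ.map ⟨fun i : Fin D => (Sum.inr (p, i) : W), fun i j h => by simpa using h⟩ := by
        ext (i | ⟨q, i⟩)
        · simp [bl, enc]
        · simp only [bl, mem_filter, mem_univ, true_and, Sum.elim_inr, inj.eq_iff, mem_map]
          constructor
          · rintro rfl
            exact ⟨i, rfl⟩
          · rintro ⟨a, h⟩
            exact (congrArg Prod.fst (Sum.inr_injective h)).symm
      rw [this, card_map, card_fin]
  · rw [tr fun w => bl w = 0]
    have : (univ.filter fun w => bl w = 0) = univ.map ⟨(Sum.inl : Fin e → W), Sum.inl_injective⟩ := by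
      ext (i | ⟨q, i⟩) <;> simp [bl, enc]
    rw [this, card_map, card_fin]
    exact hD
  · change _ ≤ (univ.filter fun v => lab (bl (φ v)) = x).card ∧
      (univ.filter fun v => lab (bl (φ v)) = x).card ≤ _
    rw [tr fun w => lab (bl w) = x]
    let ψ : Fin m × Fin D ↪ W := ⟨fun p => Sum.inr ((x, p.1), p.2), fun p q h => by
      simpa [Prod.ext_iff] using Sum.inr_injective h⟩
    have c1 : (univ.map ψ).card = m * D := by simp
    constructor
    · rw [← c1]
      refine card_le_card fun w hw => ?_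
      obtain ⟨p, -, rfl⟩ := mem_map.1 hw
      exact mem_filter.2 ⟨mem_univ _, inj.extend_apply _ _ _⟩
    · have sub : (univ.filter fun w => lab (bl w) = x) ⊆ univ.map ψ ∪ univ.image Sum.inl := by
        rintro (i | ⟨⟨a, i⟩, j⟩) hw
        · exact mem_union_right _ (mem_image_of_mem _ (mem_univ _))
        · have : a = x := (inj.extend_apply Prod.fst 0 (a, i)).symm.trans (mem_filter.1 hw).2
          subst this
          exact mem_union_left _ (mem_map.2 ⟨(i, j), mem_univ _, rfl⟩)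
      refine (card_le_card sub).trans ((card_union_le _ _).trans ?_)
      rw [c1]
      exact Nat.add_le_add_left (card_image_le.trans (card_fin e).le) _

/-- a family of counterexamples bounds the threshold from below -/
theorem le_threshold {q r : ℕ} (hr : 2 ≤ r) {ε : ℝ} (C : ℕ)
    (h : ∀ n₀ : ℕ, ∃ n : ℕ, n₀ ≤ n ∧ ∃ G : Finset (Finset (Fin n)), (∀ e ∈ G, e.card = r) ∧
      Divisible q r G ∧ (∀ T : Finset (Fin n), T.card = r - 1 →
        (1 - ε) * (n : ℝ) ≤ (deg G T : ℝ) + C) ∧ ¬ ∃ P, IsDecomp q r G P) :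
    1 - ε ≤ threshold q r := by
  refine le_csInf ⟨1, zero_le_one, le_rfl, r, fun n hn G hG _ hd => ?_⟩ ?_
  · exfalso
    obtain ⟨T, -, hT⟩ := exists_subset_card_eq (s := (univ : Finset (Fin n))) (n := r - 1)
      (by rw [card_fin]; omega)
    have h1 := hd T hT
    have h2 : deg G T ≤ deg (univ.powersetCard r \ ∅) T := card_le_card (filter_subset_filter _
      fun e he => mem_sdiff.2 ⟨mem_powersetCard.2 ⟨subset_univ _, hG e he⟩, notMem_empty _⟩)
    have h3 := deg_compl r (∅ : Finset (Finset (Fin n))) (by simp) T (by omega)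
    rw [hT, show r - (r - 1) = 1 by omega, Nat.choose_one_right, Fintype.card_fin] at h3
    rw [one_mul, Nat.cast_le] at h1
    omega
  · rintro c ⟨-, -, n₀, hc⟩
    by_contra hlt
    have hη : 0 < 1 - ε - c := by linarith [not_le.1 hlt]
    obtain ⟨N, hN⟩ := exists_nat_ge ((C : ℝ) / (1 - ε - c))
    obtain ⟨n, hn, G, h1, h2, h3, h4⟩ := h (max n₀ N)
    refine h4 (hc n (le_of_max_le_left hn) G h1 h2 fun T hT => ?_)
    have h5 : (N : ℝ) ≤ n := Nat.cast_le.2 (le_of_max_le_right hn)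
    have h6 := (div_le_iff₀ hη).1 (hN.trans h5)
    have := h3 T hT
    nlinarith

theorem parity_main (k : ℕ) (hk : 1 ≤ k) : 1 - 1 / 2 ^ (k + 1) ≤ threshold (k + 3) (k + 2) := by
  have hs : k + 2 < 2 ^ (k + 1) := by
    induction k, hk using Nat.le_induction with
    | base => norm_num
    | succ k _ ih => rw [pow_succ]; omega
  obtain ⟨D, hD⟩ : ∃ D, D = 2 * (k + 3).factorial := ⟨_, rfl⟩
  obtain ⟨a, ha⟩ : ∃ a, a = (k + 2) * D := ⟨_, rfl⟩
  obtain ⟨b, hb⟩ : ∃ b, b = 2 ^ (k + 2 + (k + 2) * D) := ⟨_, rfl⟩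
  obtain ⟨T, hT⟩ : ∃ T, T = 2 ^ (k + 1) * (2 * (b * (k + 1))) * a := ⟨_, rfl⟩
  have f1 : k + 3 ≤ D := by have := Nat.self_le_factorial (k + 3); omega
  have a0 : 0 < a := by rw [ha]; exact Nat.mul_pos (by omega) (by omega)
  have b0 : 0 < b := by rw [hb]; positivity
  have T0 : 0 < T := by rw [hT]; positivity
  refine le_threshold (by omega) (k + 3 + (k + 1) + (a + (k + 1) * (T * b))) fun n₀ => ?_
  obtain ⟨C, hC⟩ : ∃ C, C = b * (a + (k + 1) * (T * b)) + (1 + (k + 2 + a)) := ⟨_, rfl⟩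
  obtain ⟨m, hm⟩ : ∃ m, m = n₀ + 2 * C + (k + 4) := ⟨_, rfl⟩
  obtain ⟨n, hn⟩ : ∃ n, n = k + 3 + 2 ^ (k + 1) * (m * D) := ⟨_, rfl⟩
  have m1 : m ≤ m * D := Nat.le_mul_of_pos_right _ (by omega)
  have m2 : m * D ≤ 2 ^ (k + 1) * (m * D) := Nat.le_mul_of_pos_left _ (by positivity)
  obtain ⟨g, hg⟩ := exists_cfg (k + 1) D m (k + 3) n (by omega) f1 hn
  have hH : 2 * (b * ((k + 1) * (n * a / T))) ≤ m * D + (k + 3) := by
    have h1 : n * a / T * T ≤ n * a := Nat.div_mul_le_self _ _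
    generalize n * a / T = H at h1
    rw [hT, ← mul_assoc] at h1
    have h2 := Nat.le_of_mul_le_mul_right h1 a0
    refine Nat.le_of_mul_le_mul_left (c := 2 ^ (k + 1)) ?_ (by positivity)
    have h3 : k + 3 ≤ 2 ^ (k + 1) * (k + 3) := Nat.le_mul_of_pos_left _ (by positivity)
    calc _ = H * (2 ^ (k + 1) * (2 * (b * (k + 1)))) := by ring
      _ ≤ n := h2
      _ ≤ _ := by rw [hn, mul_add]; omega
  obtain ⟨G, h1, h2, h3, h4⟩ := exists_bad g hs (hD ▸ Dvd.intro_left _ rfl) (2 ^ (k + 1) * (m * D))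
    (by rw [Fintype.card_fin, hn]) (hD ▸ Dvd.dvd.mul_left (Dvd.intro_left _ rfl) _)
    (m * D) (m * D + (k + 3)) a b T (n * a / T) ha hb (fun x => (hg x).1) (fun x => (hg x).2)
    (by rw [Fintype.card_fin, add_mul, one_mul]; exact Nat.lt_div_mul_add T0) (by omega)
  refine ⟨n, by omega, G, h1, h2, fun S hS => ?_, h4⟩
  have h5 := h3 S hS
  rw [Fintype.card_fin] at h5
  have h6 : ((m * D : ℕ) : ℝ) ≤ 1 / 2 ^ (k + 1) * n := by
    rw [one_div, ← div_eq_inv_mul, le_div_iff₀ (by positivity)]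
    have : m * D * 2 ^ (k + 1) ≤ n := by rw [hn, mul_comm]; omega
    exact_mod_cast this
  have h7 : (n : ℝ) ≤ deg G S + ((k + 3 + (k + 1) + (a + (k + 1) * (T * b)) : ℕ) : ℝ) +
      ((m * D : ℕ) : ℝ) := by
    rw [← Nat.cast_add, ← Nat.cast_add, Nat.cast_le]
    omega
  linarith

end Pool.Agent.P.MP_be5a37_co.Lb
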