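import Pool.Agent.P.MP_be5a37_co.LbE

set_option autoImplicit false

namespace Pool.Agent.P.MP_be5a37_co.Lb

open Finset

variable {V X : Type} [Fintype V] [DecidableEq V] [DecidableEq X]

/-- the transversal `r`-sets whose code lies in `Q` -/
def Tr (r : ℕ) (bl : V → Option X) (cd : Option X → ℕ) (Q : Finset ℕ) : Finset (Finset V) :=
  (univ.powersetCard r).filter fun e =>
    (∀ v ∈ e, bl v ≠ none) ∧ (∀ v ∈ e, ∀ w ∈ e, bl v = bl w → v = w) ∧ ∑ v ∈ e, cd (bl v) ∈ Q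

theorem mem_Tr {r : ℕ} {bl : V → Option X} {cd : Option X → ℕ} {Q : Finset ℕ} {e : Finset V} :
    e ∈ Tr r bl cd Q ↔ e.card = r ∧ (∀ v ∈ e, bl v ≠ none) ∧
      (∀ v ∈ e, ∀ w ∈ e, bl v = bl w → v = w) ∧ ∑ v ∈ e, cd (bl v) ∈ Q := by
  simp [Tr, mem_powersetCard]

theorem Tr_dvd {r D : ℕ} (bl : V → Option X) (cd : Option X → ℕ) (Q : Finset ℕ)
    (full : ∀ x, (univ.filter fun w => bl w = some x).card = D) (S : Finset V) (hS : S.card < r) :
    D ∣ deg (Tr r bl cd Q) S := by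
  rw [deg, card_eq_sum_card_image (fun e => e.image bl)]
  refine dvd_sum fun I hI => ?_
  obtain ⟨e₀, he₀, rfl⟩ := mem_image.1 hI
  obtain ⟨hR, hS0⟩ := mem_filter.1 he₀
  obtain ⟨c0, n0, i0, -⟩ := mem_Tr.1 hR
  obtain ⟨x₀, hx₀, hxS⟩ := exists_mem_notMem_of_card_lt_card (hS.trans_eq c0.symm)
  obtain ⟨b, hb⟩ := Option.ne_none_iff_exists'.1 (n0 x₀ hx₀)
  rw [← full b]
  refine card_dvd_of_move _ _ (fun e he => ?_) fun e he x hx hxe x' hx' => ?_
  · simp only [mem_filter] at he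
    obtain ⟨x, hx, e1⟩ := mem_image.1 (he.2 ▸ mem_image_of_mem bl hx₀)
    refine ⟨x, mem_filter.2 ⟨mem_univ _, e1.trans hb⟩, hx, fun w hw hwe => ?_⟩
    exact (mem_Tr.1 he.1.1).2.2.1 w hwe x hx ((mem_filter.1 hw).2.trans (e1.trans hb).symm)
  · simp only [mem_filter, mem_univ, true_and] at he hx hx' ⊢
    obtain ⟨⟨h1, h2⟩, h3⟩ := he
    obtain ⟨c1, n1, i1, s1⟩ := mem_Tr.1 h1
    have e1 : bl x' = bl x := hx'.trans hx.symm
    have aw : ∀ w ∈ e.erase x, bl w ≠ bl x := fun w hw h =>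
      ne_of_mem_erase hw (i1 w (mem_of_mem_erase hw) x hxe h)
    have nm : x' ∉ e.erase x := fun h => aw x' h e1
    refine ⟨⟨mem_Tr.2 ⟨?_, ?_, ?_, ?_⟩, fun w hw => ?_⟩, ?_⟩
    · rw [card_insert_of_notMem nm, card_erase_of_mem hxe, c1]; omega
    · intro v hv
      rcases mem_insert.1 hv with rfl | hv
      · rw [hx']; exact Option.some_ne_none _
      · exact n1 v (mem_of_mem_erase hv)
    · intro v hv w hw h
      rcases mem_insert.1 hv with rfl | hv <;> rcases mem_insert.1 hw with e2 | hw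
      · exact e2.symm
      · exact absurd (h.symm.trans e1) (aw w hw)
      · exact absurd (h.trans (e2 ▸ e1)) (aw v hv)
      · exact i1 v (mem_of_mem_erase hv) w (mem_of_mem_erase hw) h
    · rwa [sum_insert nm, e1, add_sum_erase e (fun v => cd (bl v)) hxe]
    · refine mem_insert_of_mem (mem_erase.2 ⟨fun e2 => hxS ?_, h2 hw⟩)
      rwa [← i0 w (hS0 hw) x₀ hx₀ (by rw [e2, hx, hb])]
    · rw [image_insert, e1, ← image_insert, insert_erase hxe, h3]

/-- the codes of the missing triples; types `0,1,2` and `3,4,5` are two tripartite groups,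
`6` is the small group, `7` the root -/
def QT : Finset ℕ := {4 ^ 7 + 2, 4 ^ 7 + 8, 4 ^ 7 + 32, 4 ^ 7 + 128, 4 ^ 7 + 512, 4 ^ 7 + 2048,
  21, 1344, 12288}

def Fb (a b c : Fin 9) : Prop := 4 ^ a.val + (4 ^ b.val + 4 ^ c.val) ∈ QT

instance (a b c : Fin 9) : Decidable (Fb a b c) := inferInstanceAs (Decidable (_ ∈ QT))

def om (a b : Fin 9) : ℤ := if a.val / 3 = b.val / 3 ∧ a.val ≤ 6 ∧ b.val ≤ 6 then -2 else 1

def om' (a b : Fin 9) : ℤ := if a = b ∧ a.val ≤ 5 then 0 else om a b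

theorem om_ge : ∀ a b, -2 ≤ om a b := by decide

theorem om'_ge : ∀ a b, -2 ≤ om' a b := by decide

theorem om_tri : ∀ a b c : Fin 9, 0 ≤ om a b + om a c + om b c ∨
    (a.val ≤ 6 ∧ b.val ≤ 6 ∧ c.val ≤ 6 ∧ (Fb 7 a b ∨ Fb 7 a c ∨ Fb 7 b c ∨ Fb a b c)) := by
  decide +kernel

theorem om_symm : ∀ a b, om a b = om b a := by decide

theorem om_le : ∀ a b : Fin 9, om a b ≤ om' a b ∨ (a.val ≤ 6 ∧ b.val ≤ 6 ∧ Fb 7 a b) := by
  decide +kernel

theorem om'_neg : ∀ a b : Fin 9, 0 ≤ om' a b ∨ (a.val ≤ 6 ∧ b.val ≤ 6 ∧ ¬ Fb 7 a b) := by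
  decide +kernel

theorem third : ∀ a b : Fin 9, ∃ t : Fin 9, t.val ≤ 6 ∧ ∀ c, Fb c a b → c = t ∨ c = 7 := by
  decide +kernel

variable (bl : V → Option X) (tp : Option X → Fin 9)

theorem triple_mem {x y w : V} (h1 : bl x ≠ bl y) (h2 : bl x ≠ bl w) (h3 : bl y ≠ bl w)
    (n1 : bl x ≠ none) (n2 : bl y ≠ none) (n3 : bl w ≠ none) :
    {x, y, w} ∈ Tr 3 bl (fun o => 4 ^ (tp o).val) QT ↔ Fb (tp (bl x)) (tp (bl y)) (tp (bl w)) := by
  have a1 : x ≠ y := fun e => h1 (by rw [e])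
  have a2 : x ≠ w := fun e => h2 (by rw [e])
  have a3 : y ≠ w := fun e => h3 (by rw [e])
  rw [mem_Tr, sum_insert (by simp [a1, a2]), sum_pair a3, card_eq_three]
  refine ⟨fun h => h.2.2.2, fun h => ⟨⟨x, y, w, a1, a2, a3, rfl⟩, by simp [n1, n2, n3], ?_, h⟩⟩
  simp [h1, h2, h3, h1.symm, h2.symm, h3.symm]

theorem Tr_deg_le (S : Finset V) (hS : S.card = 2) (p : ℕ)
    (hp : ∀ t : Fin 9, t.val ≤ 6 → (univ.filter fun v => tp (bl v) = t).card ≤ p) :
    deg (Tr 3 bl (fun o => 4 ^ (tp o).val) QT) S ≤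
      p + (univ.filter fun v => tp (bl v) = 7).card := by
  obtain ⟨x, y, hxy, rfl⟩ := card_eq_two.1 hS
  obtain ⟨t, ht, h3⟩ := third (tp (bl x)) (tp (bl y))
  refine le_trans ?_ ((card_union_le _ _).trans (Nat.add_le_add_right (hp t ht) _))
  refine le_trans (card_le_card ?_) (card_image_le (f := fun v => insert v {x, y}))
  intro e he
  obtain ⟨he, hSe⟩ := mem_filter.1 he
  obtain ⟨v, hv, rfl⟩ := exists_eq_insert_iff.2 ⟨hSe, by rw [hS, (mem_Tr.1 he).1]⟩
  refine mem_image.2 ⟨v, ?_, rfl⟩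
  have := (mem_Tr.1 he).2.2.2
  rw [sum_insert hv, sum_pair hxy] at this
  rcases h3 _ this with h | h
  · exact mem_union_left _ (mem_filter.2 ⟨mem_univ _, h⟩)
  · exact mem_union_right _ (mem_filter.2 ⟨mem_univ _, h⟩)

theorem tetra_ineq (h8 : tp none = 8) (z : V) (hz : tp (bl z) = 7) (P : Finset (Finset V))
    (hP : IsDecomp 4 3 (univ.powersetCard 3 \ Tr 3 bl (fun o => 4 ^ (tp o).val) QT) P) :
    0 ≤ ∑ x, ∑ y, (om' (tp (bl x)) (tp (bl y)) + if bl y = bl x then 6 else 0) := by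
  set R := Tr 3 bl (fun o => 4 ^ (tp o).val) QT with hR
  let w : V × V → ℤ := fun p => if bl p.1 = bl p.2 then 4 else om (tp (bl p.1)) (tp (bl p.2))
  have zn : bl z ≠ none := fun h => by rw [h, h8] at hz; exact absurd hz (by decide)
  have nn : ∀ x, (tp (bl x)).val ≤ 6 → bl x ≠ none ∧ bl z ≠ bl x := fun x h =>
    ⟨fun e => by rw [e, h8] at h; exact absurd h (by decide),
      fun e => by rw [← e, hz] at h; exact absurd h (by decide)⟩
  have root : ∀ x y, bl x ≠ bl y → (tp (bl x)).val ≤ 6 → (tp (bl y)).val ≤ 6 →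
      ({z, x, y} ∈ R ↔ Fb 7 (tp (bl x)) (tp (bl y))) := fun x y h hx hy => by
    rw [hR, triple_mem bl tp (nn x hx).2 (nn y hy).2 h zn (nn x hx).1 (nn y hy).1, hz]
  let E : Finset (V × V) := (P.filter (z ∈ ·)).biUnion fun K => (K.erase z).offDiag
  have sub : ∀ K ∈ P, ∀ a ∈ K, ∀ b ∈ K, ∀ c ∈ K, a ≠ b → a ≠ c → b ≠ c → {a, b, c} ∉ R :=
    fun K hK a ha b hb c hc h1 h2 h3 => (mem_sdiff.1 ((hP.1 K hK).2 {a, b, c}
      (insert_subset ha (insert_subset hb (singleton_subset_iff.2 hc)))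
      (card_eq_three.2 ⟨a, b, c, h1, h2, h3, rfl⟩))).2
  have uq : ∀ x y, x ≠ z → y ≠ z → x ≠ y → {z, x, y} ∉ R → ∃! K, K ∈ P ∧ {z, x, y} ⊆ K :=
    fun x y h1 h2 h3 h => hP.2 _ (mem_sdiff.2 ⟨mem_powersetCard.2 ⟨subset_univ _,
      card_eq_three.2 ⟨z, x, y, h1.symm, h2.symm, h3, rfl⟩⟩, h⟩)
  have h1 : 0 ≤ ∑ p ∈ E, w p := by
    rw [sum_biUnion]
    · refine sum_nonneg fun K hK => ?_
      obtain ⟨hK, hzK⟩ := mem_filter.1 hK
      obtain ⟨a, b, c, ab, ac, bc, e⟩ := card_eq_three.1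
        (show (K.erase z).card = 3 by rw [card_erase_of_mem hzK, (hP.1 K hK).1])
      have ha : a ∈ K.erase z := by simp [e]
      have hb : b ∈ K.erase z := by simp [e]
      have hc : c ∈ K.erase z := by simp [e]
      rw [mem_erase] at ha hb hc
      have ws : ∀ x y, w (x, y) = w (y, x) := fun x y => by
        simp only [w, eq_comm (a := bl x), om_symm (tp (bl x))]
      have : ∑ p ∈ (K.erase z).offDiag, w p = 2 * (w (a, b) + w (a, c) + w (b, c)) := by
        have od : ({a, b, c} : Finset V).offDiag =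
            (({a, b, c} : Finset V) ×ˢ ({a, b, c} : Finset V)).filter fun p => p.1 ≠ p.2 := by
          ext p; simp only [mem_offDiag, mem_filter, mem_product, and_assoc]
        rw [e, od, sum_filter, sum_product]
        simp [ab, ac, bc, ab.symm, ac.symm, bc.symm, ws b a, ws c a, ws c b]
        ring
      rw [this]
      refine mul_nonneg zero_le_two ?_
      have g1 := om_ge (tp (bl a)) (tp (bl b))
      have g2 := om_ge (tp (bl a)) (tp (bl c))
      have g3 := om_ge (tp (bl b)) (tp (bl c))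
      simp only [w]
      split_ifs with d1 d2 d3 d4 d5 d6 d7 <;> try omega
      rcases om_tri (tp (bl a)) (tp (bl b)) (tp (bl c)) with h | ⟨ta, tb, tc, h | h | h | h⟩
      · exact h
      · exact absurd ((root a b d1 ta tb).2 h)
          (sub K hK z hzK a ha.2 b hb.2 ha.1.symm hb.1.symm ab)
      · exact absurd ((root a c d5 ta tc).2 h)
          (sub K hK z hzK a ha.2 c hc.2 ha.1.symm hc.1.symm ac)
      · exact absurd ((root b c d7 tb tc).2 h)
          (sub K hK z hzK b hb.2 c hc.2 hb.1.symm hc.1.symm bc)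
      · exact absurd ((triple_mem bl tp d1 d5 d7 (nn a ta).1 (nn b tb).1 (nn c tc).1).2 h)
          (sub K hK a ha.2 b hb.2 c hc.2 ab ac bc)
    · intro K hK K' hK' hne
      simp only [coe_filter, Set.mem_ofPred_eq] at hK hK'
      refine disjoint_left.2 fun p hp hp' => hne ?_
      simp only [mem_offDiag, mem_erase] at hp hp'
      exact (uq p.1 p.2 hp.1.1 hp.2.1.1 hp.2.2
        (sub K hK.1 z hK.2 _ hp.1.2 _ hp.2.1.2 hp.1.1.symm hp.2.1.1.symm hp.2.2)).unique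
        ⟨hK.1, insert_subset hK.2 (insert_subset hp.1.2 (singleton_subset_iff.2 hp.2.1.2))⟩
        ⟨hK'.1, insert_subset hK'.2 (insert_subset hp'.1.2 (singleton_subset_iff.2 hp'.2.1.2))⟩
  refine h1.trans ?_
  rw [← Fintype.sum_prod_type' (f := fun x y =>
    om' (tp (bl x)) (tp (bl y)) + if bl y = bl x then 6 else 0), ← univ_inter E, ← sum_ite_mem]
  refine sum_le_sum fun ⟨x, y⟩ _ => ?_
  have g1 := om'_ge (tp (bl x)) (tp (bl y))
  by_cases d : bl x = bl y
  · simp only [w, d, if_true] at g1 ⊢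
    split_ifs <;> omega
  simp only [w, if_neg d, if_neg (Ne.symm d), add_zero]
  split_ifs with hE
  · rcases om_le (tp (bl x)) (tp (bl y)) with h | ⟨tx, ty, h⟩
    · exact h
    · obtain ⟨K, hK, hp⟩ := mem_biUnion.1 hE
      simp only [mem_offDiag, mem_erase, mem_filter] at hp hK
      exact absurd ((root x y d tx ty).2 h)
        (sub K hK.1 z hK.2 _ hp.1.2 _ hp.2.1.2 hp.1.1.symm hp.2.1.1.symm hp.2.2)
  · rcases om'_neg (tp (bl x)) (tp (bl y)) with h | ⟨tx, ty, h⟩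
    · exact h
    · have x1 : x ≠ z := fun e => (nn x tx).2 (by rw [e])
      have y1 : y ≠ z := fun e => (nn y ty).2 (by rw [e])
      have xy : x ≠ y := fun e => d (by rw [e])
      obtain ⟨K, ⟨hK, hs⟩, -⟩ := uq x y x1 y1 xy fun hm => h ((root x y d tx ty).1 hm)
      simp only [insert_subset_iff, singleton_subset_iff] at hs
      exact (hE (mem_biUnion.2 ⟨K, mem_filter.2 ⟨hK, hs.1⟩, mem_offDiag.2
        ⟨mem_erase.2 ⟨x1, hs.2.1⟩, mem_erase.2 ⟨y1, hs.2.2⟩, xy⟩⟩)).elim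

theorem tetra_bad (h8 : tp none = 8) (z : V) (hz : tp (bl z) = 7) (y p : ℕ)
    (hn : Fintype.card V = 4 + y) (hy : 24 ∣ y)
    (full : ∀ x, (univ.filter fun w => bl w = some x).card = 24)
    (hp : ∀ t : Fin 9, t.val ≤ 6 → (univ.filter fun v => tp (bl v) = t).card ≤ p)
    (h7 : (univ.filter fun v => tp (bl v) = 7).card ≤ 24)
    (neg : ∑ x, ∑ y, (om' (tp (bl x)) (tp (bl y)) + if bl y = bl x then 6 else 0) < 0) :
    ∃ G : Finset (Finset V), (∀ e ∈ G, e.card = 3) ∧ Divisible 4 3 G ∧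
      (∀ S : Finset V, S.card = 2 → Fintype.card V ≤ deg G S + (p + 26)) ∧
      ¬ ∃ P, IsDecomp 4 3 G P := by
  refine ⟨_, fun e he => (mem_powersetCard.1 (mem_sdiff.1 he).1).2, ?_, fun S hS => ?_,
    fun ⟨P, hP⟩ => absurd (tetra_ineq bl tp h8 z hz P hP) (not_le.2 neg)⟩
  · refine div_compl 4 3 y (by omega) hn hy _ (fun e he => (mem_Tr.1 he).1) fun S hS => ?_
    refine Dvd.dvd.trans ?_ (Tr_dvd bl _ QT full S hS)
    generalize S.card = i at hS
    interval_cases i <;> decide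
  · have e1 := deg_compl 3 _ (fun e he => (mem_Tr (bl := bl) (cd := fun o => 4 ^ (tp o).val)
      (Q := QT)).1 he |>.1) S (by omega)
    rw [hS, Nat.choose_one_right] at e1
    have := Tr_deg_le bl tp S hS p hp
    omega

theorem tetra_model (a b n : ℕ) (hn : n = 4 + 24 * (6 * a + b + 1)) (hb : b ≤ a)
    (neg : 2 * (24 * (6 * a + b) * 28) + 28 ^ 2 + 144 * (n : ℤ) <
      2 * 24 ^ 2 * (3 * a ^ 2 - 6 * a * b + b ^ 2)) :
    ∃ G : Finset (Finset (Fin n)), (∀ e ∈ G, e.card = 3) ∧ Divisible 4 3 G ∧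
      (∀ S : Finset (Fin n), S.card = 2 → n ≤ deg G S + (24 * a + 26)) ∧
      ¬ ∃ P, IsDecomp 4 3 G P := by
  classical
  let sz : Fin 8 → ℕ := ![a, a, a, a, a, a, b, 1]
  let X := Σ t : Fin 8, Fin (sz t)
  let W := Fin 4 ⊕ X × Fin 24
  have hW : Fintype.card W = n := by
    simp [W, X, sz, hn, Fin.sum_univ_eight]; ring
  let φ : Fin n ≃ W := (Fintype.equivFinOfCardEq hW).symm
  let bl : W → Option X := Sum.elim (fun _ => none) fun p => some p.1
  let tp : Option X → Fin 9 := fun o => o.elim 8 fun x => x.1.castSucc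
  have sm : ∀ f : Option X → ℤ, ∑ v, f (bl (φ v)) = 4 * f none + 24 * ∑ x, f (some x) := fun f => by
    rw [Fintype.sum_equiv φ _ (fun w => f (bl w)) fun _ => rfl]
    simp [W, bl, Fintype.sum_prod_type, mul_sum]
  have st : ∀ f : Fin 9 → ℤ, ∑ v, f (tp (bl (φ v))) = 4 * f 8 + 24 *
      (a * (f 0 + f 1 + f 2 + f 3 + f 4 + f 5) + b * f 6 + f 7) := fun f => by
    rw [sm fun o => f (tp o), Fintype.sum_sigma]
    simp [tp, sz, Fin.sum_univ_eight]
    ring
  have cb : ∀ o, ((univ.filter fun v => bl (φ v) = o).card : ℤ) = if o = none then 4 else 24 := by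
    intro o
    rw [card_filter]
    push_cast
    rw [sm fun o' => if o' = o then 1 else 0]
    cases o with
    | none => simp
    | some x => simp [Finset.sum_ite_eq' univ x fun _ => (1 : ℤ)]
  have ct : ∀ t, ((univ.filter fun v => tp (bl (φ v)) = t).card : ℤ) =
      ((![24 * a, 24 * a, 24 * a, 24 * a, 24 * a, 24 * a, 24 * b, 24, 4] t : ℕ) : ℤ) := fun t => by
    rw [card_filter]
    push_cast
    rw [st fun o' => if o' = t then 1 else 0]
    fin_cases t <;> simp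
  have := tetra_bad (fun v => bl (φ v)) tp rfl (φ.symm (Sum.inr (⟨7, ⟨0, Nat.one_pos⟩⟩, 0)))
    (by simp [bl, tp]) (24 * (6 * a + b + 1)) (24 * a) (by rw [Fintype.card_fin, hn])
    (Dvd.intro _ rfl) (fun x => by exact_mod_cast (cb (some x)).trans (if_neg (by simp)))
    (fun t ht => by
      have := ct t
      fin_cases t <;> simp at this ht ⊢ <;> omega)
    (by have := ct 7; simp at this; omega) ?_
  · simpa using this
  · simp only [sum_add_distrib]
    have h1 : ∑ x, ∑ y, (if bl (φ y) = bl (φ x) then (6 : ℤ) else 0) ≤ ∑ _x : Fin n, 144 := by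
      refine sum_le_sum fun x _ => ?_
      rw [← sum_filter, sum_const, nsmul_eq_mul, cb]
      split_ifs <;> norm_num
    have h2 : ∑ x, ∑ y, om' (tp (bl (φ x))) (tp (bl (φ y))) = 2 * (24 * (6 * a + b) * 28) + 28 ^ 2 -
        2 * 24 ^ 2 * (3 * a ^ 2 - 6 * a * b + b ^ 2) := by
      simp only [st]
      rw [st fun t => 4 * om' t 8 + 24 * (a * (om' t 0 + om' t 1 + om' t 2 + om' t 3 + om' t 4 +
        om' t 5) + b * om' t 6 + om' t 7)]
      simp [om', om]
      ring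
    rw [sum_const, card_fin, nsmul_eq_mul] at h1
    linarith

theorem tetra_main : (66 - √6) / 75 ≤ threshold 4 3 := by
  have s2 : √6 * √6 = 6 := Real.mul_self_sqrt (by norm_num)
  have s0 : 0 ≤ √6 := Real.sqrt_nonneg _
  have s3 : 2.4 ≤ √6 := by nlinarith
  have s4 : √6 ≤ 2.5 := by nlinarith
  rw [show (66 - √6) / 75 = 1 - (9 + √6) / 75 by ring]
  refine le_threshold (by norm_num) 200 fun n₀ => ?_
  obtain ⟨a, ha⟩ : ∃ a : ℕ, a = n₀ + 100 := ⟨_, rfl⟩
  have a0 : (100 : ℝ) ≤ a := by rw [ha]; push_cast; linarith [Nat.cast_nonneg (α := ℝ) n₀]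
  obtain ⟨b, hb1, hb2⟩ : ∃ b : ℕ, (b : ℝ) ≤ (3 - √6) * a - 20 ∧ (3 - √6) * a - 20 < b + 1 :=
    ⟨_, Nat.floor_le (by nlinarith), Nat.lt_floor_add_one _⟩
  have b0 : (0 : ℝ) ≤ b := Nat.cast_nonneg _
  have ba : (b : ℝ) ≤ a := by nlinarith
  obtain ⟨G, h1, h2, h3, h4⟩ := tetra_model a b _ rfl (by exact_mod_cast ba) (by
    have : 2 * (24 * (6 * a + b) * 28) + 28 ^ 2 + 144 * (4 + 24 * (6 * a + b + 1) : ℝ) <
        2 * 24 ^ 2 * (3 * a ^ 2 - 6 * a * b + b ^ 2) := by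
      have e : (3 * a ^ 2 - 6 * a * b + b ^ 2 : ℝ) =
          ((3 - √6) * a - b) * ((3 + √6) * a - b) := by
        have : ((3 - √6) * a - b) * ((3 + √6) * a - b) =
          (9 - √6 * √6) * a ^ 2 - 6 * a * b + (b : ℝ) ^ 2 := by ring
        rw [this, s2]; ring
      have : 20 * (4 * a) ≤ ((3 - √6) * a - b) * ((3 + √6) * a - b) :=
        mul_le_mul (by linarith) (by nlinarith) (by linarith) (by linarith)
      rw [e]
      linarith
    exact_mod_cast this)
  refine ⟨_, by omega, G, h1, h2, fun S hS => ?_, h4⟩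
  have h5 : ((4 + 24 * (6 * a + b + 1) : ℕ) : ℝ) ≤ deg G S + (24 * a + 26) := by
    exact_mod_cast h3 S hS
  have h6 : (24 * a : ℝ) ≤ (9 + √6) / 75 * ((4 + 24 * (6 * a + b + 1) : ℕ) : ℝ) + 174 := by
    push_cast
    have : (9 + √6) * ((9 - √6) * a) = 75 * a := by
      have : (9 + √6) * ((9 - √6) * a) = (81 - √6 * √6) * a := by ring
      rw [this, s2]; ring
    nlinarith
  push_cast at h5 h6 ⊢
  linarith

end Pool.Agent.P.MP_be5a37_co.Lb
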