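import Pool.Agent.P.MP_be5a37_co.Common

set_option autoImplicit false
set_option linter.unusedSectionVars false

namespace Pool.Agent.P.MP_be5a37_co

open Finset

variable {V W : Type} [Fintype V] [DecidableEq V] [Fintype W] [DecidableEq W]

/-- Probability that exactly `J` is removed from `A` by `w`. -/
noncomputable def rr (k : W → V → ℝ) (A : Finset V) (w : W) (J : Finset V) : ℝ :=
  (∏ v ∈ J, k w v) * ∏ v ∈ A \ J, (1 - k w v)

/-- The vertices of `A` retained when `w` arrives. -/
def RR (e : V → W) (A : Finset V) (w : W) : Finset V := A.filter fun v => e v = w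

/-- Total rate of real transitions. -/
noncomputable def KK (a : W → ℝ) (k : W → V → ℝ) (A : Finset V) : ℝ :=
  ∑ w, a w * ∑ J ∈ A.powerset.erase ∅, rr k A w J

/-- The law of the finally retained set. -/
noncomputable def nu (a : W → ℝ) (k : W → V → ℝ) (e : V → W) : ℕ → Finset V → Finset V → ℝ
  | 0, _, S => if S = ∅ then 1 else 0
  | n + 1, A, S => if A = ∅ then (if S = ∅ then 1 else 0) else
      (KK a k A)⁻¹ * ∑ w, a w * ∑ J ∈ A.powerset.erase ∅, rr k A w J *
        ∑ S' : Finset V, nu a k e n (A \ J) S' * (if S = S' ∪ RR e A w then 1 else 0)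

theorem rr_nonneg {k : W → V → ℝ} (h0 : ∀ w v, 0 ≤ k w v) (h1 : ∀ w v, k w v ≤ 1)
    (A : Finset V) (w : W) (J : Finset V) : 0 ≤ rr k A w J :=
  mul_nonneg (Finset.prod_nonneg fun v _ => h0 w v)
    (Finset.prod_nonneg fun v _ => by linarith [h1 w v])

theorem rr_gen (k : W → V → ℝ) (A : Finset V) (w : W) (S : Finset V) (γ : ℝ) :
    ∑ J ∈ A.powerset, rr k A w J * (if Disjoint J S then (1 + γ) ^ J.card else 0) =
      ∏ v ∈ A, (if v ∈ S then 1 - k w v else 1 + γ * k w v) := by
  have h := Finset.prod_add (fun v => if v ∈ S then 0 else k w v * (1 + γ)) (fun v => 1 - k w v) A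
  have h2 : ∏ v ∈ A, (if v ∈ S then 1 - k w v else 1 + γ * k w v) =
      ∏ v ∈ A, ((if v ∈ S then 0 else k w v * (1 + γ)) + (1 - k w v)) := by
    refine Finset.prod_congr rfl fun v _ => ?_
    split_ifs <;> ring
  rw [h2, h]
  refine Finset.sum_congr rfl fun J _ => ?_
  unfold rr
  by_cases hd : Disjoint J S
  · rw [if_pos hd]
    have : ∏ v ∈ J, (if v ∈ S then 0 else k w v * (1 + γ)) = ∏ v ∈ J, (k w v * (1 + γ)) :=
      Finset.prod_congr rfl fun v hv => if_neg (Finset.disjoint_left.1 hd hv)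
    rw [this, Finset.prod_mul_distrib, Finset.prod_const]
    ring
  · rw [if_neg hd]
    obtain ⟨v, hv1, hv2⟩ := Finset.not_disjoint_iff.1 hd
    rw [Finset.prod_eq_zero (f := fun v => if v ∈ S then 0 else k w v * (1 + γ)) hv1
      (if_pos hv2)]
    simp

theorem rr_sum (k : W → V → ℝ) (A : Finset V) (w : W) : ∑ J ∈ A.powerset, rr k A w J = 1 := by
  have := rr_gen k A w ∅ 0
  simpa using this

theorem rr_ne {k : W → V → ℝ} {A : Finset V} {w : W} {J : Finset V} (h : rr k A w J ≠ 0)
    {v : V} (hv : v ∈ A \ J) : k w v ≠ 1 := by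
  intro h1
  apply h
  unfold rr
  rw [Finset.prod_eq_zero hv (by rw [h1]; ring), mul_zero]

theorem KK_pos {a : W → ℝ} {k : W → V → ℝ} {e : V → W} (ha : ∀ w, 0 ≤ a w)
    (h0 : ∀ w v, 0 ≤ k w v) (h1 : ∀ w v, k w v ≤ 1) (hae : ∀ v, a (e v) = 1)
    (hke : ∀ v, k (e v) v = 1) {A : Finset V} (hA : A ≠ ∅) : 0 < KK a k A := by
  obtain ⟨v, hv⟩ := nonempty_iff_ne_empty.2 hA
  unfold KK
  refine Finset.sum_pos' (fun w _ => mul_nonneg (ha w)
    (Finset.sum_nonneg fun J _ => rr_nonneg h0 h1 A w J)) ⟨e v, mem_univ _, ?_⟩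
  have h2 := rr_sum k A (e v)
  rw [← Finset.add_sum_erase _ _ (empty_mem_powerset A)] at h2
  have h3 : rr k A (e v) ∅ = 0 := by
    by_contra h
    exact rr_ne h (by simpa using hv) (hke v)
  rw [hae]
  linarith

theorem nu_step (a : W → ℝ) (k : W → V → ℝ) (e : V → W) (n : ℕ) (A : Finset V) (hA : A ≠ ∅)
    (F : Finset V → ℝ) :
    ∑ S, nu a k e (n + 1) A S * F S = (KK a k A)⁻¹ * ∑ w, a w * ∑ J ∈ A.powerset.erase ∅,
      rr k A w J * ∑ S' : Finset V, nu a k e n (A \ J) S' * F (S' ∪ RR e A w) := by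
  simp only [nu, if_neg hA, mul_assoc]
  rw [← Finset.mul_sum]
  congr 1
  simp only [Finset.sum_mul, mul_assoc]
  rw [Finset.sum_comm]
  refine Finset.sum_congr rfl fun w _ => ?_
  rw [← Finset.mul_sum]
  congr 1
  rw [Finset.sum_comm]
  refine Finset.sum_congr rfl fun J _ => ?_
  rw [← Finset.mul_sum]
  congr 1
  rw [Finset.sum_comm]
  refine Finset.sum_congr rfl fun S' _ => ?_
  rw [← Finset.mul_sum]
  congr 1
  simp

theorem nu_nonneg {a : W → ℝ} {k : W → V → ℝ} (e : V → W) (ha : ∀ w, 0 ≤ a w)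
    (h0 : ∀ w v, 0 ≤ k w v) (h1 : ∀ w v, k w v ≤ 1) :
    ∀ (n : ℕ) (A S : Finset V), 0 ≤ nu a k e n A S := by
  intro n
  induction n with
  | zero => intro A S; simp only [nu]; split_ifs <;> norm_num
  | succ n ih =>
    intro A S
    simp only [nu]
    split_ifs
    · norm_num
    · norm_num
    · refine mul_nonneg (inv_nonneg.2 (Finset.sum_nonneg fun w _ => mul_nonneg (ha w)
        (Finset.sum_nonneg fun J _ => rr_nonneg h0 h1 A w J))) ?_
      refine Finset.sum_nonneg fun w _ => mul_nonneg (ha w) (Finset.sum_nonneg fun J _ =>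
        mul_nonneg (rr_nonneg h0 h1 A w J) (Finset.sum_nonneg fun S' _ => mul_nonneg (ih _ _) ?_))
      split_ifs <;> norm_num

theorem nu_supp (a : W → ℝ) (k : W → V → ℝ) (e : V → W) (he : Function.Injective e)
    (hs : ∀ u v, k (e u) v = k (e v) u) :
    ∀ (n : ℕ) (A S : Finset V), nu a k e n A S ≠ 0 →
      S ⊆ A ∧ ∀ u ∈ S, ∀ v ∈ S, u ≠ v → k (e u) v ≠ 1 := by
  intro n
  induction n with
  | zero =>
    intro A S h
    simp only [nu] at h
    have : S = ∅ := by by_contra h'; simp [h'] at h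
    subst this; simp
  | succ n ih =>
    intro A S h
    simp only [nu] at h
    by_cases hA : A = ∅
    · rw [if_pos hA] at h
      have : S = ∅ := by by_contra h'; simp [h'] at h
      subst this; simp
    · rw [if_neg hA] at h
      obtain ⟨w, -, hw⟩ := Finset.exists_ne_zero_of_sum_ne_zero (right_ne_zero_of_mul h)
      obtain ⟨J, -, hJ⟩ := Finset.exists_ne_zero_of_sum_ne_zero (right_ne_zero_of_mul hw)
      obtain ⟨S', -, hS'⟩ := Finset.exists_ne_zero_of_sum_ne_zero (right_ne_zero_of_mul hJ)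
      have hr := left_ne_zero_of_mul hJ
      obtain ⟨i1, i2⟩ := ih _ _ (left_ne_zero_of_mul hS')
      have hS : S = S' ∪ RR e A w := by
        by_contra h'
        exact right_ne_zero_of_mul hS' (if_neg h')
      subst hS
      refine ⟨union_subset (i1.trans sdiff_subset) (filter_subset _ _), ?_⟩
      intro u hu v hv huv
      rcases mem_union.1 hu with hu | hu <;> rcases mem_union.1 hv with hv | hv
      · exact i2 u hu v hv huv
      · rw [hs, (mem_filter.1 hv).2]
        exact rr_ne hr (i1 hu)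
      · rw [(mem_filter.1 hu).2]
        exact rr_ne hr (i1 hv)
      · exact absurd (he ((mem_filter.1 hu).2.trans (mem_filter.1 hv).2.symm)) huv

theorem moment {a : W → ℝ} {k : W → V → ℝ} {e : V → W} (ha : ∀ w, 0 ≤ a w)
    (h0 : ∀ w v, 0 ≤ k w v) (h1 : ∀ w v, k w v ≤ 1) (hae : ∀ v, a (e v) = 1)
    (hke : ∀ v, k (e v) v = 1) (he : Function.Injective e) (hs : ∀ u v, k (e u) v = k (e v) u)
    (σ t γ : ℝ) (ht : 0 ≤ t) (hγ : 0 ≤ γ) (C : Finset V → ℝ) (good : Finset V → Prop)
    (hgood : ∀ S S', S' ⊆ S → good S → good S') (hC : σ ≤ σ * C ∅)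
    (hSS : ∀ A S, S ⊆ A → good S →
      σ * ∑ w, a w * (t ^ (RR e A w).card * C (S \ RR e A w) *
        ∏ v ∈ A, (if v ∈ S \ RR e A w then 1 - k w v else 1 + γ * k w v)) ≤
      σ * ((∑ w, a w) * C S)) :
    ∀ (n : ℕ) (A : Finset V), A.card ≤ n → ∀ S, S ⊆ A → good S →
      σ * ((1 + γ) ^ A.card * ∑ X, nu a k e n A X * (if S ⊆ X then t ^ X.card else 0)) ≤
        σ * C S := by
  have base : ∀ S : Finset V, S ⊆ ∅ → σ * ((1 + γ) ^ (∅ : Finset V).card *
      ∑ X : Finset V, (if X = ∅ then (1 : ℝ) else 0) * (if S ⊆ X then t ^ X.card else 0)) ≤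
        σ * C S := by
    intro S hS
    rw [subset_empty.1 hS]
    simpa using hC
  intro n
  induction n with
  | zero =>
    intro A hA S hS _
    have : A = ∅ := by rw [← card_eq_zero]; omega
    subst this
    simpa only [nu] using base S hS
  | succ n ih =>
    intro A hA S hS hg
    by_cases hA0 : A = ∅
    · subst hA0
      simpa only [nu, if_true] using base S hS
    have hK := KK_pos ha h0 h1 hae hke hA0
    rw [nu_step a k e n A hA0]
    set Θ : W → Finset V → ℝ := fun w J => t ^ (RR e A w).card * C (S \ RR e A w) *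
      (if Disjoint J (S \ RR e A w) then (1 + γ) ^ J.card else 0) with hΘ
    have s1 : ∀ w, ∀ J ∈ A.powerset.erase ∅, σ * ((1 + γ) ^ A.card * (rr k A w J *
        ∑ S' : Finset V, nu a k e n (A \ J) S' *
          (if S ⊆ S' ∪ RR e A w then t ^ (S' ∪ RR e A w).card else 0))) ≤
        σ * (rr k A w J * Θ w J) := by
      intro w J hJ
      obtain ⟨hJ0, hJA⟩ := mem_erase.1 hJ
      rw [mem_powerset] at hJA
      by_cases hr : rr k A w J = 0
      · simp [hr]
      have hc := card_sdiff_add_card_eq_card hJA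
      have hJp : 0 < J.card := card_pos.2 (nonempty_iff_ne_empty.2 hJ0)
      have e1 : ∑ S' : Finset V, nu a k e n (A \ J) S' *
          (if S ⊆ S' ∪ RR e A w then t ^ (S' ∪ RR e A w).card else 0) =
          t ^ (RR e A w).card * ∑ S' : Finset V, nu a k e n (A \ J) S' *
            (if S \ RR e A w ⊆ S' then t ^ S'.card else 0) := by
        rw [Finset.mul_sum]
        refine Finset.sum_congr rfl fun S' _ => ?_
        by_cases hn : nu a k e n (A \ J) S' = 0
        · simp [hn]
        have hsub := (nu_supp a k e he hs n _ _ hn).1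
        have hd : Disjoint S' (RR e A w) := by
          rw [Finset.disjoint_left]
          intro v hv hv'
          have := rr_ne hr (hsub hv)
          rw [← (mem_filter.1 hv').2] at this
          exact this (hke v)
        have e2 : S ⊆ S' ∪ RR e A w ↔ S \ RR e A w ⊆ S' := by
          rw [union_comm]
          exact sdiff_le_iff.symm
        rw [card_union_of_disjoint hd, pow_add]
        by_cases h : S \ RR e A w ⊆ S'
        · rw [if_pos h, if_pos (e2.2 h)]; ring
        · rw [if_neg h, if_neg (fun h' => h (e2.1 h'))]; ring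
      rw [e1]
      simp only [hΘ]
      by_cases hd : Disjoint J (S \ RR e A w)
      · rw [if_pos hd]
        have i1 := ih (A \ J) (by omega) (S \ RR e A w)
          (subset_sdiff.2 ⟨sdiff_subset.trans hS, hd.symm⟩) (hgood S _ sdiff_subset hg)
        have i2 : 0 ≤ rr k A w J * t ^ (RR e A w).card * (1 + γ) ^ J.card :=
          mul_nonneg (mul_nonneg (rr_nonneg h0 h1 A w J) (pow_nonneg ht _)) (by positivity)
        have i3 := mul_le_mul_of_nonneg_left i1 i2
        rw [← hc, pow_add]
        calc _ = rr k A w J * t ^ (RR e A w).card * (1 + γ) ^ J.card * (σ * ((1 + γ) ^ (A \ J).card *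
              ∑ X, nu a k e n (A \ J) X * (if S \ RR e A w ⊆ X then t ^ X.card else 0))) := by ring
          _ ≤ _ := i3
          _ = _ := by ring
      · rw [if_neg hd, Finset.sum_eq_zero]
        · simp
        intro S' _
        by_cases hn : nu a k e n (A \ J) S' = 0
        · simp [hn]
        have hsub := (nu_supp a k e he hs n _ _ hn).1
        rw [if_neg, mul_zero]
        intro h
        exact hd (Finset.disjoint_of_subset_right (h.trans hsub) disjoint_sdiff)
    have s2 : ∀ w, rr k A w ∅ * Θ w ∅ = rr k A w ∅ * C S := by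
      intro w
      by_cases hr : rr k A w ∅ = 0
      · simp [hr]
      have : RR e A w = ∅ := by
        rw [eq_empty_iff_forall_notMem]
        intro v hv
        have := rr_ne hr (v := v) (by simpa using (mem_filter.1 hv).1)
        rw [← (mem_filter.1 hv).2] at this
        exact this (hke v)
      simp [hΘ, this]
    have s3 : ∀ w, ∑ J ∈ A.powerset.erase ∅, rr k A w J * Θ w J =
        t ^ (RR e A w).card * C (S \ RR e A w) *
          ∏ v ∈ A, (if v ∈ S \ RR e A w then 1 - k w v else 1 + γ * k w v)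
          - C S + C S * ∑ J ∈ A.powerset.erase ∅, rr k A w J := by
      intro w
      have b1 := rr_sum k A w
      rw [← Finset.add_sum_erase _ _ (empty_mem_powerset A)] at b1
      have b2 : ∑ J ∈ A.powerset, rr k A w J * Θ w J = t ^ (RR e A w).card * C (S \ RR e A w) *
          ∏ v ∈ A, (if v ∈ S \ RR e A w then 1 - k w v else 1 + γ * k w v) := by
        rw [← rr_gen, Finset.mul_sum]
        refine Finset.sum_congr rfl fun J _ => ?_
        simp only [hΘ]; ring
      rw [← Finset.add_sum_erase _ _ (empty_mem_powerset A), s2] at b2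
      rw [← b2]
      have : rr k A w ∅ = 1 - ∑ J ∈ A.powerset.erase ∅, rr k A w J := by linarith
      rw [this]; ring
    have s4 := hSS A S hS hg
    have s5 : σ * ((1 + γ) ^ A.card * ∑ w, a w * ∑ J ∈ A.powerset.erase ∅, rr k A w J *
        ∑ S' : Finset V, nu a k e n (A \ J) S' *
          (if S ⊆ S' ∪ RR e A w then t ^ (S' ∪ RR e A w).card else 0)) ≤
        ∑ w, a w * (σ * ∑ J ∈ A.powerset.erase ∅, rr k A w J * Θ w J) := by
      rw [Finset.mul_sum, Finset.mul_sum]
      refine Finset.sum_le_sum fun w _ => ?_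
      have := mul_le_mul_of_nonneg_left (Finset.sum_le_sum (s1 w)) (ha w)
      rw [← Finset.mul_sum, ← Finset.mul_sum, ← Finset.mul_sum] at this
      calc _ = a w * (σ * ((1 + γ) ^ A.card * ∑ J ∈ A.powerset.erase ∅, rr k A w J *
            ∑ S' : Finset V, nu a k e n (A \ J) S' *
              (if S ⊆ S' ∪ RR e A w then t ^ (S' ∪ RR e A w).card else 0))) := by ring
        _ ≤ _ := this
    have s6 : ∑ w, a w * (σ * ∑ J ∈ A.powerset.erase ∅, rr k A w J * Θ w J) =
        σ * ∑ w, a w * (t ^ (RR e A w).card * C (S \ RR e A w) *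
          ∏ v ∈ A, (if v ∈ S \ RR e A w then 1 - k w v else 1 + γ * k w v))
        - σ * ((∑ w, a w) * C S) + KK a k A * (σ * C S) := by
      unfold KK
      simp only [s3, Finset.mul_sum, Finset.sum_mul, ← Finset.sum_sub_distrib,
        ← Finset.sum_add_distrib]
      refine Finset.sum_congr rfl fun w _ => ?_
      simp only [← Finset.mul_sum, ← Finset.sum_mul]
      ring
    have s7 := s5.trans (le_of_eq s6)
    have s8 : σ * ((1 + γ) ^ A.card * ∑ w, a w * ∑ J ∈ A.powerset.erase ∅, rr k A w J *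
        ∑ S' : Finset V, nu a k e n (A \ J) S' *
          (if S ⊆ S' ∪ RR e A w then t ^ (S' ∪ RR e A w).card else 0)) ≤
        KK a k A * (σ * C S) := by linarith
    have s9 := mul_le_mul_of_nonneg_left s8 (inv_nonneg.2 hK.le)
    rw [← mul_assoc (KK a k A)⁻¹ (KK a k A), inv_mul_cancel₀ hK.ne', one_mul] at s9
    calc _ = (KK a k A)⁻¹ * (σ * ((1 + γ) ^ A.card * ∑ w, a w * ∑ J ∈ A.powerset.erase ∅,
          rr k A w J * ∑ S' : Finset V, nu a k e n (A \ J) S' *
          (if S ⊆ S' ∪ RR e A w then t ^ (S' ∪ RR e A w).card else 0))) := by ring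
      _ ≤ _ := s9

end Pool.Agent.P.MP_be5a37_co
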