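import Pool.Agent.P.MP_be5a37_co.Matern

set_option autoImplicit false
set_option linter.unusedSectionVars false

namespace Pool.Agent.P.MP_be5a37_co

open Finset

variable {V W : Type} [Fintype V] [DecidableEq V] [Fintype W] [DecidableEq W]

theorem sum_pick {a : W → ℝ} {e : V → W} (hae : ∀ v, a (e v) = 1) (S : Finset V) (g : V → ℝ) :
    ∑ w, a w * ∑ x ∈ S, (if e x = w then g x else 0) = ∑ x ∈ S, g x := by
  simp only [Finset.mul_sum]
  rw [Finset.sum_comm]
  refine Finset.sum_congr rfl fun x _ => ?_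
  rw [Finset.sum_eq_single (e x)]
  · simp [hae]
  · intro w _ hw
    simp [Ne.symm hw]
  · simp

theorem RR_cases {e : V → W} (he : Function.Injective e) (A S : Finset V) (hS : S ⊆ A) (w : W) :
    (∃ x ∈ S, e x = w ∧ RR e A w = {x} ∧ S \ RR e A w = S.erase x ∧
      ∀ g : V → ℝ, ∑ y ∈ S, (if e y = w then g y else 0) = g x) ∨
    (S \ RR e A w = S ∧ ∀ g : V → ℝ, ∑ y ∈ S, (if e y = w then g y else 0) = 0) := by
  by_cases h : ∃ x ∈ S, e x = w
  · obtain ⟨x, hx, rfl⟩ := h
    have h1 : RR e A (e x) = {x} := by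
      ext y
      simp only [RR, mem_filter, mem_singleton, he.eq_iff]
      exact ⟨fun h => h.2, fun h => ⟨h ▸ hS hx, h⟩⟩
    refine Or.inl ⟨x, hx, rfl, h1, by rw [h1, sdiff_singleton_eq_erase], fun g => ?_⟩
    simp only [he.eq_iff]
    rw [Finset.sum_ite_eq' S x g, if_pos hx]
  · push Not at h
    refine Or.inr ⟨?_, fun g => Finset.sum_eq_zero fun y hy => if_neg (h y hy)⟩
    rw [Finset.sdiff_eq_self_iff_disjoint, Finset.disjoint_left]
    intro y hy hy'
    exact h y hy (mem_filter.1 hy').2

theorem prod_restrict (A S : Finset V) (hS : S ⊆ A) (g : V → ℝ) :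
    ∏ v ∈ A, (if v ∈ S then g v else 1) = ∏ v ∈ S, g v := by
  rw [Finset.prod_ite_mem, inter_eq_right.2 hS]

theorem SS_eq {a : W → ℝ} {k : W → V → ℝ} {e : V → W} (hae : ∀ v, a (e v) = 1)
    (hke : ∀ v, k (e v) v = 1) (he : Function.Injective e) (C : Finset V → ℝ) (A S : Finset V)
    (hS : S ⊆ A) :
    ∑ w, a w * ((1 : ℝ) ^ (RR e A w).card * C (S \ RR e A w) *
        ∏ v ∈ A, (if v ∈ S \ RR e A w then 1 - k w v else 1 + 0 * k w v)) =
      C S * ∑ w, a w * ∏ v ∈ S, (1 - k w v) +
        ∑ x ∈ S, C (S.erase x) * ∏ v ∈ S.erase x, (1 - k (e x) v) := by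
  rw [← sum_pick hae S, Finset.mul_sum, ← Finset.sum_add_distrib]
  refine Finset.sum_congr rfl fun w _ => ?_
  simp only [one_pow, one_mul, zero_mul, add_zero]
  rw [prod_restrict A _ (sdiff_subset.trans hS)]
  rcases RR_cases he A S hS w with ⟨x, hx, rfl, -, h2, h3⟩ | ⟨h2, h3⟩
  · rw [h2, h3, Finset.prod_eq_zero (f := fun v => 1 - k (e x) v) hx (by simp [hke])]
    ring
  · rw [h2, h3]; ring

theorem pair_prob {a : W → ℝ} {k : W → V → ℝ} {e : V → W} (ha : ∀ w, 0 ≤ a w)
    (h0 : ∀ w v, 0 ≤ k w v) (h1 : ∀ w v, k w v ≤ 1) (hae : ∀ v, a (e v) = 1)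
    (hke : ∀ v, k (e v) v = 1) (he : Function.Injective e) (hs : ∀ u v, k (e u) v = k (e v) u)
    (D : ℝ) (hD0 : 0 < D) (hD : ∀ v, ∑ w, a w * k w v = D) (u v : V) (huv : u ≠ v) :
    (2 * D - ∑ w, a w * (k w u * k w v)) *
      ∑ X, nu a k e (Fintype.card V) univ X * (if ({u, v} : Finset V) ⊆ X then 1 else 0) =
      2 * (1 - k (e u) v) / D := by
  set c := ∑ w, a w * (k w u * k w v) with hc
  have hcD : c ≤ D := by
    rw [hc, ← hD u]
    refine Finset.sum_le_sum fun w _ => mul_le_mul_of_nonneg_left ?_ (ha w)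
    exact mul_le_of_le_one_right (h0 w u) (h1 w v)
  have hpos : 0 < 2 * D - c := by linarith
  set C : Finset V → ℝ := fun S => if S.card = 0 then 1 else if S.card = 1 then 1 / D else
    2 * (1 - k (e u) v) / D / (2 * D - c) with hC
  have hSS : ∀ A S, S ⊆ A → S ⊆ {u, v} →
      ∑ w, a w * ((1 : ℝ) ^ (RR e A w).card * C (S \ RR e A w) *
        ∏ v ∈ A, (if v ∈ S \ RR e A w then 1 - k w v else 1 + 0 * k w v)) =
      (∑ w, a w) * C S := by
    intro A S hS hg
    rw [SS_eq hae hke he C A S hS]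
    have one : ∀ x : V, C {x} * ∑ w, a w * ∏ v ∈ ({x} : Finset V), (1 - k w v) +
        ∑ y ∈ ({x} : Finset V), C (({x} : Finset V).erase y) *
          ∏ v ∈ ({x} : Finset V).erase y, (1 - k (e y) v) = (∑ w, a w) * C {x} := by
      intro x
      simp only [hC, prod_singleton, sum_singleton, erase_singleton, card_singleton, card_empty,
        prod_empty, mul_sub, mul_one, Finset.sum_sub_distrib, hD]
      simp
      field_simp
      ring
    by_cases hu : u ∈ S <;> by_cases hv : v ∈ S
    · have : S = {u, v} := Subset.antisymm hg (by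
        intro x hx; rcases mem_insert.1 hx with rfl | hx
        · exact hu
        · rw [mem_singleton.1 hx]; exact hv)
      subst this
      have e1 : ({u, v} : Finset V).erase u = {v} := by
        ext x; simp only [mem_erase, mem_insert, mem_singleton]
        exact ⟨fun h => h.2.resolve_left h.1, fun h => ⟨by rw [h]; exact huv.symm, Or.inr h⟩⟩
      have e2 : ({u, v} : Finset V).erase v = {u} := by
        ext x; simp only [mem_erase, mem_insert, mem_singleton]
        exact ⟨fun h => h.2.resolve_right h.1, fun h => ⟨by rw [h]; exact huv, Or.inl h⟩⟩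
      have e3 : ∑ w, a w * ((1 - k w u) * (1 - k w v)) = ∑ w, a w - 2 * D + c := by
        have : ∀ w, a w * ((1 - k w u) * (1 - k w v)) =
            a w - a w * k w u - a w * k w v + a w * (k w u * k w v) := fun w => by ring
        simp only [this, Finset.sum_add_distrib, Finset.sum_sub_distrib, hD, ← hc]
        ring
      simp only [Finset.sum_pair huv, Finset.prod_pair huv, e1, e2, e3, hC, card_pair huv,
        card_singleton, prod_singleton, hs v u]
      simp
      field_simp
      ring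
    · have : S = {u} := by
        ext x; simp only [mem_singleton]
        refine ⟨fun hx => ?_, fun h => h ▸ hu⟩
        rcases mem_insert.1 (hg hx) with h | h
        · exact h
        · exact absurd (mem_singleton.1 h ▸ hx) hv
      rw [this]; exact one u
    · have : S = {v} := by
        ext x; simp only [mem_singleton]
        refine ⟨fun hx => ?_, fun h => h ▸ hv⟩
        rcases mem_insert.1 (hg hx) with h | h
        · exact absurd (h ▸ hx) hu
        · exact mem_singleton.1 h
      rw [this]; exact one v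
    · have : S = ∅ := by
        rw [eq_empty_iff_forall_notMem]
        intro x hx
        rcases mem_insert.1 (hg hx) with h | h
        · exact hu (h ▸ hx)
        · exact hv (mem_singleton.1 h ▸ hx)
      subst this
      simp [mul_comm]
  have m := fun σ : ℝ => moment ha h0 h1 hae hke he hs σ 1 0 zero_le_one le_rfl C
    (fun S => S ⊆ {u, v}) (fun S S' h h' => h.trans h') (by simp [hC])
    (fun A S hS hg => by rw [hSS A S hS hg]) (Fintype.card V) univ (by simp) {u, v}
    (subset_univ _) le_rfl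
  have m1 := m 1
  have m2 := m (-1)
  simp only [add_zero, one_pow, one_mul] at m1 m2
  have m3 : ∑ X, nu a k e (Fintype.card V) univ X * (if ({u, v} : Finset V) ⊆ X then 1 else 0)
      = C {u, v} := by linarith
  rw [m3]
  simp only [hC, card_pair huv]
  simp
  field_simp

theorem tail_prob {a : W → ℝ} {k : W → V → ℝ} {e : V → W} (ha : ∀ w, 0 ≤ a w)
    (h0 : ∀ w v, 0 ≤ k w v) (h1 : ∀ w v, k w v ≤ 1) (hae : ∀ v, a (e v) = 1)
    (hke : ∀ v, k (e v) v = 1) (he : Function.Injective e) (hs : ∀ u v, k (e u) v = k (e v) u)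
    (D : ℝ) (hD0 : 0 < D) (hD : ∀ v, ∑ w, a w * k w v = D) (hcol : ∀ w, ∑ v, k w v ≤ D)
    (y : ℝ) (hy0 : 0 ≤ y) (hy1 : y + y ^ 2 ≤ 1) (S : Finset V) :
    (1 + y / D) ^ Fintype.card V * ∑ X, nu a k e (Fintype.card V) univ X *
      (if S ⊆ X then (1 - y - y ^ 2) ^ X.card else 0) ≤
      S.card.factorial * ((1 + y + y ^ 2) / D) ^ S.card := by
  set t := 1 - y - y ^ 2 with ht
  set Y := 1 + y + y ^ 2 with hY
  set γ := y / D with hγ
  have ht0 : 0 ≤ t := by linarith
  have ht1 : t ≤ 1 := by nlinarith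
  have hγ0 : 0 ≤ γ := by positivity
  have hY0 : 0 ≤ Y := by positivity
  set C : Finset V → ℝ := fun S => S.card.factorial * (Y / D) ^ S.card with hC
  have hC0 : ∀ S, 0 ≤ C S := fun S => by simp only [hC]; positivity
  have m := moment ha h0 h1 hae hke he hs 1 t γ ht0 hγ0 C (fun _ => True) (fun _ _ _ _ => trivial)
    (by simp [hC]) ?_ (Fintype.card V) univ (by simp) S (subset_univ _) trivial
  · simpa only [one_mul, card_univ] using m
  intro A S hS _
  simp only [one_mul]
  set P : W → ℝ := fun w => ∏ v ∈ A, (1 + γ * k w v) with hP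
  have hf0 : ∀ w v, 1 ≤ 1 + γ * k w v := fun w v => by nlinarith [mul_nonneg hγ0 (h0 w v)]
  have hP1 : ∀ w, 1 ≤ P w := fun w => Finset.one_le_prod (fun v _ => hf0 w v)
  have hP2 : ∀ w, P w ≤ 1 + γ * (∑ v ∈ A, k w v) * (1 + y) ∧ P w ≤ Y := by
    intro w
    have b0 : 0 ≤ ∑ v ∈ A, k w v := Finset.sum_nonneg fun v _ => h0 w v
    have b1 : ∑ v ∈ A, k w v ≤ D := le_trans
      (Finset.sum_le_sum_of_subset_of_nonneg (subset_univ A) fun v _ _ => h0 w v) (hcol w)
    have b2 : γ * ∑ v ∈ A, k w v ≤ y := by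
      calc _ ≤ γ * D := mul_le_mul_of_nonneg_left b1 hγ0
        _ = y := by rw [hγ]; field_simp
    have b3 : 0 ≤ γ * ∑ v ∈ A, k w v := mul_nonneg hγ0 b0
    have b4 := Real.prod_one_add_le_exp_sum A (f := fun v => γ * k w v)
      (fun v => mul_nonneg hγ0 (h0 w v))
    rw [← Finset.mul_sum] at b4
    have b5 := Real.abs_exp_sub_one_sub_id_le (x := γ * ∑ v ∈ A, k w v)
      (by rw [abs_of_nonneg b3]; nlinarith)
    have b6 := (abs_le.1 b5).2
    have b7 : P w ≤ 1 + γ * (∑ v ∈ A, k w v) * (1 + y) := by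
      simp only [hP]; nlinarith
    exact ⟨b7, by nlinarith⟩
  have hR : ∀ w, t ^ (RR e A w).card = 1 - (1 - t) * ∑ x ∈ A, (if e x = w then (1 : ℝ) else 0) := by
    intro w
    rcases RR_cases he A A le_rfl w with ⟨x, -, -, h2, -, h3⟩ | ⟨h2, h3⟩
    · rw [h2, h3]; simp
    · have : RR e A w = ∅ := by
        rw [Finset.sdiff_eq_self_iff_disjoint] at h2
        exact (Finset.disjoint_self_iff_empty _).1
          (Finset.disjoint_of_subset_left (filter_subset _ _) h2)
      rw [this, h3]; simp
  have hτ1 : ∀ w, t ≤ t ^ (RR e A w).card := by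
    intro w
    rw [hR]
    rcases RR_cases he A A le_rfl w with ⟨x, -, -, -, -, h3⟩ | ⟨-, h3⟩ <;> rw [h3] <;> linarith
  have hsum : ∑ w, a w * (t ^ (RR e A w).card * P w) ≤ ∑ w, a w := by
    have b1 : ∀ w, a w * (t ^ (RR e A w).card * P w) ≤ a w + γ * (1 + y) * ∑ v ∈ A, a w * k w v
        - (1 - t) * (a w * ∑ x ∈ A, (if e x = w then (1 : ℝ) else 0)) := by
      intro w
      rw [hR, ← Finset.mul_sum]
      have c0 : 0 ≤ ∑ x ∈ A, (if e x = w then (1 : ℝ) else 0) :=
        Finset.sum_nonneg fun x _ => by split_ifs <;> norm_num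
      have c1 := mul_le_mul_of_nonneg_left (hP1 w) (mul_nonneg (sub_nonneg.2 ht1) c0)
      have c2 := (hP2 w).1
      have c3 : (1 - (1 - t) * ∑ x ∈ A, (if e x = w then (1 : ℝ) else 0)) * P w ≤
          1 + γ * (1 + y) * (∑ v ∈ A, k w v) -
            (1 - t) * ∑ x ∈ A, (if e x = w then (1 : ℝ) else 0) := by nlinarith
      have := mul_le_mul_of_nonneg_left c3 (ha w)
      linarith
    refine (Finset.sum_le_sum fun w _ => b1 w).trans ?_
    rw [Finset.sum_sub_distrib, Finset.sum_add_distrib, ← Finset.mul_sum, ← Finset.mul_sum,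
      sum_pick hae, Finset.sum_comm]
    simp only [hD, sum_const, nsmul_eq_mul, mul_one]
    have : γ * (1 + y) * (A.card * D) = (1 - t) * A.card := by
      rw [hγ, ht]; field_simp; ring
    linarith
  have hle : ∀ w (S1 : Finset V),
      ∏ v ∈ A, (if v ∈ S1 then 1 - k w v else 1 + γ * k w v) ≤ P w := by
    intro w S1
    refine Finset.prod_le_prod (fun v _ => ?_) (fun v _ => ?_)
    · split_ifs
      · linarith [h1 w v]
      · linarith [hf0 w v]
    · split_ifs
      · linarith [hf0 w v, h0 w v]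
      · exact le_rfl
  rcases S.eq_empty_or_nonempty with rfl | ⟨u, hu⟩
  · simpa [hC, hP] using hsum
  have hle2 : ∀ w, ∏ v ∈ A, (if v ∈ S then 1 - k w v else 1 + γ * k w v) ≤ P w - k w u := by
    intro w
    have b1 : ∏ v ∈ A, (if v ∈ S then 1 - k w v else 1 + γ * k w v) ≤
        ∏ v ∈ A, ((if v ∈ ({u} : Finset V) then 1 - k w v else 1) * (1 + γ * k w v)) := by
      refine Finset.prod_le_prod (fun v _ => ?_) (fun v _ => ?_)
      · split_ifs
        · linarith [h1 w v]
        · linarith [hf0 w v]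
      · by_cases hv : v = u
        · subst hv
          simp only [hu, if_true, mem_singleton]
          exact le_mul_of_one_le_right (by linarith [h1 w v]) (hf0 w v)
        · simp only [mem_singleton, hv, if_false, one_mul]
          split_ifs
          · linarith [hf0 w v, h0 w v]
          · exact le_rfl
    rw [Finset.prod_mul_distrib, prod_restrict A {u} (by simpa using hS hu), prod_singleton] at b1
    have := mul_le_mul_of_nonneg_left (hP1 w) (h0 w u)
    simp only [hP] at this ⊢
    nlinarith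
  have b1 : ∀ w, a w * (t ^ (RR e A w).card * C (S \ RR e A w) *
        ∏ v ∈ A, (if v ∈ S \ RR e A w then 1 - k w v else 1 + γ * k w v)) ≤
      C S * (a w * (t ^ (RR e A w).card * P w)) - C S * t * (a w * k w u) +
        a w * ∑ x ∈ S, (if e x = w then t * Y * C (S.erase x) else 0) := by
    intro w
    have c0 := hτ1 w
    have c1 := hP1 w
    have c2 := h1 w u
    have c3 := h0 w u
    have : t ^ (RR e A w).card * C (S \ RR e A w) *
        ∏ v ∈ A, (if v ∈ S \ RR e A w then 1 - k w v else 1 + γ * k w v) ≤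
        C S * (t ^ (RR e A w).card * P w - t * k w u) +
          ∑ x ∈ S, (if e x = w then t * Y * C (S.erase x) else 0) := by
      rcases RR_cases he A S hS w with ⟨x, hx, -, h2, h3, h4⟩ | ⟨h3, h4⟩
      · rw [h4, h3, h2, card_singleton, pow_one]
        have d1 := mul_le_mul_of_nonneg_left ((hle w (S.erase x)).trans (hP2 w).2)
          (mul_nonneg ht0 (hC0 (S.erase x)))
        have d2 : 0 ≤ C S * (t * P w - t * k w u) :=
          mul_nonneg (hC0 S) (by nlinarith)
        linarith
      · rw [h4, h3]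
        have d1 := mul_le_mul_of_nonneg_left (hle2 w)
          (mul_nonneg (pow_nonneg ht0 (RR e A w).card) (hC0 S))
        have d2 := mul_le_mul_of_nonneg_left (mul_le_mul_of_nonneg_right c0 c3) (hC0 S)
        linarith
    have := mul_le_mul_of_nonneg_left this (ha w)
    linarith
  refine (Finset.sum_le_sum fun w _ => b1 w).trans ?_
  rw [Finset.sum_add_distrib, Finset.sum_sub_distrib, ← Finset.mul_sum, ← Finset.mul_sum,
    sum_pick hae, hD]
  have b2 : ∑ x ∈ S, t * Y * C (S.erase x) = C S * t * D := by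
    obtain ⟨j, hj⟩ : ∃ j, S.card = j + 1 := ⟨S.card - 1, by have := card_pos.2 ⟨u, hu⟩; omega⟩
    have : ∀ x ∈ S, t * Y * C (S.erase x) = t * Y * (j.factorial * (Y / D) ^ j) := by
      intro x hx
      simp only [hC]
      rw [card_erase_of_mem hx, hj]; rfl
    rw [Finset.sum_congr rfl this, Finset.sum_const, hj]
    simp only [hC, hj, Nat.factorial_succ, nsmul_eq_mul, pow_succ]
    push_cast
    field_simp
  have b3 := mul_le_mul_of_nonneg_left hsum (hC0 S)
  linarith

end Pool.Agent.P.MP_be5a37_co
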